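import Pool.Agent.Helper99.PC.Defs
import Pool.Agent.Helper99.TT.Trees

/-! PC-ArA: arithmetical relations, basic predicates on lists, nodes, pairs. -/

set_option autoImplicit false

noncomputable section

namespace Helper99.PC

open Helper99.TT Encodable
open Pool.Agent.Helper44.CL hiding TT
open Pool.Agent.Helper44.PC

universe u v

variable {α : Type u} {β : Type v} [Primcodable α] [Primcodable β]

theorem ar_prefix [DecidableEq β] {f g : α → List β} (hf : Primrec f) (hg : Primrec g) :
    Ar (fun _ u => f u <+: g u) := by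
  have h : Ar (fun (_ : ℕ → Set ℕ) (u : α) => ∃ l : List β, f u ++ l = g u) :=
    Ar.ex (R := fun (_ : ℕ → Set ℕ) (u : α) (l : List β) => f u ++ l = g u)
      (Ar.eq (Primrec.list_append.comp (hf.comp Primrec.fst) Primrec.snd)
        (hg.comp Primrec.fst))
  exact h.of_eq fun _ _ => Iff.rfl

theorem primrec_getD {f : α → List H} {g : α → ℕ} (hf : Primrec f) (hg : Primrec g) :
    Primrec (fun u => (f u).getD (g u) 0) :=
  (Primrec.list_getD (0 : H)).comp hf hg

private theorem ent_iff (x : Node) : ∀ (p : ℕ) (f : H), f ∈ ent x p ↔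
    ∃ (i : ℕ) (s : Step), x[i]? = some s ∧ plc (x.take i) ≤ p ∧
      p < plc (x.take i) + s.size ∧ f ∈ s.ent (p - plc (x.take i)) := by
  induction x with
  | nil =>
    intro p f
    constructor
    · intro h
      exact absurd h (Finset.notMem_empty f)
    · rintro ⟨i, s, h, -⟩
      simp at h
  | cons t x ih =>
    intro p f
    have hcons : ∀ i, plc ((t :: x).take (i + 1)) = t.size + plc (x.take i) := by
      intro i
      simp [plc]
    rw [ent]
    by_cases hp : p < t.size
    · rw [if_pos hp]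
      constructor
      · intro h
        exact ⟨0, t, rfl, Nat.zero_le _, by simpa [plc] using hp, by simpa [plc] using h⟩
      · rintro ⟨i, s, h1, h2, h3, h4⟩
        cases i with
        | zero =>
          have hs : t = s := by simpa using h1
          subst hs
          simpa [plc] using h4
        | succ i =>
          rw [hcons] at h2
          omega
    · rw [if_neg hp, ih]
      constructor
      · rintro ⟨i, s, h1, h2, h3, h4⟩
        refine ⟨i + 1, s, by simpa using h1, ?_, ?_, ?_⟩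
        · rw [hcons]
          omega
        · rw [hcons]
          omega
        · rw [hcons, ← Nat.sub_sub]
          exact h4
      · rintro ⟨i, s, h1, h2, h3, h4⟩
        cases i with
        | zero =>
          have hs : t = s := by simpa using h1
          subst hs
          exfalso
          apply hp
          simpa [plc] using h3
        | succ i =>
          rw [hcons] at h2 h3 h4
          refine ⟨i, s, by simpa using h1, by omega, by omega, ?_⟩
          rw [Nat.sub_sub]
          exact h4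

private theorem sent_iff (s : Step) (k : ℕ) (f : H) : f ∈ s.ent k ↔
    (k < s.u.length ∧ f = s.u.getD k 0) ∨ (¬ k < s.u.length ∧ (f = s.v ∨ f = s.w)) := by
  unfold Step.ent
  by_cases h : k < s.u.length
  · simp [h]
  · simp [h]

private theorem ar_sent {f : α → H} {s : α → Step} {k : α → ℕ} (hf : Primrec f) (hs : Primrec s)
    (hk : Primrec k) : Ar (fun _ u => f u ∈ (s u).ent (k u)) := by
  have hl : Primrec fun u => (s u).u.length := Primrec.list_length.comp (primrec_u.comp hs)
  have h := ((Ar.lt hk hl).and (Ar.eq hf (primrec_getD (primrec_u.comp hs) hk))).or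
    ((Ar.lt hk hl).not.and ((Ar.eq hf (primrec_v.comp hs)).or (Ar.eq hf (primrec_w.comp hs))))
  exact h.of_eq fun _ u => sent_iff _ _ _

/-- membership in the entry of a node -/
theorem ar_ent {f : α → H} {x : α → Node} {p : α → ℕ} (hf : Primrec f) (hx : Primrec x)
    (hp : Primrec p) : Ar (fun _ u => f u ∈ ent (x u) (p u)) := by
  have h1 : Primrec (fun q : (α × ℕ) × Step => (x q.1.1)[q.1.2]?) :=
    Primrec.list_getElem?.comp (hx.comp (Primrec.fst.comp Primrec.fst))
      (Primrec.snd.comp Primrec.fst)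
  have h2 : Primrec (fun q : (α × ℕ) × Step => plc ((x q.1.1).take q.1.2)) :=
    primrec_plc.comp (Primrec.list_take.comp (Primrec.snd.comp Primrec.fst)
      (hx.comp (Primrec.fst.comp Primrec.fst)))
  have h3 : Primrec (fun q : (α × ℕ) × Step => p q.1.1) :=
    hp.comp (Primrec.fst.comp Primrec.fst)
  have h4 : Primrec (fun q : (α × ℕ) × Step => f q.1.1) :=
    hf.comp (Primrec.fst.comp Primrec.fst)
  have h5 : Primrec (fun q : (α × ℕ) × Step => q.2) := Primrec.snd
  have h := Ar.ex (R := fun (_ : ℕ → Set ℕ) (u : α) (i : ℕ) => ∃ s : Step, (x u)[i]? = some s ∧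
      plc ((x u).take i) ≤ p u ∧ p u < plc ((x u).take i) + s.size ∧
      f u ∈ s.ent (p u - plc ((x u).take i)))
    (Ar.ex (R := fun (_ : ℕ → Set ℕ) (q : α × ℕ) (s : Step) => (x q.1)[q.2]? = some s ∧
      plc ((x q.1).take q.2) ≤ p q.1 ∧ p q.1 < plc ((x q.1).take q.2) + s.size ∧
      f q.1 ∈ s.ent (p q.1 - plc ((x q.1).take q.2)))
      ((Ar.eq h1 (Primrec.option_some.comp h5)).and ((Ar.le h2 h3).and
        ((Ar.lt h3 (Primrec.nat_add.comp h2 (primrec_size.comp h5))).and
          (ar_sent h4 h5 (Primrec.nat_sub.comp h3 h2))))))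
  exact h.of_eq fun _ u => ent_iff _ _ _

theorem ar_eqv {n : α → ℕ} {f g : α → H} (hn : Primrec n) (hf : Primrec f) (hg : Primrec g) :
    Ar (fun _ u => Eqv (n u) (f u) (g u)) := by
  have h := Ar.all (R := fun (_ : ℕ → Set ℕ) (u : α) (i : ℕ) => n u ≤ i → f u i = g u i)
    ((Ar.le (hn.comp Primrec.fst) Primrec.snd).imp
      (Ar.eq (primrec_digit.comp (hf.comp Primrec.fst) Primrec.snd)
        (primrec_digit.comp (hg.comp Primrec.fst) Primrec.snd)))
  exact h.of_eq fun _ u => Iff.rfl

theorem ar_pair {n : α → ℕ} {f g : α → H} (hn : Primrec n) (hf : Primrec f) (hg : Primrec g) :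
    Ar (fun _ u => IsPair (n u) (f u) (g u)) := by
  have h := (ar_eqv (Primrec.succ.comp hn) hf hg).and
    (Ar.lt (primrec_digit.comp hf hn) (primrec_digit.comp hg hn))
  exact h.of_eq fun _ u => Iff.rfl

/-- the shift of the digits -/
theorem ar_sh {n : α → ℕ} {f g : α → H} (hn : Primrec n) (hf : Primrec f) (hg : Primrec g) :
    Ar (fun _ u => sh (n u) (f u) = g u) := by
  have h := Ar.all (R := fun (_ : ℕ → Set ℕ) (u : α) (i : ℕ) => f u (i + n u) = g u i)
    (Ar.eq (primrec_digit.comp (hf.comp Primrec.fst)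
        (Primrec.nat_add.comp Primrec.snd (hn.comp Primrec.fst)))
      (primrec_digit.comp (hg.comp Primrec.fst) Primrec.snd))
  exact h.of_eq fun _ u => DFunLike.ext_iff

theorem ar_idx {x : α → Node} (hx : Primrec x) : Ar (fun _ u => Idx (x u)) := by
  have h5 : Primrec (fun q : (α × ℕ) × Step => q.2) := Primrec.snd
  have h := Ar.all (R := fun (_ : ℕ → Set ℕ) (u : α) (i : ℕ) => ∀ s : Step, (x u)[i]? = some s →
      IsPair i s.v s.w)
    (Ar.all (R := fun (_ : ℕ → Set ℕ) (q : α × ℕ) (s : Step) => (x q.1)[q.2]? = some s →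
      IsPair q.2 s.v s.w)
      ((Ar.eq (Primrec.list_getElem?.comp (hx.comp (Primrec.fst.comp Primrec.fst))
        (Primrec.snd.comp Primrec.fst)) (Primrec.option_some.comp h5)).imp
        (ar_pair (Primrec.snd.comp Primrec.fst) (primrec_v.comp h5) (primrec_w.comp h5))))
  exact h.of_eq fun _ u => Iff.rfl

theorem ar_piece {x : α → Node} {a : α → List H} (hx : Primrec x) (ha : Primrec a) :
    Ar (fun _ u => IsPiece (x u) (a u)) := by
  have h := (Ar.eq (Primrec.list_length.comp ha) (primrec_plc.comp hx)).and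
    (Ar.all (R := fun (_ : ℕ → Set ℕ) (u : α) (p : ℕ) => p < plc (x u) →
      (a u).getD p 0 ∈ ent (x u) p)
      ((Ar.lt Primrec.snd (primrec_plc.comp (hx.comp Primrec.fst))).imp
        (ar_ent (primrec_getD (ha.comp Primrec.fst) Primrec.snd) (hx.comp Primrec.fst)
          Primrec.snd)))
  exact h.of_eq fun _ u => Iff.rfl

theorem ar_path (i : ℕ) {k : α → ℕ} {y : α → List H} (hk : Primrec k) (hy : Primrec y) :
    Ar (fun ρ u => Path (decC (ρ i)).V (k u) (y u)) := by
  have h := Ar.all (R := fun (ρ : ℕ → Set ℕ) (u : α) (j : ℕ) => j < (y u).length →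
      (y u).getD j 0 ∈ (decC (ρ i)).V (k u + j))
    ((Ar.lt Primrec.snd (Primrec.list_length.comp (hy.comp Primrec.fst))).imp
      (ar_memV i (Primrec.nat_add.comp (hk.comp Primrec.fst) Primrec.snd)
        (primrec_getD (hy.comp Primrec.fst) Primrec.snd)))
  exact h.of_eq fun ρ u => path_iff

theorem ar_sstep (i : ℕ) {x : α → Node} {s : α → Step} (hx : Primrec x) (hs : Primrec s) :
    Ar (fun ρ u => SStep (decC (ρ i)).V (x u) (s u)) := by
  have hp := Primrec.nat_add.comp (primrec_plc.comp hx)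
    (Primrec.list_length.comp (primrec_u.comp hs))
  have h := (ar_path i (primrec_plc.comp hx) (primrec_u.comp hs)).and
    ((ar_memV i hp (primrec_v.comp hs)).and ((ar_memV i hp (primrec_w.comp hs)).and
      (ar_pair (Primrec.list_length.comp hx) (primrec_v.comp hs) (primrec_w.comp hs))))
  exact h.of_eq fun ρ u => Iff.rfl

theorem ar_sing (i : ℕ) {p : α → ℕ} {h : α → H} (hp : Primrec p) (hh : Primrec h) :
    Ar (fun ρ u => (decC (ρ i)).V (p u) = {h u}) := by
  have h1 := Ar.all (R := fun (ρ : ℕ → Set ℕ) (u : α) (v : H) => v ∈ (decC (ρ i)).V (p u) ↔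
      v = h u)
    ((ar_memV i (hp.comp Primrec.fst) Primrec.snd).iff
      (Ar.eq Primrec.snd (hh.comp Primrec.fst)))
  refine h1.of_eq fun ρ u => ?_
  rw [Finset.ext_iff]
  simp only [Finset.mem_singleton]

theorem ar_gap (i : ℕ) {x y : α → Node} (hx : Primrec x) (hy : Primrec y) :
    Ar (fun ρ u => GapExt (decC (ρ i)).V (x u) (y u)) := by
  have h := (ar_prefix hx hy).and (Ar.all (R := fun (ρ : ℕ → Set ℕ) (u : α) (p : ℕ) =>
      plc (x u) ≤ p → p < plc (y u) → ∃ z, (decC (ρ i)).V p = {z} ∧ z ∈ ent (y u) p)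
    ((Ar.le (primrec_plc.comp (hx.comp Primrec.fst)) Primrec.snd).imp
      ((Ar.lt Primrec.snd (primrec_plc.comp (hy.comp Primrec.fst))).imp
        (Ar.ex (R := fun (ρ : ℕ → Set ℕ) (q : α × ℕ) (z : H) =>
          (decC (ρ i)).V q.2 = {z} ∧ z ∈ ent (y q.1) q.2)
          ((ar_sing i (Primrec.snd.comp Primrec.fst) Primrec.snd).and
            (ar_ent Primrec.snd (hy.comp (Primrec.fst.comp Primrec.fst))
              (Primrec.snd.comp Primrec.fst)))))))
  exact h.of_eq fun ρ u => Iff.rfl

theorem ar_real (i : ℕ) {a b : α → List H} {x : α → Node} (ha : Primrec a) (hb : Primrec b)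
    (hx : Primrec x) : Ar (fun ρ u => IsReal (decC (ρ i)) (a u) (x u) (b u)) := by
  have h1 := ar_piece (α := α × Node) Primrec.snd (ha.comp Primrec.fst)
  have h2 := ar_prefix ha hb
  have h3 := ar_piece hx hb
  have h4 := Ar.all (R := fun (ρ : ℕ → Set ℕ) (q : α × Node) (p : ℕ) => plc q.2 ≤ p →
      p < plc (x q.1) → (b q.1).getD p 0 ∈ (decC (ρ i)).V p)
    ((Ar.le (primrec_plc.comp (Primrec.snd.comp Primrec.fst)) Primrec.snd).imp
      ((Ar.lt Primrec.snd (primrec_plc.comp (hx.comp (Primrec.fst.comp Primrec.fst)))).imp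
        (ar_memV i Primrec.snd
          (primrec_getD (hb.comp (Primrec.fst.comp Primrec.fst)) Primrec.snd))))
  have h5 := Ar.ex (R := fun (ρ : ℕ → Set ℕ) (u : α) (t : Node) => (decC (ρ i)).t = t ∧
      (IsPiece t (a u) ∧ ∀ p, plc t ≤ p → p < plc (x u) → (b u).getD p 0 ∈ (decC (ρ i)).V p))
    ((ar_t i Primrec.snd).and (h1.and h4))
  refine (h5.and (h2.and h3)).of_eq fun ρ u => ?_
  unfold IsReal
  constructor
  · rintro ⟨g1, g2, g3, g4⟩
    exact ⟨⟨_, rfl, g1, g4⟩, g2, g3⟩
  · rintro ⟨⟨t, rfl, g1, g4⟩, g2, g3⟩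
    exact ⟨g1, g2, g3, g4⟩

/-- real pieces over the piece `decP` of a code -/
theorem ar_real' (i : ℕ) {b : α → List H} {x : α → Node} (hb : Primrec b)
    (hx : Primrec x) : Ar (fun ρ u => IsReal (decC (ρ i)) (decP (ρ i)) (x u) (b u)) := by
  have h := Ar.ex (R := fun (ρ : ℕ → Set ℕ) (u : α) (a : List H) => decP (ρ i) = a ∧
      IsReal (decC (ρ i)) a (x u) (b u))
    ((ar_decP i Primrec.snd).and (ar_real i Primrec.snd (hb.comp Primrec.fst)
      (hx.comp Primrec.fst)))
  refine h.of_eq fun ρ u => ?_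
  constructor
  · intro g
    exact ⟨_, rfl, g⟩
  · rintro ⟨a, rfl, g⟩
    exact g

theorem ar_cardOne (i : ℕ) {p : α → ℕ} (hp : Primrec p) :
    Ar (fun ρ u => ((decC (ρ i)).V (p u)).card = 1) := by
  have h := Ar.ex (R := fun (ρ : ℕ → Set ℕ) (u : α) (z : H) => (decC (ρ i)).V (p u) = {z})
    (ar_sing i (hp.comp Primrec.fst) Primrec.snd)
  exact h.of_eq fun ρ u => Finset.card_eq_one

theorem ar_oneLt (i : ℕ) {p : α → ℕ} (hp : Primrec p) :
    Ar (fun ρ u => 1 < ((decC (ρ i)).V (p u)).card) := by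
  have h := Ar.ex (R := fun (ρ : ℕ → Set ℕ) (u : α) (z : H) => ∃ w : H,
      z ∈ (decC (ρ i)).V (p u) ∧ w ∈ (decC (ρ i)).V (p u) ∧ z ≠ w)
    (Ar.ex (R := fun (ρ : ℕ → Set ℕ) (q : α × H) (w : H) =>
      q.2 ∈ (decC (ρ i)).V (p q.1) ∧ w ∈ (decC (ρ i)).V (p q.1) ∧ q.2 ≠ w)
      ((ar_memV i (hp.comp (Primrec.fst.comp Primrec.fst)) (Primrec.snd.comp Primrec.fst)).and
        ((ar_memV i (hp.comp (Primrec.fst.comp Primrec.fst)) Primrec.snd).and
          (Ar.eq (Primrec.snd.comp Primrec.fst) Primrec.snd).not)))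
  exact h.of_eq fun ρ u => Finset.one_lt_card_iff

end Helper99.PC
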