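import Pool.Agent.Helper99.PC.ArA

/-! PC-ArB: large sets, the space `XX`, homogeneous trees. -/

set_option autoImplicit false

noncomputable section

namespace Helper99.PC

open Helper99.TT Encodable
open Pool.Agent.Helper44.CL hiding TT
open Pool.Agent.Helper44.PC

universe u v

variable {α : Type u} [Primcodable α]

/-- membership in lists -/
theorem arB_memL {β : Type v} [Primcodable β] [DecidableEq β] {f : α → β} {g : α → List β}
    (hf : Primrec f) (hg : Primrec g) : Ar (fun _ u => f u ∈ g u) := by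
  have h : Ar (fun (_ : ℕ → Set ℕ) (u : α) => ∃ i : ℕ, (g u)[i]? = some (f u)) :=
    Ar.ex (R := fun _ u (i : ℕ) => (g u)[i]? = some (f u))
      (Ar.eq (Primrec.list_getElem?.comp (hg.comp Primrec.fst) Primrec.snd)
        (Primrec.option_some.comp (hf.comp Primrec.fst)))
  exact h.of_eq fun _ u => List.mem_iff_getElem?

theorem arB_nodup {l : α → List ℕ} (hl : Primrec l) : Ar (fun _ u => (l u).Nodup) := by
  have h : Ar (fun (_ : ℕ → Set ℕ) (u : α) => ∀ i j : ℕ, i < j → j < (l u).length →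
      ¬ (l u)[i]? = (l u)[j]?) := by
    refine Ar.all (R := fun _ u (i : ℕ) => ∀ j : ℕ, i < j → j < (l u).length →
      ¬ (l u)[i]? = (l u)[j]?) ?_
    refine Ar.all (R := fun _ (x : α × ℕ) (j : ℕ) => x.2 < j → j < (l x.1).length →
      ¬ (l x.1)[x.2]? = (l x.1)[j]?) ?_
    have hl' : Primrec (fun x : (α × ℕ) × ℕ => l x.1.1) :=
      hl.comp (Primrec.fst.comp Primrec.fst)
    have hi : Primrec (fun x : (α × ℕ) × ℕ => x.1.2) := Primrec.snd.comp Primrec.fst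
    have hj : Primrec (fun x : (α × ℕ) × ℕ => x.2) := Primrec.snd
    exact (Ar.lt hi hj).imp ((Ar.lt hj (Primrec.list_length.comp hl')).imp
      (Ar.eq (Primrec.list_getElem?.comp hl' hi) (Primrec.list_getElem?.comp hl' hj)).not)
  exact h.of_eq fun _ u => List.nodup_iff_getElem?_ne_getElem?

theorem arB_many {N : α → ℕ} (hN : Primrec N) {P : (ℕ → Set ℕ) → α → ℕ → Prop}
    (hP : Ar (fun ρ (x : α × ℕ) => P ρ x.1 x.2)) :
    Ar (fun ρ u => ∃ l : List ℕ, l.length = N u ∧ l.Nodup ∧ ∀ k ∈ l, P ρ u k) := by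
  refine Ar.ex (R := fun ρ u (l : List ℕ) => l.length = N u ∧ l.Nodup ∧ ∀ k ∈ l, P ρ u k) ?_
  refine (Ar.eq (Primrec.list_length.comp Primrec.snd) (hN.comp Primrec.fst)).and
    ((arB_nodup Primrec.snd).and ?_)
  refine Ar.all (R := fun ρ (x : α × List ℕ) (k : ℕ) => k ∈ x.2 → P ρ x.1 k) ?_
  exact (arB_memL Primrec.snd (Primrec.snd.comp Primrec.fst)).imp
    (hP.comp (f := fun x : (α × List ℕ) × ℕ => (x.1.1, x.2))
      ((Primrec.fst.comp Primrec.fst).pair Primrec.snd))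

/-- witnesses of trees -/
def ClB (M : ℕ) (V : Finset H) (L : List (ℕ × H)) : Prop :=
  ∀ x ∈ L, (x.1 = 0 → x.2 ∈ V) ∧ ∀ j, x.1 = j + 1 → ∃ l : List ℕ, l.length = M ∧ l.Nodup ∧
    ∀ c ∈ l, ∃ h : H, (j, h) ∈ L ∧ h j = c ∧ ∀ k, k ≠ j → h k = x.2 k

theorem eq_updB {e h : H} {j c : ℕ} (h1 : h j = c) (h2 : ∀ k, k ≠ j → h k = e k) :
    h = Pool.Agent.Helper98.T.upd e j c := by
  ext k
  by_cases hk : k = j
  · subst hk
    rw [Pool.Agent.Helper98.T.upd_same, h1]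
  · rw [Pool.Agent.Helper98.T.upd_ne _ _ hk, h2 k hk]

theorem exists_clB {M : ℕ} {V : Finset H} : ∀ {i : ℕ} {e : H}, Lg i M V e →
    ∃ L, ClB M V L ∧ (i, e) ∈ L := by
  intro i
  induction i with
  | zero =>
    intro e h
    refine ⟨[(0, e)], ?_, List.mem_singleton_self _⟩
    intro x hx
    rw [List.mem_singleton] at hx
    subst hx
    exact ⟨fun _ => h, fun j hj => absurd hj (Nat.succ_ne_zero j).symm⟩
  | succ i ih =>
    rintro e ⟨C, hC, h⟩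
    have h2 : ∀ c, ∃ L : List (ℕ × H), c ∈ C → ClB M V L ∧
        (i, Pool.Agent.Helper98.T.upd e i c) ∈ L := by
      intro c
      by_cases hc : c ∈ C
      · obtain ⟨L, h1, h2⟩ := ih (h c hc)
        exact ⟨L, fun _ => ⟨h1, h2⟩⟩
      · exact ⟨[], fun h => absurd h hc⟩
    choose Lf hLf using h2
    obtain ⟨D, hDC, hD⟩ := Finset.exists_subset_card_eq hC
    refine ⟨(i + 1, e) :: D.toList.flatMap Lf, ?_, List.mem_cons_self⟩
    have hmem : ∀ c ∈ D, ∀ x ∈ Lf c, x ∈ (i + 1, e) :: D.toList.flatMap Lf := by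
      intro c hc x hx
      exact List.mem_cons_of_mem _ (List.mem_flatMap.2 ⟨c, Finset.mem_toList.2 hc, hx⟩)
    intro x hx
    rcases List.mem_cons.1 hx with rfl | hx
    · refine ⟨fun h => absurd h (Nat.succ_ne_zero i), fun j hj => ?_⟩
      obtain rfl : i = j := Nat.succ_injective hj
      refine ⟨D.toList, by rw [Finset.length_toList, hD], Finset.nodup_toList D, fun c hc => ?_⟩
      rw [Finset.mem_toList] at hc
      exact ⟨_, hmem c hc _ (hLf c (hDC hc)).2, Pool.Agent.Helper98.T.upd_same _ _ _,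
        fun k hk => Pool.Agent.Helper98.T.upd_ne _ _ hk⟩
    · obtain ⟨c, hc, hx⟩ := List.mem_flatMap.1 hx
      rw [Finset.mem_toList] at hc
      obtain ⟨h1, h2⟩ := (hLf c (hDC hc)).1 x hx
      refine ⟨h1, fun j hj => ?_⟩
      obtain ⟨l, hl1, hl2, hl3⟩ := h2 j hj
      refine ⟨l, hl1, hl2, fun k hk => ?_⟩
      obtain ⟨h', ha, hb, hc'⟩ := hl3 k hk
      exact ⟨h', hmem c hc _ ha, hb, hc'⟩

theorem ClB.lg {M : ℕ} {V : Finset H} {L : List (ℕ × H)} (hL : ClB M V L) :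
    ∀ {i : ℕ} {e : H}, (i, e) ∈ L → Lg i M V e := by
  intro i
  induction i with
  | zero => exact fun h => (hL _ h).1 rfl
  | succ i ih =>
    intro e h
    obtain ⟨l, h1, h2, h3⟩ := (hL _ h).2 i rfl
    refine ⟨l.toFinset, by rw [List.toFinset_card_of_nodup h2, h1], fun c hc => ?_⟩
    obtain ⟨h', ha, hb, hc'⟩ := h3 c (List.mem_toFinset.1 hc)
    have := ih ha
    rwa [eq_updB hb hc'] at this

theorem large_iff_clB {M : ℕ} {V : Finset H} :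
    Large M V ↔ ∃ e : H, ∃ L : List (ℕ × H), ClB M V L ∧ (M, e) ∈ L :=
  ⟨fun ⟨e, h⟩ => ⟨e, exists_clB h⟩, fun ⟨e, _, h1, h2⟩ => ⟨e, h1.lg h2⟩⟩

theorem ar_clB (i : ℕ) {m p : α → ℕ} {L : α → List (ℕ × H)} (hm : Primrec m) (hp : Primrec p)
    (hL : Primrec L) : Ar (fun ρ u => ClB (m u) ((decC (ρ i)).V (p u)) (L u)) := by
  refine Ar.all (R := fun ρ u (x : ℕ × H) => x ∈ L u → (x.1 = 0 → x.2 ∈ (decC (ρ i)).V (p u)) ∧
    ∀ j, x.1 = j + 1 → ∃ l : List ℕ, l.length = m u ∧ l.Nodup ∧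
    ∀ c ∈ l, ∃ h : H, (j, h) ∈ L u ∧ h j = c ∧ ∀ k, k ≠ j → h k = x.2 k) ?_
  refine (arB_memL Primrec.snd (hL.comp Primrec.fst)).imp ?_
  refine Ar.and (Ar.imp (Ar.eq (Primrec.fst.comp Primrec.snd) (Primrec.const 0))
    (ar_memV i (hp.comp Primrec.fst) (Primrec.snd.comp Primrec.snd))) ?_
  refine Ar.all (R := fun ρ (y : α × (ℕ × H)) (j : ℕ) => y.2.1 = j + 1 →
    ∃ l : List ℕ, l.length = m y.1 ∧ l.Nodup ∧
    ∀ c ∈ l, ∃ h : H, (j, h) ∈ L y.1 ∧ h j = c ∧ ∀ k, k ≠ j → h k = y.2.2 k) ?_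
  refine Ar.imp (Ar.eq (Primrec.fst.comp (Primrec.snd.comp Primrec.fst))
    (Primrec.succ.comp Primrec.snd)) ?_
  refine arB_many (N := fun y : (α × (ℕ × H)) × ℕ => m y.1.1)
    (P := fun _ (y : (α × (ℕ × H)) × ℕ) (c : ℕ) => ∃ h : H, (y.2, h) ∈ L y.1.1 ∧ h y.2 = c ∧
      ∀ k, k ≠ y.2 → h k = y.1.2.2 k) (hm.comp (Primrec.fst.comp Primrec.fst)) ?_
  refine Ar.ex (R := fun _ (y : ((α × (ℕ × H)) × ℕ) × ℕ) (h : H) => (y.1.2, h) ∈ L y.1.1.1 ∧
    h y.1.2 = y.2 ∧ ∀ k, k ≠ y.1.2 → h k = y.1.1.2.2 k) ?_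
  have hj : Primrec (fun y : (((α × (ℕ × H)) × ℕ) × ℕ) × H => y.1.1.2) :=
    Primrec.snd.comp (Primrec.fst.comp Primrec.fst)
  have hh : Primrec (fun y : (((α × (ℕ × H)) × ℕ) × ℕ) × H => y.2) := Primrec.snd
  have hc : Primrec (fun y : (((α × (ℕ × H)) × ℕ) × ℕ) × H => y.1.2) :=
    Primrec.snd.comp Primrec.fst
  have hu : Primrec (fun y : (((α × (ℕ × H)) × ℕ) × ℕ) × H => y.1.1.1.1) :=
    Primrec.fst.comp (Primrec.fst.comp (Primrec.fst.comp Primrec.fst))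
  have hx : Primrec (fun y : (((α × (ℕ × H)) × ℕ) × ℕ) × H => y.1.1.1.2.2) :=
    Primrec.snd.comp (Primrec.snd.comp (Primrec.fst.comp (Primrec.fst.comp Primrec.fst)))
  refine (arB_memL (hj.pair hh) (hL.comp hu)).and
    ((Ar.eq (primrec_digit.comp hh hj) hc).and ?_)
  refine Ar.all (R := fun _ (y : (((α × (ℕ × H)) × ℕ) × ℕ) × H) (k : ℕ) => k ≠ y.1.1.2 →
    y.2 k = y.1.1.1.2.2 k) ?_
  exact ((Ar.eq Primrec.snd (hj.comp Primrec.fst)).not).imp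
    (Ar.eq (primrec_digit.comp (hh.comp Primrec.fst) Primrec.snd)
      (primrec_digit.comp (hx.comp Primrec.fst) Primrec.snd))

theorem ar_large (i : ℕ) {m p : α → ℕ} (hm : Primrec m) (hp : Primrec p) :
    Ar (fun ρ u => Large (m u) ((decC (ρ i)).V (p u))) := by
  have h : Ar (fun ρ u => ∃ e : H, ∃ L : List (ℕ × H), ClB (m u) ((decC (ρ i)).V (p u)) L ∧
      (m u, e) ∈ L) := by
    refine Ar.ex (R := fun ρ u (e : H) => ∃ L : List (ℕ × H),
      ClB (m u) ((decC (ρ i)).V (p u)) L ∧ (m u, e) ∈ L) ?_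
    refine Ar.ex (R := fun ρ (x : α × H) (L : List (ℕ × H)) =>
      ClB (m x.1) ((decC (ρ i)).V (p x.1)) L ∧ (m x.1, x.2) ∈ L) ?_
    have hu : Primrec (fun x : (α × H) × List (ℕ × H) => x.1.1) := Primrec.fst.comp Primrec.fst
    exact (ar_clB i (hm.comp hu) (hp.comp hu) Primrec.snd).and
      (arB_memL ((hm.comp hu).pair (Primrec.snd.comp Primrec.fst)) Primrec.snd)
  exact h.of_eq fun ρ u => large_iff_clB

theorem ar_isX (i : ℕ) : Ar (fun ρ (_ : α) => IsX (decC (ρ i)).V) := by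
  have h1 : Ar (fun ρ (_ : α) => ∀ p : ℕ, ∃ h : H, h ∈ (decC (ρ i)).V p) := by
    refine Ar.all (R := fun ρ (_ : α) (p : ℕ) => ∃ h : H, h ∈ (decC (ρ i)).V p) ?_
    refine Ar.ex (R := fun ρ (x : α × ℕ) (h : H) => h ∈ (decC (ρ i)).V x.2) ?_
    exact ar_memV i (Primrec.snd.comp Primrec.fst) Primrec.snd
  have h2 : Ar (fun ρ (_ : α) => ∀ M N : ℕ, ∃ p : ℕ, N ≤ p ∧ Large M ((decC (ρ i)).V p)) := by
    refine Ar.all (R := fun ρ (_ : α) (M : ℕ) => ∀ N : ℕ, ∃ p : ℕ, N ≤ p ∧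
      Large M ((decC (ρ i)).V p)) ?_
    refine Ar.all (R := fun ρ (x : α × ℕ) (N : ℕ) => ∃ p : ℕ, N ≤ p ∧
      Large x.2 ((decC (ρ i)).V p)) ?_
    refine Ar.ex (R := fun ρ (x : (α × ℕ) × ℕ) (p : ℕ) => x.2 ≤ p ∧
      Large x.1.2 ((decC (ρ i)).V p)) ?_
    exact (Ar.le (Primrec.snd.comp Primrec.fst) Primrec.snd).and
      (ar_large i (Primrec.snd.comp (Primrec.fst.comp Primrec.fst)) Primrec.snd)
  exact (h1.and h2).of_eq fun ρ _ => Iff.rfl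

theorem ar_subX (i j : ℕ) {k : α → ℕ} (hk : Primrec k) :
    Ar (fun ρ u => SubX (k u) (decC (ρ i)).V (decC (ρ j)).V) := by
  have h : Ar (fun ρ u => ∀ (p : ℕ), k u ≤ p → ∀ h : H, h ∈ (decC (ρ i)).V p →
      h ∈ (decC (ρ j)).V p) := by
    refine Ar.all (R := fun ρ u (p : ℕ) => k u ≤ p → ∀ h : H, h ∈ (decC (ρ i)).V p →
      h ∈ (decC (ρ j)).V p) ?_
    refine (Ar.le (hk.comp Primrec.fst) Primrec.snd).imp ?_
    refine Ar.all (R := fun ρ (x : α × ℕ) (h : H) => h ∈ (decC (ρ i)).V x.2 →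
      h ∈ (decC (ρ j)).V x.2) ?_
    exact (ar_memV i (Primrec.snd.comp Primrec.fst) Primrec.snd).imp
      (ar_memV j (Primrec.snd.comp Primrec.fst) Primrec.snd)
  exact h.of_eq fun ρ u => Iff.rfl

theorem ar_homT (i : ℕ) {m p : α → ℕ} (hm : Primrec m) (hp : Primrec p) :
    Ar (fun ρ u => HomT (m u) ((decC (ρ i)).V (p u))) := by
  have h1 : Ar (fun ρ u => ∀ h : H, h ∈ (decC (ρ i)).V (p u) → ∀ h' : H,
      h' ∈ (decC (ρ i)).V (p u) → Eqv (m u) h h') := by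
    refine Ar.all (R := fun ρ u (h : H) => h ∈ (decC (ρ i)).V (p u) → ∀ h' : H,
      h' ∈ (decC (ρ i)).V (p u) → Eqv (m u) h h') ?_
    refine (ar_memV i (hp.comp Primrec.fst) Primrec.snd).imp ?_
    refine Ar.all (R := fun ρ (x : α × H) (h' : H) =>
      h' ∈ (decC (ρ i)).V (p x.1) → Eqv (m x.1) x.2 h') ?_
    exact (ar_memV i (hp.comp (Primrec.fst.comp Primrec.fst)) Primrec.snd).imp
      (ar_eqv (hm.comp (Primrec.fst.comp Primrec.fst)) (Primrec.snd.comp Primrec.fst)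
        Primrec.snd)
  have h2 : Ar (fun ρ u => ∀ h : H, h ∈ (decC (ρ i)).V (p u) → ∀ j : ℕ, j < m u →
      ∃ l : List ℕ, l.length = m u ∧ l.Nodup ∧
      ∀ k ∈ l, ∃ h' : H, h' ∈ (decC (ρ i)).V (p u) ∧ Eqv (j + 1) h' h ∧ h' j = k) := by
    refine Ar.all (R := fun ρ u (h : H) => h ∈ (decC (ρ i)).V (p u) → ∀ j : ℕ, j < m u →
      ∃ l : List ℕ, l.length = m u ∧ l.Nodup ∧
      ∀ k ∈ l, ∃ h' : H, h' ∈ (decC (ρ i)).V (p u) ∧ Eqv (j + 1) h' h ∧ h' j = k) ?_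
    refine (ar_memV i (hp.comp Primrec.fst) Primrec.snd).imp ?_
    refine Ar.all (R := fun ρ (x : α × H) (j : ℕ) => j < m x.1 →
      ∃ l : List ℕ, l.length = m x.1 ∧ l.Nodup ∧
      ∀ k ∈ l, ∃ h' : H, h' ∈ (decC (ρ i)).V (p x.1) ∧ Eqv (j + 1) h' x.2 ∧ h' j = k) ?_
    refine (Ar.lt Primrec.snd (hm.comp (Primrec.fst.comp Primrec.fst))).imp ?_
    refine arB_many (N := fun x : (α × H) × ℕ => m x.1.1)
      (P := fun ρ (x : (α × H) × ℕ) (k : ℕ) => ∃ h' : H, h' ∈ (decC (ρ i)).V (p x.1.1) ∧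
        Eqv (x.2 + 1) h' x.1.2 ∧ h' x.2 = k) (hm.comp (Primrec.fst.comp Primrec.fst)) ?_
    refine Ar.ex (R := fun ρ (x : ((α × H) × ℕ) × ℕ) (h' : H) =>
      h' ∈ (decC (ρ i)).V (p x.1.1.1) ∧ Eqv (x.1.2 + 1) h' x.1.1.2 ∧ h' x.1.2 = x.2) ?_
    have hj : Primrec (fun x : (((α × H) × ℕ) × ℕ) × H => x.1.1.2) :=
      Primrec.snd.comp (Primrec.fst.comp Primrec.fst)
    have hu : Primrec (fun x : (((α × H) × ℕ) × ℕ) × H => x.1.1.1.1) :=
      Primrec.fst.comp (Primrec.fst.comp (Primrec.fst.comp Primrec.fst))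
    have hh : Primrec (fun x : (((α × H) × ℕ) × ℕ) × H => x.1.1.1.2) :=
      Primrec.snd.comp (Primrec.fst.comp (Primrec.fst.comp Primrec.fst))
    exact (ar_memV i (hp.comp hu) Primrec.snd).and ((ar_eqv (Primrec.succ.comp hj) Primrec.snd
      hh).and (Ar.eq (primrec_digit.comp Primrec.snd hj) (Primrec.snd.comp Primrec.fst)))
  exact (h1.and h2).of_eq fun ρ u => Iff.rfl

theorem ar_thin (i : ℕ) {k : α → ℕ} (hk : Primrec k) :
    Ar (fun ρ u => Thin (decC (ρ i)).V (k u)) := by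
  refine Ar.all (R := fun ρ u (p : ℕ) => k u ≤ p → ∃ N, HomT N ((decC (ρ i)).V p)) ?_
  refine (Ar.le (hk.comp Primrec.fst) Primrec.snd).imp ?_
  refine Ar.ex (R := fun ρ (x : α × ℕ) (N : ℕ) => HomT N ((decC (ρ i)).V x.2)) ?_
  exact ar_homT i Primrec.snd (Primrec.snd.comp Primrec.fst)

end Helper99.PC
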