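import Pool.Agent.Helper99.PC.ArB

/-! PC-ArC: good conditions and the orders. -/

set_option autoImplicit false

noncomputable section

namespace Helper99.PC

open Helper99.TT Encodable
open Pool.Agent.Helper44.CL hiding TT
open Pool.Agent.Helper44.PC

universe u

variable {α : Type u} [Primcodable α]

/-- substitution of the stem of a condition -/
private theorem ar_subT (i : ℕ) {R : (ℕ → Set ℕ) → α → Node → Prop}
    (h : Ar (fun ρ (p : α × Node) => R ρ p.1 p.2)) : Ar (fun ρ u => R ρ u (decC (ρ i)).t) := by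
  have h1 := Ar.ex (R := fun (ρ : ℕ → Set ℕ) (u : α) (t : Node) => (decC (ρ i)).t = t ∧ R ρ u t)
    ((ar_t i Primrec.snd).and h)
  refine h1.of_eq fun ρ u => ?_
  constructor
  · intro g
    exact ⟨_, rfl, g⟩
  · rintro ⟨t, rfl, g⟩
    exact g

/-- substitution of the piece -/
private theorem ar_subP (i : ℕ) {R : (ℕ → Set ℕ) → α → List H → Prop}
    (h : Ar (fun ρ (p : α × List H) => R ρ p.1 p.2)) : Ar (fun ρ u => R ρ u (decP (ρ i))) := by
  have h1 := Ar.ex (R := fun (ρ : ℕ → Set ℕ) (u : α) (a : List H) => decP (ρ i) = a ∧ R ρ u a)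
    ((ar_decP i Primrec.snd).and h)
  refine h1.of_eq fun ρ u => ?_
  constructor
  · intro g
    exact ⟨_, rfl, g⟩
  · rintro ⟨t, rfl, g⟩
    exact g

private theorem primrec_snoc {f : α → Node} {g : α → Step} (hf : Primrec f) (hg : Primrec g) :
    Primrec (fun u => f u ++ [g u]) :=
  Primrec.list_append.comp hf (Primrec.list_cons.comp hg (Primrec.const []))

theorem ar_good (i : ℕ) : Ar (fun ρ (_ : α) => Good (decC (ρ i))) := by
  have hX := ar_isX (α := α) i
  have hstem : Ar (fun ρ (_ : α) => (decC (ρ i)).t ∈ (decC (ρ i)).F) :=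
    ar_subT i (R := fun ρ _ t => t ∈ (decC (ρ i)).F) (ar_memF i Primrec.snd)
  have habove : Ar (fun ρ (_ : α) => ∀ x : Node, x ∈ (decC (ρ i)).F → (decC (ρ i)).t <+: x) :=
    ar_subT i (R := fun ρ _ t => ∀ x : Node, x ∈ (decC (ρ i)).F → t <+: x)
      (Ar.all (R := fun ρ (p : α × Node) (x : Node) => x ∈ (decC (ρ i)).F → p.2 <+: x)
        ((ar_memF i Primrec.snd).imp (ar_prefix (Primrec.snd.comp Primrec.fst) Primrec.snd)))
  have hidx : Ar (fun ρ (_ : α) => ∀ x : Node, x ∈ (decC (ρ i)).F → Idx x) :=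
    Ar.all (R := fun ρ (_ : α) (x : Node) => x ∈ (decC (ρ i)).F → Idx x)
      ((ar_memF i Primrec.snd).imp (ar_idx Primrec.snd))
  have hsucc : Ar (fun ρ (_ : α) => ∀ x : Node, x ∈ (decC (ρ i)).F → ∀ s : Step,
      SStep (decC (ρ i)).V x s → ∃ y : Node, y ∈ (decC (ρ i)).F ∧
        (GapExt (decC (ρ i)).V (x ++ [s]) y ∧
          ∀ z : Node, z ∈ (decC (ρ i)).F → ((x ++ [s]) <+: z → y <+: z))) := by
    refine Ar.all (R := fun ρ (_ : α) (x : Node) => x ∈ (decC (ρ i)).F → ∀ s : Step,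
      SStep (decC (ρ i)).V x s → ∃ y : Node, y ∈ (decC (ρ i)).F ∧
        (GapExt (decC (ρ i)).V (x ++ [s]) y ∧
          ∀ z : Node, z ∈ (decC (ρ i)).F → ((x ++ [s]) <+: z → y <+: z))) ?_
    refine (ar_memF i Primrec.snd).imp ?_
    refine Ar.all (R := fun ρ (p : α × Node) (s : Step) =>
      SStep (decC (ρ i)).V p.2 s → ∃ y : Node, y ∈ (decC (ρ i)).F ∧
        (GapExt (decC (ρ i)).V (p.2 ++ [s]) y ∧
          ∀ z : Node, z ∈ (decC (ρ i)).F → ((p.2 ++ [s]) <+: z → y <+: z))) ?_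
    refine (ar_sstep i (Primrec.snd.comp Primrec.fst) Primrec.snd).imp ?_
    refine Ar.ex (R := fun ρ (p : (α × Node) × Step) (y : Node) => y ∈ (decC (ρ i)).F ∧
        (GapExt (decC (ρ i)).V (p.1.2 ++ [p.2]) y ∧
          ∀ z : Node, z ∈ (decC (ρ i)).F → ((p.1.2 ++ [p.2]) <+: z → y <+: z))) ?_
    have hx1 : Primrec (fun q : ((α × Node) × Step) × Node => q.1.1.2 ++ [q.1.2]) :=
      primrec_snoc (Primrec.snd.comp (Primrec.fst.comp Primrec.fst))
        (Primrec.snd.comp Primrec.fst)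
    refine (ar_memF i Primrec.snd).and ((ar_gap i hx1 Primrec.snd).and ?_)
    refine Ar.all (R := fun ρ (q : ((α × Node) × Step) × Node) (z : Node) =>
      z ∈ (decC (ρ i)).F → ((q.1.1.2 ++ [q.1.2]) <+: z → q.2 <+: z)) ?_
    exact (ar_memF i Primrec.snd).imp ((ar_prefix (hx1.comp Primrec.fst) Primrec.snd).imp
      (ar_prefix (Primrec.snd.comp Primrec.fst) Primrec.snd))
  have hpred : Ar (fun ρ (_ : α) => ∀ y : Node, y ∈ (decC (ρ i)).F → (y ≠ (decC (ρ i)).t →
      ∃ x : Node, x ∈ (decC (ρ i)).F ∧ ∃ s : Step, SStep (decC (ρ i)).V x s ∧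
        (GapExt (decC (ρ i)).V (x ++ [s]) y ∧
          ∀ z : Node, z ∈ (decC (ρ i)).F → (z <+: y → (z = y ∨ z <+: x))))) := by
    refine ar_subT i (R := fun ρ (_ : α) t => ∀ y : Node, y ∈ (decC (ρ i)).F → (y ≠ t →
      ∃ x : Node, x ∈ (decC (ρ i)).F ∧ ∃ s : Step, SStep (decC (ρ i)).V x s ∧
        (GapExt (decC (ρ i)).V (x ++ [s]) y ∧
          ∀ z : Node, z ∈ (decC (ρ i)).F → (z <+: y → (z = y ∨ z <+: x))))) ?_
    refine Ar.all (R := fun ρ (p : α × Node) (y : Node) => y ∈ (decC (ρ i)).F → (y ≠ p.2 →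
      ∃ x : Node, x ∈ (decC (ρ i)).F ∧ ∃ s : Step, SStep (decC (ρ i)).V x s ∧
        (GapExt (decC (ρ i)).V (x ++ [s]) y ∧
          ∀ z : Node, z ∈ (decC (ρ i)).F → (z <+: y → (z = y ∨ z <+: x))))) ?_
    refine (ar_memF i Primrec.snd).imp
      ((Ar.eq Primrec.snd (Primrec.snd.comp Primrec.fst)).not.imp ?_)
    refine Ar.ex (R := fun ρ (p : (α × Node) × Node) (x : Node) =>
      x ∈ (decC (ρ i)).F ∧ ∃ s : Step, SStep (decC (ρ i)).V x s ∧
        (GapExt (decC (ρ i)).V (x ++ [s]) p.2 ∧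
          ∀ z : Node, z ∈ (decC (ρ i)).F → (z <+: p.2 → (z = p.2 ∨ z <+: x)))) ?_
    refine (ar_memF i Primrec.snd).and ?_
    refine Ar.ex (R := fun ρ (p : ((α × Node) × Node) × Node) (s : Step) =>
      SStep (decC (ρ i)).V p.2 s ∧ (GapExt (decC (ρ i)).V (p.2 ++ [s]) p.1.2 ∧
          ∀ z : Node, z ∈ (decC (ρ i)).F → (z <+: p.1.2 → (z = p.1.2 ∨ z <+: p.2)))) ?_
    have hx1 : Primrec (fun q : (((α × Node) × Node) × Node) × Step => q.1.2 ++ [q.2]) :=
      primrec_snoc (Primrec.snd.comp Primrec.fst) Primrec.snd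
    refine (ar_sstep i (Primrec.snd.comp Primrec.fst) Primrec.snd).and
      ((ar_gap i hx1 (Primrec.snd.comp (Primrec.fst.comp Primrec.fst))).and ?_)
    refine Ar.all (R := fun ρ (q : (((α × Node) × Node) × Node) × Step) (z : Node) =>
      z ∈ (decC (ρ i)).F → (z <+: q.1.1.2 → (z = q.1.1.2 ∨ z <+: q.1.2))) ?_
    have hy1 : Primrec (fun q : ((((α × Node) × Node) × Node) × Step) × Node => q.1.1.1.2) :=
      Primrec.snd.comp (Primrec.fst.comp (Primrec.fst.comp Primrec.fst))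
    exact (ar_memF i Primrec.snd).imp ((ar_prefix Primrec.snd hy1).imp
      ((Ar.eq Primrec.snd hy1).or
        (ar_prefix Primrec.snd (Primrec.snd.comp (Primrec.fst.comp Primrec.fst)))))
  refine (hX.and (hstem.and (habove.and (hidx.and (hsucc.and hpred))))).of_eq fun ρ u => ?_
  constructor
  · rintro ⟨g1, g2, g3, g4, g5, g6⟩
    exact ⟨g1, g2, g3, g4, g5, g6⟩
  · rintro ⟨g1, g2, g3, g4, g5, g6⟩
    exact ⟨g1, g2, g3, g4, g5, g6⟩

private theorem ar_subF (i j : ℕ) :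
    Ar (fun ρ (_ : α) => (decC (ρ i)).F ⊆ (decC (ρ j)).F) := by
  have h := Ar.all (R := fun ρ (_ : α) (x : Node) => x ∈ (decC (ρ i)).F → x ∈ (decC (ρ j)).F)
    ((ar_memF i Primrec.snd).imp (ar_memF j Primrec.snd))
  exact h.of_eq fun ρ u => Iff.rfl

theorem ar_le (i j : ℕ) {y : α → List H} (hy : Primrec y) :
    Ar (fun ρ u => Le (y u) (decC (ρ i)) (decC (ρ j))) := by
  have hy2 : Primrec (fun q : (α × Node) × Node => y q.1.1) :=
    hy.comp (Primrec.fst.comp Primrec.fst)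
  have hp1 : Primrec (fun q : (α × Node) × Node => plc q.1.2) :=
    primrec_plc.comp (Primrec.snd.comp Primrec.fst)
  have hp2 : Primrec (fun q : (α × Node) × Node => plc q.2) := primrec_plc.comp Primrec.snd
  have h3 : Ar (fun ρ (q : (α × Node) × Node) => ∀ k : ℕ, k < (y q.1.1).length →
      ((y q.1.1).getD k 0 ∈ (decC (ρ j)).V (plc q.2 + k) ∧
        (y q.1.1).getD k 0 ∈ ent q.1.2 (plc q.2 + k))) := by
    refine Ar.all (R := fun ρ (q : (α × Node) × Node) (k : ℕ) => k < (y q.1.1).length →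
      ((y q.1.1).getD k 0 ∈ (decC (ρ j)).V (plc q.2 + k) ∧
        (y q.1.1).getD k 0 ∈ ent q.1.2 (plc q.2 + k))) ?_
    have g1 : Primrec (fun r : ((α × Node) × Node) × ℕ => (y r.1.1.1).getD r.2 0) :=
      primrec_getD (hy2.comp Primrec.fst) Primrec.snd
    have g2 : Primrec (fun r : ((α × Node) × Node) × ℕ => plc r.1.2 + r.2) :=
      Primrec.nat_add.comp (hp2.comp Primrec.fst) Primrec.snd
    exact (Ar.lt Primrec.snd (Primrec.list_length.comp (hy2.comp Primrec.fst))).imp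
      ((ar_memV j g2 g1).and
        (ar_ent g1 (Primrec.snd.comp (Primrec.fst.comp Primrec.fst)) g2))
  have h := ar_subT i (R := fun ρ u t' => t' ∈ (decC (ρ j)).F ∧
      (plc (decC (ρ j)).t + (y u).length = plc t' ∧
        ((∀ k : ℕ, k < (y u).length → ((y u).getD k 0 ∈ (decC (ρ j)).V (plc (decC (ρ j)).t + k) ∧
          (y u).getD k 0 ∈ ent t' (plc (decC (ρ j)).t + k))) ∧
            (SubX (plc t') (decC (ρ i)).V (decC (ρ j)).V ∧ (decC (ρ i)).F ⊆ (decC (ρ j)).F))))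
    (ar_subT j (α := α × Node) (R := fun ρ p t => p.2 ∈ (decC (ρ j)).F ∧
      (plc t + (y p.1).length = plc p.2 ∧
        ((∀ k : ℕ, k < (y p.1).length → ((y p.1).getD k 0 ∈ (decC (ρ j)).V (plc t + k) ∧
          (y p.1).getD k 0 ∈ ent p.2 (plc t + k))) ∧
            (SubX (plc p.2) (decC (ρ i)).V (decC (ρ j)).V ∧ (decC (ρ i)).F ⊆ (decC (ρ j)).F))))
      ((ar_memF j (Primrec.snd.comp Primrec.fst)).and
        ((Ar.eq (Primrec.nat_add.comp hp2 (Primrec.list_length.comp hy2)) hp1).and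
          (h3.and ((ar_subX i j hp1).and (ar_subF i j))))))
  exact h.of_eq fun ρ u => Iff.rfl

theorem ar_leS (i j : ℕ) : Ar (fun ρ (_ : α) => LeS (decC (ρ i)) (decC (ρ j))) := by
  have h := ar_subT j (α := α) (R := fun ρ _ t => (decC (ρ i)).t = t ∧
      (SubX (plc t) (decC (ρ i)).V (decC (ρ j)).V ∧ (decC (ρ i)).F ⊆ (decC (ρ j)).F))
    ((ar_t i Primrec.snd).and ((ar_subX i j (primrec_plc.comp Primrec.snd)).and (ar_subF i j)))
  exact h.of_eq fun ρ u => Iff.rfl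

private theorem ar_eqV (i j : ℕ) {p : α → ℕ} (hp : Primrec p) :
    Ar (fun ρ u => (decC (ρ i)).V (p u) = (decC (ρ j)).V (p u)) := by
  have h := Ar.all (R := fun ρ (u : α) (v : H) =>
      v ∈ (decC (ρ i)).V (p u) ↔ v ∈ (decC (ρ j)).V (p u))
    ((ar_memV i (hp.comp Primrec.fst) Primrec.snd).iff
      (ar_memV j (hp.comp Primrec.fst) Primrec.snd))
  exact h.of_eq fun ρ u => Finset.ext_iff

theorem ar_leK (i j : ℕ) {k : α → ℕ} (hk : Primrec k) :
    Ar (fun ρ u => LeK (k u) (decC (ρ i)) (decC (ρ j))) := by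
  have h1 := Ar.all (R := fun ρ (u : α) (p : ℕ) => p < k u →
      (decC (ρ i)).V p = (decC (ρ j)).V p)
    ((Ar.lt Primrec.snd (hk.comp Primrec.fst)).imp (ar_eqV i j Primrec.snd))
  have h2 := Ar.all (R := fun ρ (u : α) (x : Node) => x ∈ (decC (ρ j)).F → (plc x ≤ k u →
      x ∈ (decC (ρ i)).F))
    ((ar_memF j Primrec.snd).imp ((Ar.le (primrec_plc.comp Primrec.snd)
      (hk.comp Primrec.fst)).imp (ar_memF i Primrec.snd)))
  exact ((ar_leS i j).and (h1.and h2)).of_eq fun ρ u => Iff.rfl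

theorem ar_cut (i : ℕ) {k : α → ℕ} (hk : Primrec k) : Ar (fun ρ u => Cut (decC (ρ i)) (k u)) := by
  have h1 := ar_subT i (α := α) (R := fun _ u t => plc t ≤ k u)
    (Ar.le (primrec_plc.comp Primrec.snd) (hk.comp Primrec.fst))
  exact (h1.and (ar_oneLt i hk)).of_eq fun ρ u => Iff.rfl

theorem ar_leP (i j : ℕ) : Ar (fun ρ (_ : α) => leP (ρ i) (ρ j)) := by
  have h := Ar.ex (R := fun ρ (_ : α) (y : List H) => decP (ρ i) = decP (ρ j) ++ y ∧
      Le y (decC (ρ i)) (decC (ρ j)))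
    ((ar_subP j (α := α × List H) (R := fun ρ p b => decP (ρ i) = b ++ p.2)
      (ar_decP i (Primrec.list_append.comp Primrec.snd (Primrec.snd.comp Primrec.fst)))).and
      (ar_le i j Primrec.snd))
  exact h.of_eq fun ρ u => Iff.rfl

theorem ar_leB (i j : ℕ) : Ar (fun ρ (_ : α) => leB (ρ i) (ρ j)) := by
  have h := Ar.ex (R := fun ρ (_ : α) (y : List H) => Le y (decC (ρ i)) (decC (ρ j)))
    (ar_le i j Primrec.snd)
  exact h.of_eq fun ρ u => Iff.rfl

theorem ar_leY (i j : ℕ) : Ar (fun ρ (_ : α) => leY (ρ i) (ρ j)) := by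
  have h1 := ar_subP j (α := α × List H) (R := fun ρ p b => decP (ρ i) = b ++ p.2)
      (ar_decP i (Primrec.list_append.comp Primrec.snd (Primrec.snd.comp Primrec.fst)))
  have h2 := ar_subP j (α := α × List H) (R := fun ρ p b => Path (decC (ρ j)).V b.length p.2)
      (ar_path j (Primrec.list_length.comp Primrec.snd) (Primrec.snd.comp Primrec.fst))
  have h3 := ar_subP i (α := α × List H)
      (R := fun ρ _ a => SubX a.length (decC (ρ i)).V (decC (ρ j)).V)
      (ar_subX i j (Primrec.list_length.comp Primrec.snd))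
  have h := Ar.ex (R := fun ρ (_ : α) (y : List H) => decP (ρ i) = decP (ρ j) ++ y ∧
      (Path (decC (ρ j)).V (decP (ρ j)).length y ∧
        SubX (decP (ρ i)).length (decC (ρ i)).V (decC (ρ j)).V))
    (h1.and (h2.and h3))
  exact h.of_eq fun ρ u => Iff.rfl

private theorem ar_eqSet (i : ℕ) {F : (ℕ → Set ℕ) → α → Set ℕ} (hF : ArS F) :
    Ar (fun ρ u => ρ i = F ρ u) := by
  have h := Ar.all (R := fun ρ (u : α) (n : ℕ) => n ∈ ρ i ↔ n ∈ F ρ u)
    ((Ar.orac i Primrec.snd).iff hF)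
  exact h.of_eq fun ρ u => Set.ext_iff

theorem ar_isPP (i : ℕ) : Ar (fun ρ (_ : α) => IsPP (ρ i)) := by
  have h1 := ar_subT i (α := α) (R := fun ρ _ t => IsPiece t (decP (ρ i)))
    (ar_subP i (α := α × Node) (R := fun _ p a => IsPiece p.2 a)
      (ar_piece (Primrec.snd.comp Primrec.fst) Primrec.snd))
  have h2 : ArS (fun ρ (_ : α) => enc (decP (ρ i)) (decC (ρ i))) :=
    arS_enc (ar_decP i Primrec.snd) (ar_t i Primrec.snd)
      (ar_memV i (Primrec.fst.comp Primrec.snd) (Primrec.snd.comp Primrec.snd))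
      (ar_memF i Primrec.snd)
  exact ((ar_good i).and (h1.and (ar_eqSet i h2))).of_eq fun ρ u => Iff.rfl

theorem ar_isPB (i : ℕ) : Ar (fun ρ (_ : α) => IsPB (ρ i)) := by
  have h2 : ArS (fun ρ (_ : α) => enc [] (decC (ρ i))) :=
    arS_enc (Ar.eq (Primrec.const []) Primrec.snd) (ar_t i Primrec.snd)
      (ar_memV i (Primrec.fst.comp Primrec.snd) (Primrec.snd.comp Primrec.snd))
      (ar_memF i Primrec.snd)
  exact ((ar_good i).and (ar_eqSet i h2)).of_eq fun ρ u => Iff.rfl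

theorem ar_isYY (i : ℕ) : Ar (fun ρ (_ : α) => IsYY (ρ i)) := by
  have h2 : ArS (fun ρ (_ : α) => enc (decP (ρ i)) (famC (decC (ρ i)).V)) :=
    arS_enc (ar_decP i Primrec.snd) (Ar.eq (Primrec.const []) Primrec.snd)
      (ar_memV i (Primrec.fst.comp Primrec.snd) (Primrec.snd.comp Primrec.snd))
      ((Ar.const False).of_eq fun ρ p => Iff.rfl)
  exact ((ar_isX i).and (ar_eqSet i h2)).of_eq fun ρ u => Iff.rfl

end Helper99.PC
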