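import Pool.Agent.Helper99.PC.ArC
import Pool.Agent.Helper44.PC.Adapt

/-! PC-ArD: readings. -/

set_option autoImplicit false

noncomputable section

namespace Helper99.PC

open Helper99.TT Encodable
open Pool.Agent.Helper44.CL hiding TT
open Pool.Agent.Helper44.PC

universe u

variable {α : Type u} [Primcodable α]

theorem mem_rR {R : Rd} {b : List H} {y : Node} {s : List Bool} :
    encode ((b, y), s) ∈ rR R ↔ s = R b y := by
  unfold rR
  constructor
  · rintro ⟨x, hx, e⟩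
    have e1 := encode_injective e
    subst e1
    exact hx.symm
  · rintro rfl
    exact ⟨((b, y), R b y), rfl, rfl⟩

theorem decR_rR (R : Rd) : decR (rR R) = R := by
  funext b y
  have h : ∃! s : List Bool, encode ((b, y), s) ∈ rR R :=
    ⟨R b y, mem_rR.2 rfl, fun s hs => mem_rR.1 hs⟩
  unfold decR
  rw [dif_pos h]
  exact mem_rR.1 h.choose_spec.1

theorem decR_eq_iff {x : Set ℕ} {b : List H} {y : Node} {s : List Bool} : decR x b y = s ↔
    (encode ((b, y), s) ∈ x ∧ ∀ s' : List Bool, encode ((b, y), s') ∈ x → s' = s) ∨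
    ((¬ ∃ s' : List Bool, encode ((b, y), s') ∈ x ∧
      ∀ s'' : List Bool, encode ((b, y), s'') ∈ x → s'' = s') ∧ s = []) := by
  unfold decR
  split_ifs with h
  · obtain ⟨h1, h2⟩ := h.choose_spec
    constructor
    · rintro rfl
      exact Or.inl ⟨h1, h2⟩
    · rintro (⟨h3, h4⟩ | ⟨h3, _⟩)
      · exact h4 _ h1
      · exact (h3 ⟨_, h1, h2⟩).elim
  · constructor
    · rintro rfl
      exact Or.inr ⟨h, rfl⟩
    · rintro (⟨h3, h4⟩ | ⟨_, h3⟩)
      · exact (h ⟨s, h3, h4⟩).elim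
      · exact h3.symm

theorem ar_memReal (i : ℕ) {b : (ℕ → Set ℕ) → α → List H} {x : (ℕ → Set ℕ) → α → Node}
    {s : (ℕ → Set ℕ) → α → List Bool} (hb : ArG b) (hx : ArG x) (hs : ArG s) :
    Ar (fun ρ u => encode ((b ρ u, x ρ u), s ρ u) ∈ ρ i) := by
  have h1 : Ar (fun ρ (p : (List H × Node) × List Bool) => encode p ∈ ρ i) :=
    Ar.orac i Primrec.encode
  exact Ar.app h1 ((hb.pair hx).pair hs)

theorem arRd_decR' (i : ℕ) : ArRd (fun ρ (_ : α) => decR (ρ i)) := by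
  refine Ar.of_eq (R := fun ρ (p : (α × (List H × Node)) × List Bool) =>
    (encode ((p.1.2.1, p.1.2.2), p.2) ∈ ρ i ∧
      ∀ s' : List Bool, encode ((p.1.2.1, p.1.2.2), s') ∈ ρ i → s' = p.2) ∨
    ((¬ ∃ s' : List Bool, encode ((p.1.2.1, p.1.2.2), s') ∈ ρ i ∧
      ∀ s'' : List Bool, encode ((p.1.2.1, p.1.2.2), s'') ∈ ρ i → s'' = s') ∧ p.2 = [])) ?_
    (fun ρ p => decR_eq_iff)
  refine Ar.or (Ar.and ?_ (Ar.all (Ar.imp ?_ ?_))) (Ar.and (Ar.not (Ar.ex (Ar.and ?_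
    (Ar.all (Ar.imp ?_ ?_))))) ?_)
  · exact ar_memReal i (ArG.prim (Primrec.fst.comp pv1)) (ArG.prim (Primrec.snd.comp pv1))
      (ArG.prim pv0)
  · exact ar_memReal i (ArG.prim (Primrec.fst.comp pv2)) (ArG.prim (Primrec.snd.comp pv2))
      (ArG.prim pv0)
  · exact Ar.geq (ArG.prim pv0) (ArG.prim pv1)
  · exact ar_memReal i (ArG.prim (Primrec.fst.comp pv2)) (ArG.prim (Primrec.snd.comp pv2))
      (ArG.prim pv0)
  · exact ar_memReal i (ArG.prim (Primrec.fst.comp pv3)) (ArG.prim (Primrec.snd.comp pv3))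
      (ArG.prim pv0)
  · exact Ar.geq (ArG.prim pv0) (ArG.prim pv1)
  · exact Ar.geq (ArG.prim pv0) (ArG.const [])

theorem ar_decR (i : ℕ) {b : α → List H} {x : α → Node} {s : α → List Bool} (hb : Primrec b)
    (hx : Primrec x) (hs : Primrec s) :
    Ar (fun ρ u => decR (ρ i) (b u) (x u) = s u) :=
  Ar.geq ((arRd_decR' i).at (ArG.prim hb) (ArG.prim hx)) (ArG.prim hs)

theorem ar_isR (i : ℕ) : Ar (fun ρ (_ : α) => ρ i = rR (decR (ρ i))) := by
  refine Ar.of_eq (R := fun ρ (_ : α) => ∀ n : ℕ, n ∈ ρ i ↔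
    ∃ p : (List H × Node) × List Bool, decR (ρ i) p.1.1 p.1.2 = p.2 ∧ encode p = n) ?_
    (fun ρ u => Set.ext_iff)
  refine Ar.all (Ar.iff (Ar.orac i Primrec.snd) (Ar.ex (Ar.and ?_ ?_)))
  · exact ar_decR i (Primrec.fst.comp (Primrec.fst.comp pv0))
      (Primrec.snd.comp (Primrec.fst.comp pv0)) (Primrec.snd.comp pv0)
  · exact Ar.eq (Primrec.encode.comp pv0) pv1

theorem ar_reading (i j : ℕ) :
    Ar (fun ρ (_ : α) => Reading (decR (ρ i)) (decC (ρ j)) (decP (ρ j))) :=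
  Pool.Agent.Helper44.PC.ar_reading (arRd_decR' i) (arC_decC j) (arG_decP j)

theorem ar_aCan (i j : ℕ) :
    Ar (fun ρ (_ : α) => ACan (decR (ρ i)) (decC (ρ j)) (decP (ρ j))) :=
  Pool.Agent.Helper44.PC.ar_ACan (arRd_decR' i) (arC_decC j) (arG_decP j)

end Helper99.PC
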