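import Pool.Agent.Helper99.PC.ArC
import Pool.Agent.Helper99.TT.Ops
import Pool.Agent.Helper99.TT.Top
import Pool.Agent.Helper99.TT.Graft

/-! PC-ArE: the finitary operations. -/

set_option autoImplicit false

noncomputable section

namespace Helper99.PC

open Helper99.TT Encodable
open Pool.Agent.Helper44.CL hiding TT
open Pool.Agent.Helper44.PC

universe u

variable {α : Type u} [Primcodable α]

/-- the code of the cone at a node -/
theorem arS_cone (i : ℕ) {b : α → List H} {x : α → Node} (hb : Primrec b) (hx : Primrec x) :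
    ArS (fun ρ u => enc (b u) ((decC (ρ i)).cone (x u))) := by
  refine arS_enc (f := fun _ u => b u) (Q := fun ρ u => (decC (ρ i)).cone (x u)) ?_ ?_ ?_ ?_
  · exact Ar.eq (hb.comp Primrec.fst) Primrec.snd
  · exact Ar.eq (hx.comp Primrec.fst) Primrec.snd
  · exact ar_memV i (Primrec.fst.comp Primrec.snd) (Primrec.snd.comp Primrec.snd)
  · exact (ar_memF i Primrec.snd).and (ar_prefix (hx.comp Primrec.fst) Primrec.snd)

/-- change of the piece -/
theorem arS_piece (i : ℕ) {b : α → List H} (hb : Primrec b) :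
    ArS (fun ρ u => enc (b u) (decC (ρ i))) := by
  refine arS_enc (f := fun _ u => b u) (Q := fun ρ _ => decC (ρ i)) ?_ ?_ ?_ ?_
  · exact Ar.eq (hb.comp Primrec.fst) Primrec.snd
  · exact ar_t i Primrec.snd
  · exact ar_memV i (Primrec.fst.comp Primrec.snd) (Primrec.snd.comp Primrec.snd)
  · exact ar_memF i Primrec.snd

/-- the map `sh n` on lists is arithmetical -/
theorem aE_map_sh {n : α → ℕ} {a c : α → List H} (hn : Primrec n) (ha : Primrec a)
    (hc : Primrec c) : Ar (fun _ u => (a u).map (sh (n u)) = c u) := by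
  have h1 : Ar (fun (_ : ℕ → Set ℕ) (p : α × ℕ) => p.2 < (a p.1).length →
      sh (n p.1) ((a p.1).getD p.2 0) = (c p.1).getD p.2 0) := by
    refine Ar.imp (Ar.lt Primrec.snd (Primrec.list_length.comp (ha.comp Primrec.fst))) ?_
    exact ar_sh (hn.comp Primrec.fst) (primrec_getD (ha.comp Primrec.fst) Primrec.snd)
      (primrec_getD (hc.comp Primrec.fst) Primrec.snd)
  have h2 : Ar (fun (_ : ℕ → Set ℕ) (u : α) => (a u).length = (c u).length) :=
    Ar.eq (Primrec.list_length.comp ha) (Primrec.list_length.comp hc)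
  refine (h2.and (Ar.all (R := fun _ u (k : ℕ) => k < (a u).length →
    sh (n u) ((a u).getD k 0) = (c u).getD k 0) h1)).of_eq fun ρ u => ?_
  constructor
  · intro h
    rw [← h]
    refine ⟨by simp, fun k hk => ?_⟩
    rw [List.getD_eq_getElem _ _ hk, List.getD_eq_getElem _ _ (by simpa using hk)]
    simp
  · rintro ⟨h, h'⟩
    refine List.ext_getElem (by simpa using h) fun k hk hk' => ?_
    rw [List.length_map] at hk
    have h3 := h' k hk
    rw [List.getD_eq_getElem _ _ hk, List.getD_eq_getElem _ _ hk'] at h3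
    simpa using h3

theorem arS_piY (i : ℕ) {n : α → ℕ} (hn : Primrec n) : ArS (fun ρ u => piY (n u) (ρ i)) := by
  refine arS_enc (f := fun ρ u => (decP (ρ i)).map (sh (n u)))
    (Q := fun ρ u => famC (shF (n u) (decC (ρ i)).V)) ?_ ?_ ?_ ?_
  · have h1 : Ar (fun ρ (p : (α × List H) × List H) => decP (ρ i) = p.2 ∧
        p.2.map (sh (n p.1.1)) = p.1.2) :=
      (ar_decP i Primrec.snd).and (aE_map_sh (hn.comp (Primrec.fst.comp Primrec.fst)) Primrec.snd
        (Primrec.snd.comp Primrec.fst))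
    refine (Ar.ex (R := fun ρ (p : α × List H) (a : List H) => decP (ρ i) = a ∧
      a.map (sh (n p.1)) = p.2) h1).of_eq fun ρ p => ?_
    constructor
    · intro h
      exact ⟨_, rfl, h⟩
    · rintro ⟨a, rfl, h⟩
      exact h
  · exact (Ar.eq (Primrec.const ([] : Node)) Primrec.snd)
  · have h1 : Ar (fun ρ (p : (α × ℕ × H) × H) => p.2 ∈ (decC (ρ i)).V p.1.2.1 ∧
        sh (n p.1.1) p.2 = p.1.2.2) :=
      (ar_memV i (Primrec.fst.comp (Primrec.snd.comp Primrec.fst)) Primrec.snd).and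
        (ar_sh (hn.comp (Primrec.fst.comp Primrec.fst)) Primrec.snd
          (Primrec.snd.comp (Primrec.snd.comp Primrec.fst)))
    refine (Ar.ex (R := fun ρ (p : α × ℕ × H) (h : H) => h ∈ (decC (ρ i)).V p.2.1 ∧
      sh (n p.1) h = p.2.2) h1).of_eq fun ρ p => ?_
    simp only [famC_V, shF, Finset.mem_image]
  · exact (Ar.const False).of_eq fun ρ p => by simp

/-- membership in a finite set is arithmetical -/
theorem aE_finite {β : Type u} [Primcodable β] {s : Set β} (hs : s.Finite) {f : α → β}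
    (hf : Primrec f) : Ar (fun _ u => f u ∈ s) := by
  classical
  refine Set.Finite.induction_on (motive := fun s _ => Ar (fun _ u => f u ∈ s)) s hs ?_ ?_
  · exact (Ar.const False).of_eq fun ρ u => by simp
  · intro a s _ _ ih
    exact ((Ar.eq hf (Primrec.const a)).or ih).of_eq fun ρ u => Set.mem_insert_iff

variable {cle : Set ℕ → Set ℕ → Prop} {L2 : Set (Set (Set ℕ))}

/-- values of arithmetical functions -/
theorem aE_cle (I : Iface cle L2) {K : Set ℕ → Set ℕ} (h : ArS (fun ρ (_ : Unit) => K (ρ 0)))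
    {x z : Set ℕ} (hx : cle x z) : cle (K x) z := by
  have h1 : ALS cle z (fun _ (_ : Unit) => K x) :=
    ALS.sub1 I (K := fun x (_ : Unit) => K x) h (F := fun _ (_ : Unit) => x) (ALS.const I hx)
      (f := fun _ : Unit => ()) (Primrec.const ())
  have h2 : AL cle z (fun _ (n : ℕ) => n ∈ K x) :=
    AL.comp (f := fun n : ℕ => ((), n)) h1 (Primrec.pair (Primrec.const ()) Primrec.id)
  exact AL.real I h2

/-- the piece does not matter -/
theorem cle_enc (I : Iface cle L2) {z : Set ℕ} (a b : List H) {q : Cond}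
    (h : cle (enc a q) z) : cle (enc b q) z := by
  have h1 := aE_cle I (K := fun x => enc b (decC x))
    (arS_piece 0 (Primrec.const (α := Unit) b)) h
  simpa only [decC_enc] using h1

theorem aE_V (I : Iface cle L2) {z : Set ℕ} {a : List H} {q : Cond} (h : cle (enc a q) z) :
    AL cle z (fun _ (p : ℕ × H) => p.2 ∈ q.V p.1) := by
  have h1 : AL cle z (fun _ (p : ℕ × H) => p.2 ∈ (decC (enc a q)).V p.1) :=
    AL.sub1 I (Φ := fun x (p : ℕ × H) => p.2 ∈ (decC x).V p.1)
      (ar_memV 0 Primrec.fst Primrec.snd) (F := fun _ (_ : ℕ × H) => enc a q) (ALS.const I h)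
      (f := fun p : ℕ × H => p) Primrec.id
  simpa only [decC_enc] using h1

theorem aE_F (I : Iface cle L2) {z : Set ℕ} {a : List H} {q : Cond} (h : cle (enc a q) z) :
    AL cle z (fun _ (x : Node) => x ∈ q.F) := by
  have h1 : AL cle z (fun _ (x : Node) => x ∈ (decC (enc a q)).F) :=
    AL.sub1 I (Φ := fun x (y : Node) => y ∈ (decC x).F)
      (ar_memF 0 Primrec.id) (F := fun _ (_ : Node) => enc a q) (ALS.const I h)
      (f := fun p : Node => p) Primrec.id
  simpa only [decC_enc] using h1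

theorem aE_enc (I : Iface cle L2) {z : Set ℕ} (a : List H) {q : Cond}
    (hV : AL cle z (fun _ (p : ℕ × H) => p.2 ∈ q.V p.1))
    (hF : AL cle z (fun _ (x : Node) => x ∈ q.F)) : cle (enc a q) z := by
  have p1 : Primrec (fun k : ℕ => k.unpair.1) := Primrec.fst.comp Primrec.unpair
  have p2 : Primrec (fun k : ℕ => k.unpair.2) := Primrec.snd.comp Primrec.unpair
  have h0 : AL cle z (fun _ (k : ℕ) => k.unpair.1 = 0 ∧ k.unpair.2 = encode a) :=
    AL.of_ar I ((Ar.eq p1 (Primrec.const 0)).and (Ar.eq p2 (Primrec.const (encode a))))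
  have h1 : AL cle z (fun _ (k : ℕ) => k.unpair.1 = 1 ∧ k.unpair.2 = encode q.t) :=
    AL.of_ar I ((Ar.eq p1 (Primrec.const 1)).and (Ar.eq p2 (Primrec.const (encode q.t))))
  have h2 : AL cle z (fun _ (k : ℕ) => k.unpair.1 = 2 ∧
      ∃ x : ℕ × H, x.2 ∈ q.V x.1 ∧ encode x = k.unpair.2) := by
    refine AL.and I (AL.of_ar I (Ar.eq p1 (Primrec.const 2))) ?_
    refine AL.ex (R := fun _ (k : ℕ) (x : ℕ × H) => x.2 ∈ q.V x.1 ∧ encode x = k.unpair.2) ?_
    exact AL.and I (hV.comp Primrec.snd) (AL.of_ar I (Ar.eq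
      ((Primrec.encode (α := ℕ × H)).comp (Primrec.snd (α := ℕ) (β := ℕ × H)))
      (p2.comp Primrec.fst)))
  have h3 : AL cle z (fun _ (k : ℕ) => k.unpair.1 = 3 ∧
      ∃ x : Node, x ∈ q.F ∧ encode x = k.unpair.2) := by
    refine AL.and I (AL.of_ar I (Ar.eq p1 (Primrec.const 3))) ?_
    refine AL.ex (R := fun _ (k : ℕ) (x : Node) => x ∈ q.F ∧ encode x = k.unpair.2) ?_
    exact AL.and I (hF.comp Primrec.snd) (AL.of_ar I (Ar.eq
      ((Primrec.encode (α := Node)).comp (Primrec.snd (α := ℕ) (β := Node)))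
      (p2.comp Primrec.fst)))
  have h5 := AL.or I h0 (AL.or I h1 (AL.or I h2 h3))
  have h4 := AL.real I h5
  have e : enc a q = {n : ℕ | (n.unpair.1 = 0 ∧ n.unpair.2 = encode a) ∨
      (n.unpair.1 = 1 ∧ n.unpair.2 = encode q.t) ∨
      (n.unpair.1 = 2 ∧ ∃ x : ℕ × H, x.2 ∈ q.V x.1 ∧ encode x = n.unpair.2) ∨
      (n.unpair.1 = 3 ∧ ∃ x : Node, x ∈ q.F ∧ encode x = n.unpair.2)} := by
    ext k
    simp only [enc, join, Set.mem_ofPred_eq]
    rcases h : k.unpair.1 with _ | _ | _ | _ | m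
    · simp
    · simp
    · simp
    · simp
    · simp
  rw [e]
  exact h4

theorem closed_CC (I : Iface cle L2) : Closed (CC cle) := by
  refine ⟨fun q hq => hq.1, ?_, ?_, ?_⟩
  · rintro q ⟨hq, hc⟩ x hx
    have hV := aE_V I hc
    refine ⟨cone_good hq hx, aE_enc I [] hV ?_⟩
    exact AL.and I (aE_F I hc) (AL.of_ar I (ar_prefix (Primrec.const x) Primrec.id))
  · rintro q ⟨hq, hc⟩ V' hne hs hf
    refine ⟨closed_good.restr q hq V' hne hs hf, ?_⟩
    have hT : {x : ℕ × H | V' x.1 ≠ q.V x.1 ∧ x.2 ∈ V' x.1}.Finite := by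
      refine (hf.biUnion (t := fun p => (fun h : H => (p, h)) '' (V' p : Set H))
        fun p _ => (Finset.finite_toSet _).image _).subset ?_
      rintro ⟨p, h⟩ ⟨h1, h2⟩
      exact Set.mem_biUnion h1 ⟨h, h2, rfl⟩
    have hV' : AL cle ∅ (fun _ (p : ℕ × H) => p.2 ∈ V' p.1) := by
      refine (AL.or I (AL.of_ar I (aE_finite hT (Primrec.id (α := ℕ × H))))
        (AL.and I (AL.of_ar I (aE_finite hf (Primrec.fst (α := ℕ) (β := H)))).not
          (aE_V I hc))).of_eq fun ρ p => ?_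
      simp only [Set.mem_ofPred_eq, id, not_not]
      by_cases h : V' p.1 = q.V p.1
      · rw [h]; simp
      · simp [h]
    refine aE_enc I [] hV' ?_
    refine AL.and I (aE_F I hc) ?_
    refine AL.all (R := fun _ (x : Node) (p : ℕ) => plc q.t ≤ p → p < plc x →
      ∀ h ∈ ent x p, h ∈ q.V p → h ∈ V' p) ?_
    refine AL.imp I (AL.of_ar I (Ar.le (Primrec.const _) Primrec.snd)) ?_
    refine AL.imp I (AL.of_ar I (Ar.lt Primrec.snd (primrec_plc.comp Primrec.fst))) ?_
    refine AL.all (R := fun _ (p : Node × ℕ) (h : H) => h ∈ ent p.1 p.2 → h ∈ q.V p.2 →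
      h ∈ V' p.2) ?_
    refine AL.imp I (AL.of_ar I (ar_ent Primrec.snd (Primrec.fst.comp Primrec.fst)
      (Primrec.snd.comp Primrec.fst))) ?_
    exact AL.imp I ((aE_V I hc).comp (f := fun p : (Node × ℕ) × H => (p.1.2, p.2))
      ((Primrec.snd.comp Primrec.fst).pair Primrec.snd))
      (hV'.comp (f := fun p : (Node × ℕ) × H => (p.1.2, p.2))
      ((Primrec.snd.comp Primrec.fst).pair Primrec.snd))
  · rintro q ⟨hq, hc⟩ x hx hxt y q' ⟨hq', hc'⟩ hle
    refine ⟨graft_good hq hq' hx hxt hle, ?_⟩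
    have hG : AL cle ∅ (fun _ (p : ℕ × H) => p.2 ∈ graftV q x y q' p.1) := by
      have c1 : AL cle ∅ (fun _ (p : ℕ × H) => p.1 < plc x) :=
        AL.of_ar I (Ar.lt Primrec.fst (Primrec.const _))
      have c2 : AL cle ∅ (fun _ (p : ℕ × H) => p.1 < plc q'.t) :=
        AL.of_ar I (Ar.lt Primrec.fst (Primrec.const _))
      have c3 : AL cle ∅ (fun _ (p : ℕ × H) => p.2 = y.getD (p.1 - plc x) 0) :=
        AL.of_ar I (Ar.eq Primrec.snd (primrec_getD (Primrec.const y)
          (Primrec.nat_sub.comp Primrec.fst (Primrec.const (plc x)))))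
      refine (AL.or I (AL.and I c1 (aE_V I hc)) (AL.and I c1.not
        (AL.or I (AL.and I c2 c3) (AL.and I c2.not (aE_V I hc'))))).of_eq fun ρ p => ?_
      unfold graftV
      by_cases h1 : p.1 < plc x
      · simp [h1]
      · by_cases h2 : p.1 < plc q'.t
        · simp [h1, h2]
        · simp [h1, h2]
    refine aE_enc I [] hG ?_
    refine AL.or I (AL.and I (aE_F I hc) (AL.and I ?_
      (AL.of_ar I (ar_prefix (Primrec.const x) Primrec.id)).not)) (aE_F I hc')
    refine AL.all (R := fun _ (z : Node) (p : ℕ) => plc q.t ≤ p → p < plc z →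
      ∀ h ∈ ent z p, h ∈ q.V p → h ∈ graftV q x y q' p) ?_
    refine AL.imp I (AL.of_ar I (Ar.le (Primrec.const _) Primrec.snd)) ?_
    refine AL.imp I (AL.of_ar I (Ar.lt Primrec.snd (primrec_plc.comp Primrec.fst))) ?_
    refine AL.all (R := fun _ (p : Node × ℕ) (h : H) => h ∈ ent p.1 p.2 → h ∈ q.V p.2 →
      h ∈ graftV q x y q' p.2) ?_
    refine AL.imp I (AL.of_ar I (ar_ent Primrec.snd (Primrec.fst.comp Primrec.fst)
      (Primrec.snd.comp Primrec.fst))) ?_
    exact AL.imp I ((aE_V I hc).comp (f := fun p : (Node × ℕ) × H => (p.1.2, p.2))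
      ((Primrec.snd.comp Primrec.fst).pair Primrec.snd))
      (hG.comp (f := fun p : (Node × ℕ) × H => (p.1.2, p.2))
      ((Primrec.snd.comp Primrec.fst).pair Primrec.snd))

/-- membership in the top family -/
theorem aE_topV {β : Type u} [Primcodable β] {f : β → ℕ} {g : β → H} (hf : Primrec f)
    (hg : Primrec g) : Ar (fun _ u => g u ∈ topV (f u)) := by
  have hd : Primrec (fun p : β × ℕ => g p.1 p.2) :=
    primrec_digit.comp (hg.comp Primrec.fst) Primrec.snd
  have h1 : Ar (fun (_ : ℕ → Set ℕ) (p : β × ℕ) => g p.1 p.2 ≠ 0 → p.2 < f p.1 + 1) :=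
    Ar.imp (Ar.eq hd (Primrec.const 0)).not
      (Ar.lt Primrec.snd (Primrec.succ.comp (hf.comp Primrec.fst)))
  have h2 : Ar (fun (_ : ℕ → Set ℕ) (p : β × ℕ) => p.2 < f p.1 + 1 → g p.1 p.2 < f p.1 + 1) :=
    Ar.imp (Ar.lt Primrec.snd (Primrec.succ.comp (hf.comp Primrec.fst)))
      (Ar.lt hd (Primrec.succ.comp (hf.comp Primrec.fst)))
  refine ((Ar.all (R := fun _ u (k : ℕ) => g u k ≠ 0 → k < f u + 1) h1).and
    (Ar.all (R := fun _ u (k : ℕ) => k < f u + 1 → g u k < f u + 1) h2)).of_eq fun ρ u => ?_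
  rw [top_mem_topV]
  simp only [Finset.subset_iff, Finsupp.mem_support_iff, Finset.mem_range]

theorem topC_CC (I : Iface cle L2) : topC ∈ CC cle := by
  refine ⟨topC_good, aE_enc I [] (AL.of_ar I (aE_topV Primrec.fst Primrec.snd)) ?_⟩
  refine AL.of_ar I (Ar.and (ar_idx Primrec.id) ?_)
  have h1 : Ar (fun (_ : ℕ → Set ℕ) (p : (Node × ℕ) × H) => p.2 ∈ ent p.1.1 p.1.2 →
      p.2 ∈ topV p.1.2) :=
    Ar.imp (ar_ent Primrec.snd (Primrec.fst.comp Primrec.fst) (Primrec.snd.comp Primrec.fst))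
      (aE_topV (Primrec.snd.comp Primrec.fst) Primrec.snd)
  refine Ar.all (R := fun _ (x : Node) (p : ℕ) => p < plc x → ent x p ⊆ topV p) ?_
  refine Ar.imp (Ar.lt Primrec.snd (primrec_plc.comp Primrec.fst)) ?_
  exact (Ar.all (R := fun _ (p : Node × ℕ) (h : H) => h ∈ ent p.1 p.2 → h ∈ topV p.2) h1)

/-- the limit of a fusion sequence which is in `L` -/
theorem flim_cle (I : Iface cle L2) {s : ℕ → Set ℕ} (hs : cle (join s) ∅) {K : ℕ → ℕ}
    (hK : cle (encode '' {x : ℕ × ℕ | K x.1 = x.2}) ∅) :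
    cle (enc [] (flim (fun n => decC (s n)) K)) ∅ := by
  have hc : ∀ (β : Type) [Primcodable β] (f : β → ℕ), Primrec f →
      ALS cle ∅ (fun _ (b : β) => s (f b)) := by
    intro β _ f hf
    have h1 : ALS cle ∅ (fun _ (b : β) => col (join s) (f b)) :=
      ALS.sub1 I (K := fun x (n : ℕ) => col x n) (arS_col 0 Primrec.id)
        (F := fun _ (_ : β) => join s) (ALS.const I hs) hf
    simpa only [col_join] using h1
  refine aE_enc I [] ?_ ?_
  · exact AL.sub1 I (Φ := fun x (p : ℕ × H) => p.2 ∈ (decC x).V p.1)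
      (ar_memV 0 Primrec.fst Primrec.snd) (F := fun _ (p : ℕ × H) => s (p.1 + 1))
      (hc (ℕ × H) (fun p => p.1 + 1) (Primrec.succ.comp Primrec.fst))
      (f := fun p : ℕ × H => p) Primrec.id
  · refine AL.ex (R := fun _ (x : Node) (n : ℕ) => plc x ≤ K n ∧ x ∈ (decC (s n)).F) ?_
    refine AL.and I ?_ ?_
    · have h1 : AL cle ∅ (fun _ (p : (Node × ℕ) × ℕ) => K p.1.2 = p.2) := by
        refine (AL.par hK (f := fun p : (Node × ℕ) × ℕ => encode (p.1.2, p.2))
          (Primrec.encode.comp ((Primrec.snd.comp Primrec.fst).pair Primrec.snd))).of_eq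
          fun ρ p => ?_
        constructor
        · intro h
          exact ⟨(p.1.2, p.2), h, rfl⟩
        · rintro ⟨x, hx, he⟩
          rw [encode_injective he] at hx
          exact hx
      refine (AL.ex (R := fun _ (p : Node × ℕ) (m : ℕ) => K p.2 = m ∧ plc p.1 ≤ m)
        (AL.and I h1 (AL.of_ar I (Ar.le (primrec_plc.comp (Primrec.fst.comp Primrec.fst))
          Primrec.snd)))).of_eq fun ρ p => ?_
      simp
    · exact AL.sub1 I (Φ := fun x (y : Node) => y ∈ (decC x).F)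
        (ar_memF 0 Primrec.id) (F := fun _ (p : Node × ℕ) => s p.2)
        (hc (Node × ℕ) (fun p => p.2) Primrec.snd)
        (f := fun p : Node × ℕ => p.1) Primrec.fst

end Helper99.PC
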