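import Pool.Agent.Helper99.PC.ReadL
import Pool.Agent.Helper99.TT.ReadB

/-! PC-CanL: (9.3) canonical reading of names. -/

set_option autoImplicit false

noncomputable section

namespace Helper99.PC

open Helper99.TT Encodable
open Pool.Agent.Helper44.CL hiding TT
open Pool.Agent.Helper44.PC

variable {cle : Set ℕ → Set ℕ → Prop} {L2 : Set (Set (Set ℕ))}

theorem Dec.leP (I : Iface cle L2) {D : Bool → ℕ → Set (Set ℕ)} (hDP : ∀ e n, D e n ⊆ PP cle)
    {R : Rd} {q q' : Cond} (hq : q ∈ CC cle) (hq' : q' ∈ CC cle) {a a' : List H}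
    (ha : IsPiece q.t a) (h : LeP a' q' a q) (hR : Dec D R q a) : Dec D R q' a' := by
  have hg : Good q := hq.1
  have hg' : Good q' := hq'.1
  have hreal := real_of_leP hg ha h
  obtain ⟨y, hy, hle⟩ := h
  have hF : q'.F ⊆ q.F := hle.2.2.2.2
  have hsub : SubX (plc q'.t) q'.V q.V := hle.2.2.2.1
  intro x hx b hb i e hv
  have hb' : IsReal q a x b := by
    refine ⟨ha, hreal.2.1.trans hb.2.1, hb.2.2.1, fun p hp hp' => ?_⟩
    by_cases hlt : p < plc q'.t
    · have hlen : a'.length = plc q'.t := hreal.2.2.1.1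
      rw [getD_prefix hb.2.1 (by rw [hlen]; exact hlt)]
      exact hreal.2.2.2 p hp hlt
    · exact hsub p (not_lt.mp hlt) (hb.2.2.2 p (not_lt.mp hlt) hp')
  obtain ⟨d, hd, hdle⟩ := hR x (hF hx) b hb' i e hv
  refine ⟨d, hd, ?_⟩
  obtain ⟨-, hdG, hdp, hde⟩ := hDP e i hd
  have h1 : LeP b (q.cone x) (decP d) (decC d) := by
    have := hdle
    unfold Helper99.PC.leP at this
    rwa [decP_enc, decC_enc] at this
  have hpl : plc q'.t ≤ plc x := plc_mono (hg'.above x hx)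
  have h2 : LeP b (q'.cone x) b (q.cone x) :=
    ⟨[], by simp, ⟨hF hx, List.prefix_refl x⟩, by simp [Cond.cone], fun j hj => by simp at hj,
      fun p hp => hsub p (hpl.trans hp), fun z hz => ⟨hF hz.1, hz.2⟩⟩
  have h3 := leP_trans hdG (cone_good hg (hF hx)) h1 h2
  unfold Helper99.PC.leP
  rwa [decP_enc, decC_enc]

/-- (9.3): canonical reading of names -/
theorem canL (I : Iface cle L2) {D : Bool → ℕ → Set (Set ℕ)} (hD : ∀ e, SeqIn L2 (D e))
    (hd : ∀ n, Dense (PP cle) leP (D true n ∪ D false n)) {q : Cond} (hq : q ∈ CC cle)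
    {a : List H} (ha : IsPiece q.t a) :
    ∃ a' q', q' ∈ CC cle ∧ IsPiece q'.t a' ∧ LeP a' q' a q ∧ ∃ R : Rd, cle (rR R) ∅ ∧
      Reading R q' a' ∧ Dec D R q' a' ∧ ACan R q' a' := by
  have hDP : ∀ e n, D e n ⊆ PP cle := by
    intro e n x hx
    cases e with
    | true => exact (hd n).1 (Or.inl hx)
    | false => exact (hd n).1 (Or.inr hx)
  obtain ⟨q1, hq1, hle1, R, hRL, hRd, hDec⟩ := readL I hD hd hq ha
  have ha1 : IsPiece q1.t a := by rw [hle1.1]; exact ha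
  obtain ⟨a2, q2, hq2, hle2, hcan⟩ := canonization_reading hq1.1 ha1 hRd
  have hp2 : IsPiece q2.t a2 := leP_piece hq1.1 ha1 hle2
  -- the arithmetical property
  have hpar : cle (enc a q1) ∅ := cle_enc I [] a hq1.2
  have hA1 : AL cle ∅ (fun ρ (_ : Unit) => IsPP (ρ 0)) := AL.of_ar I (ar_isPP 0)
  have hA2 : AL cle ∅ (fun ρ (_ : Unit) => leP (ρ 0) (enc a q1)) :=
    AL.sub2 I (Φ := fun x y (_ : Unit) => leP x y) (ar_leP 0 1) (ALS.var I 0)
      (ALS.const I hpar) Primrec.id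
  have hA3 : AL cle ∅ (fun ρ (_ : Unit) => ACan (decR (rR R)) (decC (ρ 0)) (decP (ρ 0))) :=
    AL.sub2 I (Φ := fun x y (_ : Unit) => ACan (decR x) (decC y) (decP y)) (ar_aCan 0 1)
      (ALS.const I hRL) (ALS.var I 0) Primrec.id
  obtain ⟨x, hxL, hxP, hxle, hxcan⟩ := AL.sigma I (Φ := fun x (_ : Unit) =>
      IsPP x ∧ leP x (enc a q1) ∧ ACan (decR (rR R)) (decC x) (decP x))
    (AL.and I hA1 (AL.and I hA2 hA3)) () ⟨enc a2 q2, isPP_enc.2 ⟨hq2, hp2⟩, leP_enc.2 hle2, by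
      rw [decR_rR, decC_enc, decP_enc]; exact hcan⟩
  obtain ⟨a', q', rfl, hg', hp'⟩ := hxP.exists
  rw [decR_rR, decC_enc, decP_enc] at hxcan
  rw [leP_enc] at hxle
  have hq' : q' ∈ CC cle := ⟨hg', cle_enc I a' [] hxL⟩
  have hle3 : LeP a q1 a q := ⟨[], by simp, le_nil_of_leS hle1 hq.1⟩
  exact ⟨a', q', hq', hp', leP_trans hq.1 hq1.1 hle3 hxle, R, hRL, hRd.leP hq1.1 ha1 hxle,
    Dec.leP I hDP hq1 hq' ha1 hxle hDec, hxcan⟩

end Helper99.PC
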