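import Pool.Agent.Helper44.PC.Prim
import Pool.Agent.Helper44.PC.Calc

set_option autoImplicit false

noncomputable section

namespace Helper99.PC

open Helper99.TT Encodable
open Pool.Agent.Helper44.CL hiding TT
open Pool.Agent.Helper44.PC

universe u

/-- the code of a pair (piece, condition) -/
def enc (a : List H) (q : Cond) : Set ℕ := join (fun i => match i with
  | 0 => {encode a}
  | 1 => {encode q.t}
  | 2 => encode '' {x : ℕ × H | x.2 ∈ q.V x.1}
  | 3 => encode '' q.F
  | _ => ∅)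

open Classical in
def decP (x : Set ℕ) : List H := if h : ∃ a : List H, col x 0 = {encode a} then h.choose else []

open Classical in
def decC (x : Set ℕ) : Cond where
  t := if h : ∃ a : Node, col x 1 = {encode a} then h.choose else []
  V := fun p => if h : {v : H | encode (p, v) ∈ col x 2}.Finite then h.toFinset else ∅
  F := {y | encode y ∈ col x 3}

/-- the choice of the unique element -/
theorem code_choose_iff {β : Type*} [Primcodable β] (S : Set ℕ) (d b : β)
    [Decidable (∃ a : β, S = {encode a})] :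
    (if h : ∃ a : β, S = {encode a} then h.choose else d) = b ↔
      (∀ m, m ∈ S ↔ m = encode b) ∨ ((¬ ∃ a : β, ∀ m, m ∈ S ↔ m = encode a) ∧ d = b) := by
  have key : ∀ a : β, S = {encode a} ↔ ∀ m, m ∈ S ↔ m = encode a := fun a => by
    rw [Set.ext_iff]; rfl
  by_cases h : ∃ a : β, S = {encode a}
  · rw [dif_pos h]
    have hs := h.choose_spec
    constructor
    · intro e
      rw [e] at hs
      exact Or.inl ((key b).1 hs)
    · rintro (h1 | ⟨h1, _⟩)
      · exact encode_injective (Set.singleton_injective (hs.symm.trans ((key b).2 h1)))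
      · exact (h1 ⟨_, (key _).1 hs⟩).elim
  · rw [dif_neg h]
    constructor
    · intro e
      exact Or.inr ⟨fun ⟨a, ha⟩ => h ⟨a, (key a).2 ha⟩, e⟩
    · rintro (h1 | ⟨_, h1⟩)
      · exact (h ⟨b, (key b).2 h1⟩).elim
      · exact h1

theorem code_col0 (a : List H) (q : Cond) : col (enc a q) 0 = {encode a} := by
  rw [enc, col_join]
  rfl

theorem code_col1 (a : List H) (q : Cond) : col (enc a q) 1 = {encode q.t} := by
  rw [enc, col_join]
  rfl

theorem code_col2 (a : List H) (q : Cond) :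
    col (enc a q) 2 = encode '' {x : ℕ × H | x.2 ∈ q.V x.1} := by
  rw [enc, col_join]
  rfl

theorem code_col3 (a : List H) (q : Cond) : col (enc a q) 3 = encode '' q.F := by
  rw [enc, col_join]
  rfl

theorem decP_enc (a : List H) (q : Cond) : decP (enc a q) = a := by
  unfold decP
  rw [code_choose_iff]
  left
  intro m
  rw [code_col0]
  rfl

theorem decC_enc (a : List H) (q : Cond) : decC (enc a q) = q := by
  have h1 : (decC (enc a q)).t = q.t := by
    unfold decC
    dsimp only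
    rw [code_choose_iff]
    left
    intro m
    rw [code_col1]
    rfl
  have h2 : (decC (enc a q)).V = q.V := by
    funext p
    have h3 : {v : H | encode (p, v) ∈ col (enc a q) 2} = (q.V p : Set H) := by
      ext v
      rw [code_col2]
      constructor
      · rintro ⟨b, hb, e⟩
        rw [encode_injective e] at hb
        exact hb
      · intro hv
        exact ⟨(p, v), hv, rfl⟩
    have hf : {v : H | encode (p, v) ∈ col (enc a q) 2}.Finite := by
      rw [h3]; exact (q.V p).finite_toSet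
    unfold decC
    dsimp only
    rw [dif_pos hf]
    ext v
    rw [Set.Finite.mem_toFinset, h3, Finset.mem_coe]
  have h4 : (decC (enc a q)).F = q.F := by
    unfold decC
    dsimp only
    rw [code_col3]
    ext y
    constructor
    · rintro ⟨b, hb, e⟩
      rw [encode_injective e] at hb
      exact hb
    · intro hy
      exact ⟨y, hy, rfl⟩
  have e : decC (enc a q) =
      ⟨(decC (enc a q)).t, (decC (enc a q)).V, (decC (enc a q)).F⟩ := rfl
  rw [e, h1, h2, h4]

variable {α : Type u} [Primcodable α]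

theorem ar_decP (i : ℕ) {f : α → List H} (hf : Primrec f) :
    Ar (fun ρ u => decP (ρ i) = f u) := by
  have hc : ArS (fun ρ (_ : α) => col (ρ i) 0) :=
    Ar.orac i (Primrec₂.natPair.comp (Primrec.const 0) Primrec.snd)
  have hc2 : ArS (fun ρ (_ : α × List H) => col (ρ i) 0) :=
    Ar.orac i (Primrec₂.natPair.comp (Primrec.const 0) Primrec.snd)
  refine (Ar.or (R := fun ρ u => ∀ m, m ∈ col (ρ i) 0 ↔ m = encode (f u))
    (S := fun ρ u => (¬ ∃ a : List H, ∀ m, m ∈ col (ρ i) 0 ↔ m = encode a) ∧ [] = f u)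
    ?_ ?_).of_eq fun ρ u => @code_choose_iff _ _ _ _ _ (Classical.propDecidable _)
  · exact Ar.all (R := fun ρ u (m : ℕ) => m ∈ col (ρ i) 0 ↔ m = encode (f u))
      (Ar.iff hc (Ar.eq Primrec.snd (Primrec.encode.comp (hf.comp Primrec.fst))))
  · refine Ar.and (Ar.not (Ar.ex (R := fun ρ (_ : α) (a : List H) => ∀ m, m ∈ col (ρ i) 0 ↔
      m = encode a) (Ar.all (R := fun ρ (p : α × List H) (m : ℕ) => m ∈ col (ρ i) 0 ↔
      m = encode p.2) ?_))) (Ar.geq (ArG.const _) (ArG.prim hf))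
    exact Ar.iff hc2 (Ar.eq Primrec.snd (Primrec.encode.comp (Primrec.snd.comp Primrec.fst)))

theorem ar_t (i : ℕ) {f : α → Node} (hf : Primrec f) :
    Ar (fun ρ u => (decC (ρ i)).t = f u) := by
  have hc : ArS (fun ρ (_ : α) => col (ρ i) 1) :=
    Ar.orac i (Primrec₂.natPair.comp (Primrec.const 1) Primrec.snd)
  have hc2 : ArS (fun ρ (_ : α × Node) => col (ρ i) 1) :=
    Ar.orac i (Primrec₂.natPair.comp (Primrec.const 1) Primrec.snd)
  refine (Ar.or (R := fun ρ u => ∀ m, m ∈ col (ρ i) 1 ↔ m = encode (f u))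
    (S := fun ρ u => (¬ ∃ a : Node, ∀ m, m ∈ col (ρ i) 1 ↔ m = encode a) ∧ [] = f u)
    ?_ ?_).of_eq fun ρ u => @code_choose_iff _ _ _ _ _ (Classical.propDecidable _)
  · exact Ar.all (R := fun ρ u (m : ℕ) => m ∈ col (ρ i) 1 ↔ m = encode (f u))
      (Ar.iff hc (Ar.eq Primrec.snd (Primrec.encode.comp (hf.comp Primrec.fst))))
  · refine Ar.and (Ar.not (Ar.ex (R := fun ρ (_ : α) (a : Node) => ∀ m, m ∈ col (ρ i) 1 ↔
      m = encode a) (Ar.all (R := fun ρ (p : α × Node) (m : ℕ) => m ∈ col (ρ i) 1 ↔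
      m = encode p.2) ?_))) (Ar.geq (ArG.const _) (ArG.prim hf))
    exact Ar.iff hc2 (Ar.eq Primrec.snd (Primrec.encode.comp (Primrec.snd.comp Primrec.fst)))

theorem code_memV_iff {x : Set ℕ} {p : ℕ} {v : H} : v ∈ (decC x).V p ↔
    encode (p, v) ∈ col x 2 ∧ ∃ N : ℕ, ∀ w : H, encode (p, w) ∈ col x 2 → encode w < N := by
  unfold decC
  dsimp only
  split_ifs with hf
  · rw [Set.Finite.mem_toFinset]
    refine ⟨fun h => ⟨h, ?_⟩, fun h => h.1⟩
    obtain ⟨N, hN⟩ := (hf.image (fun w : H => encode w)).bddAbove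
    exact ⟨N + 1, fun w hw => Nat.lt_succ_of_le (hN ⟨w, hw, rfl⟩)⟩
  · constructor
    · intro h
      exact (Finset.notMem_empty _ h).elim
    · rintro ⟨_, N, hN⟩
      exact (hf (Set.Finite.of_finite_image (f := fun w : H => encode w)
        ((Set.finite_lt_nat N).subset (by rintro _ ⟨w, hw, rfl⟩; exact hN w hw))
        encode_injective.injOn)).elim

theorem ar_memV (i : ℕ) {f : α → ℕ} {g : α → H} (hf : Primrec f) (hg : Primrec g) :
    Ar (fun ρ u => g u ∈ (decC (ρ i)).V (f u)) := by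
  refine (Ar.and (R := fun ρ u => encode (f u, g u) ∈ col (ρ i) 2)
    (S := fun ρ u => ∃ N : ℕ, ∀ w : H, encode (f u, w) ∈ col (ρ i) 2 → encode w < N) ?_
    (Ar.ex (R := fun ρ u (N : ℕ) => ∀ w : H, encode (f u, w) ∈ col (ρ i) 2 → encode w < N)
      (Ar.all (R := fun ρ (p : α × ℕ) (w : H) => encode (f p.1, w) ∈ col (ρ i) 2 →
        encode w < p.2) (Ar.imp ?_ ?_)))).of_eq fun ρ u => code_memV_iff (x := ρ i) (p := f u) (v := g u)
  · exact Ar.orac i (Primrec₂.natPair.comp (Primrec.const 2)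
      (Primrec.encode.comp (hf.pair hg)))
  · exact Ar.orac i (Primrec₂.natPair.comp (Primrec.const 2)
      (Primrec.encode.comp ((hf.comp (Primrec.fst.comp Primrec.fst)).pair Primrec.snd)))
  · exact Ar.lt (Primrec.encode.comp Primrec.snd) (Primrec.snd.comp Primrec.fst)

theorem ar_memF (i : ℕ) {f : α → Node} (hf : Primrec f) :
    Ar (fun ρ u => f u ∈ (decC (ρ i)).F) :=
  Ar.orac i (Primrec₂.natPair.comp (Primrec.const 3) (Primrec.encode.comp hf))

theorem code_mem_iff {a : List H} {q : Cond} {n : ℕ} : n ∈ enc a q ↔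
    (n.unpair.1 = 0 ∧ encode a = n.unpair.2) ∨ (n.unpair.1 = 1 ∧ encode q.t = n.unpair.2) ∨
    (n.unpair.1 = 2 ∧ ∃ x : ℕ × H, x.2 ∈ q.V x.1 ∧ encode x = n.unpair.2) ∨
    (n.unpair.1 = 3 ∧ ∃ y : Node, y ∈ q.F ∧ encode y = n.unpair.2) := by
  simp only [enc, join, Set.mem_ofPred_eq]
  rcases h : n.unpair.1 with _ | _ | _ | _ | m
  · simp [eq_comm]
  · simp [eq_comm]
  · simp
  · simp
  · simp

/-- real-valued functions whose values are codes -/
theorem arS_enc {f : (ℕ → Set ℕ) → α → List H} {Q : (ℕ → Set ℕ) → α → Cond}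
    (hf : Ar (fun ρ (p : α × List H) => f ρ p.1 = p.2))
    (ht : Ar (fun ρ (p : α × Node) => (Q ρ p.1).t = p.2))
    (hV : Ar (fun ρ (p : α × ℕ × H) => p.2.2 ∈ (Q ρ p.1).V p.2.1))
    (hF : Ar (fun ρ (p : α × Node) => p.2 ∈ (Q ρ p.1).F)) :
    ArS (fun ρ u => enc (f ρ u) (Q ρ u)) := by
  have k1 : Primrec (fun p : α × ℕ => p.2.unpair.1) :=
    Primrec.fst.comp (Primrec.unpair.comp Primrec.snd)
  have k2 : Primrec (fun p : α × ℕ => p.2.unpair.2) :=
    Primrec.snd.comp (Primrec.unpair.comp Primrec.snd)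
  have hf' : ArG (fun ρ (p : α × ℕ) => f ρ p.1) := ArG.comp (F := f) hf Primrec.fst
  have ht' : ArG (fun ρ (p : α × ℕ) => (Q ρ p.1).t) :=
    ArG.comp (F := fun ρ u => (Q ρ u).t) ht Primrec.fst
  refine (Ar.or (Ar.and (Ar.eq k1 (Primrec.const 0)) ?_) (Ar.or (Ar.and (Ar.eq k1
    (Primrec.const 1)) ?_) (Ar.or (Ar.and (Ar.eq k1 (Primrec.const 2)) ?_) (Ar.and (Ar.eq k1
    (Primrec.const 3)) ?_)))).of_eq fun ρ p => code_mem_iff
  · exact Ar.geq (ArG.map Primrec.encode hf') (ArG.prim k2)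
  · exact Ar.geq (ArG.map Primrec.encode ht') (ArG.prim k2)
  · refine Ar.ex (R := fun ρ (p : α × ℕ) (x : ℕ × H) => x.2 ∈ (Q ρ p.1).V x.1 ∧
      encode x = p.2.unpair.2) (Ar.and ?_ ?_)
    · exact Ar.comp (f := fun r : (α × ℕ) × ℕ × H => (r.1.1, r.2)) hV
        ((Primrec.fst.comp Primrec.fst).pair Primrec.snd)
    · exact Ar.eq (Primrec.encode.comp Primrec.snd) (k2.comp Primrec.fst)
  · refine Ar.ex (R := fun ρ (p : α × ℕ) (y : Node) => y ∈ (Q ρ p.1).F ∧
      encode y = p.2.unpair.2) (Ar.and ?_ ?_)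
    · exact Ar.comp (f := fun r : (α × ℕ) × Node => (r.1.1, r.2)) hF
        ((Primrec.fst.comp Primrec.fst).pair Primrec.snd)
    · exact Ar.eq (Primrec.encode.comp Primrec.snd) (k2.comp Primrec.fst)

end Helper99.PC
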