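import Pool.Agent.Helper44.CL.Interface

/-!
# Part C: relations arithmetical (third-order definable) with a real parameter

`AL cle z Φ`: the relation `Φ` is arithmetical in a real `σ` with `cle σ z`.
`TL cle L2 Φ`: the relation `Φ` is third-order definable over `L` with parameters in `L`.
-/

set_option autoImplicit false

namespace Helper99.PC

open Encodable
open Pool.Agent.Helper44.CL

universe u u₁ u₂

section AW

variable {α : Type u₁} {β : Type u₂} [Primcodable α] [Primcodable β]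

/-- arithmetical in `σ` -/
def AW (σ : Set ℕ) (Φ : (ℕ → Set ℕ) → α → Prop) : Prop :=
  ∃ R : (ℕ → Set ℕ) → α → Prop, Ar R ∧ ∀ ρ a, Φ ρ a ↔ R (cons σ ρ) a

/-- third-order definable with the parameter `σ` -/
def TW (RL : Set (Set ℕ)) (PS : Set (Set (Set ℕ))) (σ : Set ℕ) (Φ : (ℕ → Set ℕ) → α → Prop) :
    Prop :=
  ∃ R : (ℕ → Set ℕ) → α → Prop, Pool.Agent.Helper44.CL.TT RL PS R ∧ ∀ ρ a, Φ ρ a ↔ R (cons σ ρ) a

theorem arS_col (i : ℕ) {f : α → ℕ} (hf : Primrec f) :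
    ArS (fun ρ (a : α) => col (ρ i) (f a)) :=
  Ar.orac i (Primrec₂.natPair.comp (hf.comp Primrec.fst) Primrec.snd)

theorem arS_jn {F G : (ℕ → Set ℕ) → α → Set ℕ} (hF : ArS F) (hG : ArS G) :
    ArS (fun ρ a => jn (F ρ a) (G ρ a)) := by
  have h1 : Primrec (fun p : α × ℕ => p.2.unpair.1) :=
    Primrec.fst.comp (Primrec.unpair.comp Primrec.snd)
  have h2 : Primrec (fun p : α × ℕ => (p.1, p.2.unpair.2)) :=
    Primrec.fst.pair (Primrec.snd.comp (Primrec.unpair.comp Primrec.snd))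
  refine Ar.of_eq (((Ar.eq h1 (Primrec.const 0)).and (Ar.comp hF h2)).or
    ((Ar.eq h1 (Primrec.const 1)).and (Ar.comp hG h2))) fun ρ p => ?_
  simp only [jn, join, Set.mem_ofPred_eq]
  rcases h : p.2.unpair.1 with _ | _ | m
  · simp
  · simp
  · simp [cons]

theorem arS_tag {f : α → ℕ} (hf : Primrec f) {G : (ℕ → Set ℕ) → α → Set ℕ} (hG : ArS G) :
    ArS (fun ρ a => tag (f a) (G ρ a)) :=
  arS_jn (Ar.of_eq (Ar.eq Primrec.snd (hf.comp Primrec.fst)) fun ρ p => by simp) hG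

variable {σ : Set ℕ} {RL : Set (Set ℕ)} {PS : Set (Set (Set ℕ))}

theorem AW.of_eq {R S : (ℕ → Set ℕ) → α → Prop} (h : AW σ R) (e : ∀ ρ a, S ρ a ↔ R ρ a) :
    AW σ S := by
  obtain ⟨Q, hQ, h⟩ := h
  exact ⟨Q, hQ, fun ρ a => (e ρ a).trans (h ρ a)⟩

theorem AW.of_ar {R : (ℕ → Set ℕ) → α → Prop} (h : Ar R) : AW σ R :=
  ⟨fun ρ a => R (fun i => ρ (i + 1)) a,
    Ar.subst h (F := fun i ρ (_ : α) => ρ (i + 1)) (fun i => ArS.orac (i + 1)) Primrec.id,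
    fun _ _ => Iff.rfl⟩

theorem AW.not {R : (ℕ → Set ℕ) → α → Prop} (h : AW σ R) : AW σ (fun ρ a => ¬ R ρ a) := by
  obtain ⟨Q, hQ, h⟩ := h
  exact ⟨_, hQ.not, fun ρ a => not_congr (h ρ a)⟩

theorem AW.and {R S : (ℕ → Set ℕ) → α → Prop} (h : AW σ R) (h' : AW σ S) :
    AW σ (fun ρ a => R ρ a ∧ S ρ a) := by
  obtain ⟨Q, hQ, h⟩ := h
  obtain ⟨Q', hQ', h'⟩ := h'
  exact ⟨_, hQ.and hQ', fun ρ a => and_congr (h ρ a) (h' ρ a)⟩

theorem AW.imp {R S : (ℕ → Set ℕ) → α → Prop} (h : AW σ R) (h' : AW σ S) :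
    AW σ (fun ρ a => R ρ a → S ρ a) :=
  (h.and h'.not).not.of_eq fun ρ a => by tauto

theorem AW.or {R S : (ℕ → Set ℕ) → α → Prop} (h : AW σ R) (h' : AW σ S) :
    AW σ (fun ρ a => R ρ a ∨ S ρ a) :=
  (h.not.and h'.not).not.of_eq fun ρ a => by tauto

theorem AW.iff {R S : (ℕ → Set ℕ) → α → Prop} (h : AW σ R) (h' : AW σ S) :
    AW σ (fun ρ a => R ρ a ↔ S ρ a) :=
  ((h.imp h').and (h'.imp h)).of_eq fun ρ a => by tauto

theorem AW.ex {R : (ℕ → Set ℕ) → α → β → Prop}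
    (h : AW σ (fun ρ (p : α × β) => R ρ p.1 p.2)) : AW σ (fun ρ a => ∃ b, R ρ a b) := by
  obtain ⟨Q, hQ, h⟩ := h
  refine ⟨fun ρ a => ∃ b, Q ρ (a, b), Ar.ex (R := fun ρ a b => Q ρ (a, b)) hQ, fun ρ a => ?_⟩
  exact exists_congr fun b => h ρ (a, b)

theorem AW.all {R : (ℕ → Set ℕ) → α → β → Prop}
    (h : AW σ (fun ρ (p : α × β) => R ρ p.1 p.2)) : AW σ (fun ρ a => ∀ b, R ρ a b) :=
  (AW.ex (R := fun ρ a b => ¬ R ρ a b) h.not).not.of_eq fun ρ a => by push Not; rfl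

theorem AW.comp {R : (ℕ → Set ℕ) → β → Prop} (h : AW σ R) {f : α → β} (hf : Primrec f) :
    AW σ (fun ρ a => R ρ (f a)) := by
  obtain ⟨Q, hQ, h⟩ := h
  exact ⟨_, hQ.comp hf, fun ρ a => h ρ (f a)⟩

theorem AW.par {f : α → ℕ} (hf : Primrec f) : AW σ (fun _ a => f a ∈ σ) :=
  ⟨fun ρ a => f a ∈ ρ 0, Ar.orac 0 hf, fun _ _ => Iff.rfl⟩

theorem AW.subst {R : (ℕ → Set ℕ) → β → Prop} (hR : AW σ R) {F : ℕ → (ℕ → Set ℕ) → α → Set ℕ}
    (hF : ∀ i, AW σ (fun ρ (p : α × ℕ) => p.2 ∈ F i ρ p.1)) {f : α → β} (hf : Primrec f) :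
    AW σ (fun ρ a => R (fun i => F i ρ a) (f a)) := by
  obtain ⟨Q, hQ, h⟩ := hR
  choose S hS hSe using hF
  let K : ℕ → (ℕ → Set ℕ) → α → Set ℕ := fun i ρ a => match i with
    | 0 => ρ 0
    | i + 1 => {n | S i ρ (a, n)}
  have hK : ∀ i, ArS (K i) := by
    intro i
    cases i with
    | zero => exact ArS.orac 0
    | succ i => exact hS i
  refine ⟨fun ρ a => Q (fun i => K i ρ a) (f a), hQ.subst hK hf, fun ρ a => ?_⟩
  refine (h _ _).trans ?_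
  have e : cons σ (fun i => F i ρ a) = fun i => K i (cons σ ρ) a := by
    funext i
    cases i with
    | zero => rfl
    | succ i =>
      ext n
      exact hSe i ρ (a, n)
  rw [e]

/-- change of the parameter -/
theorem AW.mono {R : (ℕ → Set ℕ) → α → Prop} {τ : Set ℕ} (j : ℕ) (h : AW (col τ j) R) :
    AW τ R := by
  obtain ⟨Q, hQ, h⟩ := h
  let K : ℕ → (ℕ → Set ℕ) → α → Set ℕ := fun i ρ _ => match i with
    | 0 => col (ρ 0) j
    | i + 1 => ρ (i + 1)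
  have hK : ∀ i, ArS (K i) := by
    intro i
    cases i with
    | zero => exact arS_col 0 (Primrec.const j)
    | succ i => exact ArS.orac (i + 1)
  refine ⟨fun ρ a => Q (fun i => K i ρ a) a, hQ.subst hK Primrec.id, fun ρ a => ?_⟩
  refine (h _ _).trans ?_
  have e : cons (col τ j) ρ = fun i => K i (cons τ ρ) a := by
    funext i
    cases i with
    | zero => rfl
    | succ i => rfl
  rw [e]

theorem TW.of_eq {R S : (ℕ → Set ℕ) → α → Prop} (h : TW RL PS σ R) (e : ∀ ρ a, S ρ a ↔ R ρ a) :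
    TW RL PS σ S := by
  obtain ⟨Q, hQ, h⟩ := h
  exact ⟨Q, hQ, fun ρ a => (e ρ a).trans (h ρ a)⟩

theorem TW.of_aw {R : (ℕ → Set ℕ) → α → Prop} (h : AW σ R) : TW RL PS σ R := by
  obtain ⟨Q, hQ, h⟩ := h
  exact ⟨Q, TT.ar hQ, h⟩

theorem TW.not {R : (ℕ → Set ℕ) → α → Prop} (h : TW RL PS σ R) :
    TW RL PS σ (fun ρ a => ¬ R ρ a) := by
  obtain ⟨Q, hQ, h⟩ := h
  exact ⟨_, hQ.not, fun ρ a => not_congr (h ρ a)⟩

theorem TW.and {R S : (ℕ → Set ℕ) → α → Prop} (h : TW RL PS σ R) (h' : TW RL PS σ S) :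
    TW RL PS σ (fun ρ a => R ρ a ∧ S ρ a) := by
  obtain ⟨Q, hQ, h⟩ := h
  obtain ⟨Q', hQ', h'⟩ := h'
  exact ⟨_, hQ.and hQ', fun ρ a => and_congr (h ρ a) (h' ρ a)⟩

theorem TW.ex {R : (ℕ → Set ℕ) → α → β → Prop}
    (h : TW RL PS σ (fun ρ (p : α × β) => R ρ p.1 p.2)) :
    TW RL PS σ (fun ρ a => ∃ b, R ρ a b) := by
  obtain ⟨Q, hQ, h⟩ := h
  refine ⟨fun ρ a => ∃ b, Q ρ (a, b),
    Pool.Agent.Helper44.CL.TT.ex (R := fun ρ a b => Q ρ (a, b)) hQ, fun ρ a => ?_⟩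
  exact exists_congr fun b => h ρ (a, b)

theorem TW.comp {R : (ℕ → Set ℕ) → β → Prop} (h : TW RL PS σ R) {f : α → β} (hf : Primrec f) :
    TW RL PS σ (fun ρ a => R ρ (f a)) := by
  obtain ⟨Q, hQ, h⟩ := h
  exact ⟨_, hQ.comp hf, fun ρ a => h ρ (f a)⟩

/-- substitution of arithmetical reals -/
theorem TW.subst {R : (ℕ → Set ℕ) → α → Prop} (hR : TW RL PS σ R)
    {F : ℕ → (ℕ → Set ℕ) → α → Set ℕ}
    (hF : ∀ i, AW σ (fun ρ (p : α × ℕ) => p.2 ∈ F i ρ p.1)) :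
    TW RL PS σ (fun ρ a => R (fun i => F i ρ a) a) := by
  obtain ⟨Q, hQ, h⟩ := hR
  choose S hS hSe using hF
  let K : ℕ → (ℕ → Set ℕ) → α → Set ℕ := fun i ρ a => match i with
    | 0 => ρ 0
    | i + 1 => {n | S i ρ (a, n)}
  have hK : ∀ i, ArS (K i) := by
    intro i
    cases i with
    | zero => exact ArS.orac 0
    | succ i => exact hS i
  refine ⟨fun ρ a => Q (fun i => K i ρ a) a, hQ.subst hK, fun ρ a => ?_⟩
  refine (h _ _).trans ?_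
  have e : cons σ (fun i => F i ρ a) = fun i => K i (cons σ ρ) a := by
    funext i
    cases i with
    | zero => rfl
    | succ i =>
      ext n
      exact hSe i ρ (a, n)
  rw [e]

theorem TW.mono {R : (ℕ → Set ℕ) → α → Prop} {τ : Set ℕ} (j : ℕ) (h : TW RL PS (col τ j) R) :
    TW RL PS τ R := by
  obtain ⟨Q, hQ, h⟩ := h
  let K : ℕ → (ℕ → Set ℕ) → α → Set ℕ := fun i ρ _ => match i with
    | 0 => col (ρ 0) j
    | i + 1 => ρ (i + 1)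
  have hK : ∀ i, ArS (K i) := by
    intro i
    cases i with
    | zero => exact arS_col 0 (Primrec.const j)
    | succ i => exact ArS.orac (i + 1)
  refine ⟨fun ρ a => Q (fun i => K i ρ a) a, hQ.subst hK, fun ρ a => ?_⟩
  refine (h _ _).trans ?_
  have e : cons (col τ j) ρ = fun i => K i (cons τ ρ) a := by
    funext i
    cases i with
    | zero => rfl
    | succ i => rfl
  rw [e]

/-- quantification over the reals of the class `RL` -/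
theorem TW.exR {R : Set ℕ → (ℕ → Set ℕ) → α → Prop}
    (h : TW RL PS σ (fun ρ a => R (ρ 0) (fun i => ρ (i + 1)) a)) :
    TW RL PS σ (fun ρ a => ∃ x ∈ RL, R x ρ a) := by
  obtain ⟨Q, hQ, h⟩ := h
  let K : ℕ → (ℕ → Set ℕ) → α → Set ℕ := fun i ρ _ => match i with
    | 0 => ρ 1
    | 1 => ρ 0
    | i + 2 => ρ (i + 2)
  have hK : ∀ i, ArS (K i) := by
    intro i
    match i with
    | 0 => exact ArS.orac 1
    | 1 => exact ArS.orac 0
    | i + 2 => exact ArS.orac (i + 2)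
  have h1 : Pool.Agent.Helper44.CL.TT RL PS (fun ρ a => Q (fun i => K i ρ a) a) := hQ.subst hK
  have h2 := Pool.Agent.Helper44.CL.TT.exR
    (R := fun x ρ a => Q (cons (ρ 0) (cons x (fun i => ρ (i + 1)))) a)
    (h1.of_eq fun ρ a => by
      have e : cons (ρ (0 + 1)) (cons (ρ 0) (fun i => ρ (i + 1 + 1))) = fun i => K i ρ a := by
        funext i
        match i with
        | 0 => rfl
        | 1 => rfl
        | i + 2 => rfl
      rw [← e])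
  refine ⟨_, h2, fun ρ a => ?_⟩
  refine exists_congr fun x => and_congr Iff.rfl ?_
  exact h (cons x ρ) a

theorem TW.mem {D : Set (Set ℕ)} (hD : D ∈ PS) (i : ℕ) :
    TW RL PS σ (fun ρ (_ : α) => ρ i ∈ D) :=
  ⟨_, TT.par hD (F := fun ρ _ => ρ (i + 1)) (ArS.orac (i + 1)), fun _ _ => Iff.rfl⟩

end AW

/-! ## Relations arithmetical in a real below `z` -/

section AL

variable {α : Type u₁} {β : Type u₂} [Primcodable α] [Primcodable β]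
variable {cle : Set ℕ → Set ℕ → Prop} {L2 : Set (Set (Set ℕ))} {z : Set ℕ}

/-- arithmetical in a real parameter below `z` -/
def AL (cle : Set ℕ → Set ℕ → Prop) (z : Set ℕ) (Φ : (ℕ → Set ℕ) → α → Prop) : Prop :=
  ∃ σ, cle σ z ∧ AW σ Φ

/-- real-valued functions arithmetical in a real parameter below `z` -/
def ALS (cle : Set ℕ → Set ℕ → Prop) (z : Set ℕ) (F : (ℕ → Set ℕ) → α → Set ℕ) : Prop :=
  AL cle z fun ρ (p : α × ℕ) => p.2 ∈ F ρ p.1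

/-- third-order definable over `L` with parameters in `L` -/
def TL (cle : Set ℕ → Set ℕ → Prop) (L2 : Set (Set (Set ℕ))) (Φ : (ℕ → Set ℕ) → α → Prop) :
    Prop :=
  ∃ σ, cle σ ∅ ∧ TW {x | cle x ∅} L2 σ Φ

theorem AL.of_eq {R S : (ℕ → Set ℕ) → α → Prop} (h : AL cle z R) (e : ∀ ρ a, S ρ a ↔ R ρ a) :
    AL cle z S := by
  obtain ⟨σ, hσ, h⟩ := h
  exact ⟨σ, hσ, h.of_eq e⟩

theorem TL.of_eq {R S : (ℕ → Set ℕ) → α → Prop} (h : TL cle L2 R) (e : ∀ ρ a, S ρ a ↔ R ρ a) :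
    TL cle L2 S := by
  obtain ⟨σ, hσ, h⟩ := h
  exact ⟨σ, hσ, h.of_eq e⟩

theorem AL.not {R : (ℕ → Set ℕ) → α → Prop} (h : AL cle z R) :
    AL cle z (fun ρ a => ¬ R ρ a) := by
  obtain ⟨σ, hσ, h⟩ := h
  exact ⟨σ, hσ, h.not⟩

theorem TL.not {R : (ℕ → Set ℕ) → α → Prop} (h : TL cle L2 R) :
    TL cle L2 (fun ρ a => ¬ R ρ a) := by
  obtain ⟨σ, hσ, h⟩ := h
  exact ⟨σ, hσ, h.not⟩

theorem AL.ex {R : (ℕ → Set ℕ) → α → β → Prop}
    (h : AL cle z (fun ρ (p : α × β) => R ρ p.1 p.2)) : AL cle z (fun ρ a => ∃ b, R ρ a b) := by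
  obtain ⟨σ, hσ, h⟩ := h
  exact ⟨σ, hσ, h.ex⟩

theorem TL.ex {R : (ℕ → Set ℕ) → α → β → Prop}
    (h : TL cle L2 (fun ρ (p : α × β) => R ρ p.1 p.2)) :
    TL cle L2 (fun ρ a => ∃ b, R ρ a b) := by
  obtain ⟨σ, hσ, h⟩ := h
  exact ⟨σ, hσ, h.ex⟩

theorem AL.all {R : (ℕ → Set ℕ) → α → β → Prop}
    (h : AL cle z (fun ρ (p : α × β) => R ρ p.1 p.2)) : AL cle z (fun ρ a => ∀ b, R ρ a b) :=
  (AL.ex (R := fun ρ a b => ¬ R ρ a b) h.not).not.of_eq fun ρ a => by push Not; rfl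

theorem TL.all {R : (ℕ → Set ℕ) → α → β → Prop}
    (h : TL cle L2 (fun ρ (p : α × β) => R ρ p.1 p.2)) :
    TL cle L2 (fun ρ a => ∀ b, R ρ a b) :=
  (TL.ex (R := fun ρ a b => ¬ R ρ a b) h.not).not.of_eq fun ρ a => by push Not; rfl

theorem AL.comp {R : (ℕ → Set ℕ) → β → Prop} (h : AL cle z R) {f : α → β} (hf : Primrec f) :
    AL cle z (fun ρ a => R ρ (f a)) := by
  obtain ⟨σ, hσ, h⟩ := h
  exact ⟨σ, hσ, h.comp hf⟩

theorem TL.comp {R : (ℕ → Set ℕ) → β → Prop} (h : TL cle L2 R) {f : α → β} (hf : Primrec f) :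
    TL cle L2 (fun ρ a => R ρ (f a)) := by
  obtain ⟨σ, hσ, h⟩ := h
  exact ⟨σ, hσ, h.comp hf⟩

/-- a real `≤ z` as a parameter -/
theorem AL.par {x : Set ℕ} (hx : cle x z) {f : α → ℕ} (hf : Primrec f) :
    AL cle z (fun _ a => f a ∈ x) :=
  ⟨x, hx, AW.par hf⟩

theorem TL.exR {R : Set ℕ → (ℕ → Set ℕ) → α → Prop}
    (h : TL cle L2 (fun ρ a => R (ρ 0) (fun i => ρ (i + 1)) a)) :
    TL cle L2 (fun ρ a => ∃ x, cle x ∅ ∧ R x ρ a) := by
  obtain ⟨σ, hσ, h⟩ := h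
  exact ⟨σ, hσ, h.exR⟩

theorem TL.allR {R : Set ℕ → (ℕ → Set ℕ) → α → Prop}
    (h : TL cle L2 (fun ρ a => R (ρ 0) (fun i => ρ (i + 1)) a)) :
    TL cle L2 (fun ρ a => ∀ x, cle x ∅ → R x ρ a) :=
  (TL.exR (R := fun x ρ a => ¬ R x ρ a) h.not).not.of_eq fun ρ a => by push Not; rfl

theorem TL.of_al {R : (ℕ → Set ℕ) → α → Prop} (h : AL cle ∅ R) : TL cle L2 R := by
  obtain ⟨σ, hσ, h⟩ := h
  exact ⟨σ, hσ, TW.of_aw h⟩

end AL

section I

variable {α : Type u₁} {β : Type u₂} [Primcodable α] [Primcodable β]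
variable {cle : Set ℕ → Set ℕ → Prop} {L2 : Set (Set (Set ℕ))} {z : Set ℕ}
variable (I : Iface cle L2)
include I

theorem AL.of_ar {R : (ℕ → Set ℕ) → α → Prop} (h : Ar R) : AL cle z R :=
  ⟨∅, I.empty_le z, AW.of_ar h⟩

theorem AL.and {R S : (ℕ → Set ℕ) → α → Prop} (h : AL cle z R) (h' : AL cle z S) :
    AL cle z (fun ρ a => R ρ a ∧ S ρ a) := by
  obtain ⟨σ, hσ, h⟩ := h
  obtain ⟨τ, hτ, h'⟩ := h'
  refine ⟨jn σ τ, I.jn_le hσ hτ, ?_⟩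
  rw [← col_jn_zero σ τ] at h
  rw [← col_jn_one σ τ] at h'
  exact (h.mono 0).and (h'.mono 1)

theorem AL.imp {R S : (ℕ → Set ℕ) → α → Prop} (h : AL cle z R) (h' : AL cle z S) :
    AL cle z (fun ρ a => R ρ a → S ρ a) :=
  (AL.and I h h'.not).not.of_eq fun ρ a => by tauto

theorem AL.or {R S : (ℕ → Set ℕ) → α → Prop} (h : AL cle z R) (h' : AL cle z S) :
    AL cle z (fun ρ a => R ρ a ∨ S ρ a) :=
  (AL.and I h.not h'.not).not.of_eq fun ρ a => by tauto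

theorem AL.iff {R S : (ℕ → Set ℕ) → α → Prop} (h : AL cle z R) (h' : AL cle z S) :
    AL cle z (fun ρ a => R ρ a ↔ S ρ a) :=
  (AL.and I (AL.imp I h h') (AL.imp I h' h)).of_eq fun ρ a => by tauto

theorem TL.of_ar {R : (ℕ → Set ℕ) → α → Prop} (h : Ar R) : TL cle L2 R :=
  TL.of_al (AL.of_ar I h)

theorem TL.and {R S : (ℕ → Set ℕ) → α → Prop} (h : TL cle L2 R) (h' : TL cle L2 S) :
    TL cle L2 (fun ρ a => R ρ a ∧ S ρ a) := by
  obtain ⟨σ, hσ, h⟩ := h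
  obtain ⟨τ, hτ, h'⟩ := h'
  refine ⟨jn σ τ, I.jn_le hσ hτ, ?_⟩
  rw [← col_jn_zero σ τ] at h
  rw [← col_jn_one σ τ] at h'
  exact (h.mono 0).and (h'.mono 1)

theorem TL.imp {R S : (ℕ → Set ℕ) → α → Prop} (h : TL cle L2 R) (h' : TL cle L2 S) :
    TL cle L2 (fun ρ a => R ρ a → S ρ a) :=
  (TL.and I h h'.not).not.of_eq fun ρ a => by tauto

theorem TL.or {R S : (ℕ → Set ℕ) → α → Prop} (h : TL cle L2 R) (h' : TL cle L2 S) :
    TL cle L2 (fun ρ a => R ρ a ∨ S ρ a) :=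
  (TL.and I h.not h'.not).not.of_eq fun ρ a => by tauto

theorem TL.iff {R S : (ℕ → Set ℕ) → α → Prop} (h : TL cle L2 R) (h' : TL cle L2 S) :
    TL cle L2 (fun ρ a => R ρ a ↔ S ρ a) :=
  (TL.and I (TL.imp I h h') (TL.imp I h' h)).of_eq fun ρ a => by tauto

/-- common parameter for four real-valued functions -/
theorem ALS.common {F G K M : (ℕ → Set ℕ) → α → Set ℕ} (hF : ALS cle z F) (hG : ALS cle z G)
    (hK : ALS cle z K) (hM : ALS cle z M) :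
    ∃ σ, cle σ z ∧ AW σ (fun ρ (p : α × ℕ) => p.2 ∈ F ρ p.1) ∧
      AW σ (fun ρ (p : α × ℕ) => p.2 ∈ G ρ p.1) ∧ AW σ (fun ρ (p : α × ℕ) => p.2 ∈ K ρ p.1) ∧
      AW σ (fun ρ (p : α × ℕ) => p.2 ∈ M ρ p.1) := by
  obtain ⟨σ1, h1, hF⟩ := hF
  obtain ⟨σ2, h2, hG⟩ := hG
  obtain ⟨σ3, h3, hK⟩ := hK
  obtain ⟨σ4, h4, hM⟩ := hM
  refine ⟨jn (jn σ1 σ2) (jn σ3 σ4), I.jn_le (I.jn_le h1 h2) (I.jn_le h3 h4), ?_, ?_, ?_, ?_⟩
  · refine AW.mono 0 (AW.mono 0 ?_)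
    simpa using hF
  · refine AW.mono 0 (AW.mono 1 ?_)
    simpa using hG
  · refine AW.mono 1 (AW.mono 0 ?_)
    simpa using hK
  · refine AW.mono 1 (AW.mono 1 ?_)
    simpa using hM

/-- substitution of four reals in an arithmetical relation -/
theorem AL.sub4 {Φ : Set ℕ → Set ℕ → Set ℕ → Set ℕ → β → Prop}
    (h : Ar (fun ρ (b : β) => Φ (ρ 0) (ρ 1) (ρ 2) (ρ 3) b)) {F G K M : (ℕ → Set ℕ) → α → Set ℕ}
    (hF : ALS cle z F) (hG : ALS cle z G) (hK : ALS cle z K) (hM : ALS cle z M) {f : α → β}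
    (hf : Primrec f) :
    AL cle z (fun ρ a => Φ (F ρ a) (G ρ a) (K ρ a) (M ρ a) (f a)) := by
  obtain ⟨σ, hσ, h1, h2, h3, h4⟩ := ALS.common I hF hG hK hM
  let T : ℕ → (ℕ → Set ℕ) → α → Set ℕ := fun i ρ a => match i with
    | 0 => F ρ a
    | 1 => G ρ a
    | 2 => K ρ a
    | 3 => M ρ a
    | _ + 4 => ∅
  have hT : ∀ i, AW σ (fun ρ (p : α × ℕ) => p.2 ∈ T i ρ p.1) := by
    intro i
    match i with
    | 0 => exact h1
    | 1 => exact h2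
    | 2 => exact h3
    | 3 => exact h4
    | _ + 4 => exact AW.of_ar ((Ar.const False).of_eq fun ρ a => by simp [T])
  exact ⟨σ, hσ, (AW.of_ar h).subst hT hf⟩

theorem AL.sub3 {Φ : Set ℕ → Set ℕ → Set ℕ → β → Prop}
    (h : Ar (fun ρ (b : β) => Φ (ρ 0) (ρ 1) (ρ 2) b)) {F G K : (ℕ → Set ℕ) → α → Set ℕ}
    (hF : ALS cle z F) (hG : ALS cle z G) (hK : ALS cle z K) {f : α → β} (hf : Primrec f) :
    AL cle z (fun ρ a => Φ (F ρ a) (G ρ a) (K ρ a) (f a)) :=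
  AL.sub4 I (Φ := fun x y w _ b => Φ x y w b) h hF hG hK hK hf

theorem AL.sub2 {Φ : Set ℕ → Set ℕ → β → Prop} (h : Ar (fun ρ (b : β) => Φ (ρ 0) (ρ 1) b))
    {F G : (ℕ → Set ℕ) → α → Set ℕ} (hF : ALS cle z F) (hG : ALS cle z G) {f : α → β}
    (hf : Primrec f) : AL cle z (fun ρ a => Φ (F ρ a) (G ρ a) (f a)) :=
  AL.sub4 I (Φ := fun x y _ _ b => Φ x y b) h hF hG hG hG hf

theorem AL.sub1 {Φ : Set ℕ → β → Prop} (h : Ar (fun ρ (b : β) => Φ (ρ 0) b))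
    {F : (ℕ → Set ℕ) → α → Set ℕ} (hF : ALS cle z F) {f : α → β} (hf : Primrec f) :
    AL cle z (fun ρ a => Φ (F ρ a) (f a)) :=
  AL.sub4 I (Φ := fun x _ _ _ b => Φ x b) h hF hF hF hF hf

/-- a real `≤ z` as a constant real-valued function -/
theorem ALS.const {x : Set ℕ} (hx : cle x z) : ALS cle z (fun _ (_ : α) => x) :=
  AL.par hx Primrec.snd

theorem ALS.var (i : ℕ) : ALS cle z (fun ρ (_ : α) => ρ i) :=
  AL.of_ar I (Ar.orac i Primrec.snd)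

theorem ALS.of_arS {F : (ℕ → Set ℕ) → α → Set ℕ} (h : ArS F) : ALS cle z F := AL.of_ar I h

theorem ALS.comp {F : (ℕ → Set ℕ) → β → Set ℕ} (h : ALS cle z F) {f : α → β} (hf : Primrec f) :
    ALS cle z (fun ρ a => F ρ (f a)) :=
  AL.comp (f := fun p : α × ℕ => (f p.1, p.2)) h
    (Primrec.pair (hf.comp Primrec.fst) Primrec.snd)

/-- real-valued functions: composition with an arithmetical function of two reals -/
theorem ALS.sub2 {K : Set ℕ → Set ℕ → β → Set ℕ}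
    (h : ArS (fun ρ (b : β) => K (ρ 0) (ρ 1) b)) {F G : (ℕ → Set ℕ) → α → Set ℕ}
    (hF : ALS cle z F) (hG : ALS cle z G) {f : α → β} (hf : Primrec f) :
    ALS cle z (fun ρ a => K (F ρ a) (G ρ a) (f a)) :=
  AL.sub2 I (Φ := fun x y (p : β × ℕ) => p.2 ∈ K x y p.1) h
    (hF.comp I (f := fun p : α × ℕ => p.1) Primrec.fst)
    (hG.comp I (f := fun p : α × ℕ => p.1) Primrec.fst)
    (f := fun p : α × ℕ => (f p.1, p.2)) (Primrec.pair (hf.comp Primrec.fst) Primrec.snd)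

theorem ALS.sub1 {K : Set ℕ → β → Set ℕ}
    (h : ArS (fun ρ (b : β) => K (ρ 0) b)) {F : (ℕ → Set ℕ) → α → Set ℕ}
    (hF : ALS cle z F) {f : α → β} (hf : Primrec f) :
    ALS cle z (fun ρ a => K (F ρ a) (f a)) :=
  ALS.sub2 I (K := fun x _ b => K x b) h hF hF hf

/-- substitution of three reals in a third-order relation -/
theorem TL.sub3 {Φ : Set ℕ → Set ℕ → Set ℕ → α → Prop}
    (h : TL cle L2 (fun ρ (b : α) => Φ (ρ 0) (ρ 1) (ρ 2) b)) {F G K : (ℕ → Set ℕ) → α → Set ℕ}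
    (hF : ALS cle ∅ F) (hG : ALS cle ∅ G) (hK : ALS cle ∅ K) :
    TL cle L2 (fun ρ a => Φ (F ρ a) (G ρ a) (K ρ a) a) := by
  obtain ⟨σ, hσ, h1, h2, h3, h4⟩ := ALS.common I hF hG hK hK
  obtain ⟨τ, hτ, h⟩ := h
  refine ⟨jn σ τ, I.jn_le hσ hτ, ?_⟩
  rw [← col_jn_zero σ τ] at h1 h2 h3 h4
  rw [← col_jn_one σ τ] at h
  let T : ℕ → (ℕ → Set ℕ) → α → Set ℕ := fun i ρ a => match i with
    | 0 => F ρ a
    | 1 => G ρ a
    | 2 => K ρ a
    | _ + 3 => ∅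
  have hT : ∀ i, AW (jn σ τ) (fun ρ (p : α × ℕ) => p.2 ∈ T i ρ p.1) := by
    intro i
    match i with
    | 0 => exact h1.mono 0
    | 1 => exact h2.mono 0
    | 2 => exact h3.mono 0
    | _ + 3 => exact AW.of_ar ((Ar.const False).of_eq fun ρ a => by simp [T])
  exact (h.mono 1).subst hT

theorem TL.sub2 {Φ : Set ℕ → Set ℕ → α → Prop}
    (h : TL cle L2 (fun ρ (b : α) => Φ (ρ 0) (ρ 1) b)) {F G : (ℕ → Set ℕ) → α → Set ℕ}
    (hF : ALS cle ∅ F) (hG : ALS cle ∅ G) :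
    TL cle L2 (fun ρ a => Φ (F ρ a) (G ρ a) a) :=
  TL.sub3 I (Φ := fun x y _ b => Φ x y b) h hF hG hG

theorem TL.sub1 {Φ : Set ℕ → α → Prop} (h : TL cle L2 (fun ρ (b : α) => Φ (ρ 0) b))
    {F : (ℕ → Set ℕ) → α → Set ℕ} (hF : ALS cle ∅ F) : TL cle L2 (fun ρ a => Φ (F ρ a) a) :=
  TL.sub3 I (Φ := fun x _ _ b => Φ x b) h hF hF hF

/-- membership in an element of `L2` -/
theorem TL.mem {D : Set (Set ℕ)} (hD : D ∈ L2) {F : (ℕ → Set ℕ) → α → Set ℕ}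
    (hF : ALS cle ∅ F) : TL cle L2 (fun ρ a => F ρ a ∈ D) :=
  TL.sub1 I (Φ := fun x _ => x ∈ D) ⟨∅, I.refl ∅, TW.mem hD 0⟩ hF

/-- membership in a member of a sequence in `L2` -/
theorem TL.memSeq {D : ℕ → Set (Set ℕ)} (hD : SeqIn L2 D) {F : (ℕ → Set ℕ) → α → Set ℕ}
    (hF : ALS cle ∅ F) {f : α → ℕ} (hf : Primrec f) : TL cle L2 (fun ρ a => F ρ a ∈ D (f a)) := by
  have h1 : ALS cle ∅ (fun ρ a => tag (f a) (F ρ a)) :=
    ALS.sub1 I (K := fun x (n : ℕ) => tag n x)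
      (arS_tag Primrec.id (ArS.orac 0)) hF hf
  refine (TL.mem I hD h1).of_eq fun ρ a => ?_
  constructor
  · intro h
    exact ⟨f a, F ρ a, h, rfl⟩
  · rintro ⟨n, y, hy, h⟩
    obtain ⟨h1, rfl⟩ := tag_inj h
    rw [h1]; exact hy

/-! ## Applications -/

/-- reals arithmetical in reals below `z` are below `z` -/
theorem AL.real {Φ : ℕ → Prop} (h : AL cle z (fun _ (n : ℕ) => Φ n)) : cle {n | Φ n} z := by
  obtain ⟨σ, hσ, R, hR, h⟩ := h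
  have h1 := I.arith (ar_iff_arN.1 hR) (cons σ fun _ => ∅) z
    (I.cons_le hσ fun _ => I.empty_le z)
  have e : {n | Φ n} = {n | R (cons σ fun _ => ∅) n} := by
    ext n
    exact h (fun _ => ∅) n
  rw [e]
  exact h1

theorem AL.real_enc {Φ : α → Prop} (h : AL cle z (fun _ (a : α) => Φ a)) :
    cle (Encodable.encode '' {a | Φ a}) z := by
  have h1 : AL cle z (fun _ (n : ℕ) => ∃ a : α, Φ a ∧ Encodable.encode a = n) :=
    AL.ex (AL.and I (h.comp Primrec.snd)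
      (AL.of_ar I (Ar.eq (Primrec.encode.comp Primrec.snd) Primrec.fst)))
  exact AL.real I h1

/-- `Σ¹₁` absoluteness -/
theorem AL.sigma {Φ : Set ℕ → α → Prop} (h : AL cle ∅ (fun ρ (a : α) => Φ (ρ 0) a)) (a : α)
    (hx : ∃ x, Φ x a) : ∃ x, cle x ∅ ∧ Φ x a := by
  obtain ⟨σ, hσ, R, hR, h⟩ := h
  let K : ℕ → (ℕ → Set ℕ) → ℕ → Set ℕ := fun i ρ _ => match i with
    | 0 => ρ 1
    | 1 => ρ 0
    | i + 2 => ρ (i + 2)
  have hK : ∀ i, ArS (K i) := by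
    intro i
    match i with
    | 0 => exact ArS.orac 1
    | 1 => exact ArS.orac 0
    | i + 2 => exact ArS.orac (i + 2)
  have h1 : Ar (fun ρ (n : ℕ) => R (fun i => K i ρ n) a) := hR.subst hK (Primrec.const a)
  have e : ∀ x : Set ℕ, Φ x a ↔ R (fun i => K i (cons x (cons σ fun _ => ∅)) 0) a := by
    intro x
    refine (h (cons x fun _ => ∅) a).trans ?_
    have e1 : cons σ (cons x fun _ => ∅) = fun i => K i (cons x (cons σ fun _ => ∅)) 0 := by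
      funext i
      match i with
      | 0 => rfl
      | 1 => rfl
      | i + 2 => rfl
    rw [e1]
  obtain ⟨x, hx⟩ := hx
  obtain ⟨y, hy, h2⟩ := I.sigma (ar_iff_arN.1 h1) (cons σ fun _ => ∅) 0
    (I.cons_le hσ fun _ => I.refl ∅) ⟨x, (e x).1 hx⟩
  exact ⟨y, hy, (e y).2 h2⟩

/-- comprehension in `L` -/
theorem TL.compr {Φ : Set ℕ → α → Prop} (h : TL cle L2 (fun ρ (a : α) => Φ (ρ 0) a)) (a : α) :
    {x | cle x ∅ ∧ Φ x a} ∈ L2 := by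
  obtain ⟨σ, hσ, R, hR, h⟩ := h
  let K : ℕ → (ℕ → Set ℕ) → ℕ → Set ℕ := fun i ρ _ => match i with
    | 0 => ρ 1
    | 1 => ρ 0
    | i + 2 => ρ (i + 2)
  have hK : ∀ i, ArS (K i) := by
    intro i
    match i with
    | 0 => exact ArS.orac 1
    | 1 => exact ArS.orac 0
    | i + 2 => exact ArS.orac (i + 2)
  have h1 : Pool.Agent.Helper44.CL.TT {x | cle x ∅} L2
      (fun ρ (n : ℕ) => R (fun i => K i ρ n) a) :=
    Pool.Agent.Helper44.CL.TT.subst (R := fun ρ (_ : ℕ) => R ρ a) (hR.comp (Primrec.const a)) hK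
  have h2 := I.compr (tT_iff_t3.1 h1) (cons σ fun _ => ∅) 0 (I.cons_le hσ fun _ => I.refl ∅)
  have e : {x | cle x ∅ ∧ Φ x a} =
      {x | cle x ∅ ∧ R (fun i => K i (cons x (cons σ fun _ => ∅)) 0) a} := by
    ext x
    refine and_congr Iff.rfl ?_
    refine (h (cons x fun _ => ∅) a).trans ?_
    have e1 : cons σ (cons x fun _ => ∅) = fun i => K i (cons x (cons σ fun _ => ∅)) 0 := by
      funext i
      match i with
      | 0 => rfl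
      | 1 => rfl
      | i + 2 => rfl
    rw [e1]
  rw [e]
  exact h2

/-- sequences of elements of `L2` -/
theorem TL.seqIn {Φ : Set ℕ → ℕ → Prop} (h : TL cle L2 (fun ρ (n : ℕ) => Φ (ρ 0) n)) :
    SeqIn L2 (fun n => {x | cle x ∅ ∧ Φ x n}) := by
  have h1 : TL cle L2 (fun ρ (p : Unit × ℕ) => Φ (col (ρ 0) 1) p.2) :=
    (TL.sub1 I (Φ := fun x (p : Unit × ℕ) => Φ x p.2)
      (h.comp (f := fun p : Unit × ℕ => p.2) Primrec.snd)
      (F := fun ρ (_ : Unit × ℕ) => col (ρ 0) 1)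
      (ALS.of_arS I (arS_col 0 (Primrec.const 1))))
  have h2 : TL cle L2 (fun ρ (p : Unit × ℕ) => ρ 0 = tag p.2 (col (ρ 0) 1)) := by
    have h3 : ArS (fun ρ (p : Unit × ℕ) => tag p.2 (col (ρ 0) 1)) :=
      arS_tag Primrec.snd (arS_col 0 (Primrec.const 1))
    have h4 : Ar (fun ρ (p : Unit × ℕ) => ∀ n : ℕ, n ∈ ρ 0 ↔ n ∈ tag p.2 (col (ρ 0) 1)) :=
      Ar.all (R := fun ρ (p : Unit × ℕ) (n : ℕ) => n ∈ ρ 0 ↔ n ∈ tag p.2 (col (ρ 0) 1))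
        ((Ar.orac 0 Primrec.snd).iff h3)
    exact (TL.of_ar I h4).of_eq fun ρ p => Set.ext_iff
  have h5 := TL.compr I (Φ := fun x (_ : Unit) => ∃ n : ℕ, Φ (col x 1) n ∧ x = tag n (col x 1))
    (TL.ex (TL.and I h1 h2)) ()
  have e : {x | ∃ n, ∃ y ∈ {x | cle x ∅ ∧ Φ x n}, x = tag n y} =
      {x | cle x ∅ ∧ ∃ n : ℕ, Φ (col x 1) n ∧ x = tag n (col x 1)} := by
    ext x
    constructor
    · rintro ⟨n, y, ⟨hy, hΦ⟩, rfl⟩
      have hn : cle {n} ∅ := AL.real I (Φ := fun m => m = n)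
        (AL.of_ar I (Ar.eq Primrec.id (Primrec.const n)))
      refine ⟨I.jn_le hn hy, n, ?_, ?_⟩
      · simpa [tag] using hΦ
      · simp [tag]
    · rintro ⟨hx, n, hΦ, hxe⟩
      exact ⟨n, col x 1, ⟨I.col_le hx 1, hΦ⟩, hxe⟩
  unfold SeqIn
  rw [e]
  exact h5

/-- relations as elements of `L2` -/
theorem TL.relIn {Ψ : Set ℕ → Prop} {Φ : Set ℕ → Set ℕ → Prop}
    (hΨ : TL cle L2 (fun ρ (_ : Unit) => Ψ (ρ 0)))
    (h : TL cle L2 (fun ρ (_ : Unit) => Φ (ρ 0) (ρ 1))) :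
    RelIn L2 {x | cle x ∅ ∧ Ψ x} Φ := by
  have c0 : ALS cle ∅ (fun ρ (_ : Unit) => col (ρ 0) 0) :=
    ALS.of_arS I (arS_col 0 (Primrec.const 0))
  have c1 : ALS cle ∅ (fun ρ (_ : Unit) => col (ρ 0) 1) :=
    ALS.of_arS I (arS_col 0 (Primrec.const 1))
  have h2 : TL cle L2 (fun ρ (_ : Unit) => ρ 0 = jn (col (ρ 0) 0) (col (ρ 0) 1)) := by
    have h3 : ArS (fun ρ (_ : Unit) => jn (col (ρ 0) 0) (col (ρ 0) 1)) :=
      arS_jn (arS_col 0 (Primrec.const 0)) (arS_col 0 (Primrec.const 1))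
    have h4 : Ar (fun ρ (_ : Unit) => ∀ n : ℕ, n ∈ ρ 0 ↔ n ∈ jn (col (ρ 0) 0) (col (ρ 0) 1)) :=
      Ar.all (R := fun ρ (_ : Unit) (n : ℕ) => n ∈ ρ 0 ↔ n ∈ jn (col (ρ 0) 0) (col (ρ 0) 1))
        ((Ar.orac 0 Primrec.snd).iff h3)
    exact (TL.of_ar I h4).of_eq fun ρ p => Set.ext_iff
  have h5 := TL.compr I (Φ := fun x (_ : Unit) => (Ψ (col x 0) ∧ Ψ (col x 1)) ∧
    (Φ (col x 0) (col x 1) ∧ x = jn (col x 0) (col x 1)))
    (TL.and I (TL.and I (TL.sub1 I (Φ := fun x (_ : Unit) => Ψ x) hΨ c0)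
      (TL.sub1 I (Φ := fun x (_ : Unit) => Ψ x) hΨ c1))
      (TL.and I (TL.sub2 I (Φ := fun x y (_ : Unit) => Φ x y) h c0 c1) h2)) ()
  have e : {x | ∃ p ∈ {x | cle x ∅ ∧ Ψ x}, ∃ q ∈ {x | cle x ∅ ∧ Ψ x}, Φ p q ∧ x = jn p q} =
      {x | cle x ∅ ∧ ((Ψ (col x 0) ∧ Ψ (col x 1)) ∧
        (Φ (col x 0) (col x 1) ∧ x = jn (col x 0) (col x 1)))} := by
    ext x
    constructor
    · rintro ⟨p, ⟨hp, hΨp⟩, q, ⟨hq, hΨq⟩, hΦ, rfl⟩
      exact ⟨I.jn_le hp hq, by simpa using ⟨⟨hΨp, hΨq⟩, hΦ⟩⟩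
    · rintro ⟨hx, ⟨hp, hq⟩, hΦ, hxe⟩
      exact ⟨_, ⟨I.col_le hx 0, hp⟩, _, ⟨I.col_le hx 1, hq⟩, hΦ, hxe⟩
  unfold RelIn
  rw [e]
  exact h5

/-- dependent choice in `L` -/
theorem TL.dc {Φ : ℕ → Set ℕ → Set ℕ → Prop}
    (h : TL cle L2 (fun ρ (n : ℕ) => Φ n (ρ 0) (ρ 1)))
    (hs : ∀ n, ∀ x, cle x ∅ → ∃ y, cle y ∅ ∧ Φ n x y) {x₀ : Set ℕ} (hx : cle x₀ ∅) :
    ∃ s : ℕ → Set ℕ, cle (join s) ∅ ∧ s 0 = x₀ ∧ ∀ n, Φ n (s n) (s (n + 1)) := by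
  obtain ⟨σ, hσ, R, hR, h⟩ := h
  let K : ℕ → (ℕ → Set ℕ) → ℕ → Set ℕ := fun i ρ _ => match i with
    | 0 => ρ 2
    | 1 => ρ 0
    | 2 => ρ 1
    | i + 3 => ρ (i + 3)
  have hK : ∀ i, ArS (K i) := by
    intro i
    match i with
    | 0 => exact ArS.orac 2
    | 1 => exact ArS.orac 0
    | 2 => exact ArS.orac 1
    | i + 3 => exact ArS.orac (i + 3)
  have h1 : Pool.Agent.Helper44.CL.TT {x | cle x ∅} L2
      (fun ρ (n : ℕ) => R (fun i => K i ρ n) n) :=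
    Pool.Agent.Helper44.CL.TT.subst hR hK
  have e : ∀ n x y, Φ n x y ↔ R (fun i => K i (cons x (cons y (cons σ fun _ => ∅))) n) n := by
    intro n x y
    have h2 := h (cons x (cons y fun _ => ∅)) n
    refine h2.trans ?_
    have e1 : cons σ (cons x (cons y fun _ => ∅)) =
        fun i => K i (cons x (cons y (cons σ fun _ => ∅))) n := by
      funext i
      match i with
      | 0 => rfl
      | 1 => rfl
      | 2 => rfl
      | i + 3 => rfl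
    rw [e1]
  obtain ⟨s, hs1, hs2, hs3⟩ := I.dc (tT_iff_t3.1 h1) (cons σ fun _ => ∅)
    (I.cons_le hσ fun _ => I.refl ∅) (fun n x hx => by
      obtain ⟨y, hy, hΦ⟩ := hs n x hx
      exact ⟨y, hy, (e n x y).1 hΦ⟩) x₀ hx
  exact ⟨s, hs1, hs2, fun n => (e n _ _).2 (hs3 n)⟩

/-- reals defined by third-order formulas over `L` are in `L` -/
theorem TL.real {Φ : ℕ → Prop} (h : TL cle L2 (fun _ (n : ℕ) => Φ n)) : cle {n | Φ n} ∅ := by
  have h1 : TL cle L2 (fun ρ (n : ℕ) => (0 ∈ ρ 1 ↔ Φ n)) :=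
    TL.iff I (TL.of_ar I (Ar.orac 1 (Primrec.const 0))) h
  obtain ⟨s, hs, -, hs2⟩ := TL.dc I (Φ := fun n _ y => (0 ∈ y ↔ Φ n)) h1 (fun n x _ => by
    by_cases hn : Φ n
    · refine ⟨{0}, ?_, by simp [hn]⟩
      exact AL.real I (Φ := fun m => m = 0) (AL.of_ar I (Ar.eq Primrec.id (Primrec.const 0)))
    · exact ⟨∅, I.refl ∅, by simp [hn]⟩) (I.refl ∅)
  have h3 : AL cle ∅ (fun _ (n : ℕ) => Nat.pair (n + 1) 0 ∈ join s) :=
    AL.par hs (Primrec₂.natPair.comp Primrec.succ (Primrec.const 0))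
  have h4 := AL.real I h3
  have e : {n | Φ n} = {n | Nat.pair (n + 1) 0 ∈ join s} := by
    ext n
    simp only [join, Set.mem_ofPred_eq, Nat.unpair_pair]
    exact (hs2 n).symm
  rw [e]
  exact h4

end I

end Helper99.PC
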