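import Pool.Agent.Helper99.PC.Code
import Pool.Agent.Helper99.PC.Frame
import Pool.Agent.Helper99.TT.ReadD

/-!
# Part C (sections 9, 10), definitions
-/

set_option autoImplicit false

noncomputable section

namespace Helper99.PC

open Helper99.TT Encodable
open Pool.Agent.Helper44.CL hiding TT
open Pool.Agent.Helper44.PC

/-- the good conditions which are in `L` -/
def CC (cle : Set ℕ → Set ℕ → Prop) : Set Cond := {q | Good q ∧ cle (enc [] q) ∅}

/-- codes of elements of the poset `PP` of pairs (piece, condition) -/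
def IsPP (x : Set ℕ) : Prop :=
  Good (decC x) ∧ IsPiece (decC x).t (decP x) ∧ x = enc (decP x) (decC x)

def leP (x y : Set ℕ) : Prop := LeP (decP x) (decC x) (decP y) (decC y)

/-- the poset `PP` (in `L`) -/
def PP (cle : Set ℕ → Set ℕ → Prop) : Set (Set ℕ) := {x | cle x ∅ ∧ IsPP x}

/-- codes of elements of the poset `PB` of conditions -/
def IsPB (x : Set ℕ) : Prop := Good (decC x) ∧ x = enc [] (decC x)

def leB (x y : Set ℕ) : Prop := ∃ u, Le u (decC x) (decC y)

/-- a family as a condition -/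
def famC (V : Fam) : Cond where
  t := []
  V := V
  F := ∅

/-- codes of elements of the poset `YY` of pairs `(b, Y)` -/
def IsYY (x : Set ℕ) : Prop := IsX (decC x).V ∧ x = enc (decP x) (famC (decC x).V)

def leY (x y : Set ℕ) : Prop :=
  ∃ u, decP x = decP y ++ u ∧ Path (decC y).V (decP y).length u ∧
    SubX (decP x).length (decC x).V (decC y).V

/-- shift of the digits -/
def sh (n : ℕ) (v : H) : H := Finsupp.comapDomain (fun i => i + n) v
  (fun _ _ _ _ h => Nat.add_right_cancel h)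

@[simp] theorem sh_apply (n : ℕ) (v : H) (i : ℕ) : sh n v i = v (i + n) := rfl

def shF (n : ℕ) (V : Fam) : Fam := fun p => (V p).image (sh n)

def shA (n : ℕ) (A : ℕ → H) : ℕ → H := fun p => sh n (A p)

/-- the projections of `PP` -/
def piB (x : Set ℕ) : Set ℕ := enc [] (decC x)

def piY (n : ℕ) (x : Set ℕ) : Set ℕ := enc ((decP x).map (sh n)) (famC (shF n (decC x).V))

/-- the reals of `A`, `B` -/
def rA (A : ℕ → H) : Set ℕ := encode '' {x : ℕ × H | A x.1 = x.2}

def rB (B : ℕ → Step) : Set ℕ := encode '' {x : ℕ × Step | B x.1 = x.2}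

/-- the real of a reading -/
def rR (R : Rd) : Set ℕ := encode '' {x : (List H × Node) × List Bool | R x.1.1 x.1.2 = x.2}

open Classical in
/-- the reading coded by a real -/
def decR (x : Set ℕ) : Rd := fun b y =>
  if h : ∃! s : List Bool, encode ((b, y), s) ∈ x then h.choose else []

/-- `D` decides the values of the reading -/
def Dec (D : Bool → ℕ → Set (Set ℕ)) (R : Rd) (q : Cond) (a : List H) : Prop :=
  ∀ x ∈ q.F, ∀ b, IsReal q a x b → ∀ (i : ℕ) (e : Bool), (R b x)[i]? = some e →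
    ∃ d ∈ D e i, leP (enc b (q.cone x)) d

/-- `z` is the value of the reading at `(A, B)` -/
def Val (R : Rd) (q : Cond) (A : ℕ → H) (B : ℕ → Step) (z : Set ℕ) : Prop :=
  ∀ x ∈ q.F, Thru B x → ∀ (i : ℕ) (e : Bool), (R (preA A (plc x)) x)[i]? = some e →
    (i ∈ z ↔ e = true)

/-- generic pairs -/
structure Gen (cle : Set ℕ → Set ℕ → Prop) (L2 : Set (Set (Set ℕ))) (G : Set (Set ℕ))
    (A : ℕ → H) (B : ℕ → Step) : Prop where
  gen : Generic L2 (PP cle) leP G
  br : ∀ a q, enc a q ∈ G → Br q a A B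
  cone : ∀ a q, enc a q ∈ G → ∀ x ∈ q.F, Thru B x → enc (preA A (plc x)) (q.cone x) ∈ G
  long : ∀ n : ℕ, ∃ a q, enc a q ∈ G ∧ n ≤ q.t.length
  idx : ∀ j : ℕ, IsPair j (B j).v (B j).w

/-- homogeneous trees of height and branching (at least) `N` -/
def HomT (N : ℕ) (V : Finset H) : Prop :=
  (∀ h ∈ V, ∀ h' ∈ V, Eqv N h h') ∧
  ∀ h ∈ V, ∀ j, j < N → ∃ l : List ℕ, l.length = N ∧ l.Nodup ∧
    ∀ k ∈ l, ∃ h' ∈ V, Eqv (j + 1) h' h ∧ h' j = k

/-- all `V p` from the place `k` on are homogeneous -/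
def Thin (V : Fam) (k : ℕ) : Prop := ∀ p, k ≤ p → ∃ N, HomT N (V p)

@[simp] theorem famC_V (V : Fam) : (famC V).V = V := rfl
@[simp] theorem famC_t (V : Fam) : (famC V).t = [] := rfl
@[simp] theorem famC_F (V : Fam) : (famC V).F = ∅ := rfl

theorem isPP_enc {a : List H} {q : Cond} : IsPP (enc a q) ↔ Good q ∧ IsPiece q.t a := by
  simp [IsPP, decP_enc, decC_enc]

theorem leP_enc {a a' : List H} {q q' : Cond} : leP (enc a' q') (enc a q) ↔ LeP a' q' a q := by
  simp [leP, decP_enc, decC_enc]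

theorem isPB_enc {q : Cond} : IsPB (enc [] q) ↔ Good q := by
  simp [IsPB, decC_enc]

theorem isYY_enc {b : List H} {V : Fam} : IsYY (enc b (famC V)) ↔ IsX V := by
  simp [IsYY, decC_enc, decP_enc]

theorem IsPP.exists {x : Set ℕ} (h : IsPP x) : ∃ a q, x = enc a q ∧ Good q ∧ IsPiece q.t a :=
  ⟨_, _, h.2.2, h.1, h.2.1⟩

theorem IsPB.exists {x : Set ℕ} (h : IsPB x) : ∃ q, x = enc [] q ∧ Good q := ⟨_, h.2, h.1⟩

theorem IsYY.exists {x : Set ℕ} (h : IsYY x) : ∃ b V, x = enc b (famC V) ∧ IsX V :=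
  ⟨_, _, h.2, h.1⟩

end Helper99.PC
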