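import Pool.Agent.Helper99.PC.ArD
import Pool.Agent.Helper99.TT.ReadA

/-! PC-DegA: the degrees of the values of canonical readings, (C0') and (C1'). -/

set_option autoImplicit false

noncomputable section

namespace Helper99.PC

open Helper99.TT Encodable
open Pool.Agent.Helper44.CL hiding TT
open Pool.Agent.Helper44.PC

variable {cle : Set ℕ → Set ℕ → Prop} {L2 : Set (Set (Set ℕ))}

/-- a fat node on the branch at which the reading is long -/
theorem exists_long {q : Cond} (hq : Good q) {a : List H} {A : ℕ → H} {B : ℕ → Step}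
    (hb : Br q a A B) {R : Rd} (hR : Reading R q a) (m l : ℕ) :
    ∃ x ∈ q.F, Thru B x ∧ m ≤ plc x ∧ IsReal q a x (preA A (plc x)) ∧
      l ≤ (R (preA A (plc x)) x).length := by
  obtain ⟨K, hK⟩ := hR.long l
  obtain ⟨x, hx, hBx, hxl, hxp⟩ := hb.exists_fat (max K m)
  have hr := (Br.cone hq hb hx hBx).2
  exact ⟨x, hx, hBx, le_trans (le_max_right _ _) hxp, hr,
    hK x hx (le_trans (le_max_left _ _) hxp) _ hr⟩

theorem Cmp.getElem? {s t : List Bool} (h : Cmp s t) {i : ℕ} {e : Bool} (hs : s[i]? = some e)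
    (hi : i < t.length) : t[i]? = some e := by
  have hi' : i < s.length := by
    by_contra hcon
    rw [List.getElem?_eq_none (by omega)] at hs
    cases hs
  rcases h with ⟨u, rfl⟩ | ⟨u, rfl⟩
  · rw [List.getElem?_append_left hi']
    exact hs
  · rw [List.getElem?_append_left hi] at hs
    exact hs

theorem sh_eq_iffA {n : ℕ} {v w : H} : sh n v = sh n w ↔ Eqv n v w := by
  constructor
  · intro h i hi
    obtain ⟨j, rfl⟩ := Nat.exists_eq_add_of_le' hi
    have h1 := DFunLike.congr_fun h j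
    rwa [sh_apply, sh_apply] at h1
  · intro h
    ext i
    rw [sh_apply, sh_apply]
    exact h (i + n) (Nat.le_add_left _ _)

theorem preA_getD {A : ℕ → H} {n p : ℕ} (hp : p < n) : (preA A n).getD p 0 = A p := by
  unfold preA
  rw [List.getD_eq_getElem _ _ (by simpa using hp)]
  simp

theorem degA0 (I : Iface cle L2) {q : Cond} (hq : q ∈ CC cle) {a : List H}
    (ha : IsPiece q.t a) {A : ℕ → H} {B : ℕ → Step} (hb : Br q a A B) {R : Rd}
    (hRL : cle (rR R) ∅) (hR : Reading R q a) (h : A0 R q a) {z : Set ℕ}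
    (hz : Val R q A B z) : cle z ∅ := by
  have hgood : Good q := hq.1
  have key : ∀ i, i ∈ z ↔ ∃ (x : Node) (b : List H) (s : List Bool), x ∈ q.F ∧
      IsReal q a x b ∧ R b x = s ∧ s[i]? = some true := by
    intro i
    obtain ⟨x', hx', hBx', -, hr', hl'⟩ := exists_long hgood hb hR 0 (i + 1)
    have hget : (R (preA A (plc x')) x')[i]? =
        some ((R (preA A (plc x')) x')[i]) := List.getElem?_eq_getElem (by omega)
    constructor
    · intro hi
      have h1 := (hz x' hx' hBx' i _ hget).1 hi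
      exact ⟨x', _, _, hx', hr', rfl, by rw [hget, h1]⟩
    · rintro ⟨x, b, s, hx, hrb, rfl, hs⟩
      have h1 := Cmp.getElem? (h x hx x' hx' b _ hrb hr') hs (by omega)
      exact (hz x' hx' hBx' i true h1).2 rfl
  let Φ : Set ℕ → Set ℕ → ℕ → Prop := fun u v i => ∃ (x : Node) (b : List H) (s : List Bool),
    x ∈ (decC u).F ∧ IsReal (decC u) a x b ∧ decR v b x = s ∧ s[i]? = some true
  have hAr : Ar (fun ρ (i : ℕ) => Φ (ρ 0) (ρ 1) i) := by
    refine Ar.ex (R := fun ρ (i : ℕ) (x : Node) => ∃ (b : List H) (s : List Bool),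
      x ∈ (decC (ρ 0)).F ∧ IsReal (decC (ρ 0)) a x b ∧ decR (ρ 1) b x = s ∧ s[i]? = some true) ?_
    refine Ar.ex (R := fun ρ (p : ℕ × Node) (b : List H) => ∃ (s : List Bool),
      p.2 ∈ (decC (ρ 0)).F ∧ IsReal (decC (ρ 0)) a p.2 b ∧ decR (ρ 1) b p.2 = s ∧
        s[p.1]? = some true) ?_
    refine Ar.ex (R := fun ρ (p : (ℕ × Node) × List H) (s : List Bool) =>
      p.1.2 ∈ (decC (ρ 0)).F ∧ IsReal (decC (ρ 0)) a p.1.2 p.2 ∧ decR (ρ 1) p.2 p.1.2 = s ∧
        s[p.1.1]? = some true) ?_
    have v1 : Primrec (fun p : ((ℕ × Node) × List H) × List Bool => p.1.1.2) :=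
      Primrec.snd.comp (Primrec.fst.comp Primrec.fst)
    have v2 : Primrec (fun p : ((ℕ × Node) × List H) × List Bool => p.1.1.1) :=
      Primrec.fst.comp (Primrec.fst.comp Primrec.fst)
    have v3 : Primrec (fun p : ((ℕ × Node) × List H) × List Bool => p.1.2) :=
      Primrec.snd.comp Primrec.fst
    have v4 : Primrec (fun p : ((ℕ × Node) × List H) × List Bool => p.2) := Primrec.snd
    exact (ar_memF 0 v1).and ((ar_real 0 (Primrec.const a) v3 v1).and ((ar_decR 1 v3 v1 v4).and
      (Ar.eq (Primrec.list_getElem?.comp v4 v2) (Primrec.const (some true)))))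
  have h1 : AL cle ∅ (fun _ (i : ℕ) => Φ (enc [] q) (rR R) i) :=
    AL.sub2 I hAr (ALS.const I hq.2) (ALS.const I hRL) Primrec.id
  have h2 := AL.real I h1
  have e : z = {i | Φ (enc [] q) (rR R) i} := by
    ext i
    rw [key]
    simp only [Φ, decC_enc, decR_rR, Set.mem_ofPred_eq]
  rw [e]
  exact h2

theorem degA1 (I : Iface cle L2) {q : Cond} (hq : q ∈ CC cle) {a : List H}
    (ha : IsPiece q.t a) {A : ℕ → H} {B : ℕ → Step} (hb : Br q a A B) {R : Rd}
    (hRL : cle (rR R) ∅) (hR : Reading R q a) {n : ℕ} (h : A1 R q a n) {z : Set ℕ}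
    (hz : Val R q A B z) : cle z (rA (shA n A)) ∧ cle (rA (shA n A)) z := by
  have hgood : Good q := hq.1
  constructor
  · have key : ∀ i, i ∈ z ↔ ∃ (x : Node) (b : List H) (s : List Bool), x ∈ q.F ∧
        IsReal q a x b ∧ R b x = s ∧ s[i]? = some true ∧
        ∀ p, p < plc x → ∃ v : H, sh n (b.getD p 0) = v ∧ encode (p, v) ∈ rA (shA n A) := by
      intro i
      obtain ⟨x', hx', hBx', -, hr', hl'⟩ := exists_long hgood hb hR 0 (i + 1)
      have hget : (R (preA A (plc x')) x')[i]? =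
          some ((R (preA A (plc x')) x')[i]) := List.getElem?_eq_getElem (by omega)
      constructor
      · intro hi
        have h1 := (hz x' hx' hBx' i _ hget).1 hi
        refine ⟨x', _, _, hx', hr', rfl, by rw [hget, h1], fun p hp => ?_⟩
        rw [preA_getD hp]
        exact ⟨_, rfl, (p, sh n (A p)), rfl, rfl⟩
      · rintro ⟨x, b, s, hx, hrb, rfl, hs, hsh⟩
        have h0 : ∀ p, p < plc x → p < plc x' →
            Eqv n (b.getD p 0) ((preA A (plc x')).getD p 0) := by
          intro p hp hp'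
          obtain ⟨v, hv, ⟨⟨p', v'⟩, hpv, he⟩⟩ := hsh p hp
          have he' := Encodable.encode_injective he
          rw [Prod.mk.injEq] at he'
          obtain ⟨rfl, rfl⟩ := he'
          rw [preA_getD hp', ← sh_eq_iffA, hv]
          exact hpv.symm
        have h1 := Cmp.getElem? (h.1 x hx x' hx' b _ hrb hr' h0) hs (by omega)
        exact (hz x' hx' hBx' i true h1).2 rfl
    let Φ : Set ℕ → Set ℕ → Set ℕ → ℕ → Prop := fun u v w i =>
      ∃ (x : Node) (b : List H) (s : List Bool),
        x ∈ (decC u).F ∧ IsReal (decC u) a x b ∧ decR v b x = s ∧ s[i]? = some true ∧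
        ∀ p, p < plc x → ∃ v : H, sh n (b.getD p 0) = v ∧ encode (p, v) ∈ w
    have hAr : Ar (fun ρ (i : ℕ) => Φ (ρ 0) (ρ 1) (ρ 2) i) := by
      refine Ar.ex (R := fun ρ (i : ℕ) (x : Node) => ∃ (b : List H) (s : List Bool),
        x ∈ (decC (ρ 0)).F ∧ IsReal (decC (ρ 0)) a x b ∧ decR (ρ 1) b x = s ∧
          s[i]? = some true ∧
        ∀ p, p < plc x → ∃ v : H, sh n (b.getD p 0) = v ∧ encode (p, v) ∈ ρ 2) ?_
      refine Ar.ex (R := fun ρ (k : ℕ × Node) (b : List H) => ∃ (s : List Bool),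
        k.2 ∈ (decC (ρ 0)).F ∧ IsReal (decC (ρ 0)) a k.2 b ∧ decR (ρ 1) b k.2 = s ∧
          s[k.1]? = some true ∧
        ∀ p, p < plc k.2 → ∃ v : H, sh n (b.getD p 0) = v ∧ encode (p, v) ∈ ρ 2) ?_
      refine Ar.ex (R := fun ρ (k : (ℕ × Node) × List H) (s : List Bool) =>
        k.1.2 ∈ (decC (ρ 0)).F ∧ IsReal (decC (ρ 0)) a k.1.2 k.2 ∧ decR (ρ 1) k.2 k.1.2 = s ∧
          s[k.1.1]? = some true ∧
        ∀ p, p < plc k.1.2 → ∃ v : H, sh n (k.2.getD p 0) = v ∧ encode (p, v) ∈ ρ 2) ?_
      have v1 : Primrec (fun p : ((ℕ × Node) × List H) × List Bool => p.1.1.2) :=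
        Primrec.snd.comp (Primrec.fst.comp Primrec.fst)
      have v2 : Primrec (fun p : ((ℕ × Node) × List H) × List Bool => p.1.1.1) :=
        Primrec.fst.comp (Primrec.fst.comp Primrec.fst)
      have v3 : Primrec (fun p : ((ℕ × Node) × List H) × List Bool => p.1.2) :=
        Primrec.snd.comp Primrec.fst
      have v4 : Primrec (fun p : ((ℕ × Node) × List H) × List Bool => p.2) := Primrec.snd
      refine (ar_memF 0 v1).and ((ar_real 0 (Primrec.const a) v3 v1).and
        ((ar_decR 1 v3 v1 v4).and ((Ar.eq (Primrec.list_getElem?.comp v4 v2)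
          (Primrec.const (some true))).and ?_)))
      refine Ar.all (R := fun ρ (k : ((ℕ × Node) × List H) × List Bool) (p : ℕ) =>
        p < plc k.1.1.2 → ∃ v : H, sh n (k.1.2.getD p 0) = v ∧ encode (p, v) ∈ ρ 2)
        (Ar.imp (Ar.lt Primrec.snd (primrec_plc.comp (v1.comp Primrec.fst))) ?_)
      refine Ar.ex (R := fun ρ (k : (((ℕ × Node) × List H) × List Bool) × ℕ) (v : H) =>
        sh n (k.1.1.2.getD k.2 0) = v ∧ encode (k.2, v) ∈ ρ 2) ?_
      have w1 : Primrec (fun k : ((((ℕ × Node) × List H) × List Bool) × ℕ) × H => k.1.2) :=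
        Primrec.snd.comp Primrec.fst
      have w2 : Primrec (fun k : ((((ℕ × Node) × List H) × List Bool) × ℕ) × H => k.1.1.1.2) :=
        v3.comp (Primrec.fst.comp Primrec.fst)
      exact (ar_sh (Primrec.const n) (primrec_getD w2 w1) Primrec.snd).and
        (Ar.orac 2 (Primrec.encode.comp (Primrec.pair w1 Primrec.snd)))
    have h1 : AL cle (rA (shA n A)) (fun _ (i : ℕ) => Φ (enc [] q) (rR R) (rA (shA n A)) i) :=
      AL.sub3 I hAr (ALS.const I (I.of_L hq.2 _)) (ALS.const I (I.of_L hRL _))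
        (ALS.const I (I.refl _)) Primrec.id
    have h2 := AL.real I h1
    have e : z = {i | Φ (enc [] q) (rR R) (rA (shA n A)) i} := by
      ext i
      rw [key]
      simp only [Φ, decC_enc, decR_rR, Set.mem_ofPred_eq]
    rw [e]
    exact h2
  · have key : ∀ (p : ℕ) (v : H), sh n (A p) = v ↔ ∀ l : ℕ, ∃ (x : Node) (b : List H)
        (s : List Bool), x ∈ q.F ∧ p < plc x ∧ IsReal q a x b ∧ R b x = s ∧ l ≤ s.length ∧
        (∀ i, i < l → (s[i]? = some true ↔ i ∈ z)) ∧ sh n (b.getD p 0) = v := by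
      intro p v
      have hagree : ∀ x' ∈ q.F, Thru B x' → ∀ l ≤ (R (preA A (plc x')) x').length,
          ∀ i, i < l → ((R (preA A (plc x')) x')[i]? = some true ↔ i ∈ z) := by
        intro x' hx' hBx' l hl i hi
        have hget : (R (preA A (plc x')) x')[i]? =
            some ((R (preA A (plc x')) x')[i]) := List.getElem?_eq_getElem (by omega)
        rw [hz x' hx' hBx' i _ hget, hget, Option.some.injEq]
      constructor
      · rintro rfl l
        obtain ⟨x', hx', hBx', hp', hr', hl'⟩ := exists_long hgood hb hR (p + 1) l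
        refine ⟨x', _, _, hx', hp', hr', rfl, hl', hagree x' hx' hBx' l hl', ?_⟩
        rw [preA_getD hp']
      · intro hT
        obtain ⟨l, hl⟩ := h.2 (p + 1)
        obtain ⟨x, b, s, hx, hpx, hrb, rfl, hls, hag, rfl⟩ := hT l
        obtain ⟨x', hx', hBx', hp', hr', hl'⟩ := exists_long hgood hb hR (p + 1) l
        by_contra hcon
        refine hl x hx x' hx' hpx hp' b _ hrb hr' hls hl' ⟨p, Nat.lt_succ_self p, ?_⟩ ?_
        · rw [preA_getD hp']
          intro he
          exact hcon (sh_eq_iffA.2 he).symm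
        · left
          have he : (R b x).take l = (R (preA A (plc x')) x').take l := by
            apply List.ext_getElem?
            intro i
            rw [List.getElem?_take, List.getElem?_take]
            split_ifs with hi
            · have h1 := hag i hi
              have h2 := hagree x' hx' hBx' l hl' i hi
              have h3 : (R b x)[i]? = some ((R b x)[i]) :=
                List.getElem?_eq_getElem (by omega)
              have h4 : (R (preA A (plc x')) x')[i]? = some ((R (preA A (plc x')) x')[i]) :=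
                List.getElem?_eq_getElem (by omega)
              rw [h3, Option.some.injEq] at h1
              rw [h4, Option.some.injEq] at h2
              rw [h3, h4, Option.some.injEq]
              rw [Bool.eq_iff_iff, h1, h2]
            · rfl
          rw [he]
    let Φ : Set ℕ → Set ℕ → Set ℕ → ℕ × H → Prop := fun u v w k =>
      ∀ l : ℕ, ∃ (x : Node) (b : List H)
        (s : List Bool), x ∈ (decC u).F ∧ k.1 < plc x ∧ IsReal (decC u) a x b ∧
        decR v b x = s ∧ l ≤ s.length ∧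
        (∀ i, i < l → (s[i]? = some true ↔ i ∈ w)) ∧ sh n (b.getD k.1 0) = k.2
    have hAr : Ar (fun ρ (k : ℕ × H) => Φ (ρ 0) (ρ 1) (ρ 2) k) := by
      refine Ar.all (R := fun ρ (k : ℕ × H) (l : ℕ) => ∃ (x : Node) (b : List H)
        (s : List Bool), x ∈ (decC (ρ 0)).F ∧ k.1 < plc x ∧ IsReal (decC (ρ 0)) a x b ∧
        decR (ρ 1) b x = s ∧ l ≤ s.length ∧
        (∀ i, i < l → (s[i]? = some true ↔ i ∈ ρ 2)) ∧ sh n (b.getD k.1 0) = k.2) ?_
      refine Ar.ex (R := fun ρ (k : (ℕ × H) × ℕ) (x : Node) => ∃ (b : List H)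
        (s : List Bool), x ∈ (decC (ρ 0)).F ∧ k.1.1 < plc x ∧ IsReal (decC (ρ 0)) a x b ∧
        decR (ρ 1) b x = s ∧ k.2 ≤ s.length ∧
        (∀ i, i < k.2 → (s[i]? = some true ↔ i ∈ ρ 2)) ∧ sh n (b.getD k.1.1 0) = k.1.2) ?_
      refine Ar.ex (R := fun ρ (k : ((ℕ × H) × ℕ) × Node) (b : List H) => ∃
        (s : List Bool), k.2 ∈ (decC (ρ 0)).F ∧ k.1.1.1 < plc k.2 ∧
        IsReal (decC (ρ 0)) a k.2 b ∧
        decR (ρ 1) b k.2 = s ∧ k.1.2 ≤ s.length ∧
        (∀ i, i < k.1.2 → (s[i]? = some true ↔ i ∈ ρ 2)) ∧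
          sh n (b.getD k.1.1.1 0) = k.1.1.2) ?_
      refine Ar.ex (R := fun ρ (k : (((ℕ × H) × ℕ) × Node) × List H) (s : List Bool) =>
        k.1.2 ∈ (decC (ρ 0)).F ∧ k.1.1.1.1 < plc k.1.2 ∧
        IsReal (decC (ρ 0)) a k.1.2 k.2 ∧
        decR (ρ 1) k.2 k.1.2 = s ∧ k.1.1.2 ≤ s.length ∧
        (∀ i, i < k.1.1.2 → (s[i]? = some true ↔ i ∈ ρ 2)) ∧
          sh n (k.2.getD k.1.1.1.1 0) = k.1.1.1.2) ?_
      have v0 : Primrec (fun k : ((((ℕ × H) × ℕ) × Node) × List H) × List Bool => k.1.1) :=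
        Primrec.fst.comp Primrec.fst
      have vx : Primrec (fun k : ((((ℕ × H) × ℕ) × Node) × List H) × List Bool => k.1.1.2) :=
        Primrec.snd.comp v0
      have vb : Primrec (fun k : ((((ℕ × H) × ℕ) × Node) × List H) × List Bool => k.1.2) :=
        Primrec.snd.comp Primrec.fst
      have vs : Primrec (fun k : ((((ℕ × H) × ℕ) × Node) × List H) × List Bool => k.2) :=
        Primrec.snd
      have vl : Primrec (fun k : ((((ℕ × H) × ℕ) × Node) × List H) × List Bool => k.1.1.1.2) :=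
        Primrec.snd.comp (Primrec.fst.comp v0)
      have vk : Primrec (fun k : ((((ℕ × H) × ℕ) × Node) × List H) × List Bool => k.1.1.1.1) :=
        Primrec.fst.comp (Primrec.fst.comp v0)
      have vp := Primrec.fst.comp vk
      have vv := Primrec.snd.comp vk
      refine (ar_memF 0 vx).and ((Ar.lt vp (primrec_plc.comp vx)).and
        ((ar_real 0 (Primrec.const a) vb vx).and ((ar_decR 1 vb vx vs).and
          ((Ar.le vl (Primrec.list_length.comp vs)).and (Ar.and ?_
            (ar_sh (Primrec.const n) (primrec_getD vb vp) vv))))))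
      refine Ar.all (R := fun ρ (k : ((((ℕ × H) × ℕ) × Node) × List H) × List Bool) (i : ℕ) =>
        i < k.1.1.1.2 → (k.2[i]? = some true ↔ i ∈ ρ 2)) (Ar.imp (Ar.lt Primrec.snd
          (vl.comp Primrec.fst)) (Ar.iff (Ar.eq (Primrec.list_getElem?.comp
            (vs.comp Primrec.fst) Primrec.snd) (Primrec.const (some true)))
              (Ar.orac 2 Primrec.snd)))
    have h1 : AL cle z (fun _ (k : ℕ × H) => Φ (enc [] q) (rR R) z k) :=
      AL.sub3 I hAr (ALS.const I (I.of_L hq.2 _)) (ALS.const I (I.of_L hRL _))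
        (ALS.const I (I.refl _)) Primrec.id
    have h2 := AL.real_enc I h1
    have e : {x : ℕ × H | shA n A x.1 = x.2} = {k | Φ (enc [] q) (rR R) z k} := by
      ext k
      simp only [Φ, decC_enc, decR_rR, Set.mem_ofPred_eq]
      exact key k.1 k.2
    unfold rA
    rw [e]
    exact h2

end Helper99.PC
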