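import Pool.Agent.Helper99.PC.ArD
import Pool.Agent.Helper99.TT.ReadA

/-! PC-DegB: the degrees of the values of canonical readings, (C2') and (C3'). -/

set_option autoImplicit false

noncomputable section

namespace Helper99.PC

open Helper99.TT Encodable
open Pool.Agent.Helper44.CL hiding TT
open Pool.Agent.Helper44.PC

universe u

variable {cle : Set ℕ → Set ℕ → Prop} {L2 : Set (Set (Set ℕ))}

namespace DegB

/-- the string `s` agrees with the real `z` up to `l` -/
def Agr (z : Set ℕ) (l : ℕ) (s : List Bool) : Prop :=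
  ∀ i, i < l → ∃ e : Bool, s[i]? = some e ∧ (i ∈ z ↔ e = true)

theorem Agr.le_length {z : Set ℕ} {l : ℕ} {s : List Bool} (hs : Agr z l s) : l ≤ s.length := by
  by_contra h
  push Not at h
  obtain ⟨e, he, -⟩ := hs s.length h
  rw [List.getElem?_eq_none (le_refl _)] at he
  cases he

theorem Agr.take_eq {z : Set ℕ} {l : ℕ} {s t : List Bool} (hs : Agr z l s) (ht : Agr z l t) :
    s.take l = t.take l := by
  have h1 := hs.le_length
  have h2 := ht.le_length
  refine List.ext_getElem ?_ fun i hi hi' => ?_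
  · rw [List.length_take, List.length_take]
    omega
  · rw [List.length_take] at hi
    have hil : i < l := by omega
    obtain ⟨e, he, h3⟩ := hs i hil
    obtain ⟨e', he', h4⟩ := ht i hil
    rw [List.getElem?_eq_getElem (by omega)] at he he'
    rw [List.getElem_take, List.getElem_take, Option.some.inj he, Option.some.inj he']
    have h5 : e = true ↔ e' = true := h3.symm.trans h4
    cases e <;> cases e' <;> simp_all

section AL

variable {α : Type u} [Primcodable α] (I : Iface cle L2) {z : Set ℕ}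
include I

theorem al_agr {w : Set ℕ} (hw : cle w z) {l : α → ℕ} {s : α → List Bool} (hl : Primrec l)
    (hs : Primrec s) : AL cle z (fun _ u => Agr w (l u) (s u)) := by
  refine AL.all (R := fun _ u i => i < l u → ∃ e : Bool, (s u)[i]? = some e ∧ (i ∈ w ↔ e = true)) ?_
  refine AL.imp I (AL.of_ar I (Ar.lt Primrec.snd (hl.comp Primrec.fst))) ?_
  refine AL.ex (R := fun _ (p : α × ℕ) (e : Bool) =>
    (s p.1)[p.2]? = some e ∧ (p.2 ∈ w ↔ e = true)) ?_
  refine AL.and I (AL.of_ar I (Ar.eq ?_ (Primrec.option_some.comp Primrec.snd))) (AL.iff I ?_ ?_)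
  · exact Primrec.list_getElem?.comp (hs.comp (Primrec.fst.comp Primrec.fst))
      (Primrec.snd.comp Primrec.fst)
  · exact AL.par hw (Primrec.snd.comp Primrec.fst)
  · exact AL.of_ar I (Ar.eq Primrec.snd (Primrec.const true))

theorem al_memF {q : Cond} (hq : cle (enc [] q) ∅) {f : α → Node} (hf : Primrec f) :
    AL cle z (fun _ u => f u ∈ q.F) := by
  have h := AL.sub1 I (z := z) (Φ := fun x u => f u ∈ (decC x).F) (ar_memF 0 hf)
    (ALS.const I (I.of_L hq z)) Primrec.id
  exact h.of_eq fun ρ u => by rw [decC_enc]; rfl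

theorem al_real {q : Cond} (hq : cle (enc [] q) ∅) (a : List H) {x : α → Node} {b : α → List H}
    (hx : Primrec x) (hb : Primrec b) : AL cle z (fun _ u => IsReal q a (x u) (b u)) := by
  have h := AL.sub1 I (z := z) (Φ := fun y u => IsReal (decC y) a (x u) (b u))
    (ar_real 0 (Primrec.const a) hb hx) (ALS.const I (I.of_L hq z)) Primrec.id
  exact h.of_eq fun ρ u => by rw [decC_enc]; rfl

theorem al_rd {R : Rd} (hR : cle (rR R) ∅) {b : α → List H} {x : α → Node} {s : α → List Bool}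
    (hb : Primrec b) (hx : Primrec x) (hs : Primrec s) :
    AL cle z (fun _ u => R (b u) (x u) = s u) := by
  have h := AL.sub1 I (z := z) (Φ := fun y u => decR y (b u) (x u) = s u)
    (ar_decR 0 hb hx hs) (ALS.const I (I.of_L hR z)) Primrec.id
  exact h.of_eq fun ρ u => by rw [decR_rR]; rfl

theorem al_agrR {R : Rd} (hR : cle (rR R) ∅) {w : Set ℕ} (hw : cle w z) {l : α → ℕ}
    {b : α → List H} {x : α → Node} (hl : Primrec l) (hb : Primrec b) (hx : Primrec x) :
    AL cle z (fun _ u => Agr w (l u) (R (b u) (x u))) := by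
  have h : AL cle z (fun _ u => ∃ s : List Bool, R (b u) (x u) = s ∧ Agr w (l u) s) := by
    refine AL.ex (R := fun _ u (s : List Bool) => R (b u) (x u) = s ∧ Agr w (l u) s) ?_
    exact AL.and I (al_rd I hR (hb.comp Primrec.fst) (hx.comp Primrec.fst) Primrec.snd)
      (al_agr I hw (hl.comp Primrec.fst) Primrec.snd)
  exact h.of_eq fun ρ u => by simp

theorem al_prefix {β : Type u} [Primcodable β] [DecidableEq β] {f g : α → List β}
    (hf : Primrec f) (hg : Primrec g) : AL cle z (fun _ u => f u <+: g u) :=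
  AL.of_ar I (ar_prefix hf hg)

/-- passing through a node -/
theorem al_thru {B : ℕ → Step} (hB : cle (rB B) z) {x : α → Node} (hx : Primrec x) :
    AL cle z (fun _ u => Thru B (x u)) := by
  have h : AL cle z (fun _ u => ∀ p : ℕ × Step, (x u)[p.1]? = some p.2 →
      encode p ∈ rB B) := by
    refine AL.all (R := fun _ u (p : ℕ × Step) => (x u)[p.1]? = some p.2 → encode p ∈ rB B) ?_
    refine AL.imp I (AL.of_ar I (Ar.eq ?_ ?_)) (AL.par hB (Primrec.encode.comp Primrec.snd))
    · exact Primrec.list_getElem?.comp (hx.comp Primrec.fst) (Primrec.fst.comp Primrec.snd)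
    · exact Primrec.option_some.comp (Primrec.snd.comp Primrec.snd)
  refine h.of_eq fun ρ u => ?_
  constructor
  · rintro hT ⟨n, s⟩ hs
    refine ⟨(n, s), ?_, rfl⟩
    obtain ⟨hn, hs'⟩ := List.getElem?_eq_some_iff.1 hs
    have h1 : (preB B (x u).length)[n]? = some s := by
      rw [show preB B (x u).length = x u from hT]
      exact hs
    unfold preB at h1
    rw [List.getElem?_map, List.getElem?_range hn] at h1
    exact Option.some.inj h1
  · intro hT
    unfold Thru preB
    refine List.ext_getElem (by simp) fun n h1 h2 => ?_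
    rw [List.getElem_map, List.getElem_range]
    obtain ⟨p, hp, he⟩ := hT (n, (x u)[n]) (List.getElem?_eq_getElem h2)
    have := encode_injective he
    subst this
    exact hp

end AL

/-- the values on the branch -/
theorem agr_branch {q : Cond} {A : ℕ → H} {B : ℕ → Step} {R : Rd} {z : Set ℕ}
    (hz : Val R q A B z) {x : Node} (hx : x ∈ q.F) (hBx : Thru B x) {l : ℕ}
    (hl : l ≤ (R (preA A (plc x)) x).length) : Agr z l (R (preA A (plc x)) x) := by
  intro i hi
  have h1 : (R (preA A (plc x)) x)[i]? = some (R (preA A (plc x)) x)[i] :=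
    List.getElem?_eq_getElem (by omega)
  exact ⟨_, h1, hz x hx hBx i _ h1⟩

/-- fat nodes on the branch with long strings -/
theorem exists_long {q : Cond} (hq : Good q) {a : List H} {A : ℕ → H} {B : ℕ → Step}
    (hb : Br q a A B) {R : Rd} (hR : Reading R q a) {z : Set ℕ} (hz : Val R q A B z) (l n : ℕ) :
    ∃ x ∈ q.F, Thru B x ∧ n ≤ x.length ∧ n ≤ plc x ∧ IsReal q a x (preA A (plc x)) ∧
      Agr z l (R (preA A (plc x)) x) := by
  obtain ⟨K, hK⟩ := hR.long l
  obtain ⟨x, hx, hBx, hx1, hx2⟩ := hb.exists_fat (max K n)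
  have hr := (Br.cone hq hb hx hBx).2
  refine ⟨x, hx, hBx, le_trans (le_max_right _ _) hx1, le_trans (le_max_right _ _) hx2, hr, ?_⟩
  exact agr_branch hz hx hBx (hK x hx (le_trans (le_max_left _ _) hx2) _ hr)

theorem thru_getElem? {B : ℕ → Step} {x : Node} (hx : Thru B x) {n : ℕ} (hn : n < x.length) :
    x[n]? = some (B n) := by
  have h1 : (preB B x.length)[n]? = some (B n) := by
    unfold preB
    rw [List.getElem?_map, List.getElem?_range hn]
    rfl
  rwa [show preB B x.length = x from hx] at h1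

end DegB

open DegB

theorem degDec (I : Iface cle L2) {q : Cond} (hq : q ∈ CC cle) {a : List H}
    (ha : IsPiece q.t a) {A : ℕ → H} {B : ℕ → Step} (hb : Br q a A B) {R : Rd}
    (hRL : cle (rR R) ∅) (hR : Reading R q a) (h : ADec R q a) {z : Set ℕ}
    (hz : Val R q A B z) : cle (rB B) z := by
  obtain ⟨hg, hqL⟩ := hq
  have key : AL cle z (fun _ (p : ℕ × Step) => ∃ x : Node, (x ∈ q.F ∧ x[p.1]? = some p.2) ∧
      ∃ l : ℕ, ∀ y : Node × List H, (y.1 ∈ q.F ∧ IsReal q a y.1 y.2) →
        Agr z l (R y.2 y.1) → (x <+: y.1 ∨ y.1 <+: x)) := by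
    refine AL.ex (R := fun _ (p : ℕ × Step) (x : Node) => (x ∈ q.F ∧ x[p.1]? = some p.2) ∧
      ∃ l : ℕ, ∀ y : Node × List H, (y.1 ∈ q.F ∧ IsReal q a y.1 y.2) →
        Agr z l (R y.2 y.1) → (x <+: y.1 ∨ y.1 <+: x)) ?_
    refine AL.and I (AL.and I (al_memF I hqL Primrec.snd) (AL.of_ar I (Ar.eq ?_ ?_))) ?_
    · exact Primrec.list_getElem?.comp Primrec.snd (Primrec.fst.comp Primrec.fst)
    · exact Primrec.option_some.comp (Primrec.snd.comp Primrec.fst)
    refine AL.ex (R := fun _ (p : (ℕ × Step) × Node) (l : ℕ) => ∀ y : Node × List H,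
      (y.1 ∈ q.F ∧ IsReal q a y.1 y.2) → Agr z l (R y.2 y.1) → (p.2 <+: y.1 ∨ y.1 <+: p.2)) ?_
    refine AL.all (R := fun _ (p : ((ℕ × Step) × Node) × ℕ) (y : Node × List H) =>
      (y.1 ∈ q.F ∧ IsReal q a y.1 y.2) → Agr z p.2 (R y.2 y.1) →
        (p.1.2 <+: y.1 ∨ y.1 <+: p.1.2)) ?_
    have py : Primrec (fun p : (((ℕ × Step) × Node) × ℕ) × Node × List H => p.2.1) :=
      Primrec.fst.comp Primrec.snd
    have pb : Primrec (fun p : (((ℕ × Step) × Node) × ℕ) × Node × List H => p.2.2) :=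
      Primrec.snd.comp Primrec.snd
    have pl : Primrec (fun p : (((ℕ × Step) × Node) × ℕ) × Node × List H => p.1.2) :=
      Primrec.snd.comp Primrec.fst
    have px : Primrec (fun p : (((ℕ × Step) × Node) × ℕ) × Node × List H => p.1.1.2) :=
      Primrec.snd.comp (Primrec.fst.comp Primrec.fst)
    exact AL.imp I (AL.and I (al_memF I hqL py) (al_real I hqL a py pb))
      (AL.imp I (al_agrR I hRL (I.refl z) pl pb py)
        (AL.or I (al_prefix I px py) (al_prefix I py px)))
  have h1 := AL.real_enc I key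
  have e : {x : ℕ × Step | B x.1 = x.2} = {p : ℕ × Step | ∃ x : Node,
      (x ∈ q.F ∧ x[p.1]? = some p.2) ∧ ∃ l : ℕ, ∀ y : Node × List H,
        (y.1 ∈ q.F ∧ IsReal q a y.1 y.2) → Agr z l (R y.2 y.1) → (x <+: y.1 ∨ y.1 <+: x)} := by
    ext ⟨n, s⟩
    simp only [Set.mem_ofPred_eq]
    constructor
    · intro hB
      obtain ⟨x, hx, hBx, hxn, -⟩ := hb.exists_fat (n + 1)
      refine ⟨x, ⟨hx, ?_⟩, ?_⟩
      · rw [thru_getElem? hBx (by omega), hB]
      obtain ⟨l, hl⟩ := h x hx
      refine ⟨l, ?_⟩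
      rintro ⟨y, b⟩ ⟨hy, hyr⟩ hagr
      by_contra hcon
      push Not at hcon
      obtain ⟨w, hw, hBw, hwl, -, hwr, hwa⟩ := exists_long hg hb hR hz l x.length
      have hxw : x <+: w := by
        rcases Thru_comparable hBx hBw with h2 | h2
        · exact h2
        · rw [List.IsPrefix.eq_of_length h2 (le_antisymm h2.length_le hwl)]
      exact hl w hw y hy hxw hcon.1 hcon.2 _ _ hwr hyr hwa.le_length hagr.le_length
        (hwa.take_eq hagr)
    · rintro ⟨x, ⟨hx, hxs⟩, l, hl⟩
      obtain ⟨w, hw, hBw, hwl, -, hwr, hwa⟩ := exists_long hg hb hR hz l (x.length + 1)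
      have hBx : Thru B x := by
        rcases hl (w, preA A (plc w)) ⟨hw, hwr⟩ hwa with h2 | h2
        · exact Thru_mono h2 hBw
        · have := h2.length_le
          dsimp only at this
          omega
      obtain ⟨hn, -⟩ := List.getElem?_eq_some_iff.1 hxs
      rw [thru_getElem? hBx hn] at hxs
      exact Option.some.inj hxs
  unfold rB
  rw [e]
  exact h1

theorem degA2 (I : Iface cle L2) {q : Cond} (hq : q ∈ CC cle) {a : List H}
    (ha : IsPiece q.t a) {A : ℕ → H} {B : ℕ → Step} (hb : Br q a A B) {R : Rd}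
    (hRL : cle (rR R) ∅) (hR : Reading R q a) (h : A2 R q a) {z : Set ℕ}
    (hz : Val R q A B z) : cle z (rB B) := by
  obtain ⟨hg, hqL⟩ := hq
  have key : AL cle (rB B) (fun _ (i : ℕ) => ∃ K : ℕ, ∀ x : Node, (x ∈ q.F ∧ K ≤ plc x) →
      Thru B x → ∃ y : List H × List Bool, (IsReal q a x y.1 ∧ R y.1 x = y.2) ∧
        y.2[i]? = some true) := by
    refine AL.ex (R := fun _ (i : ℕ) (K : ℕ) => ∀ x : Node, (x ∈ q.F ∧ K ≤ plc x) →
      Thru B x → ∃ y : List H × List Bool, (IsReal q a x y.1 ∧ R y.1 x = y.2) ∧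
        y.2[i]? = some true) ?_
    refine AL.all (R := fun _ (p : ℕ × ℕ) (x : Node) => (x ∈ q.F ∧ p.2 ≤ plc x) →
      Thru B x → ∃ y : List H × List Bool, (IsReal q a x y.1 ∧ R y.1 x = y.2) ∧
        y.2[p.1]? = some true) ?_
    refine AL.imp I (AL.and I (al_memF I hqL Primrec.snd) (AL.of_ar I (Ar.le
      (Primrec.snd.comp Primrec.fst) (primrec_plc.comp Primrec.snd)))) ?_
    refine AL.imp I (al_thru I (I.refl _) Primrec.snd) ?_
    refine AL.ex (R := fun _ (p : (ℕ × ℕ) × Node) (y : List H × List Bool) =>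
      (IsReal q a p.2 y.1 ∧ R y.1 p.2 = y.2) ∧ y.2[p.1.1]? = some true) ?_
    have px : Primrec (fun p : ((ℕ × ℕ) × Node) × List H × List Bool => p.1.2) :=
      Primrec.snd.comp Primrec.fst
    have pb : Primrec (fun p : ((ℕ × ℕ) × Node) × List H × List Bool => p.2.1) :=
      Primrec.fst.comp Primrec.snd
    have ps : Primrec (fun p : ((ℕ × ℕ) × Node) × List H × List Bool => p.2.2) :=
      Primrec.snd.comp Primrec.snd
    have pi : Primrec (fun p : ((ℕ × ℕ) × Node) × List H × List Bool => p.1.1.1) :=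
      Primrec.fst.comp (Primrec.fst.comp Primrec.fst)
    exact AL.and I (AL.and I (al_real I hqL a px pb) (al_rd I hRL pb px ps))
      (AL.of_ar I (Ar.eq (Primrec.list_getElem?.comp ps pi) (Primrec.const (some true))))
  have h1 := AL.real I key
  have e : z = {i : ℕ | ∃ K : ℕ, ∀ x : Node, (x ∈ q.F ∧ K ≤ plc x) →
      Thru B x → ∃ y : List H × List Bool, (IsReal q a x y.1 ∧ R y.1 x = y.2) ∧
        y.2[i]? = some true} := by
    ext i
    simp only [Set.mem_ofPred_eq]
    obtain ⟨K, hK⟩ := hR.long (i + 1)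
    constructor
    · intro hi
      refine ⟨K, fun x hx hBx => ⟨(preA A (plc x), R (preA A (plc x)) x), ?_, ?_⟩⟩
      · exact ⟨(Br.cone hg hb hx.1 hBx).2, rfl⟩
      · have hr := (Br.cone hg hb hx.1 hBx).2
        obtain ⟨e, he, h2⟩ := agr_branch hz hx.1 hBx (hK x hx.1 hx.2 _ hr) i (by omega)
        rw [h2.1 hi] at he
        exact he
    · rintro ⟨K', hK'⟩
      obtain ⟨x, hx, hBx, -, hxK, hr, hag⟩ := exists_long hg hb hR hz (i + 1) K'
      obtain ⟨⟨b, s⟩, ⟨hbr, hRs⟩, hs⟩ := hK' x ⟨hx, hxK⟩ hBx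
      dsimp only at hbr hRs hs
      subst hRs
      obtain ⟨e, he, h2⟩ := hag i (by omega)
      have h3 : e = true := by
        obtain ⟨hl1, -⟩ := List.getElem?_eq_some_iff.1 hs
        obtain ⟨hl2, -⟩ := List.getElem?_eq_some_iff.1 he
        rcases h.1 x hx b _ hbr hr with h4 | h4
        · have h5 := readA_getElem?_of_prefix h4 hl1
          rw [he, hs] at h5
          exact Option.some.inj h5
        · have h5 := readA_getElem?_of_prefix h4 hl2
          rw [he] at h5
          have h6 : some e = some true := h5.symm.trans hs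
          exact Option.some.inj h6
      exact h2.2 h3
  rw [e]
  exact h1

theorem degA3 (I : Iface cle L2) {q : Cond} (hq : q ∈ CC cle) {a : List H}
    (ha : IsPiece q.t a) {A : ℕ → H} {B : ℕ → Step} (hb : Br q a A B) {R : Rd}
    (hRL : cle (rR R) ∅) (hR : Reading R q a) (h : A3 R q a) {z : Set ℕ}
    (hz : Val R q A B z) : cle (jn (rA A) (rB B)) z := by
  have hB : cle (rB B) z := degDec I hq ha hb hRL hR h.1 hz
  refine I.jn_le ?_ hB
  obtain ⟨hg, hqL⟩ := hq
  have key : AL cle z (fun _ (p : ℕ × H) => ∃ x : Node × List H,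
      ((x.1 ∈ q.F ∧ IsReal q a x.1 x.2) ∧ ((Thru B x.1 ∧ p.1 < plc x.1) ∧
        x.2.getD p.1 0 = p.2)) ∧ ∀ l : ℕ, ∃ y : Node × List H,
          (y.1 ∈ q.F ∧ IsReal q a y.1 y.2) ∧ ((x.1 <+: y.1 ∧ x.2 <+: y.2) ∧
            Agr z l (R y.2 y.1))) := by
    refine AL.ex (R := fun _ (p : ℕ × H) (x : Node × List H) =>
      ((x.1 ∈ q.F ∧ IsReal q a x.1 x.2) ∧ ((Thru B x.1 ∧ p.1 < plc x.1) ∧
        x.2.getD p.1 0 = p.2)) ∧ ∀ l : ℕ, ∃ y : Node × List H,
          (y.1 ∈ q.F ∧ IsReal q a y.1 y.2) ∧ ((x.1 <+: y.1 ∧ x.2 <+: y.2) ∧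
            Agr z l (R y.2 y.1))) ?_
    have px : Primrec (fun p : (ℕ × H) × Node × List H => p.2.1) := Primrec.fst.comp Primrec.snd
    have pb : Primrec (fun p : (ℕ × H) × Node × List H => p.2.2) := Primrec.snd.comp Primrec.snd
    have pn : Primrec (fun p : (ℕ × H) × Node × List H => p.1.1) := Primrec.fst.comp Primrec.fst
    have ph : Primrec (fun p : (ℕ × H) × Node × List H => p.1.2) := Primrec.snd.comp Primrec.fst
    refine AL.and I (AL.and I (AL.and I (al_memF I hqL px) (al_real I hqL a px pb))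
      (AL.and I (AL.and I (al_thru I hB px) (AL.of_ar I (Ar.lt pn (primrec_plc.comp px))))
        (AL.of_ar I (Ar.eq (primrec_getD pb pn) ph)))) ?_
    refine AL.all (R := fun _ (p : (ℕ × H) × Node × List H) (l : ℕ) => ∃ y : Node × List H,
      (y.1 ∈ q.F ∧ IsReal q a y.1 y.2) ∧ ((p.2.1 <+: y.1 ∧ p.2.2 <+: y.2) ∧
        Agr z l (R y.2 y.1))) ?_
    refine AL.ex (R := fun _ (p : ((ℕ × H) × Node × List H) × ℕ) (y : Node × List H) =>
      (y.1 ∈ q.F ∧ IsReal q a y.1 y.2) ∧ ((p.1.2.1 <+: y.1 ∧ p.1.2.2 <+: y.2) ∧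
        Agr z p.2 (R y.2 y.1))) ?_
    have py : Primrec (fun p : (((ℕ × H) × Node × List H) × ℕ) × Node × List H => p.2.1) :=
      Primrec.fst.comp Primrec.snd
    have pc : Primrec (fun p : (((ℕ × H) × Node × List H) × ℕ) × Node × List H => p.2.2) :=
      Primrec.snd.comp Primrec.snd
    have pl : Primrec (fun p : (((ℕ × H) × Node × List H) × ℕ) × Node × List H => p.1.2) :=
      Primrec.snd.comp Primrec.fst
    have px' : Primrec (fun p : (((ℕ × H) × Node × List H) × ℕ) × Node × List H =>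
        p.1.1.2.1) := px.comp (Primrec.fst.comp Primrec.fst)
    have pb' : Primrec (fun p : (((ℕ × H) × Node × List H) × ℕ) × Node × List H =>
        p.1.1.2.2) := pb.comp (Primrec.fst.comp Primrec.fst)
    exact AL.and I (AL.and I (al_memF I hqL py) (al_real I hqL a py pc))
      (AL.and I (AL.and I (al_prefix I px' py) (al_prefix I pb' pc))
        (al_agrR I hRL (I.refl z) pl pc py))
  have h1 := AL.real_enc I key
  have e : {x : ℕ × H | A x.1 = x.2} = {p : ℕ × H | ∃ x : Node × List H,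
      ((x.1 ∈ q.F ∧ IsReal q a x.1 x.2) ∧ ((Thru B x.1 ∧ p.1 < plc x.1) ∧
        x.2.getD p.1 0 = p.2)) ∧ ∀ l : ℕ, ∃ y : Node × List H,
          (y.1 ∈ q.F ∧ IsReal q a y.1 y.2) ∧ ((x.1 <+: y.1 ∧ x.2 <+: y.2) ∧
            Agr z l (R y.2 y.1))} := by
    ext ⟨n, v⟩
    simp only [Set.mem_ofPred_eq]
    constructor
    · intro hA
      obtain ⟨x, hx, hBx, -, hxn⟩ := hb.exists_fat (n + 1)
      have hr := (Br.cone hg hb hx hBx).2
      refine ⟨(x, preA A (plc x)), ⟨⟨hx, hr⟩, ⟨hBx, by dsimp only; omega⟩, ?_⟩, fun l => ?_⟩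
      · dsimp only
        rw [preA_getD _ (by omega), hA]
      obtain ⟨w, hw, hBw, hwl, -, hwr, hwa⟩ := exists_long hg hb hR hz l x.length
      have hxw : x <+: w := by
        rcases Thru_comparable hBx hBw with h2 | h2
        · exact h2
        · rw [List.IsPrefix.eq_of_length h2 (le_antisymm h2.length_le hwl)]
      exact ⟨(w, preA A (plc w)), ⟨hw, hwr⟩, ⟨hxw, preA_mono A (plc_mono hxw)⟩, hwa⟩
    · rintro ⟨⟨x, b⟩, ⟨⟨hx, hbr⟩, ⟨hBx, hn⟩, hv⟩, hl⟩
      dsimp only at hx hbr hBx hn hv hl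
      have hr := (Br.cone hg hb hx hBx).2
      have hbe : b = preA A (plc x) := by
        by_contra hne
        obtain ⟨l, hl2⟩ := h.2 x hx b _ hbr hr hne
        obtain ⟨⟨y, c⟩, ⟨hy, hyr⟩, ⟨hxy, hbc⟩, hag⟩ := hl l
        dsimp only at hy hyr hxy hbc hag
        obtain ⟨w, hw, hBw, hwl, -, hwr, hwa⟩ := exists_long hg hb hR hz l x.length
        have hxw : x <+: w := by
          rcases Thru_comparable hBx hBw with h2 | h2
          · exact h2
          · rw [List.IsPrefix.eq_of_length h2 (le_antisymm h2.length_le hwl)]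
        exact hl2 y hy hxy w hw hxw c _ hyr hwr hbc (preA_mono A (plc_mono hxw))
          hag.le_length hwa.le_length (hag.take_eq hwa)
      rw [hbe, preA_getD _ hn] at hv
      exact hv
  unfold rA
  rw [e]
  exact h1

end Helper99.PC
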