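import Pool.Agent.Helper99.PC.ArA
import Pool.Agent.Helper99.PC.ArB
import Pool.Agent.Helper99.TT.Lists

/-! PC-DegC: (10.2) the reals `A_n`. -/

set_option autoImplicit false

noncomputable section

namespace Helper99.PC

open Helper99.TT Encodable
open Pool.Agent.Helper44.CL hiding TT
open Pool.Agent.Helper44.PC

variable {cle : Set ℕ → Set ℕ → Prop} {L2 : Set (Set (Set ℕ))}

theorem shA_zero (A : ℕ → H) : shA 0 A = A := by
  funext p
  ext i
  rfl

theorem mem_rA_C {A : ℕ → H} {p : ℕ} {h : H} : encode (p, h) ∈ rA A ↔ A p = h :=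
  (Function.Injective.mem_set_image encode_injective).trans Iff.rfl

theorem mem_rB_C {B : ℕ → Step} {i : ℕ} {s : Step} : encode (i, s) ∈ rB B ↔ B i = s :=
  (Function.Injective.mem_set_image encode_injective).trans Iff.rfl

theorem shA_le (I : Iface cle L2) (A : ℕ → H) (n : ℕ) :
    cle (rA (shA (n + 1) A)) (rA (shA n A)) := by
  refine AL.real_enc I (Φ := fun x : ℕ × H => shA (n + 1) A x.1 = x.2) ?_
  have h : AL cle (rA (shA n A)) (fun (_ : ℕ → Set ℕ) (x : ℕ × H) =>
      ∃ g : H, encode (x.1, g) ∈ rA (shA n A) ∧ sh 1 g = x.2) := by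
    refine AL.ex (R := fun _ (x : ℕ × H) (g : H) =>
      encode (x.1, g) ∈ rA (shA n A) ∧ sh 1 g = x.2) ?_
    refine AL.and I (AL.par (I.refl _) (Primrec.encode.comp
      ((Primrec.fst.comp Primrec.fst).pair Primrec.snd))) (AL.of_ar I ?_)
    exact ar_sh (Primrec.const 1) Primrec.snd (Primrec.snd.comp Primrec.fst)
  refine h.of_eq fun _ x => ?_
  have e : shA (n + 1) A x.1 = sh 1 (shA n A x.1) := by
    ext i
    show A x.1 (i + (n + 1)) = A x.1 ((i + 1) + n)
    congr 1
    omega
  rw [e]
  constructor
  · intro h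
    exact ⟨_, mem_rA_C.2 rfl, h⟩
  · rintro ⟨g, h1, h2⟩
    rw [mem_rA_C.1 h1]
    exact h2

theorem preB_succ_C (B : ℕ → Step) (m : ℕ) : preB B (m + 1) = preB B m ++ [B m] := by
  simp [preB, List.range_succ]

theorem preB_prefix_C (B : ℕ → Step) {n m : ℕ} (h : n ≤ m) : preB B n <+: preB B m := by
  induction h with
  | refl => exact List.prefix_rfl
  | step _ ih =>
    refine ih.trans ?_
    rw [preB_succ_C]
    exact List.prefix_append _ _

theorem le_plc_C (B : ℕ → Step) (m : ℕ) : m ≤ plc (preB B m) := by
  induction m with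
  | zero => exact Nat.zero_le _
  | succ m ih =>
    rw [preB_succ_C, plc_append, plc_singleton]
    omega

theorem ent_unique_C {B : ℕ → Step} (hidx : ∀ j : ℕ, IsPair j (B j).v (B j).w) (n : ℕ) :
    ∀ (m p : ℕ), plc (preB B n) ≤ p → p < plc (preB B m) → ∀ h ∈ ent (preB B m) p,
      ∀ h' ∈ ent (preB B m) p, sh n h = sh n h' → h = h' := by
  intro m
  induction m with
  | zero =>
    intro p _ hp
    exact absurd hp (Nat.not_lt_zero _)
  | succ m ih =>
    intro p hnp hp h hh h' hh' he
    rw [preB_succ_C] at hp hh hh'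
    by_cases hpm : p < plc (preB B m)
    · rw [ent_append_left _ _ hpm] at hh hh'
      exact ih p hnp hpm h hh h' hh' he
    · obtain ⟨i, rfl⟩ := Nat.exists_eq_add_of_le (not_lt.1 hpm)
      rw [ent_append_right] at hh hh'
      rw [plc_append, plc_singleton] at hp
      have hnm : n ≤ m := by
        by_contra hcon
        have h1 := plc_mono (preB_prefix_C B (show m + 1 ≤ n by omega))
        rw [preB_succ_C, plc_append, plc_singleton] at h1
        omega
      by_cases hi : i < (B m).u.length
      · rw [ent_singleton_lt hi, Finset.mem_singleton] at hh hh'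
        rw [hh, hh']
      · have hi' : i = (B m).u.length := by omega
        rw [hi', ent_singleton_last, Finset.mem_insert, Finset.mem_singleton] at hh hh'
        have hlt := (hidx m).2
        have hd : ∀ {a b : H}, sh n a = sh n b → a m = b m := by
          intro a b hab
          have := DFunLike.congr_fun hab (m - n)
          rw [sh_apply, sh_apply, Nat.sub_add_cancel hnm] at this
          exact this
        rcases hh with rfl | rfl <;> rcases hh' with rfl | rfl
        · rfl
        · have := hd he
          omega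
        · have := hd he
          omega
        · rfl

/-- `A` is constructible from `A_n` and `B` -/
theorem join_le (I : Iface cle L2) {A : ℕ → H} {B : ℕ → Step}
    (hent : ∀ m p, p < plc (preB B m) → A p ∈ ent (preB B m) p)
    (hidx : ∀ j : ℕ, IsPair j (B j).v (B j).w) (n : ℕ) :
    cle (rA A) (jn (rA (shA n A)) (rB B)) := by
  refine AL.real_enc I (Φ := fun x : ℕ × H => A x.1 = x.2) ?_
  have hcA : cle (rA (shA n A)) (jn (rA (shA n A)) (rB B)) := I.le_jn_left _ _
  have hcB : cle (rB B) (jn (rA (shA n A)) (rB B)) := I.le_jn_right _ _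
  generalize jn (rA (shA n A)) (rB B) = z at hcA hcB
  have h : AL cle z (fun (_ : ℕ → Set ℕ) (x : ℕ × H) =>
      x ∈ (List.range (plc (preB B n))).map (fun p => (p, A p)) ∨
      (plc (preB B n) ≤ x.1 ∧ ∃ y : Node,
        (∀ i : ℕ, ∀ s : Step, y[i]? = some s → encode (i, s) ∈ rB B) ∧
        x.1 < plc y ∧ x.2 ∈ ent y x.1 ∧
        ∃ g : H, encode (x.1, g) ∈ rA (shA n A) ∧ sh n x.2 = g)) := by
    refine AL.or I (AL.of_ar I (arB_memL Primrec.id (Primrec.const _))) ?_
    refine AL.and I (AL.of_ar I (Ar.le (Primrec.const _) Primrec.fst)) ?_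
    refine AL.ex (R := fun _ (x : ℕ × H) (y : Node) =>
        (∀ i : ℕ, ∀ s : Step, y[i]? = some s → encode (i, s) ∈ rB B) ∧
        x.1 < plc y ∧ x.2 ∈ ent y x.1 ∧
        ∃ g : H, encode (x.1, g) ∈ rA (shA n A) ∧ sh n x.2 = g) ?_
    refine AL.and I ?_ ?_
    · refine AL.all (R := fun _ (x : (ℕ × H) × Node) (i : ℕ) =>
        ∀ s : Step, x.2[i]? = some s → encode (i, s) ∈ rB B) ?_
      refine AL.all (R := fun _ (x : ((ℕ × H) × Node) × ℕ) (s : Step) =>
        x.1.2[x.2]? = some s → encode (x.2, s) ∈ rB B) ?_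
      refine AL.imp I (AL.of_ar I ?_) (AL.par hcB (Primrec.encode.comp
        ((Primrec.snd.comp Primrec.fst).pair Primrec.snd)))
      exact Ar.eq (Primrec.list_getElem?.comp
        (Primrec.snd.comp (Primrec.fst.comp Primrec.fst)) (Primrec.snd.comp Primrec.fst))
        (Primrec.option_some.comp Primrec.snd)
    · refine AL.and I (AL.of_ar I ?_) (AL.and I (AL.of_ar I ?_) ?_)
      · exact Ar.lt (Primrec.fst.comp Primrec.fst) (primrec_plc.comp Primrec.snd)
      · exact ar_ent (Primrec.snd.comp Primrec.fst) Primrec.snd (Primrec.fst.comp Primrec.fst)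
      · refine AL.ex (R := fun _ (x : (ℕ × H) × Node) (g : H) =>
          encode (x.1.1, g) ∈ rA (shA n A) ∧ sh n x.1.2 = g) ?_
        refine AL.and I (AL.par hcA (Primrec.encode.comp
          ((Primrec.fst.comp (Primrec.fst.comp Primrec.fst)).pair Primrec.snd)))
          (AL.of_ar I ?_)
        exact ar_sh (Primrec.const n) (Primrec.snd.comp (Primrec.fst.comp Primrec.fst))
          Primrec.snd
  refine h.of_eq fun _ x => ?_
  obtain ⟨p, g⟩ := x
  show A p = g ↔ _
  constructor
  · intro hx
    by_cases hp : p < plc (preB B n)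
    · left
      exact List.mem_map.2 ⟨p, List.mem_range.2 hp, by rw [hx]⟩
    · right
      refine ⟨not_lt.1 hp, preB B (p + 1), ?_, ?_, ?_, _, mem_rA_C.2 rfl, ?_⟩
      · intro i s hs
        rw [mem_rB_C]
        unfold preB at hs
        rw [List.getElem?_eq_some_iff] at hs
        obtain ⟨hi, hs⟩ := hs
        rw [List.getElem_map, List.getElem_range] at hs
        exact hs
      · exact lt_of_lt_of_le (Nat.lt_succ_self p) (le_plc_C B (p + 1))
      · have h1 := hent (p + 1) p (lt_of_lt_of_le (Nat.lt_succ_self p) (le_plc_C B (p + 1)))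
        rw [hx] at h1
        exact h1
      · show sh n g = sh n (A p)
        rw [hx]
  · rintro (hx | ⟨hp, y, hy, hpy, hg, g', hg', he⟩)
    · obtain ⟨q, _, hq⟩ := List.mem_map.1 hx
      rw [Prod.mk.injEq] at hq
      rw [← hq.1]
      exact hq.2
    · have hyB : y = preB B y.length := by
        apply List.ext_getElem?
        intro i
        by_cases hi : i < y.length
        · have h1 := hy i y[i] (List.getElem?_eq_getElem hi)
          rw [mem_rB_C] at h1
          rw [List.getElem?_eq_getElem hi, ← h1]
          unfold preB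
          rw [List.getElem?_map, List.getElem?_range hi]
          rfl
        · rw [List.getElem?_eq_none (not_lt.1 hi), List.getElem?_eq_none]
          simp only [preB, List.length_map, List.length_range]
          exact not_lt.1 hi
      rw [hyB] at hpy hg
      rw [mem_rA_C] at hg'
      have h2 : sh n (A p) = g' := hg'
      exact ent_unique_C hidx n y.length p hp hpy (A p) (hent _ p hpy) g hg (h2.trans he.symm)

end Helper99.PC
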