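import Pool.Agent.Helper99.PC.GenA
import Pool.Agent.Helper99.PC.CanL

/-! PC-GenB: every real of `L[A + B]` has a canonical reading in the generic filter. -/

set_option autoImplicit false

noncomputable section

namespace Helper99.PC

open Helper99.TT Encodable
open Pool.Agent.Helper44.CL hiding TT
open Pool.Agent.Helper44.PC

variable {cle : Set ℕ → Set ℕ → Prop} {L2 : Set (Set (Set ℕ))}

/-- `n` belongs to the real of the finite approximation `x` -/
private def Elt (x : Set ℕ) (n : ℕ) : Prop :=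
  (∃ w : ℕ × H, ∃ a : List H, decP x = a ∧ n = Nat.pair 0 (encode w) ∧ w.1 < a.length ∧
    a.getD w.1 0 = w.2) ∨
  (∃ w : ℕ × Step, ∃ t : Node, (decC x).t = t ∧ n = Nat.pair 1 (encode w) ∧ t[w.1]? = some w.2)

private theorem ar_elt : Ar (fun ρ (n : ℕ) => Elt (ρ 0) n) := by
  unfold Elt
  refine Ar.or ?_ ?_
  · refine Ar.ex ?_
    refine Ar.ex ?_
    have f1 : Primrec (fun p : (ℕ × (ℕ × H)) × List H => p.2) := Primrec.snd
    have f2 : Primrec (fun p : (ℕ × (ℕ × H)) × List H => p.1.1) :=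
      Primrec.fst.comp Primrec.fst
    have f3 : Primrec (fun p : (ℕ × (ℕ × H)) × List H => p.1.2) :=
      Primrec.snd.comp Primrec.fst
    refine (ar_decP 0 f1).and ((Ar.eq f2 ?_).and ((Ar.lt ?_ ?_).and (Ar.eq ?_ ?_)))
    · exact Primrec₂.natPair.comp (Primrec.const 0) (Primrec.encode.comp f3)
    · exact Primrec.fst.comp f3
    · exact Primrec.list_length.comp f1
    · exact primrec_getD f1 (Primrec.fst.comp f3)
    · exact Primrec.snd.comp f3
  · refine Ar.ex ?_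
    refine Ar.ex ?_
    have f1 : Primrec (fun p : (ℕ × (ℕ × Step)) × Node => p.2) := Primrec.snd
    have f2 : Primrec (fun p : (ℕ × (ℕ × Step)) × Node => p.1.1) :=
      Primrec.fst.comp Primrec.fst
    have f3 : Primrec (fun p : (ℕ × (ℕ × Step)) × Node => p.1.2) :=
      Primrec.snd.comp Primrec.fst
    refine (ar_t 0 f1).and ((Ar.eq f2 ?_).and (Ar.eq ?_ ?_))
    · exact Primrec₂.natPair.comp (Primrec.const 1) (Primrec.encode.comp f3)
    · exact Primrec.list_getElem?.comp f1 (Primrec.fst.comp f3)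
    · exact Primrec.option_some.comp (Primrec.snd.comp f3)

private theorem mem_jn {x y : Set ℕ} {n : ℕ} :
    n ∈ jn x y ↔ (∃ m ∈ x, n = Nat.pair 0 m) ∨ (∃ m ∈ y, n = Nat.pair 1 m) := by
  obtain ⟨i, m, rfl⟩ : ∃ i m, n = Nat.pair i m := ⟨n.unpair.1, n.unpair.2, (Nat.pair_unpair n).symm⟩
  simp only [jn, join, Set.mem_ofPred_eq, Nat.unpair_pair, Nat.pair_eq_pair]
  match i with
  | 0 => simp
  | 1 => simp
  | i + 2 => simp [cons]

private theorem jn_eq {G : Set (Set ℕ)} {A : ℕ → H} {B : ℕ → Step} (I : Iface cle L2)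
    (h : Gen cle L2 G A B) :
    jn (rA A) (rB B) = {n | ∃ p ∈ G, p ∈ {x | cle x ∅ ∧ (IsPP x ∧ Elt x n)}} := by
  ext n
  rw [mem_jn]
  constructor
  · rintro (⟨m, ⟨w, hw, rfl⟩, rfl⟩ | ⟨m, ⟨w, hw, rfl⟩, rfl⟩)
    · obtain ⟨a, q, hG, hl⟩ := h.long (w.1 + 1)
      obtain ⟨hx, hpp⟩ := h.gen.sub hG
      have hbr := h.br a q hG
      have hlen : w.1 < a.length := by
        rw [← hbr.1, preA_length]
        have := length_le_plc q.t
        omega
      refine ⟨enc a q, hG, hx, hpp, Or.inl ⟨w, a, decP_enc a q, rfl, hlen, ?_⟩⟩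
      have h1 : w.1 < plc q.t := by
        have := length_le_plc q.t
        omega
      rw [← hbr.1, preA_getD A h1]
      exact hw
    · obtain ⟨a, q, hG, hl⟩ := h.long (w.1 + 1)
      obtain ⟨hx, hpp⟩ := h.gen.sub hG
      have hbr := h.br a q hG
      refine ⟨enc a q, hG, hx, hpp, Or.inr ⟨w, q.t, ?_, rfl, ?_⟩⟩
      · rw [decC_enc]
      · rw [← hbr.2.1]
        have h1 : w.1 < q.t.length := by omega
        have hw' : B w.1 = w.2 := hw
        simp [preB, h1, hw']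
  · rintro ⟨x, hG, -, -, hE⟩
    obtain ⟨a, q, rfl, -, -⟩ := mem_PP I (h.gen.sub hG)
    have hbr := h.br a q hG
    rcases hE with ⟨w, a', ha, rfl, hl, hw⟩ | ⟨w, t, ht, rfl, hw⟩
    · rw [decP_enc] at ha
      subst ha
      refine Or.inl ⟨encode w, ⟨w, ?_, rfl⟩, rfl⟩
      have h1 : w.1 < plc q.t := by
        rw [← hbr.1, preA_length] at hl
        exact hl
      rw [← hbr.1, preA_getD A h1] at hw
      exact hw
    · rw [decC_enc] at ht
      subst ht
      refine Or.inr ⟨encode w, ⟨w, ?_, rfl⟩, rfl⟩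
      have h1 : w.1 < q.t.length := by
        by_contra hcon
        rw [List.getElem?_eq_none (by omega)] at hw
        exact absurd hw (by simp)
      rw [← hbr.2.1] at hw
      simp only [preB, List.getElem?_map] at hw
      rw [List.getElem?_range h1] at hw
      simpa using hw

private theorem tl_dec (I : Iface cle L2) {D : Bool → ℕ → Set (Set ℕ)}
    (hD : ∀ e, SeqIn L2 (D e)) :
    TL cle L2 (fun ρ (_ : Unit) => Dec D (decR (ρ 0)) (decC (ρ 1)) (decP (ρ 1))) := by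
  have key : TL cle L2 (fun ρ (p : (((Unit × Node) × List H) × ℕ) × Bool) =>
      p.1.1.1.2 ∈ (decC (ρ 1)).F → IsReal (decC (ρ 1)) (decP (ρ 1)) p.1.1.1.2 p.1.1.2 →
      (∃ s : List Bool, decR (ρ 0) p.1.1.2 p.1.1.1.2 = s ∧ s[p.1.2]? = some p.2) →
      ∃ d, cle d ∅ ∧ (((p.2 = true ∧ d ∈ D true p.1.2) ∨ (p.2 = false ∧ d ∈ D false p.1.2)) ∧
        leP (enc p.1.1.2 ((decC (ρ 1)).cone p.1.1.1.2)) d)) := by
    have fx : Primrec (fun p : (((Unit × Node) × List H) × ℕ) × Bool => p.1.1.1.2) :=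
      Primrec.snd.comp (Primrec.fst.comp (Primrec.fst.comp Primrec.fst))
    have fb : Primrec (fun p : (((Unit × Node) × List H) × ℕ) × Bool => p.1.1.2) :=
      Primrec.snd.comp (Primrec.fst.comp Primrec.fst)
    have fi : Primrec (fun p : (((Unit × Node) × List H) × ℕ) × Bool => p.1.2) :=
      Primrec.snd.comp Primrec.fst
    have fe : Primrec (fun p : (((Unit × Node) × List H) × ℕ) × Bool => p.2) := Primrec.snd
    refine TL.imp I (TL.of_ar I (ar_memF 1 fx)) (TL.imp I (TL.of_ar I (ar_real' 1 fb fx))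
      (TL.imp I (TL.of_ar I ?_) ?_))
    · refine Ar.ex ?_
      exact (ar_decR 0 (fb.comp Primrec.fst) (fx.comp Primrec.fst) Primrec.snd).and
        (Ar.eq (Primrec.list_getElem?.comp Primrec.snd (fi.comp Primrec.fst))
          (Primrec.option_some.comp (fe.comp Primrec.fst)))
    · refine TL.exR (R := fun d ρ (p : (((Unit × Node) × List H) × ℕ) × Bool) =>
        (((p.2 = true ∧ d ∈ D true p.1.2) ∨ (p.2 = false ∧ d ∈ D false p.1.2)) ∧
          leP (enc p.1.1.2 ((decC (ρ 1)).cone p.1.1.1.2)) d)) ?_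
      refine TL.and I (TL.or I (TL.and I ?_ ?_) (TL.and I ?_ ?_)) ?_
      · exact TL.of_ar I (Ar.eq fe (Primrec.const true))
      · exact TL.memSeq I (hD true) (F := fun ρ _ => ρ 0) (ALS.var I 0) fi
      · exact TL.of_ar I (Ar.eq fe (Primrec.const false))
      · exact TL.memSeq I (hD false) (F := fun ρ _ => ρ 0) (ALS.var I 0) fi
      · refine TL.of_al ?_
        exact AL.sub2 I (Φ := fun x y (_ : Unit) => leP x y) (ar_leP 0 1)
          (F := fun ρ (p : (((Unit × Node) × List H) × ℕ) × Bool) =>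
            enc p.1.1.2 ((decC (ρ 2)).cone p.1.1.1.2))
          (G := fun ρ (_ : (((Unit × Node) × List H) × ℕ) × Bool) => ρ 0)
          (ALS.of_arS I (arS_cone 2 fb fx)) (ALS.var I 0)
          (f := fun _ => ()) (Primrec.const ())
  have key2 := TL.all (R := fun ρ (p : Unit × Node) (b : List H) => ∀ (i : ℕ) (e : Bool),
      p.2 ∈ (decC (ρ 1)).F → IsReal (decC (ρ 1)) (decP (ρ 1)) p.2 b →
      (∃ s : List Bool, decR (ρ 0) b p.2 = s ∧ s[i]? = some e) →
      ∃ d, cle d ∅ ∧ (((e = true ∧ d ∈ D true i) ∨ (e = false ∧ d ∈ D false i)) ∧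
        leP (enc b ((decC (ρ 1)).cone p.2)) d))
    (TL.all (R := fun ρ (p : (Unit × Node) × List H) (i : ℕ) => ∀ (e : Bool),
      p.1.2 ∈ (decC (ρ 1)).F → IsReal (decC (ρ 1)) (decP (ρ 1)) p.1.2 p.2 →
      (∃ s : List Bool, decR (ρ 0) p.2 p.1.2 = s ∧ s[i]? = some e) →
      ∃ d, cle d ∅ ∧ (((e = true ∧ d ∈ D true i) ∨ (e = false ∧ d ∈ D false i)) ∧
        leP (enc p.2 ((decC (ρ 1)).cone p.1.2)) d)) (TL.all key))
  refine (TL.all (R := fun ρ (_ : Unit) (x : Node) => ∀ (b : List H) (i : ℕ) (e : Bool),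
      x ∈ (decC (ρ 1)).F → IsReal (decC (ρ 1)) (decP (ρ 1)) x b →
      (∃ s : List Bool, decR (ρ 0) b x = s ∧ s[i]? = some e) →
      ∃ d, cle d ∅ ∧ (((e = true ∧ d ∈ D true i) ∨ (e = false ∧ d ∈ D false i)) ∧
        leP (enc b ((decC (ρ 1)).cone x)) d)) key2).of_eq fun ρ _ => ?_
  constructor
  · rintro hdec x b i e hx hb ⟨s, hs, he⟩
    obtain ⟨d, hd, hle⟩ := hdec x hx b hb i e (by rw [hs]; exact he)
    have hd0 : cle d ∅ := I.L2_sub _ (I.seqIn_apply (hD e) i) d hd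
    refine ⟨d, hd0, ?_, hle⟩
    cases e
    · exact Or.inr ⟨rfl, hd⟩
    · exact Or.inl ⟨rfl, hd⟩
  · intro hall x hx b hb i e he
    obtain ⟨d, -, hd, hle⟩ := hall x b i e hx hb ⟨_, rfl, he⟩
    refine ⟨d, ?_, hle⟩
    rcases hd with ⟨rfl, hd⟩ | ⟨rfl, hd⟩
    · exact hd
    · exact hd

theorem gen_read (I : Iface cle L2) {G : Set (Set ℕ)} {A : ℕ → H} {B : ℕ → Step}
    (h : Gen cle L2 G A B) {z : Set ℕ} (hz : cle z (jn (rA A) (rB B))) :
    ∃ a q, enc a q ∈ G ∧ q ∈ CC cle ∧ IsPiece q.t a ∧ Br q a A B ∧ ∃ R : Rd, cle (rR R) ∅ ∧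
      Reading R q a ∧ ACan R q a ∧ Val R q A B z := by
  have hE : SeqIn L2 (fun n => {x | cle x ∅ ∧ (IsPP x ∧ Elt x n)}) :=
    TL.seqIn I (Φ := fun x n => IsPP x ∧ Elt x n)
      (TL.of_ar I ((ar_isPP 0).and ar_elt))
  rw [jn_eq I h] at hz
  obtain ⟨D, hD, hdense, hpos, hneg⟩ := I.names (PP cle) leP (PP_mem I) (PP_rel I) (PP_refl I)
    (PP_trans I) G h.gen _ hE z hz
  have hDP : ∀ e n, D e n ⊆ PP cle := by
    intro e n x hx
    refine (hdense n).1 ?_
    cases e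
    · exact Or.inr hx
    · exact Or.inl hx
  -- the dense set of conditions with a canonical reading
  have hS : {x | cle x ∅ ∧ (IsPP x ∧ ∃ r, cle r ∅ ∧ (r = rR (decR r) ∧
      Reading (decR r) (decC x) (decP x) ∧ ACan (decR r) (decC x) (decP x) ∧
      Dec D (decR r) (decC x) (decP x)))} ∈ L2 := by
    refine TL.compr I (Φ := fun x (_ : Unit) => IsPP x ∧ ∃ r, cle r ∅ ∧ (r = rR (decR r) ∧
      Reading (decR r) (decC x) (decP x) ∧ ACan (decR r) (decC x) (decP x) ∧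
      Dec D (decR r) (decC x) (decP x))) ?_ ()
    refine TL.and I (TL.of_ar I (ar_isPP 0)) ?_
    refine TL.exR (R := fun r ρ (_ : Unit) => (r = rR (decR r) ∧
      Reading (decR r) (decC (ρ 0)) (decP (ρ 0)) ∧ ACan (decR r) (decC (ρ 0)) (decP (ρ 0)) ∧
      Dec D (decR r) (decC (ρ 0)) (decP (ρ 0)))) ?_
    exact TL.and I (TL.of_ar I (ar_isR 0)) (TL.and I (TL.of_ar I (ar_reading 0 1))
      (TL.and I (TL.of_ar I (ar_aCan 0 1)) (tl_dec I hD)))
  have hSd : Dense (PP cle) leP {x | cle x ∅ ∧ (IsPP x ∧ ∃ r, cle r ∅ ∧ (r = rR (decR r) ∧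
      Reading (decR r) (decC x) (decP x) ∧ ACan (decR r) (decC x) (decP x) ∧
      Dec D (decR r) (decC x) (decP x)))} := by
    refine ⟨fun x hx => ⟨hx.1, hx.2.1⟩, fun p hp => ?_⟩
    obtain ⟨a, q, rfl, hq, ha⟩ := mem_PP I hp
    obtain ⟨a', q', hq', ha', hle, R, hR, hread, hdec, hcan⟩ := canL I hD hdense hq ha
    have hmem := enc_mem_PP I hq' ha'
    refine ⟨enc a' q', ⟨hmem.1, hmem.2, rR R, hR, ?_⟩, leP_enc.2 hle⟩
    rw [decR_rR, decC_enc, decP_enc]
    exact ⟨rfl, hread, hcan, hdec⟩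
  obtain ⟨x, hxG, hx0, hxP, r, hr, hrR, hread, hcan, hdec⟩ := h.gen.meets _ hS hSd
  obtain ⟨a, q, rfl, hq, ha⟩ := mem_PP I (h.gen.sub hxG)
  rw [decC_enc, decP_enc] at hread hcan hdec
  have hbr := h.br a q hxG
  refine ⟨a, q, hxG, hq, ha, hbr, decR r, hrR ▸ hr, hread, hcan, ?_⟩
  intro x hx hthru i e he
  have hreal : IsReal q a x (preA A (plc x)) := by
    refine ⟨ha, ?_, ⟨preA_length _ _, fun p hp => ?_⟩, fun p hp hp' => ?_⟩
    · rw [← hbr.1]
      exact preA_mono A (plc_mono (hq.1.above x hx))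
    · rw [preA_getD A hp]
      have h1 := hbr.2.2.1 x.length p
      rw [show preB B x.length = x from hthru] at h1
      exact h1 hp
    · rw [preA_getD A hp']
      exact hbr.2.2.2.1 p hp
  obtain ⟨d, hd, hle⟩ := hdec x hx _ hreal i e he
  have hcG := h.cone a q hxG x hx hthru
  have hdG : d ∈ G := h.gen.up _ hcG d (hDP e i hd) hle
  cases e
  · have h1 : i ∉ z := (hneg i).2 ⟨d, hdG, hd⟩
    simp [h1]
  · have h1 : i ∈ z := (hpos i).2 ⟨d, hdG, hd⟩
    simp [h1]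

end Helper99.PC
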