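import Pool.Agent.Helper99.PC.ArE

/-! PC-Posets: the three posets are in `L`. -/

set_option autoImplicit false

noncomputable section

namespace Helper99.PC

open Helper99.TT Encodable
open Pool.Agent.Helper44.CL hiding TT
open Pool.Agent.Helper44.PC

section Aux

open Pool.Agent.Helper98.T (upd EqN upd_same upd_ne)

theorem sh_updP (n : ℕ) (e : H) (i c : ℕ) : sh n (upd e (i + n) c) = upd (sh n e) i c := by
  ext k
  rw [sh_apply]
  by_cases h : k = i
  · subst h
    rw [upd_same, upd_same]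
  · rw [upd_ne _ _ h, upd_ne _ _ (by omega), sh_apply]

theorem lg_image_sh {M : ℕ} (hM : 1 ≤ M) (n : ℕ) {V : Finset H} : ∀ (i : ℕ) {e : H},
    Pool.Agent.Helper98.T.Lg (i + n) M V e →
    Pool.Agent.Helper98.T.Lg i M (V.image (sh n)) (sh n e) := by
  intro i
  induction i with
  | zero =>
    intro e h
    obtain ⟨e', h1, h2⟩ := Pool.Agent.Helper98.T.Lg.down (i := 0) hM n h
    have h3 : sh n e' = sh n e := by
      ext k
      rw [sh_apply, sh_apply]
      exact h1 (k + n) (by omega)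
    show sh n e ∈ V.image (sh n)
    rw [← h3]
    exact Finset.mem_image_of_mem _ h2
  | succ i ih =>
    intro e h
    have h' : Pool.Agent.Helper98.T.Lg ((i + n) + 1) M V e := by
      rw [show i + n + 1 = i + 1 + n by omega]
      exact h
    obtain ⟨C, hC, hc⟩ := h'
    refine ⟨C, hC, fun c hcC => ?_⟩
    rw [← sh_updP]
    exact ih (hc c hcC)

theorem large_image_sh {M n : ℕ} {V : Finset H} (h : Large (M + n) V) :
    Large M (V.image (sh n)) := by
  rcases Nat.eq_zero_or_pos M with h0 | h0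
  · subst h0
    obtain ⟨v, hv⟩ := Large_nonempty h
    exact ⟨sh n v, Finset.mem_image_of_mem _ hv⟩
  · obtain ⟨e, he⟩ := h
    exact ⟨sh n e, lg_image_sh h0 n M (he.anti (Nat.le_add_right M n))⟩

theorem isX_shFP {V : Fam} (n : ℕ) (h : IsX V) : IsX (shF n V) := by
  refine ⟨fun i => (h.1 i).image _, fun M N => ?_⟩
  obtain ⟨i, hi, hL⟩ := h.2 (M + n) N
  exact ⟨i, hi, large_image_sh hL⟩

end Aux

variable {cle : Set ℕ → Set ℕ → Prop} {L2 : Set (Set (Set ℕ))} (I : Iface cle L2)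
include I

theorem PP_mem : PP cle ∈ L2 :=
  TL.compr I (Φ := fun x (_ : Unit) => IsPP x) (TL.of_ar I (ar_isPP 0)) ()

theorem PP_rel : RelIn L2 (PP cle) leP :=
  TL.relIn I (Ψ := IsPP) (Φ := leP) (TL.of_ar I (ar_isPP 0)) (TL.of_ar I (ar_leP 0 1))

theorem PP_refl : ∀ x ∈ PP cle, leP x x := by
  rintro x ⟨_, h1, _, _⟩
  exact ⟨[], (List.append_nil _).symm, le_nil_of_leS (leS_refl _) h1⟩

theorem PP_trans : ∀ x ∈ PP cle, ∀ y ∈ PP cle, ∀ z ∈ PP cle, leP x y → leP y z → leP x z := by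
  rintro x _ y hy z hz h h'
  exact leP_trans hz.2.1 hy.2.1 h' h

theorem enc_mem_PP {q : Cond} (hq : q ∈ CC cle) {a : List H} (ha : IsPiece q.t a) :
    enc a q ∈ PP cle :=
  ⟨cle_enc I [] a hq.2, isPP_enc.2 ⟨hq.1, ha⟩⟩

theorem mem_PP {x : Set ℕ} (hx : x ∈ PP cle) :
    ∃ a q, x = enc a q ∧ q ∈ CC cle ∧ IsPiece q.t a := by
  obtain ⟨h0, h1⟩ := hx
  obtain ⟨a, q, rfl, hq, ha⟩ := h1.exists
  exact ⟨a, q, rfl, ⟨hq, cle_enc I a [] h0⟩, ha⟩

theorem leB_refl {x : Set ℕ} (hx : IsPB x) : leB x x :=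
  ⟨[], le_nil_of_leS (leS_refl _) hx.1⟩

theorem leB_trans {x y z : Set ℕ} (hx : IsPB x) (hy : IsPB y) (hz : IsPB z) (h : leB x y)
    (h' : leB y z) : leB x z := by
  obtain ⟨u, hu⟩ := h
  obtain ⟨u', hu'⟩ := h'
  exact ⟨u' ++ u, le_trans' hz.1 hy.1 hu' hu⟩

theorem leY_refl {x : Set ℕ} (hx : IsYY x) : leY x x :=
  ⟨[], (List.append_nil _).symm, trivial, fun _ _ => Finset.Subset.refl _⟩

theorem leY_trans {x y z : Set ℕ} (hx : IsYY x) (hy : IsYY y) (hz : IsYY z) (h : leY x y)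
    (h' : leY y z) : leY x z := by
  obtain ⟨u, h1, h2, h3⟩ := h
  obtain ⟨u', h1', h2', h3'⟩ := h'
  have hlx : (decP x).length = (decP y).length + u.length := by rw [h1, List.length_append]
  have hly : (decP y).length = (decP z).length + u'.length := by rw [h1', List.length_append]
  refine ⟨u' ++ u, ?_, path_append.2 ⟨h2', ?_⟩, fun i hi => ?_⟩
  · rw [h1, h1', List.append_assoc]
  · rw [← hly, path_iff]
    intro i hi
    exact h3' _ (Nat.le_add_right _ _) (path_iff.1 h2 i hi)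
  · exact (h3 i hi).trans (h3' i (by omega))

/-- the projection to `PB` is monotone -/
theorem piB_mono {x y : Set ℕ} (hx : IsPP x) (hy : IsPP y) (h : leP x y) :
    leB (piB x) (piB y) := by
  obtain ⟨u, _, hu⟩ := h
  refine ⟨u, ?_⟩
  rw [piB, piB, decC_enc, decC_enc]
  exact hu

theorem piY_isYY (n : ℕ) {x : Set ℕ} (hx : IsPP x) : IsYY (piY n x) :=
  isYY_enc.2 (isX_shFP n hx.1.isX)

theorem piY_mono (n : ℕ) {x y : Set ℕ} (hx : IsPP x) (hy : IsPP y) (h : leP x y) :
    leY (piY n x) (piY n y) := by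
  obtain ⟨u, h1, h2, h3, h4, h5, h6⟩ := h
  have hla := hy.2.1.1
  have hlx := hx.2.1.1
  refine ⟨u.map (sh n), ?_, ?_, ?_⟩
  · rw [piY, piY, decP_enc, decP_enc, h1, List.map_append]
  · rw [piY, decP_enc, decC_enc, famC_V, List.length_map, path_iff]
    intro i hi
    rw [List.length_map] at hi
    have h7 : (u.map (sh n)).getD i 0 = sh n (u.getD i 0) := by
      rw [List.getD_eq_getElem _ _ (by rw [List.length_map]; exact hi),
        List.getD_eq_getElem _ _ hi, List.getElem_map]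
    rw [h7, hla]
    exact Finset.mem_image_of_mem _ (h4 i hi).1
  · rw [piY, piY, decP_enc, decC_enc, decC_enc, famC_V, famC_V, List.length_map]
    intro i hi
    exact Finset.image_subset_image (h5 i (by rw [← hlx]; exact hi))

end Helper99.PC
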