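import Pool.Agent.Helper99.PC.NotLe
import Pool.Agent.Helper99.PC.Posets
import Pool.Agent.Helper99.TT.BranchB

/-! PC-NotA: (10.6) `A` is not constructible from `B`. -/

set_option autoImplicit false

noncomputable section

namespace Helper99.PC

open Helper99.TT Encodable
open Pool.Agent.Helper44.CL hiding TT
open Pool.Agent.Helper44.PC

/-- the fat successor of the stem has a real piece through each of the two elements of the pair -/
private theorem nA_real {q : Cond} (hq : Good q) {a : List H} (ha : IsPiece q.t a) {s : Step}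
    (hs : SStep q.V q.t s) {y : Node} (hy : y ∈ q.F) (hg : GapExt q.V (q.t ++ [s]) y) {c : H}
    (hc : c = s.v ∨ c = s.w) :
    ∃ b, IsReal q a y b ∧ b[plc q.t + s.u.length]? = some c := by
  obtain ⟨b0, h1, h2, h3, h4⟩ := real_exists hq ha hy
  have hal : a.length = plc q.t := ha.1
  have hmy : plc q.t + s.u.length < plc y := by
    have := plc_mono hg.1
    rw [plc_append, plc_singleton] at this
    omega
  obtain ⟨m, hm⟩ : ∃ m, m = plc q.t + s.u.length := ⟨_, rfl⟩
  rw [← hm] at hmy ⊢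
  let A : ℕ → H := fun p => if p = m then c else b0.getD p 0
  have hent : ent y m = {s.v, s.w} := by
    rw [ent_prefix hg.1 (by rw [plc_append, plc_singleton]; omega), hm, ent_append_right,
      ent_singleton_last]
  refine ⟨preA A (plc y), ⟨ha, ?_, ⟨preA_length A _, fun p hp => ?_⟩, fun p hp hp' => ?_⟩, ?_⟩
  · apply prefix_of_getD
    · rw [preA_length]
      have := plc_mono (hq.above y hy)
      omega
    · intro p hp
      rw [preA_getD A (by omega)]
      show (if p = m then c else b0.getD p 0) = _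
      rw [if_neg (by omega)]
      obtain ⟨z, rfl⟩ := h2
      rw [List.getD_append _ _ _ _ hp]
  · rw [preA_getD A hp]
    show (if p = m then c else b0.getD p 0) ∈ _
    split_ifs with h
    · rw [h, hent, Finset.mem_insert, Finset.mem_singleton]
      exact hc
    · exact h3.2 p hp
  · rw [preA_getD A hp']
    show (if p = m then c else b0.getD p 0) ∈ _
    split_ifs with h
    · rw [h, hm]
      rcases hc with rfl | rfl
      · exact hs.2.1
      · exact hs.2.2.1
    · exact h4 p hp hp'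
  · unfold preA
    rw [List.getElem?_map, List.getElem?_range hmy]
    show some (if m = m then c else b0.getD m 0) = _
    rw [if_pos rfl]

/-- the steps of the stem -/
private def nE (k : ℕ) (y : Set ℕ) : Prop :=
  ∃ b : Node × (ℕ × Step), (decC y).t = b.1 ∧ (k = encode b.2 ∧ b.1[b.2.1]? = some b.2.2)

/-- the values of the piece -/
private def nS (e : Bool) (k : ℕ) (x : Set ℕ) : Prop :=
  ∃ b : List H × ((ℕ × H) × H), decP x = b.1 ∧ (k = encode b.2.1 ∧
    (b.1[b.2.1.1]? = some b.2.2 ∧ (e = true ↔ b.2.2 = b.2.1.2)))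

private theorem ar_nE : Ar (fun ρ (k : ℕ) => nE k (ρ 0)) := by
  refine Ar.ex (R := fun ρ (k : ℕ) (b : Node × (ℕ × Step)) => (decC (ρ 0)).t = b.1 ∧
    (k = encode b.2 ∧ b.1[b.2.1]? = some b.2.2)) ?_
  refine Ar.and (ar_t 0 (f := fun p : ℕ × (Node × (ℕ × Step)) => p.2.1)
    (Primrec.fst.comp Primrec.snd)) (Ar.and (Ar.eq Primrec.fst
      (Primrec.encode.comp (Primrec.snd.comp Primrec.snd))) (Ar.eq ?_ ?_))
  · exact Primrec.list_getElem?.comp (Primrec.fst.comp Primrec.snd)
      (Primrec.fst.comp (Primrec.snd.comp Primrec.snd))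
  · exact Primrec.option_some.comp (Primrec.snd.comp (Primrec.snd.comp Primrec.snd))

private theorem ar_nS (e : Bool) : Ar (fun ρ (k : ℕ) => nS e k (ρ 0)) := by
  have s1 : Primrec (fun p : ℕ × (List H × ((ℕ × H) × H)) => p.2.1) :=
    Primrec.fst.comp Primrec.snd
  have s2 : Primrec (fun p : ℕ × (List H × ((ℕ × H) × H)) => p.2.2) :=
    Primrec.snd.comp Primrec.snd
  have s3 : Primrec (fun p : ℕ × (List H × ((ℕ × H) × H)) => p.2.2.1) := Primrec.fst.comp s2
  have s4 : Primrec (fun p : ℕ × (List H × ((ℕ × H) × H)) => p.2.2.2) := Primrec.snd.comp s2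
  have s5 : Primrec (fun p : ℕ × (List H × ((ℕ × H) × H)) => p.2.2.1.1) := Primrec.fst.comp s3
  have s6 : Primrec (fun p : ℕ × (List H × ((ℕ × H) × H)) => p.2.2.1.2) := Primrec.snd.comp s3
  have a1 : Ar (fun ρ (p : ℕ × (List H × ((ℕ × H) × H))) => decP (ρ 0) = p.2.1) := ar_decP 0 s1
  have a2 : Ar (fun _ (p : ℕ × (List H × ((ℕ × H) × H))) => p.1 = encode p.2.2.1) :=
    Ar.eq Primrec.fst (Primrec.encode.comp s3)
  have a3 : Ar (fun _ (p : ℕ × (List H × ((ℕ × H) × H))) => p.2.1[p.2.2.1.1]? = some p.2.2.2) :=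
    Ar.eq (Primrec.list_getElem?.comp s1 s5) (Primrec.option_some.comp s4)
  have a4 : Ar (fun _ (p : ℕ × (List H × ((ℕ × H) × H))) => p.2.2.2 = p.2.2.1.2) :=
    Ar.eq s4 s6
  have a5 : Ar (fun _ (p : ℕ × (List H × ((ℕ × H) × H))) => (e = true ↔ p.2.2.2 = p.2.2.1.2)) :=
    Ar.iff (Ar.const _) a4
  exact Ar.ex (R := fun ρ (k : ℕ) (b : List H × ((ℕ × H) × H)) => decP (ρ 0) = b.1 ∧
    (k = encode b.2.1 ∧ (b.1[b.2.1.1]? = some b.2.2 ∧ (e = true ↔ b.2.2 = b.2.1.2))))
    (a1.and (a2.and (a3.and a5)))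

variable {cle : Set ℕ → Set ℕ → Prop} {L2 : Set (Set (Set ℕ))}

/-- the real of `B` from the generic filter of the projected poset -/
private theorem rB_eq (I : Iface cle L2) {G : Set (Set ℕ)} {A : ℕ → H} {B : ℕ → Step}
    (h : Gen cle L2 G A B) :
    rB B = {k | ∃ y, cle y ∅ ∧ IsPB y ∧ nE k y ∧ ∃ x ∈ G, leB (piB x) y} := by
  ext k
  constructor
  · rintro ⟨⟨n, s⟩, hs, rfl⟩
    have hs : B n = s := hs
    obtain ⟨a, q, hG, hl⟩ := h.long (n + 1)
    have hPP := h.gen.sub hG
    have hgood : Good q ∧ IsPiece q.t a := isPP_enc.1 hPP.2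
    refine ⟨enc [] q, cle_enc I a [] hPP.1, isPB_enc.2 hgood.1, ⟨(q.t, (n, s)), ?_, rfl, ?_⟩,
      enc a q, hG, ?_⟩
    · rw [decC_enc]
    · show q.t[n]? = some s
      have h1 := (h.br a q hG).2.1
      rw [← h1]
      unfold preB
      rw [List.getElem?_map, List.getElem?_range (by omega), Option.map_some, hs]
    · show leB (enc [] (decC (enc a q))) (enc [] q)
      rw [decC_enc]
      exact leB_refl I (isPB_enc.2 hgood.1)
  · rintro ⟨y, hy, hPB, ⟨⟨t, n, s⟩, h1, rfl, h2⟩, x, hx, u, hu⟩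
    obtain ⟨q', rfl, hq'⟩ := hPB.exists
    have hPP := h.gen.sub hx
    obtain ⟨a, q, rfl, hq, ha⟩ := hPP.2.exists
    have h1 : (decC (enc [] q')).t = t := h1
    have h2 : t[n]? = some s := h2
    unfold piB at hu
    rw [decC_enc, decC_enc, decC_enc] at hu
    rw [decC_enc] at h1
    subst h1
    have hpre : q'.t <+: q.t := hq'.above _ hu.1
    have h3 := (h.br a q hx).2.1
    refine ⟨(n, s), ?_, rfl⟩
    show B n = s
    obtain ⟨z, hz⟩ := hpre
    have hn : n < q'.t.length := by
      by_contra hcon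
      rw [List.getElem?_eq_none (by omega)] at h2
      cases h2
    have h4 : q.t[n]? = some s := by
      rw [← hz, List.getElem?_append_left hn]
      exact h2
    have hn' : n < q.t.length := by
      rw [← hz, List.length_append]
      omega
    rw [← h3] at h4
    unfold preB at h4
    rw [List.getElem?_map, List.getElem?_range hn', Option.map_some] at h4
    exact Option.some.inj h4

theorem notA (I : Iface cle L2) {G : Set (Set ℕ)} {A : ℕ → H} {B : ℕ → Step}
    (h : Gen cle L2 G A B) : ¬ cle (rA A) (rB B) := by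
  rw [rB_eq I h]
  have hval : ∀ x ∈ G, ∀ (p : ℕ) (g : H), (decP x)[p]? = some g → A p = g := by
    intro x hx p g hg
    have hPP := h.gen.sub hx
    obtain ⟨a, q, rfl, hq, ha⟩ := hPP.2.exists
    rw [decP_enc] at hg
    have h1 := (h.br a q hx).1
    have hp : p < a.length := by
      by_contra hcon
      rw [List.getElem?_eq_none (by omega)] at hg
      cases hg
    rw [← h1] at hg hp
    rw [preA_length] at hp
    unfold preA at hg
    rw [List.getElem?_map, List.getElem?_range hp, Option.map_some] at hg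
    exact Option.some.inj hg
  refine notLe I (P := IsPP) (Q := IsPB) (leP := leP) (leQ := leB) (π := piB) (E := nE) (S := nS)
    (AL.of_ar I (ar_isPP 0)) (AL.of_ar I (ar_isPB 0)) (AL.of_ar I (ar_leB 0 1))
    (ALS.of_arS I (arS_piece 0 (Primrec.const []))) ?_ ?_ ?_ ?_ h.gen (AL.of_ar I ar_nE)
    (fun e => AL.of_ar I (ar_nS e)) ?_ ?_ ?_
  · intro x _ hx
    exact isPB_enc.2 hx.1
  · intro x _ hx
    exact leB_refl I hx
  · intro x y w _ _ _ hx hy hw h1 h2
    exact leB_trans I hx hy hw h1 h2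
  · intro x y _ _ hx hy hxy
    exact piB_mono I hx hy hxy
  · rintro x hx k ⟨⟨a, ⟨p, g⟩, g1⟩, h1, rfl, h2, h3⟩
    have h1 : decP x = a := h1
    have h2 : a[p]? = some g1 := h2
    have h3 : (true = true ↔ g1 = g) := h3
    subst h1
    exact ⟨(p, g), (hval x hx p g1 h2).trans (h3.1 rfl), rfl⟩
  · rintro x hx k ⟨⟨a, ⟨p, g⟩, g1⟩, h1, rfl, h2, h3⟩ ⟨⟨p', g'⟩, h4, h5⟩
    have h1 : decP x = a := h1
    have h2 : a[p]? = some g1 := h2
    have h3 : (false = true ↔ g1 = g) := h3
    have h4 : A p' = g' := h4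
    have h5 := encode_injective h5
    simp only [Prod.mk.injEq] at h5
    obtain ⟨rfl, rfl⟩ := h5
    subst h1
    have h6 := hval x hx _ g1 h2
    exact absurd (h3.2 (h6.symm.trans h4)) (by simp)
  · intro x hx hPx
    obtain ⟨a, q, rfl, hq, ha⟩ := hPx.exists
    have hCC : q ∈ CC cle := ⟨hq, cle_enc I a [] hx⟩
    obtain ⟨s, hs⟩ := exists_sstep hq.isX q.t
    obtain ⟨y1, hy1, hg, -⟩ := hq.succ q.t hq.stem s hs
    have hcone := (closed_CC I).cone q hCC y1 hy1
    refine ⟨encode (plc q.t + s.u.length, s.v), enc [] (q.cone y1), hcone.2, isPB_enc.2 hcone.1,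
      ?_⟩
    intro y hy hPB hle e
    obtain ⟨q2, rfl, hq2⟩ := hPB.exists
    obtain ⟨u, hu⟩ := hle
    rw [decC_enc, decC_enc] at hu
    have main : ∀ c, (c = s.v ∨ c = s.w) → ∃ b : List H, b[plc q.t + s.u.length]? = some c ∧
        cle (enc b q2) ∅ ∧ IsPP (enc b q2) ∧ leP (enc b q2) (enc a q) ∧
        leB (piB (enc b q2)) (enc [] q2) := by
      intro c hc
      obtain ⟨b, hb, hbc⟩ := nA_real hq ha hs hy1 hg hc
      have hle : LeP (b ++ u) q2 b (q.cone y1) := ⟨u, rfl, hu⟩
      refine ⟨b ++ u, ?_, cle_enc I [] (b ++ u) hy, isPP_enc.2 ⟨hq2, ?_⟩, leP_enc.2 ?_, ?_⟩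
      · have hlt : plc q.t + s.u.length < b.length := by
          by_contra hcon
          rw [List.getElem?_eq_none (by omega)] at hbc
          cases hbc
        rw [List.getElem?_append_left hlt]
        exact hbc
      · exact leP_piece hcone.1 hb.2.2.1 hle
      · exact leP_of_cone hq hy1 hb hle
      · show leB (enc [] (decC (enc (b ++ u) q2))) (enc [] q2)
        rw [decC_enc]
        exact leB_refl I (isPB_enc.2 hq2)
    cases e with
    | true =>
      obtain ⟨b, hb, h1, h2, h3, h4⟩ := main s.v (Or.inl rfl)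
      exact ⟨enc b q2, h1, h2, h3, h4, ⟨(b, ((plc q.t + s.u.length, s.v), s.v)), decP_enc b q2,
        rfl, hb, by simp⟩⟩
    | false =>
      obtain ⟨b, hb, h1, h2, h3, h4⟩ := main s.w (Or.inr rfl)
      exact ⟨enc b q2, h1, h2, h3, h4, ⟨(b, ((plc q.t + s.u.length, s.v), s.w)), decP_enc b q2,
        rfl, hb, by simpa using (IsPair_ne hs.2.2.2).symm⟩⟩

end Helper99.PC
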