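import Pool.Agent.Helper99.PC.NotB
import Pool.Agent.Helper99.PC.NotA
import Pool.Agent.Helper99.PC.DegA
import Pool.Agent.Helper99.PC.DegB
import Pool.Agent.Helper99.PC.DegC
import Pool.Agent.Helper99.PC.GenB

/-! PC-Final: the embedding. -/

set_option autoImplicit false

noncomputable section

namespace Helper99.PC

open Helper99.TT Encodable
open Pool.Agent.Helper44.CL hiding TT
open Pool.Agent.Helper44.PC

variable {cle : Set ℕ → Set ℕ → Prop} {L2 : Set (Set (Set ℕ))}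

/-- the embedding -/
def emb (A : ℕ → H) (B : ℕ → Step) : TLat → Set ℕ :=
  fun t => match t with
  | none => ∅
  | some none => jn (rA A) (rB B)
  | some (some (Sum.inl n)) => rA (shA (OrderDual.ofDual n) A)
  | some (some (Sum.inr _)) => rB B

/-- the elements of the lattice -/
def mk (x : ℕᵒᵈ ⊕ Unit) : TLat := ((x : WithTop (ℕᵒᵈ ⊕ Unit)) : WithBot (WithTop (ℕᵒᵈ ⊕ Unit)))

theorem mk_le (x y : ℕᵒᵈ ⊕ Unit) : mk x ≤ mk y ↔ x ≤ y := by
  unfold mk
  rw [WithBot.coe_le_coe, WithTop.coe_le_coe]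

theorem mk_cases {P : TLat → Prop} (h0 : P ⊥) (h1 : P ⊤) (h : ∀ x, P (mk x)) (t : TLat) : P t := by
  induction t using WithBot.recBotCoe with
  | bot => exact h0
  | coe t =>
    induction t using WithTop.recTopCoe with
    | top => exact h1
    | coe x => exact h x

theorem mk_ne_top (x : ℕᵒᵈ ⊕ Unit) : ¬ (⊤ : TLat) ≤ mk x := by
  intro h
  have h1 : ((⊤ : WithTop (ℕᵒᵈ ⊕ Unit)) : TLat) ≤ ((x : WithTop (ℕᵒᵈ ⊕ Unit)) : TLat) := h
  rw [WithBot.coe_le_coe, top_le_iff] at h1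
  exact WithTop.coe_ne_top h1

theorem mk_ne_bot (x : ℕᵒᵈ ⊕ Unit) : ¬ mk x ≤ (⊥ : TLat) := by
  intro h
  rw [le_bot_iff] at h
  exact WithBot.coe_ne_bot h

theorem top_ne_bot' : ¬ (⊤ : TLat) ≤ ⊥ := by
  intro h
  rw [le_bot_iff] at h
  exact WithBot.coe_ne_bot (a := (⊤ : WithTop (ℕᵒᵈ ⊕ Unit))) h

theorem emb_bot (A : ℕ → H) (B : ℕ → Step) : emb A B ⊥ = ∅ := rfl
theorem emb_top (A : ℕ → H) (B : ℕ → Step) : emb A B ⊤ = jn (rA A) (rB B) := rfl
theorem emb_inl (A : ℕ → H) (B : ℕ → Step) (n : ℕᵒᵈ) :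
    emb A B (mk (Sum.inl n)) = rA (shA (OrderDual.ofDual n) A) := rfl
theorem emb_inr (A : ℕ → H) (B : ℕ → Step) (u : Unit) :
    emb A B (mk (Sum.inr u)) = rB B := rfl

theorem shA_anti (I : Iface cle L2) (A : ℕ → H) {m n : ℕ} (h : m ≤ n) :
    cle (rA (shA n A)) (rA (shA m A)) := by
  induction n, h using Nat.le_induction with
  | base => exact I.refl _
  | succ n _ ih => exact I.trans _ _ _ (shA_le I A n) ih

theorem shA_le_rA (I : Iface cle L2) (A : ℕ → H) (n : ℕ) : cle (rA (shA n A)) (rA A) := by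
  have h := shA_anti I A (Nat.zero_le n)
  rwa [shA_zero] at h

theorem exists_gen (I : Iface cle L2) : ∃ G A B, Gen cle L2 G A B := by
  have hne : (PP cle).Nonempty := by
    refine ⟨enc [] topC, enc_mem_PP I (topC_CC I) ?_⟩
    refine ⟨rfl, ?_⟩
    intro p hp
    have hp : p < plc [] := hp
    rw [plc_nil] at hp
    omega
  obtain ⟨G, hG⟩ := exists_generic I.L2_countable hne (PP_refl I) (PP_trans I)
  obtain ⟨A, B, h⟩ := gen_of_generic I hG
  exact ⟨G, A, B, h⟩

theorem emb_iff (I : Iface cle L2) {G : Set (Set ℕ)} {A : ℕ → H} {B : ℕ → Step}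
    (h : Gen cle L2 G A B) (s t : TLat) : cle (emb A B s) (emb A B t) ↔ s ≤ t := by
  have hB : ¬ cle (rB B) (rA A) := notB I h
  have hA : ¬ cle (rA A) (rB B) := notA I h
  have hAn : ∀ n, ¬ cle (rA (shA n A)) (rA (shA (n + 1) A)) := notAn I h
  have hJ : ∀ n, cle (rA A) (jn (rA (shA n A)) (rB B)) := by
    intro n
    obtain ⟨a, q, hG, -⟩ := h.long 0
    exact join_le I (h.br a q hG).2.2.1 h.idx n
  have hB0 : ¬ cle (rB B) ∅ := fun hc => hB (I.trans _ _ _ hc (I.empty_le _))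
  have hA0 : ∀ n, ¬ cle (rA (shA n A)) ∅ := fun n hc => hAn n (I.trans _ _ _ hc (I.empty_le _))
  have hBn : ∀ n, ¬ cle (rB B) (rA (shA n A)) := fun n hc =>
    hB (I.trans _ _ _ hc (shA_le_rA I A _))
  revert t
  refine mk_cases (P := fun s => ∀ t, cle (emb A B s) (emb A B t) ↔ s ≤ t) ?_ ?_ ?_ s
  · intro t
    exact iff_of_true (I.empty_le _) bot_le
  · refine mk_cases (P := fun t => cle (emb A B ⊤) (emb A B t) ↔ ⊤ ≤ t) ?_ ?_ ?_
    · exact iff_of_false (fun hc => hB0 (I.trans _ _ _ (I.le_jn_right _ _) hc)) top_ne_bot'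
    · exact iff_of_true (I.refl _) le_rfl
    · intro x
      refine iff_of_false ?_ (mk_ne_top x)
      rcases x with n | u
      · rw [emb_inl, emb_top]
        exact fun hc => hBn _ (I.trans _ _ _ (I.le_jn_right _ _) hc)
      · rw [emb_inr, emb_top]
        exact fun hc => hA (I.trans _ _ _ (I.le_jn_left _ _) hc)
  · intro x
    refine mk_cases (P := fun t => cle (emb A B (mk x)) (emb A B t) ↔ mk x ≤ t) ?_ ?_ ?_
    · refine iff_of_false ?_ (mk_ne_bot x)
      rcases x with n | u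
      · exact hA0 _
      · exact hB0
    · refine iff_of_true ?_ le_top
      rcases x with n | u
      · exact I.trans _ _ _ (shA_le_rA I A _) (I.le_jn_left _ _)
      · exact I.le_jn_right _ _
    · intro y
      rw [mk_le]
      rcases x with n | u <;> rcases y with m | v
      · rw [Sum.inl_le_inl_iff, emb_inl, emb_inl, ← OrderDual.ofDual_le_ofDual]
        constructor
        · intro hc
          by_contra hlt
          push Not at hlt
          exact hAn _ (I.trans _ _ _ hc (shA_anti I A hlt))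
        · intro hle
          exact shA_anti I A hle
      · refine iff_of_false ?_ Sum.not_inl_le_inr
        exact fun hc => hA (I.trans _ _ _ (hJ _) (I.jn_le hc (I.refl _)))
      · refine iff_of_false ?_ Sum.not_inr_le_inl
        exact fun hc => hBn _ hc
      · exact iff_of_true (I.refl _) (Sum.inr_le_inr_iff.2 le_rfl)

theorem embeds (I : Iface cle L2) : Embeds cle := by
  obtain ⟨G, A, B, h⟩ := exists_gen I
  refine ⟨emb A B, emb_iff I h, ?_⟩
  intro t z hz
  have hz' : cle z (jn (rA A) (rB B)) :=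
    I.trans _ _ _ hz ((emb_iff I h t ⊤).2 le_top)
  obtain ⟨a, q, hG, hq, ha, hb, R, hRL, hR, hcan, hval⟩ := gen_read I h hz'
  rcases hcan with h0 | ⟨n, h1⟩ | h2 | h3
  · exact ⟨⊥, degA0 I hq ha hb hRL hR h0 hval, I.empty_le _⟩
  · obtain ⟨h4, h5⟩ := degA1 I hq ha hb hRL hR h1 hval
    exact ⟨mk (Sum.inl (OrderDual.toDual n)), h4, h5⟩
  · exact ⟨mk (Sum.inr ()), degA2 I hq ha hb hRL hR h2 hval,
      degDec I hq ha hb hRL hR h2.2 hval⟩
  · exact ⟨⊤, hz', degA3 I hq ha hb hRL hR h3 hval⟩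

end Helper99.PC
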