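import Pool.Agent.Helper99.PC.Posets
import Pool.Agent.Helper99.TT.FuseA
import Pool.Agent.Helper99.TT.Fusion

/-! PC-FusL: (9.1) the fusion for dense sets which are in `L`. -/

set_option autoImplicit false

noncomputable section

namespace Helper99.PC

open Helper99.TT Encodable
open Pool.Agent.Helper44.CL hiding TT
open Pool.Agent.Helper44.PC

variable {cle : Set ℕ → Set ℕ → Prop} {L2 : Set (Set (Set ℕ))}

namespace FusLAux

/-- the states of the fusion: the code of a condition and a cut (the length of a list) -/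
def StA (q0 : Cond) (x : Set ℕ) (l : List H) : Prop :=
  (Good (decC x) ∧ LeS (decC x) q0) ∧ Cut (decC x) l.length

/-- one step of the fusion -/
def StB (𝒩 : ℕ → List H → Cond → Prop) (a : List H) (n : ℕ) (x y : Set ℕ) (l l' : List H) :
    Prop :=
  ((Good (decC y) ∧ LeK l.length (decC y) (decC x)) ∧ (l.length < l'.length ∧
      Cut (decC y) l'.length)) ∧
  ((∃ m, (l.length ≤ m ∧ m < l'.length) ∧ Large n ((decC y).V m)) ∧
    ∀ z : Node, ∀ b : List H, (z ∈ (decC y).F ∧ (l.length < plc z ∧ plc z ≤ l'.length)) ∧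
      IsReal (decC y) a z b → 𝒩 n b ((decC y).cone z))

def Stp (𝒩 : ℕ → List H → Cond → Prop) (a : List H) (q0 : Cond) (n : ℕ) (x y : Set ℕ) : Prop :=
  ∀ l l' : List H, (decP x = l ∧ decP y = l') ∧ StA q0 x l → StB 𝒩 a n x y l l'

theorem tl_stp (I : Iface cle L2) {𝒩 : ℕ → List H → Cond → Prop}
    (hdef : TL cle L2 (fun ρ (n : ℕ) => 𝒩 n (decP (ρ 0)) (decC (ρ 0)))) {q0 : Cond}
    (hq0 : cle (enc [] q0) ∅) (a : List H) :
    TL cle L2 (fun ρ (n : ℕ) => Stp 𝒩 a q0 n (ρ 0) (ρ 1)) := by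
  have hl : Primrec (fun w : (ℕ × List H) × List H => w.1.2.length) :=
    Primrec.list_length.comp (Primrec.snd.comp Primrec.fst)
  have hl' : Primrec (fun w : (ℕ × List H) × List H => w.2.length) :=
    Primrec.list_length.comp Primrec.snd
  have hn : Primrec (fun w : (ℕ × List H) × List H => w.1.1) := Primrec.fst.comp Primrec.fst
  -- the hypothesis
  have hA : TL cle L2 (fun ρ (w : (ℕ × List H) × List H) =>
      (decP (ρ 0) = w.1.2 ∧ decP (ρ 1) = w.2) ∧ StA q0 (ρ 0) w.1.2) := by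
    refine TL.and I (TL.of_ar I ((ar_decP 0 (Primrec.snd.comp Primrec.fst)).and
      (ar_decP 1 Primrec.snd))) (TL.and I (TL.and I (TL.of_ar I (ar_good 0)) ?_)
      (TL.of_ar I (ar_cut 0 hl)))
    have h1 : AL cle ∅ (fun ρ (_ : (ℕ × List H) × List H) => LeS (decC (ρ 0))
        (decC (enc [] q0))) :=
      AL.sub2 I (Φ := fun x y (_ : Unit) => LeS (decC x) (decC y)) (ar_leS 0 1)
        (ALS.var I 0) (ALS.const I hq0) (f := fun _ => ()) (Primrec.const ())
    exact (TL.of_al h1).of_eq fun ρ w => by rw [decC_enc]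
  -- the arithmetical part of the conclusion
  have hB : TL cle L2 (fun ρ (w : (ℕ × List H) × List H) =>
      (Good (decC (ρ 1)) ∧ LeK w.1.2.length (decC (ρ 1)) (decC (ρ 0))) ∧
        (w.1.2.length < w.2.length ∧ Cut (decC (ρ 1)) w.2.length)) :=
    TL.of_ar I (((ar_good 1).and (ar_leK 1 0 hl)).and ((Ar.lt hl hl').and (ar_cut 1 hl')))
  have hC : TL cle L2 (fun ρ (w : (ℕ × List H) × List H) =>
      ∃ m, (w.1.2.length ≤ m ∧ m < w.2.length) ∧ Large w.1.1 ((decC (ρ 1)).V m)) := by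
    refine TL.of_ar I (Ar.ex (R := fun ρ (w : (ℕ × List H) × List H) (m : ℕ) =>
      (w.1.2.length ≤ m ∧ m < w.2.length) ∧ Large w.1.1 ((decC (ρ 1)).V m)) ?_)
    exact ((Ar.le (hl.comp Primrec.fst) Primrec.snd).and
      (Ar.lt Primrec.snd (hl'.comp Primrec.fst))).and
        (ar_large 1 (hn.comp Primrec.fst) Primrec.snd)
  -- the third-order part of the conclusion
  have hD : TL cle L2 (fun ρ (w : (ℕ × List H) × List H) => ∀ z : Node, ∀ b : List H,
      (z ∈ (decC (ρ 1)).F ∧ (w.1.2.length < plc z ∧ plc z ≤ w.2.length)) ∧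
        IsReal (decC (ρ 1)) a z b → 𝒩 w.1.1 b ((decC (ρ 1)).cone z)) := by
    refine TL.all (R := fun ρ (w : (ℕ × List H) × List H) (z : Node) => ∀ b : List H,
      (z ∈ (decC (ρ 1)).F ∧ (w.1.2.length < plc z ∧ plc z ≤ w.2.length)) ∧
        IsReal (decC (ρ 1)) a z b → 𝒩 w.1.1 b ((decC (ρ 1)).cone z)) ?_
    refine TL.all (R := fun ρ (w : ((ℕ × List H) × List H) × Node) (b : List H) =>
      (w.2 ∈ (decC (ρ 1)).F ∧ (w.1.1.2.length < plc w.2 ∧ plc w.2 ≤ w.1.2.length)) ∧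
        IsReal (decC (ρ 1)) a w.2 b → 𝒩 w.1.1.1 b ((decC (ρ 1)).cone w.2)) ?_
    have h1 : Primrec (fun v : (((ℕ × List H) × List H) × Node) × List H => v.1.2) :=
      Primrec.snd.comp Primrec.fst
    have h2 : Primrec (fun v : (((ℕ × List H) × List H) × Node) × List H => v.1.1) :=
      Primrec.fst.comp Primrec.fst
    refine TL.imp I (TL.of_ar I (((ar_memF 1 h1).and ((Ar.lt (hl.comp h2)
      (primrec_plc.comp h1)).and (Ar.le (primrec_plc.comp h1) (hl'.comp h2)))).and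
      (ar_real 1 (Primrec.const a) Primrec.snd h1))) ?_
    have h3 : TL cle L2 (fun ρ (v : (((ℕ × List H) × List H) × Node) × List H) =>
        𝒩 v.1.1.1.1 (decP (ρ 0)) (decC (ρ 0))) :=
      hdef.comp (f := fun v : (((ℕ × List H) × List H) × Node) × List H => v.1.1.1.1)
        (hn.comp h2)
    have h4 := TL.sub1 I (Φ := fun x (v : (((ℕ × List H) × List H) × Node) × List H) =>
      𝒩 v.1.1.1.1 (decP x) (decC x)) h3
      (F := fun ρ (v : (((ℕ × List H) × List H) × Node) × List H) =>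
        enc v.2 ((decC (ρ 1)).cone v.1.2)) (ALS.of_arS I (arS_cone 1 Primrec.snd h1))
    exact h4.of_eq fun ρ v => by rw [decP_enc, decC_enc]
  have key : TL cle L2 (fun ρ (w : (ℕ × List H) × List H) =>
      (decP (ρ 0) = w.1.2 ∧ decP (ρ 1) = w.2) ∧ StA q0 (ρ 0) w.1.2 →
        StB 𝒩 a w.1.1 (ρ 0) (ρ 1) w.1.2 w.2) :=
    TL.imp I hA (TL.and I hB (TL.and I hC hD))
  exact TL.all (R := fun ρ (n : ℕ) (l : List H) => ∀ l' : List H,
    (decP (ρ 0) = l ∧ decP (ρ 1) = l') ∧ StA q0 (ρ 0) l → StB 𝒩 a n (ρ 0) (ρ 1) l l')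
    (TL.all (R := fun ρ (p : ℕ × List H) (l' : List H) =>
      (decP (ρ 0) = p.2 ∧ decP (ρ 1) = l') ∧ StA q0 (ρ 0) p.2 →
        StB 𝒩 a p.1 (ρ 0) (ρ 1) p.2 l') key)

theorem cle_decC (I : Iface cle L2) {x : Set ℕ} (hx : cle x ∅) : cle (enc [] (decC x)) ∅ := by
  have h := ALS.sub1 I (K := fun x (_ : Unit) => enc [] (decC x))
    (arS_piece 0 (Primrec.const [])) (ALS.const I (α := Unit) hx) (f := fun _ => ())
    (Primrec.const ())
  have h1 : AL cle ∅ (fun _ (n : ℕ) => n ∈ enc [] (decC x)) :=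
    AL.comp (f := fun n : ℕ => ((), n)) h ((Primrec.const ()).pair Primrec.id)
  exact AL.real I h1

end FusLAux

open FusLAux

/-- (9.1) -/
theorem fusionL (I : Iface cle L2) (𝒩 : ℕ → List H → Cond → Prop)
    (hdef : TL cle L2 (fun ρ (n : ℕ) => 𝒩 n (decP (ρ 0)) (decC (ρ 0))))
    (ho : ∀ n, OpenIn (CC cle) (𝒩 n)) (hmono : ∀ m n, n ≤ m → ∀ b q, 𝒩 m b q → 𝒩 n b q)
    {q : Cond} (hq : q ∈ CC cle) {a : List H} (ha : IsPiece q.t a)
    (hd : ∀ n, DenseIn (CC cle) (𝒩 n) a q) :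
    ∃ q' ∈ CC cle, LeS q' q ∧ ∃ K : ℕ → ℕ, ∀ n, ∀ x ∈ q'.F, K n < plc x →
      ∀ b, IsReal q' a x b → 𝒩 n b (q'.cone x) := by
  have hCl : Closed (CC cle) := closed_CC I
  have hgq : Good q := hq.1
  -- the steps exist
  have hs : ∀ n, ∀ x, cle x ∅ → ∃ y, cle y ∅ ∧ Stp 𝒩 a q n x y := by
    intro n x hx
    by_cases hA : StA q x (decP x)
    · obtain ⟨⟨h1, h2⟩, h3⟩ := hA
      have hxC : decC x ∈ CC cle := ⟨h1, cle_decC I hx⟩
      have ha' : IsPiece (decC x).t a := by rw [h2.1]; exact ha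
      have hd' : DenseIn (CC cle) (𝒩 n) a (decC x) := by
        intro a' q' hq' hle
        refine hd n a' q' hq' (leP_trans hgq h1 ⟨[], (List.append_nil a).symm, ?_⟩ hle)
        exact le_nil_of_leS h2 hgq
      obtain ⟨q', hq', κ', k1, k2, k3, ⟨m, k4, k5, k6⟩, k7⟩ :=
        oneStep hCl (ho n) hxC h3 a ha' hd' n
      refine ⟨enc (List.replicate κ' 0) q', cle_enc I [] _ hq'.2, ?_⟩
      rintro l l' ⟨⟨rfl, rfl⟩, -⟩
      have e1 : (decP (enc (List.replicate κ' 0) q')).length = κ' := by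
        rw [decP_enc, List.length_replicate]
      unfold StB
      rw [e1, decC_enc]
      exact ⟨⟨⟨hq'.1, k1⟩, k2, k3⟩, ⟨m, ⟨k4, k5⟩, k6⟩,
        fun z b hz => k7 z hz.1.1 hz.1.2.1 hz.1.2.2 b hz.2⟩
    · refine ⟨∅, I.refl ∅, ?_⟩
      rintro l l' ⟨⟨rfl, rfl⟩, h⟩
      exact absurd h hA
  -- the start
  obtain ⟨κ0, -, hc0, -⟩ := exists_cut hgq 0
  have hx0 : cle (enc (List.replicate κ0 0) q) ∅ := cle_enc I [] _ hq.2
  obtain ⟨s, hs1, hs2, hs3⟩ := TL.dc I (tl_stp I hdef hq.2 a) hs hx0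
  -- the fusion sequence
  set Q : ℕ → Cond := fun n => decC (s n) with hQ
  set K : ℕ → ℕ := fun n => (decP (s n)).length with hK
  have hstate : ∀ n, StA q (s n) (decP (s n)) := by
    intro n
    induction n with
    | zero =>
      rw [hs2]
      unfold StA
      rw [decC_enc, decP_enc, List.length_replicate]
      exact ⟨⟨hgq, leS_refl q⟩, hc0⟩
    | succ n ih =>
      obtain ⟨⟨⟨k1, k2⟩, k3, k4⟩, -⟩ := hs3 n _ _ ⟨⟨rfl, rfl⟩, ih⟩
      exact ⟨⟨k1, leS_trans ih.1.2 k2.1⟩, k4⟩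
  have hstep : ∀ n, StB 𝒩 a n (s n) (s (n + 1)) (decP (s n)) (decP (s (n + 1))) := fun n =>
    hs3 n _ _ ⟨⟨rfl, rfl⟩, hstate n⟩
  have hF : FSeq Q K :=
    { good := fun n => (hstate n).1.1
      cut := fun n => (hstate n).2
      lt := fun n => (hstep n).1.2.1
      le := fun n => (hstep n).1.1.2
      large := fun n => by
        obtain ⟨m, ⟨h1, h2⟩, h3⟩ := (hstep n).2.1
        exact ⟨m, h1, h2, h3⟩ }
  have hKL : cle (encode '' {x : ℕ × ℕ | K x.1 = x.2}) ∅ := by
    apply AL.real_enc I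
    have h1 : Ar (fun ρ (k : ℕ) => (decP (ρ 0)).length = k) := by
      have h2 : Ar (fun ρ (k : ℕ) => ∃ l : List H, decP (ρ 0) = l ∧ l.length = k) :=
        Ar.ex (R := fun ρ (k : ℕ) (l : List H) => decP (ρ 0) = l ∧ l.length = k)
          ((ar_decP 0 Primrec.snd).and
            (Ar.eq (Primrec.list_length.comp Primrec.snd) Primrec.fst))
      refine h2.of_eq fun ρ k => ?_
      constructor
      · intro h
        exact ⟨_, rfl, h⟩
      · rintro ⟨l, rfl, h⟩
        exact h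
    have h3 : ALS cle ∅ (fun _ (p : ℕ × ℕ) => col (join s) p.1) :=
      ALS.sub1 I (K := fun x (n : ℕ) => col x n) (arS_col 0 Primrec.id)
        (ALS.const I hs1) Primrec.fst
    have h4 := AL.sub1 I (Φ := fun x (k : ℕ) => (decP x).length = k) h1 h3
      (f := fun p : ℕ × ℕ => p.2) Primrec.snd
    refine h4.of_eq fun ρ p => ?_
    rw [col_join]
  have hlim : cle (enc [] (flim Q K)) ∅ := flim_cle I hs1 hKL
  have hg : Good (flim Q K) := flim_good hF
  have hlimC : flim Q K ∈ CC cle := ⟨hg, hlim⟩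
  have hQ0 : Q 0 = q := by
    change decC (s 0) = q
    rw [hs2, decC_enc]
  refine ⟨flim Q K, hlimC, ?_, K, ?_⟩
  · rw [← hQ0]
    exact (flim_leK hF 0).1
  · intro n x hx hnx b hb
    have hKm : ∀ i j, i ≤ j → K i ≤ K j := by
      intro i j hij
      induction j, hij using Nat.le_induction with
      | base => exact le_rfl
      | succ j _ ih => exact ih.trans (hF.lt j).le
    have hKge : ∀ i, i ≤ K i := by
      intro i
      induction i with
      | zero => exact Nat.zero_le _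
      | succ i ih => have := hF.lt i; omega
    -- the stage at which `x` appears
    have hex : ∃ m, plc x ≤ K (m + 1) := ⟨plc x, (Nat.le_succ _).trans (hKge _)⟩
    classical
    set m := Nat.find hex with hm
    have hm1 : plc x ≤ K (m + 1) := Nat.find_spec hex
    have hnm : n ≤ m := by
      by_contra hcon
      have h1 : m + 1 ≤ n := by omega
      exact absurd (lt_of_lt_of_le hnx hm1) (not_lt.2 (hKm _ _ h1))
    have hm2 : K m < plc x := by
      rcases Nat.eq_zero_or_pos m with h0 | h0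
      · have h1 : n = 0 := by omega
        rw [h1, ← h0] at hnx
        exact hnx
      · have h1 := Nat.find_min hex (m := m - 1) (by omega)
        have h2 : m - 1 + 1 = m := by omega
        rw [h2] at h1
        exact not_le.1 h1
    have hle : LeS (flim Q K) (Q (m + 1)) := (flim_leK hF (m + 1)).1
    have hgm : Good (Q (m + 1)) := hF.good (m + 1)
    have hxm : x ∈ (Q (m + 1)).F := hle.2.2 hx
    have hbm : IsReal (Q (m + 1)) a x b := real_leS hle hgm hg hx hb
    have hN : 𝒩 m b ((Q (m + 1)).cone x) := (hstep m).2.2 x b ⟨⟨hxm, hm2, hm1⟩, hbm⟩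
    have hmC : Q (m + 1) ∈ CC cle := by
      refine ⟨hgm, ?_⟩
      have h1 : cle (s (m + 1)) ∅ := by
        have h2 := I.col_le hs1 (m + 1)
        rwa [col_join] at h2
      exact cle_decC I h1
    refine hmono m n hnm b _ (ho m b _ b _ (hCl.cone _ hmC x hxm) (hCl.cone _ hlimC x hx)
      hbm.2.2.1 ⟨[], (List.append_nil b).symm, ?_⟩ hN)
    exact le_nil_of_leS (cone_leS_cone hle hgm hxm) (cone_good hgm hxm)

end Helper99.PC
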