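import Pool.Agent.Helper99.PC.Posets
import Pool.Agent.Helper99.TT.BranchB

/-! PC-GenA: existence of generic filters and of generic pairs. -/

set_option autoImplicit false

noncomputable section

namespace Helper99.PC

open Helper99.TT Encodable
open Pool.Agent.Helper44.CL hiding TT
open Pool.Agent.Helper44.PC

variable {cle : Set ℕ → Set ℕ → Prop} {L2 : Set (Set (Set ℕ))}

/-- Rasiowa-Sikorski -/
theorem exists_generic (hc : L2.Countable) {P : Set (Set ℕ)} {le : Set ℕ → Set ℕ → Prop}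
    (hP : P.Nonempty) (hr : ∀ p ∈ P, le p p)
    (ht : ∀ p ∈ P, ∀ q ∈ P, ∀ r ∈ P, le p q → le q r → le p r) :
    ∃ G, Generic L2 P le G := by
  classical
  obtain ⟨p0, hp0⟩ := hP
  have hcount : ({D | D ∈ L2 ∧ Dense P le D} ∪ {P}).Countable :=
    (hc.mono (fun D hD => hD.1)).union (Set.countable_singleton P)
  obtain ⟨d, hd⟩ := hcount.exists_eq_range ⟨P, Or.inr rfl⟩
  have hdd : ∀ n, Dense P le (d n) := by
    intro n
    have h : d n ∈ {D | D ∈ L2 ∧ Dense P le D} ∪ {P} := by rw [hd]; exact ⟨n, rfl⟩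
    rcases h with h | h
    · exact h.2
    · rw [h]; exact ⟨subset_rfl, fun p hp => ⟨p, hp, hr p hp⟩⟩
  have hstep : ∀ (n : ℕ) (p : {p // p ∈ P}), ∃ q : {p // p ∈ P}, q.1 ∈ d n ∧ le q.1 p.1 := by
    intro n p
    obtain ⟨q, hq, hle⟩ := (hdd n).2 p.1 p.2
    exact ⟨⟨q, (hdd n).1 hq⟩, hq, hle⟩
  choose f hf1 hf2 using hstep
  let s : ℕ → {p // p ∈ P} := fun n => Nat.rec ⟨p0, hp0⟩ (fun n p => f n p) n
  have hs : ∀ n, s (n + 1) = f n (s n) := fun n => rfl
  have hmono : ∀ n k, le (s (n + k)).1 (s n).1 := by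
    intro n k
    induction k with
    | zero => exact hr _ (s n).2
    | succ k ih =>
      have h1 : le (s (n + (k + 1))).1 (s (n + k)).1 := by
        rw [← Nat.add_assoc, hs]
        exact hf2 _ _
      exact ht _ (s (n + (k + 1))).2 _ (s (n + k)).2 _ (s n).2 h1 ih
  refine ⟨{x | x ∈ P ∧ ∃ n, le (s n).1 x}, fun x hx => hx.1, ?_, ?_, ?_⟩
  · rintro p ⟨hp, n, hn⟩ q hq hpq
    exact ⟨hq, n, ht _ (s n).2 _ hp _ hq hn hpq⟩
  · rintro p ⟨hp, n, hn⟩ q ⟨hq, m, hm⟩
    refine ⟨(s (n + m)).1, ⟨(s _).2, n + m, hr _ (s _).2⟩, ?_, ?_⟩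
    · exact ht _ (s _).2 _ (s n).2 _ hp (hmono n m) hn
    · rw [Nat.add_comm]
      exact ht _ (s _).2 _ (s m).2 _ hq (hmono m n) hm
  · intro D hD hDd
    have h : D ∈ {D | D ∈ L2 ∧ Dense P le D} ∪ {P} := Or.inl ⟨hD, hDd⟩
    rw [hd] at h
    obtain ⟨n, rfl⟩ := h
    exact ⟨(s (n + 1)).1, ⟨(s (n + 1)).2, n + 1, hr _ (s (n + 1)).2⟩, by rw [hs]; exact hf1 _ _⟩

theorem genA_long (I : Iface cle L2) {G : Set (Set ℕ)} (hG : Generic L2 (PP cle) leP G) (n : ℕ) :
    ∃ a q, enc a q ∈ G ∧ q ∈ CC cle ∧ IsPiece q.t a ∧ n ≤ q.t.length := by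
  have h1 : Ar (fun ρ (_ : Unit) => ∃ y : Node, (decC (ρ 0)).t = y ∧ n ≤ y.length) :=
    Ar.ex (R := fun ρ (_ : Unit) (y : Node) => (decC (ρ 0)).t = y ∧ n ≤ y.length)
      ((ar_t 0 Primrec.snd).and (Ar.le (Primrec.const n) (Primrec.list_length.comp Primrec.snd)))
  have hD : {x | cle x ∅ ∧ (IsPP x ∧ ∃ y : Node, (decC x).t = y ∧ n ≤ y.length)} ∈ L2 :=
    TL.compr I (Φ := fun x (_ : Unit) => IsPP x ∧ ∃ y : Node, (decC x).t = y ∧ n ≤ y.length)
      (TL.of_ar I ((ar_isPP 0).and h1)) ()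
  obtain ⟨x, hx, hx1, hx2, y, hy, hn⟩ := hG.meets _ hD (by
    refine ⟨fun x hx => ⟨hx.1, hx.2.1⟩, fun p hp => ?_⟩
    obtain ⟨a, q, rfl, hq, ha⟩ := mem_PP I hp
    obtain ⟨X, hX0, hXF, -, hXl⟩ := exists_fat_seq hq.1 hq.1.stem
    have hlen : ∀ n, n ≤ (X n).length := seq_length hXl
    obtain ⟨b, hb⟩ := real_exists hq.1 ha (hXF n)
    have hmem : enc b (q.cone (X n)) ∈ PP cle :=
      enc_mem_PP I ((closed_CC I).cone q hq _ (hXF n)) hb.2.2.1
    refine ⟨enc b (q.cone (X n)), ⟨hmem.1, hmem.2, X n, ?_, hlen n⟩, ?_⟩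
    · rw [decC_enc]; rfl
    · exact leP_enc.2 (cone_leP hq.1 (hXF n) hb))
  obtain ⟨a, q, rfl, hq, ha⟩ := mem_PP I (hG.sub hx)
  rw [decC_enc] at hy
  subst hy
  exact ⟨a, q, hx, hq, ha, hn⟩

/-- common extensions -/
theorem genA_dir (I : Iface cle L2) {G : Set (Set ℕ)} (hG : Generic L2 (PP cle) leP G)
    {a a' : List H} {q q' : Cond} (h : enc a q ∈ G) (h' : enc a' q' ∈ G) :
    ∃ b r, enc b r ∈ G ∧ r ∈ CC cle ∧ IsPiece r.t b ∧ LeP b r a q ∧ LeP b r a' q' := by
  obtain ⟨x, hx, h1, h2⟩ := hG.dir _ h _ h'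
  obtain ⟨b, r, rfl, hr, hb⟩ := mem_PP I (hG.sub hx)
  exact ⟨b, r, hx, hr, hb, leP_enc.1 h1, leP_enc.1 h2⟩

/-- the generic pair of a generic filter -/
theorem gen_of_generic (I : Iface cle L2) {G : Set (Set ℕ)} (hG : Generic L2 (PP cle) leP G) :
    ∃ A B, Gen cle L2 G A B := by
  choose a q hmem hq ha hlen using genA_long I hG
  have hinfo : ∀ {b : List H} {r : Cond}, enc b r ∈ G → r ∈ CC cle ∧ IsPiece r.t b := by
    intro b r h
    have h1 := (hG.sub h).2
    rw [isPP_enc] at h1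
    exact ⟨⟨h1.1, cle_enc I b [] (hG.sub h).1⟩, h1.2⟩
  have hext : ∀ {b c : List H} {r s : Cond}, r ∈ CC cle → LeP c s b r → r.t <+: s.t ∧ b <+: c := by
    rintro b c r s hr ⟨y, rfl, h⟩
    exact ⟨hr.1.above _ h.1, List.prefix_append _ _⟩
  let A : ℕ → H := fun p => (a (p + 1)).getD p 0
  let B : ℕ → Step := fun n => (q (n + 1)).t.getD n ⟨[], 0, 0⟩
  have hA : ∀ {b : List H} {r : Cond}, enc b r ∈ G → ∀ p, p < b.length → A p = b.getD p 0 := by
    intro b r h p hp
    obtain ⟨c, s, hc, hs, hcp, h1, h2⟩ := genA_dir I hG h (hmem (p + 1))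
    have e1 := hext (hinfo h).1 h1
    have e2 := hext (hq _) h2
    have hl : p < (a (p + 1)).length := by
      rw [(ha (p + 1)).1]
      exact lt_of_lt_of_le (hlen (p + 1)) (length_le_plc _)
    show (a (p + 1)).getD p 0 = _
    rw [← getD_prefix e1.2 hp, ← getD_prefix e2.2 hl]
  have hB : ∀ {b : List H} {r : Cond}, enc b r ∈ G → ∀ n, n < r.t.length →
      r.t[n]? = some (B n) := by
    intro b r h n hn
    obtain ⟨c, s, hc, hs, hcp, h1, h2⟩ := genA_dir I hG h (hmem (n + 1))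
    have e1 := hext (hinfo h).1 h1
    have e2 := hext (hq _) h2
    have hl : n < (q (n + 1)).t.length := hlen (n + 1)
    have g1 : r.t[n]? = s.t[n]? := by
      obtain ⟨w, hw⟩ := e1.1
      rw [← hw, List.getElem?_append_left hn]
    have g2 : (q (n + 1)).t[n]? = s.t[n]? := by
      obtain ⟨w, hw⟩ := e2.1
      rw [← hw, List.getElem?_append_left hl]
    rw [g1, ← g2]
    show _ = some ((q (n + 1)).t.getD n ⟨[], 0, 0⟩)
    rw [List.getD_eq_getElem _ _ hl, List.getElem?_eq_getElem hl]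
  have hAp : ∀ {b : List H} {r : Cond}, enc b r ∈ G → preA A (plc r.t) = b := by
    intro b r h
    have hl := (hinfo h).2.1
    apply list_ext_getD
    · rw [preA_length, hl]
    · intro p hp
      rw [preA_length] at hp
      rw [preA_getD A hp]
      exact hA h p (by omega)
  have hBp : ∀ {b : List H} {r : Cond}, enc b r ∈ G → preB B r.t.length = r.t := by
    intro b r h
    apply List.ext_getElem?
    intro n
    by_cases hn : n < r.t.length
    · rw [hB h n hn]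
      unfold preB
      rw [List.getElem?_map, List.getElem?_range hn, Option.map_some]
    · rw [List.getElem?_eq_none (by rw [preB_length]; omega), List.getElem?_eq_none (by omega)]
  -- a common extension with a long stem
  have hbig : ∀ {b : List H} {r : Cond}, enc b r ∈ G → ∀ n, ∃ c s, enc c s ∈ G ∧ s ∈ CC cle ∧
      IsPiece s.t c ∧ LeP c s b r ∧ n ≤ s.t.length := by
    intro b r h n
    obtain ⟨c, s, hc, hs, hcp, h1, h2⟩ := genA_dir I hG h (hmem n)
    have e2 := hext (hq _) h2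
    exact ⟨c, s, hc, hs, hcp, h1, (hlen n).trans e2.1.length_le⟩
  refine ⟨A, B, hG, ?_, ?_, ?_, ?_⟩
  · intro b r h
    refine ⟨hAp h, hBp h, ?_, ?_, ?_⟩
    · intro n p hp
      obtain ⟨c, s, hc, hs, hcp, h1, h2⟩ := hbig h n
      have hpre : preB B n <+: s.t := by
        rw [← hBp hc]
        exact preB_mono B h2
      have hp' : p < plc s.t := lt_of_lt_of_le hp (plc_mono hpre)
      have h3 := hcp.2 p hp'
      rw [ent_prefix hpre hp] at h3
      rw [hA hc p (by rw [hcp.1]; exact hp')]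
      exact h3
    · intro p hp
      obtain ⟨c, s, hc, hs, hcp, h1, h2⟩ := hbig h (p + 1)
      have hp' : p < plc s.t := lt_of_lt_of_le h2 (length_le_plc _)
      have h3 := (real_of_leP (hinfo h).1.1 (hinfo h).2 h1).2.2.2 p hp hp'
      rw [hA hc p (by rw [hcp.1]; exact hp')]
      exact h3
    · intro n
      obtain ⟨c, s, hc, hs, hcp, h1, h2⟩ := hbig h n
      refine ⟨s.t.length, h2, ?_⟩
      rw [hBp hc]
      obtain ⟨y, -, hy⟩ := h1
      exact hy.1
  · intro b r h x hx hT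
    obtain ⟨c, s, hc, hs, hcp, h1, h2⟩ := hbig h x.length
    have hr := hinfo h
    have hxs : x <+: s.t := by
      have hT : preB B x.length = x := hT
      have h5 := preB_mono B h2
      rw [hT, hBp hc] at h5
      exact h5
    have hreal := real_of_leP hr.1.1 hr.2 h1
    have hsF : s.t ∈ r.F := by
      obtain ⟨y, -, hy⟩ := h1
      exact hy.1
    obtain ⟨t1, t2⟩ := real_take hr.1.1 hx hsF hxs hreal
    have htake : preA A (plc x) = c.take (plc x) := by
      rw [← hAp hc]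
      apply list_ext_getD
      · rw [preA_length, List.length_take, preA_length]
        have := plc_mono hxs
        omega
      · intro p hp
        rw [preA_length] at hp
        rw [preA_getD A hp, ← preA_getD A (lt_of_lt_of_le hp (plc_mono hxs))]
        simp only [List.getD_eq_getElem?_getD, List.getElem?_take, hp, if_true]
    rw [htake]
    have hcone : r.cone x ∈ CC cle := (closed_CC I).cone r hr.1 x hx
    have hle : LeP c s (c.take (plc x)) (r.cone x) := by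
      have k1 : LeP c ((r.cone x).cone s.t) (c.take (plc x)) (r.cone x) :=
        cone_leP (cone_good hr.1.1 hx) (show s.t ∈ (r.cone x).F from ⟨hsF, hxs⟩) t2
      refine leP_trans (cone_good hr.1.1 hx)
        (cone_good (cone_good hr.1.1 hx) (show s.t ∈ (r.cone x).F from ⟨hsF, hxs⟩)) k1 ?_
      obtain ⟨y, -, hy⟩ := h1
      refine ⟨[], by simp, le_nil_of_leS ⟨rfl, hy.2.2.2.1, ?_⟩
        (cone_good (cone_good hr.1.1 hx) (show s.t ∈ (r.cone x).F from ⟨hsF, hxs⟩))⟩
      intro w hw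
      exact ⟨⟨hy.2.2.2.2 hw, hxs.trans (hs.1.above w hw)⟩, hs.1.above w hw⟩
    exact hG.up _ hc _ (enc_mem_PP I hcone t1.2.2.1) (leP_enc.2 hle)
  · intro n
    exact ⟨a n, q n, hmem n, hlen n⟩
  · intro j
    have h1 := hB (hmem (j + 1)) j (hlen (j + 1))
    exact (hq (j + 1)).1.idx _ (hq (j + 1)).1.stem j _ h1

end Helper99.PC
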