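import Pool.Agent.Helper99.PC.LiftV
import Pool.Agent.Helper99.PC.Posets

/-! PC-LiftL: thinning and lifting in `L`. -/

set_option autoImplicit false

noncomputable section

namespace Helper99.PC

open Helper99.TT Encodable
open Pool.Agent.Helper44.CL hiding TT
open Pool.Agent.Helper44.PC

variable {cle : Set ℕ → Set ℕ → Prop} {L2 : Set (Set (Set ℕ))}

namespace LiftL

theorem ar_thinT (i : ℕ) :
    Ar (fun ρ (_ : ℕ) => Thin (decC (ρ i)).V (plc (decC (ρ i)).t)) := by
  have h : Ar (fun ρ (_ : ℕ) => ∃ t : Node, (decC (ρ i)).t = t ∧ Thin (decC (ρ i)).V (plc t)) :=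
    Ar.ex ((ar_t i Primrec.snd).and (ar_thin i (primrec_plc.comp Primrec.snd)))
  refine h.of_eq fun ρ _ => ?_
  constructor
  · intro h
    exact ⟨_, rfl, h⟩
  · rintro ⟨t, rfl, h⟩
    exact h

theorem ar_singles (i k : ℕ) (y : List H) :
    Ar (fun ρ (_ : ℕ) => ∀ j, j < y.length → (decC (ρ i)).V (k + j) = {y.getD j 0}) := by
  refine Ar.all ((Ar.lt Primrec.snd (Primrec.const _)).imp ?_)
  exact ar_sing i (Primrec.nat_add.comp (Primrec.const k) Primrec.snd)
    (primrec_getD (Primrec.const y) Primrec.snd)

theorem ar_below (i j k n : ℕ) :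
    Ar (fun ρ (_ : ℕ) => ∀ p, k ≤ p → ∀ h ∈ (decC (ρ i)).V p, sh n h ∈ (decC (ρ j)).V p) := by
  have h : Ar (fun ρ (_ : ℕ) => ∀ p, k ≤ p → ∀ h, h ∈ (decC (ρ i)).V p → ∀ h', sh n h = h' →
      h' ∈ (decC (ρ j)).V p) := by
    refine Ar.all ((Ar.le (Primrec.const k) Primrec.snd).imp (Ar.all ((ar_memV i
      (Primrec.snd.comp Primrec.fst) Primrec.snd).imp (Ar.all ((ar_sh (Primrec.const n)
        (Primrec.snd.comp Primrec.fst) Primrec.snd).imp (ar_memV j
          (Primrec.snd.comp (Primrec.fst.comp Primrec.fst)) Primrec.snd))))))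
  refine h.of_eq fun ρ _ => ?_
  constructor
  · rintro h p hp h0 h1 h' rfl
    exact h p hp h0 h1
  · intro h p hp h0 h1
    exact h p hp h0 h1 _ rfl

end LiftL

open LiftL

theorem thinL (I : Iface cle L2) {q : Cond} (hq : q ∈ CC cle) :
    ∃ q' ∈ CC cle, LeS q' q ∧ Thin q'.V (plc q'.t) := by
  obtain ⟨V', hV', hs, hT⟩ := exists_thin hq.1.isX
  have hs' : SubX (plc q.t) V' q.V := fun p _ => hs p (Nat.zero_le p)
  have hR : Ar (fun ρ (_ : ℕ) => IsPB (ρ 0) ∧ LeS (decC (ρ 0)) (decC (ρ 1)) ∧
      Thin (decC (ρ 0)).V (plc (decC (ρ 0)).t)) :=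
    (ar_isPB 0).and ((ar_leS 0 1).and (ar_thinT 0))
  obtain ⟨x, hx, h1, h2, h3⟩ := I.sigma (ar_iff_arN.1 hR) (fun _ => enc [] q) 0 (fun _ => hq.2)
    ⟨enc [] (q.restr V'), by
      simp only [cons_zero]
      exact isPB_enc.2 (restr_good hq.1 hV' hs'), by
      show LeS (decC (enc [] (q.restr V'))) (decC (enc [] q))
      rw [decC_enc, decC_enc]
      exact restr_leS hs', by
      show Thin (decC (enc [] (q.restr V'))).V (plc (decC (enc [] (q.restr V'))).t)
      rw [decC_enc]
      exact fun p _ => hT p (Nat.zero_le p)⟩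
  have h1' : IsPB x := h1
  have h2' : LeS (decC x) (decC (enc [] q)) := h2
  rw [decC_enc] at h2'
  exact ⟨decC x, ⟨h1'.1, by rw [← h1'.2]; exact hx⟩, h2', h3⟩

/-- lift of a condition of `YY` below the projection of `(a ++ u, q)` -/
theorem liftL (I : Iface cle L2) {q : Cond} (hq : q ∈ CC cle) (hT : Thin q.V (plc q.t)) (n : ℕ)
    {a u : List H} (ha : IsPiece q.t a) (hu : Path q.V (plc q.t) u) {b : List H} {Y : Fam}
    (hYL : cle (enc b (famC Y)) ∅) (hY : IsX Y)
    (hle : leY (enc b (famC Y)) (enc ((a ++ u).map (sh n)) (famC (shF n q.V)))) :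
    ∃ a' q', q' ∈ CC cle ∧ IsPiece q'.t a' ∧ LeP a' q' a q ∧ (a ++ u) <+: a' ∧
      leY (piY n (enc a' q')) (enc b (famC Y)) ∧ q.t ≠ q'.t ∧
      ∀ s, q'.t[q.t.length]? = some s → b.length ≤ plc q.t + s.u.length := by
  have hal : a.length = plc q.t := ha.1
  obtain ⟨w0, hb1, hb2, hb3⟩ := hle
  simp only [decP_enc, decC_enc, famC_V, List.length_map] at hb1 hb2 hb3
  -- the lift
  obtain ⟨w, V', hV', hs, hw, hsing, hbel⟩ := liftV hq.1.isX hT n hal hu (b := b) (Y := Y) hY
    (by rw [hb1]; exact List.prefix_append _ _)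
    (by
      intro p hp1 hp2
      rw [path_iff] at hb2
      have hbl := congrArg List.length hb1
      simp only [List.length_append, List.length_map] at hbl hb2
      have h1 := hb2 (p - (plc q.t + u.length)) (by omega)
      rw [hb1, List.getD_append_right _ _ _ _ (by
        rw [List.length_map, List.length_append]; omega)]
      rw [List.length_map, List.length_append, hal]
      rw [hal, show plc q.t + u.length + (p - (plc q.t + u.length)) = p by omega] at h1
      exact h1) hb3
  have hbl : b.length = plc q.t + (u ++ w).length := by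
    have := congrArg List.length hw
    simp only [List.length_append, List.length_map] at this ⊢
    omega
  -- such a family in `L`
  have hR : Ar (fun ρ (_ : ℕ) => IsPB (ρ 0) ∧ LeS (decC (ρ 0)) (decC (ρ 1)) ∧
      (∀ j, j < (u ++ w).length → (decC (ρ 0)).V (plc q.t + j) = {(u ++ w).getD j 0}) ∧
      ∀ p, b.length ≤ p → ∀ h ∈ (decC (ρ 0)).V p, sh n h ∈ (decC (ρ 2)).V p) :=
    (ar_isPB 0).and ((ar_leS 0 1).and ((ar_singles 0 (plc q.t) (u ++ w)).and
      (ar_below 0 2 b.length n)))
  obtain ⟨x, hx, h1, h2, h3, h4⟩ := I.sigma (ar_iff_arN.1 hR)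
    (cons (enc [] q) (fun _ => enc b (famC Y))) 0 (by
      intro i
      cases i with
      | zero => exact hq.2
      | succ i => exact hYL)
    ⟨enc [] (q.restr V'), by
      simp only [cons_zero]
      exact isPB_enc.2 (restr_good hq.1 hV' hs), by
      show LeS (decC (enc [] (q.restr V'))) (decC (enc [] q))
      rw [decC_enc, decC_enc]
      exact restr_leS hs, by
      show ∀ j, j < (u ++ w).length → (decC (enc [] (q.restr V'))).V (plc q.t + j) =
        {(u ++ w).getD j 0}
      rw [decC_enc]
      exact hsing, by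
      show ∀ p, b.length ≤ p → ∀ h ∈ (decC (enc [] (q.restr V'))).V p,
        sh n h ∈ (decC (enc b (famC Y))).V p
      rw [decC_enc, decC_enc]
      exact hbel⟩
  have h1' : IsPB x := h1
  have h2' : LeS (decC x) (decC (enc [] q)) := h2
  have h3' : ∀ j, j < (u ++ w).length → (decC x).V (plc q.t + j) = {(u ++ w).getD j 0} := h3
  have h4' : ∀ p, b.length ≤ p → ∀ h ∈ (decC x).V p, sh n h ∈ (decC (enc b (famC Y))).V p := h4
  rw [decC_enc] at h2' h4'
  simp only [famC_V] at h4'
  have hq1C : decC x ∈ CC cle := ⟨h1'.1, by rw [← h1'.2]; exact hx⟩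
  generalize decC x = q1 at h2' h3' h4' hq1C
  have hq1 : Good q1 := hq1C.1
  have ht : q1.t = q.t := h2'.1
  have ha1 : IsPiece q1.t a := by rw [ht]; exact ha
  obtain ⟨A, B, hbr⟩ := exists_br hq1 ha1
  obtain ⟨z, hz, hBz, hzl, hzp⟩ := hbr.exists_fat (max b.length (q.t.length + 1))
  have hzp' : b.length ≤ plc z := (le_max_left _ _).trans hzp
  have hzl' : q.t.length + 1 ≤ z.length := (le_max_right _ _).trans hzl
  have hreal := (hbr.cone hq1 hz hBz).2
  have hqz : q.t <+: z := by rw [← ht]; exact hq1.above z hz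
  have hAV : ∀ p, plc q.t ≤ p → A p ∈ q1.V p := by
    have := hbr.2.2.2.1
    rw [ht] at this
    exact this
  have hpre : (a ++ u ++ w) <+: preA A (plc z) := by
    refine prefix_of_getD ?_ ?_
    · rw [preA_length]
      simp only [List.length_append] at hbl ⊢
      omega
    · intro p hp
      have hpz : p < plc z := by
        simp only [List.length_append] at hbl hp
        omega
      rw [preA_getD _ hpz]
      by_cases hpa : p < a.length
      · have e1 := preA_getD A (n := plc q1.t) (p := p) (by rw [ht, ← hal]; exact hpa)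
        rw [hbr.1] at e1
        rw [← e1, List.append_assoc, List.getD_append _ _ _ _ hpa]
      · push Not at hpa
        rw [List.append_assoc, List.getD_append_right _ _ _ _ hpa]
        have e1 := h3' (p - a.length) (by simp only [List.length_append] at hp ⊢; omega)
        have e2 := hAV p (by omega)
        rw [show plc q.t + (p - a.length) = p by omega] at e1
        rw [e1, Finset.mem_singleton] at e2
        exact e2
  obtain ⟨y, hy⟩ := hpre
  have hyl : b.length + y.length = plc z := by
    have := congrArg List.length hy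
    rw [preA_length] at this
    simp only [List.length_append] at this hbl
    omega
  have habuw : (a ++ u ++ w).length = b.length := by
    have := congrArg List.length hw
    rwa [List.length_map] at this
  refine ⟨preA A (plc z), q1.cone z, (closed_CC I).cone q1 hq1C z hz, hreal.2.2.1, ?_, ?_, ?_, ?_, ?_⟩
  · exact leP_trans hq.1 hq1 ⟨[], (List.append_nil a).symm, le_nil_of_leS h2' hq.1⟩
      (cone_leP hq1 hz hreal)
  · rw [← hy, List.append_assoc, List.append_assoc, ← List.append_assoc a u]
    exact List.prefix_append _ _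
  · refine ⟨y.map (sh n), ?_, ?_, ?_⟩
    · simp only [piY, decP_enc]
      rw [← hy, List.map_append, hw]
    · simp only [decP_enc, decC_enc, famC_V]
      rw [path_iff]
      intro i hi
      rw [List.length_map] at hi
      have hlt : b.length + i < plc z := by omega
      have e1 := preA_getD A hlt
      rw [← hy, List.getD_append_right _ _ _ _ (by omega), habuw,
        show b.length + i - b.length = i by omega] at e1
      have e2 := h4' (b.length + i) (by omega) _ (hAV (b.length + i) (by omega))
      rw [← e1] at e2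
      have e3 : (y.map (sh n)).getD i 0 = sh n (y.getD i 0) := by
        rw [List.getD_eq_getElem _ _ (by rw [List.length_map]; exact hi), List.getElem_map,
          List.getD_eq_getElem _ _ hi]
      rw [e3]
      exact e2
    · intro p hp v hv
      simp only [piY, decP_enc, decC_enc, famC_V, List.length_map, preA_length] at hp hv ⊢
      obtain ⟨h0, hh0, rfl⟩ := Finset.mem_image.1 hv
      exact h4' p (by omega) h0 hh0
  · intro he
    have : q.t = z := he
    rw [this] at hzl'
    omega
  · intro s hs'
    by_contra hcon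
    push Not at hcon
    have hz' : z[q.t.length]? = some s := hs'
    have hpz : (q1.t ++ [s]) <+: z := by
      rw [ht]
      obtain ⟨z', rfl⟩ := hqz
      rw [List.getElem?_append_right le_rfl, Nat.sub_self] at hz'
      cases z' with
      | nil => simp at hz'
      | cons s' z' =>
        simp only [List.getElem?_cons_zero, Option.some.injEq] at hz'
        subst hz'
        exact ⟨z', by simp⟩
    obtain ⟨-, hv, hw', hpr⟩ := hq1.sstep_of_prefix hq1.stem hz hpz
    rw [ht] at hv hw' hpr
    rw [h3' s.u.length (by omega), Finset.mem_singleton] at hv hw'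
    have h5 := hpr.2
    rw [hv, hw'] at h5
    exact lt_irrefl _ h5

end Helper99.PC
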