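import Pool.Agent.Helper99.PC.Defs
import Pool.Agent.Helper99.TT.Ops
import Pool.Agent.Helper99.TT.Branch
import Pool.Agent.Helper99.TT.Sec7C

/-! PC-LiftV: homogeneous trees, lift of thinner families along the shift of the digits. -/

set_option autoImplicit false

noncomputable section

namespace Helper99.PC

open Helper99.TT Encodable
open Pool.Agent.Helper44.CL hiding TT
open Pool.Agent.Helper44.PC

section Aux

open Pool.Agent.Helper98.T (upd upd_same upd_ne eqN_upd Lg.down EqN)

theorem sh_eq_iff {n : ℕ} {v w : H} : sh n v = sh n w ↔ Eqv n v w := by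
  constructor
  · intro h i hi
    have := DFunLike.congr_fun h (i - n)
    rw [sh_apply, sh_apply, Nat.sub_add_cancel hi] at this
    exact this
  · intro h
    ext i
    rw [sh_apply, sh_apply]
    exact h _ (Nat.le_add_left n i)

theorem sh_upd (n i c : ℕ) (e : H) : sh n (upd e (n + i) c) = upd (sh n e) i c := by
  ext k
  rw [sh_apply]
  by_cases h : k = i
  · subst h
    rw [Nat.add_comm k n, upd_same, upd_same]
  · rw [upd_ne _ _ (by omega), upd_ne _ _ h, sh_apply]

/-- branching of exact trees -/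
theorem ex_branch {i M : ℕ} (hM : 1 ≤ M) : ∀ {V : Finset H} {e : H}, Ex i M V e →
    ∀ v ∈ V, ∀ j < i, ∃ C : Finset ℕ, C.card = M ∧
      ∀ c ∈ C, ∃ w ∈ V, Eqv (j + 1) w v ∧ w j = c := by
  induction i with
  | zero => exact fun _ v _ j hj => (Nat.not_lt_zero j hj).elim
  | succ i ih =>
    rintro V e ⟨C, hC, f, hf, rfl⟩ v hv j hj
    obtain ⟨c, hc, hv⟩ := Finset.mem_biUnion.1 hv
    rcases Nat.lt_succ_iff_lt_or_eq.1 hj with hj | rfl
    · obtain ⟨D, hD, hD'⟩ := ih (hf c hc) v hv j hj
      refine ⟨D, hD, fun d hd => ?_⟩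
      obtain ⟨w, hw, h1, h2⟩ := hD' d hd
      exact ⟨w, Finset.mem_biUnion.2 ⟨c, hc, hw⟩, h1, h2⟩
    · refine ⟨C, hC, fun d hd => ?_⟩
      obtain ⟨w, hw⟩ := (hf d hd).nonempty hM
      refine ⟨w, Finset.mem_biUnion.2 ⟨d, hd, hw⟩, ?_, (hf d hd).coord hw⟩
      exact ((((hf d hd).eqN w hw).mono (Nat.le_succ _)).trans (eqN_upd _ _ _)).trans
        ((((hf c hc).eqN v hv).mono (Nat.le_succ _)).trans (eqN_upd _ _ _)).symm

/-- the part of a homogeneous tree above a node is large -/
theorem homT_lg {N M : ℕ} {V : Finset H} (hV : HomT N V) (hMN : M ≤ N) (j : ℕ) (hj : j ≤ N) :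
    ∀ h ∈ V, ∀ e : H, Eqv j e h → ∀ F : Finset H, (∀ h' ∈ V, Eqv j h' h → h' ∈ F) →
      Lg j M F e := by
  induction j with
  | zero =>
    intro h hh e he F hF
    have : e = h := Eqv_zero.1 he
    subst this
    exact hF e hh (Eqv_refl _ _)
  | succ j ih =>
    intro h hh e he F hF
    obtain ⟨l, hl1, hl2, hl3⟩ := hV.2 h hh j (by omega)
    refine ⟨l.toFinset, ?_, ?_⟩
    · rw [List.toFinset_card_of_nodup hl2, hl1]
      exact hMN
    · intro c hc
      obtain ⟨h', hh', h1, h2⟩ := hl3 c (List.mem_toFinset.1 hc)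
      refine ih (by omega) h' hh' (upd e j c) ?_ F ?_
      · intro i hi
        rcases Nat.eq_or_lt_of_le hi with h3 | h3
        · subst h3
          rw [upd_same, h2]
        · rw [upd_ne _ _ (by omega), he i h3, h1 i h3]
      · intro h'' hh'' h3
        exact hF h'' hh'' (Eqv_trans (Eqv_mono (Nat.le_succ j) h3) h1)

/-- lift of a large set -/
theorem lg_lift {N n M : ℕ} {V Y F : Finset H} (hV : HomT N V) (hMN : M ≤ N) (hn : n ≤ N)
    (hY : Y ⊆ V.image (sh n)) (hF : ∀ h ∈ V, sh n h ∈ Y → h ∈ F) (i : ℕ) :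
    ∀ e : H, Lg i M Y e → ∀ e' : H, (∀ k, i ≤ k → e' (n + k) = e k) → Lg (n + i) M F e' := by
  induction i with
  | zero =>
    intro e he e' hee
    have he : e ∈ Y := he
    obtain ⟨h, hh, rfl⟩ := Finset.mem_image.1 (hY he)
    refine homT_lg hV hMN n hn h hh e' ?_ F ?_
    · intro i hi
      have := hee (i - n) (Nat.zero_le _)
      rw [sh_apply, Nat.sub_add_cancel hi, Nat.add_sub_cancel' hi] at this
      exact this
    · intro h' hh' h1
      refine hF h' hh' ?_
      rw [sh_eq_iff.2 h1]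
      exact he
  | succ i ih =>
    rintro e ⟨C, hC, h⟩ e' hee
    refine ⟨C, hC, fun c hc => ?_⟩
    refine ih _ (h c hc) (upd e' (n + i) c) ?_
    intro k hk
    rcases Nat.eq_or_lt_of_le hk with h1 | h1
    · subst h1
      rw [upd_same, upd_same]
    · rw [upd_ne _ _ (by omega), upd_ne _ _ (by omega)]
      exact hee k h1

/-- the image of a large set -/
theorem lg_image {n M : ℕ} (hM : 1 ≤ M) {V : Finset H} (i : ℕ) :
    ∀ e : H, Lg (n + i) M V e → Lg i M (V.image (sh n)) (sh n e) := by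
  induction i with
  | zero =>
    intro e he
    have he' : Lg (0 + n) M V e := by
      rw [Nat.zero_add]
      exact he
    obtain ⟨v, hv, hv'⟩ := Lg.down (i := 0) hM n he'
    have hv'' : v ∈ V := hv'
    show sh n e ∈ V.image (sh n)
    rw [Nat.zero_add] at hv
    rw [← sh_eq_iff.2 hv]
    exact Finset.mem_image_of_mem _ hv''
  | succ i ih =>
    rintro e ⟨C, hC, h⟩
    refine ⟨C, hC, fun c hc => ?_⟩
    rw [← sh_upd]
    exact ih _ (h c hc)

end Aux

theorem homT_of_exact {N : ℕ} {V : Finset H} (h : Exact N V) : HomT N V := by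
  obtain ⟨e, he⟩ := h
  refine ⟨fun v hv w hw => ?_, fun v hv j hj => ?_⟩
  · exact Eqv_trans (Pool.Agent.Helper98.T.Ex.eqN he v hv)
      (Eqv_symm (Pool.Agent.Helper98.T.Ex.eqN he w hw))
  · obtain ⟨C, hC, hC'⟩ := ex_branch (by omega) he v hv j hj
    refine ⟨C.toList, ?_, C.nodup_toList, ?_⟩
    · rw [Finset.length_toList, hC]
    · intro k hk
      exact hC' k (Finset.mem_toList.1 hk)

/-- thinning to homogeneous trees -/
theorem exists_thin {V : Fam} (hV : IsX V) : ∃ V', IsX V' ∧ SubX 0 V' V ∧ Thin V' 0 := by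
  obtain ⟨V', h1, h2, h3⟩ := thin_fam V hV
  refine ⟨V', h1, fun p _ => h2 p, fun p hp => ?_⟩
  rcases h3 p hp with h4 | ⟨N, -, h4⟩
  · refine ⟨0, fun h hh h' hh' => ?_, fun h hh j hj => (Nat.not_lt_zero j hj).elim⟩
    obtain ⟨x, hx⟩ := Finset.card_eq_one.1 h4
    rw [hx, Finset.mem_singleton] at hh hh'
    rw [hh, hh']
    exact Eqv_refl _ _
  · exact ⟨N, homT_of_exact h4⟩

/-- the fibres of the shift in a homogeneous tree -/
theorem homT_lift {N n M : ℕ} {V Y : Finset H} (hV : HomT N V) (hY : Y ⊆ V.image (sh n))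
    (hM : 2 ≤ M) (hl : Large M Y) : Large M (V.filter (fun h => sh n h ∈ Y)) := by
  -- the digit `n + M - 1` branches
  have hN : n + M ≤ N := by
    obtain ⟨v, hv, w, hw, hp⟩ := Large_pair (j := M - 1) hl hM (by omega)
    obtain ⟨h, hh, rfl⟩ := Finset.mem_image.1 (hY hv)
    obtain ⟨h', hh', rfl⟩ := Finset.mem_image.1 (hY hw)
    by_contra hcon
    have h1 := hp.2
    rw [sh_apply, sh_apply] at h1
    have h2 := hV.1 h hh h' hh' (M - 1 + n) (by omega)
    omega
  obtain ⟨e, he⟩ := hl
  have he' : Lg (0 + M) M Y e := by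
    rw [Nat.zero_add]
    exact he
  obtain ⟨y, hy, hy'⟩ := Pool.Agent.Helper98.T.Lg.down (i := 0) (by omega) M he'
  have hyY : y ∈ Y := hy'
  obtain ⟨h, hh, rfl⟩ := Finset.mem_image.1 (hY hyY)
  have h1 : Lg (n + M) M (V.filter (fun h => sh n h ∈ Y)) h := by
    refine lg_lift hV (by omega) (by omega) hY
      (fun h' hh' h2 => Finset.mem_filter.2 ⟨hh', h2⟩) M e he h ?_
    intro k hk
    have h2 := hy k (by omega)
    rw [sh_apply, Nat.add_comm] at h2
    exact h2
  have h2 : Lg (M + n) M (V.filter (fun h => sh n h ∈ Y)) h := by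
    rw [Nat.add_comm]
    exact h1
  obtain ⟨e', -, h3⟩ := Pool.Agent.Helper98.T.Lg.down (i := M) (by omega) n h2
  exact ⟨e', h3⟩

theorem isX_shF {V : Fam} (hV : IsX V) (n : ℕ) : IsX (shF n V) := by
  refine ⟨fun i => (hV.1 i).image _, fun M N => ?_⟩
  obtain ⟨i, hi, e, he⟩ := hV.2 (n + max M 1) N
  refine ⟨i, hi, Large_anti (le_max_left M 1) ⟨sh n e, ?_⟩⟩
  exact lg_image (le_max_right M 1) _ e (Pool.Agent.Helper98.T.Lg.anti (by omega) he)

theorem homT_pair {N n : ℕ} {V : Finset H} (hV : HomT N V) (hne : V.Nonempty) (hN : 2 ≤ N)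
    (hn : n < N) : ∃ v ∈ V, ∃ w ∈ V, IsPair n v w := by
  obtain ⟨h, hh⟩ := hne
  obtain ⟨l, hl1, hl2, hl3⟩ := hV.2 h hh n hn
  have h0 : 0 < l.length := by omega
  have h1 : 1 < l.length := by omega
  have hne : l[0] ≠ l[1] := by
    intro h2
    have := (List.Nodup.getElem_inj_iff hl2).1 h2
    omega
  obtain ⟨v, hv, hv1, hv2⟩ := hl3 _ (List.getElem_mem h0)
  obtain ⟨w, hw, hw1, hw2⟩ := hl3 _ (List.getElem_mem h1)
  have hvw : Eqv (n + 1) v w := Eqv_trans hv1 (Eqv_symm hw1)
  rcases lt_or_gt_of_ne hne with h2 | h2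
  · exact ⟨v, hv, w, hw, hvw, by rw [hv2, hw2]; exact h2⟩
  · exact ⟨w, hw, v, hv, Eqv_symm hvw, by rw [hv2, hw2]; exact h2⟩

/-- lift of a path -/
theorem exists_lift_path {V : Fam} (n : ℕ) : ∀ (c : List H) (p : ℕ),
    (∀ i, i < c.length → c.getD i 0 ∈ shF n V (p + i)) →
    ∃ w : List H, w.map (sh n) = c ∧ Path V p w := by
  intro c
  induction c with
  | nil => exact fun p _ => ⟨[], rfl, trivial⟩
  | cons x c ih =>
    intro p h
    have h0 := h 0 (by simp)
    rw [List.getD_cons_zero, Nat.add_zero] at h0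
    obtain ⟨y, hy, hyx⟩ := Finset.mem_image.1 h0
    obtain ⟨w, hw1, hw2⟩ := ih (p + 1) (fun i hi => by
      have := h (i + 1) (by simpa using hi)
      rw [List.getD_cons_succ] at this
      rw [show p + 1 + i = p + (i + 1) by omega]
      exact this)
    refine ⟨y :: w, ?_, hy, hw2⟩
    rw [List.map_cons, hw1, hyx]

/-- the lift of a family below `shF n V` -/
theorem liftV {V : Fam} (hV : IsX V) {k : ℕ} (hT : Thin V k) (n : ℕ) {a u : List H}
    (hak : a.length = k) (hu : Path V k u) {b : List H} {Y : Fam} (hY : IsX Y)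
    (hab : (a ++ u).map (sh n) <+: b)
    (hb : ∀ p, k + u.length ≤ p → p < b.length → b.getD p 0 ∈ shF n V p)
    (hs : SubX b.length Y (shF n V)) :
    ∃ (w : List H) (V' : Fam), IsX V' ∧ SubX k V' V ∧ (a ++ u ++ w).map (sh n) = b ∧
      (∀ i, i < (u ++ w).length → V' (k + i) = {(u ++ w).getD i 0}) ∧
      ∀ p, b.length ≤ p → ∀ h ∈ V' p, sh n h ∈ Y p := by
  obtain ⟨c, rfl⟩ := hab
  have hlen : ((a ++ u).map (sh n)).length = k + u.length := by simp [hak]
  have hblen : ((a ++ u).map (sh n) ++ c).length = k + u.length + c.length := by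
    rw [List.length_append, hlen]
  rw [hblen] at hb hs
  obtain ⟨w, hw1, hw2⟩ := exists_lift_path (V := V) n c (k + u.length) (fun i hi => by
    have := hb (k + u.length + i) (by omega) (by omega)
    rw [List.getD_append_right _ _ _ _ (by omega), hlen, Nat.add_sub_cancel_left] at this
    exact this)
  have hwl : w.length = c.length := by rw [← hw1, List.length_map]
  have hpath : Path V k (u ++ w) := path_append.2 ⟨hu, hw2⟩
  rw [path_iff] at hpath
  have huw : (u ++ w).length = u.length + c.length := by rw [List.length_append, hwl]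
  obtain ⟨V', hV'⟩ : ∃ V' : Fam, V' = fun p => if p < k then V p else
      if p < k + u.length + c.length then {(u ++ w).getD (p - k) 0} else
        (V p).filter (fun h => sh n h ∈ Y p) := ⟨_, rfl⟩
  have e1 : ∀ p, p < k → V' p = V p := fun p hp => by rw [hV']; exact if_pos hp
  have e2 : ∀ p, k ≤ p → p < k + u.length + c.length → V' p = {(u ++ w).getD (p - k) 0} :=
    fun p hp hp' => by
      rw [hV']
      show (if p < k then V p else if p < k + u.length + c.length then
        {(u ++ w).getD (p - k) 0} else (V p).filter (fun h => sh n h ∈ Y p)) = _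
      rw [if_neg (by omega), if_pos hp']
  have e3 : ∀ p, k + u.length + c.length ≤ p → V' p = (V p).filter (fun h => sh n h ∈ Y p) :=
    fun p hp => by
      rw [hV']
      show (if p < k then V p else if p < k + u.length + c.length then
        {(u ++ w).getD (p - k) 0} else (V p).filter (fun h => sh n h ∈ Y p)) = _
      rw [if_neg (by omega), if_neg (by omega)]
  refine ⟨w, V', ⟨?_, ?_⟩, ?_, ?_, ?_, ?_⟩
  · intro p
    rcases lt_or_ge p k with h1 | h1
    · rw [e1 p h1]
      exact hV.1 p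
    · rcases lt_or_ge p (k + u.length + c.length) with h2 | h2
      · rw [e2 p h1 h2]
        exact Finset.singleton_nonempty _
      · rw [e3 p h2]
        obtain ⟨y, hy⟩ := hY.1 p
        obtain ⟨h, hh, hhy⟩ := Finset.mem_image.1 (hs p h2 hy)
        exact ⟨h, Finset.mem_filter.2 ⟨hh, by rw [hhy]; exact hy⟩⟩
  · intro M N
    obtain ⟨i, hi, hL⟩ := hY.2 (max M 2) (max N (k + u.length + c.length))
    have h1 : k + u.length + c.length ≤ i := (le_max_right _ _).trans hi
    refine ⟨i, (le_max_left _ _).trans hi, Large_anti (le_max_left M 2) ?_⟩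
    rw [e3 i h1]
    obtain ⟨N', hN'⟩ := hT i (by omega)
    exact homT_lift hN' (hs i h1) (le_max_right M 2) hL
  · intro p hp
    rcases lt_or_ge p (k + u.length + c.length) with h2 | h2
    · rw [e2 p hp h2, Finset.singleton_subset_iff]
      have := hpath (p - k) (by omega)
      rw [Nat.add_sub_cancel' hp] at this
      exact this
    · rw [e3 p h2]
      exact Finset.filter_subset _ _
  · rw [List.map_append, hw1]
  · intro i hi
    rw [huw] at hi
    rw [e2 (k + i) (by omega) (by omega), Nat.add_sub_cancel_left]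
  · intro p hp h hh
    rw [hblen] at hp
    rw [e3 p hp] at hh
    exact (Finset.mem_filter.1 hh).2

end Helper99.PC
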