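import Pool.Agent.Helper99.PC.NotLe
import Pool.Agent.Helper99.PC.LiftL

/-! PC-NotAn: (10.4) `A_n` is not constructible from `A_{n+1}`. -/

set_option autoImplicit false

noncomputable section

namespace Helper99.PC

open Helper99.TT Encodable
open Pool.Agent.Helper44.CL hiding TT
open Pool.Agent.Helper44.PC

variable {cle : Set ℕ → Set ℕ → Prop} {L2 : Set (Set (Set ℕ))}

namespace NotAn

theorem piY_cle (I : Iface cle L2) (n : ℕ) {x : Set ℕ} (hx : cle x ∅) : cle (piY n x) ∅ := by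
  have h1 : ArS (fun ρ (_ : ℕ) => piY n (ρ 0)) := arS_piY 0 (Primrec.const n)
  have h2 : Ar (fun ρ (b : ℕ) => b ∈ piY n (ρ 0)) :=
    Ar.mem h1 (f := fun b : ℕ => b) Primrec.id (g := fun b : ℕ => b) Primrec.id
  have h3 := I.arith (ar_iff_arN.1 h2) (fun _ => x) ∅ (fun _ => hx)
  have e : {b | b ∈ piY n x} = piY n x := Set.ext fun _ => Iff.rfl
  rw [← e]
  exact h3

theorem length_le_plc' (x : Node) : x.length ≤ plc x := by
  unfold plc
  induction x with
  | nil => simp
  | cons s x ih =>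
    simp only [List.length_cons, List.map_cons, List.sum_cons]
    have : 1 ≤ s.size := by unfold Step.size; omega
    omega

/-- entries of the pieces in `G` -/
theorem gen_entry (I : Iface cle L2) {G : Set (Set ℕ)} {A : ℕ → H} {B : ℕ → Step}
    (h : Gen cle L2 G A B) {x : Set ℕ} (hx : x ∈ G) {p : ℕ} {v : H}
    (hp : (decP x)[p]? = some v) : A p = v := by
  obtain ⟨a, q, rfl, -, -⟩ := mem_PP I (h.gen.sub hx)
  rw [decP_enc] at hp
  have h1 := (h.br a q hx).1
  rw [← h1] at hp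
  unfold preA at hp
  rw [List.getElem?_map] at hp
  rcases Nat.lt_or_ge p (plc q.t) with h2 | h2
  · rw [List.getElem?_range h2] at hp
    simpa using hp
  · rw [List.getElem?_eq_none (by simpa using h2)] at hp
    simp at hp

theorem exists_path' {V : Fam} (hV : ∀ i, (V i).Nonempty) (k m : ℕ) :
    ∃ u : List H, u.length = m ∧ Path V k u := by
  choose f hf using hV
  refine ⟨(List.range m).map (fun i => f (k + i)), by simp, ?_⟩
  rw [path_iff]
  intro i hi
  rw [List.length_map, List.length_range] at hi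
  have : ((List.range m).map (fun i => f (k + i))).getD i 0 = f (k + i) := by
    rw [List.getD_eq_getElem?_getD, List.getElem?_map, List.getElem?_range hi]
    rfl
  rw [this]
  exact hf _

theorem ar_getP {α : Type} [Primcodable α] (i : ℕ) {p : α → ℕ} {v : α → H} (hp : Primrec p)
    (hv : Primrec v) : Ar (fun ρ u => (decP (ρ i))[p u]? = some (v u)) := by
  have h1 : Ar (fun ρ (w : α × List H) => decP (ρ i) = w.2 ∧ w.2[p w.1]? = some (v w.1)) := by
    refine (ar_decP i Primrec.snd).and ?_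
    exact Ar.eq (Primrec.list_getElem?.comp Primrec.snd (hp.comp Primrec.fst))
      (Primrec.option_some.comp (hv.comp Primrec.fst))
  have h2 := Ar.ex (R := fun ρ (u : α) (l : List H) => decP (ρ i) = l ∧ l[p u]? = some (v u)) h1
  refine h2.of_eq fun ρ u => ?_
  constructor
  · intro h
    exact ⟨_, rfl, h⟩
  · rintro ⟨l, hl, h⟩
    rw [hl]
    exact h

/-- the statements decided -/
def E (k : ℕ) (y : Set ℕ) : Prop := ∃ (p : ℕ) (v : H), k = encode (p, v) ∧ (decP y)[p]? = some v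

theorem ar_E : Ar (fun ρ (k : ℕ) => E k (ρ 0)) := by
  unfold E
  refine Ar.ex (R := fun ρ (k p : ℕ) => ∃ v : H, k = encode (p, v) ∧ (decP (ρ 0))[p]? = some v) ?_
  refine Ar.ex (R := fun ρ (z : ℕ × ℕ) (v : H) =>
    z.1 = encode (z.2, v) ∧ (decP (ρ 0))[z.2]? = some v) ?_
  have h1 : Primrec (fun w : (ℕ × ℕ) × H => w.1.1) := Primrec.fst.comp Primrec.fst
  have h2 : Primrec (fun w : (ℕ × ℕ) × H => w.1.2) := Primrec.snd.comp Primrec.fst
  exact (Ar.eq h1 (Primrec.encode.comp (h2.pair Primrec.snd))).and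
    (ar_getP 0 h2 Primrec.snd)

def ST (n k : ℕ) (x : Set ℕ) : Prop :=
  ∃ (p : ℕ) (h g : H), k = encode (p, g) ∧ (decP x)[p]? = some h ∧ sh n h = g

def SF (n k : ℕ) (x : Set ℕ) : Prop :=
  ∃ (p : ℕ) (h g : H), k = encode (p, g) ∧ (decP x)[p]? = some h ∧ ¬ sh n h = g

theorem ar_S3 : Ar (fun ρ (w : ((ℕ × ℕ) × H) × H) =>
    w.1.1.1 = encode (w.1.1.2, w.2) ∧ (decP (ρ 0))[w.1.1.2]? = some w.1.2) := by
  have h1 : Primrec (fun w : ((ℕ × ℕ) × H) × H => w.1.1.1) :=
    Primrec.fst.comp (Primrec.fst.comp Primrec.fst)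
  have h2 : Primrec (fun w : ((ℕ × ℕ) × H) × H => w.1.1.2) :=
    Primrec.snd.comp (Primrec.fst.comp Primrec.fst)
  exact (Ar.eq h1 (Primrec.encode.comp (h2.pair Primrec.snd))).and
    (ar_getP 0 h2 (Primrec.snd.comp Primrec.fst))

theorem ar_sh' (n : ℕ) : Ar (fun (_ : ℕ → Set ℕ) (w : ((ℕ × ℕ) × H) × H) => sh n w.1.2 = w.2) :=
  ar_sh (Primrec.const n) (Primrec.snd.comp Primrec.fst) Primrec.snd

theorem ar_ST (n : ℕ) : Ar (fun ρ (k : ℕ) => ST n k (ρ 0)) := by
  unfold ST
  refine Ar.ex (R := fun ρ (k p : ℕ) => ∃ h g : H, k = encode (p, g) ∧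
    (decP (ρ 0))[p]? = some h ∧ sh n h = g) ?_
  refine Ar.ex (R := fun ρ (z : ℕ × ℕ) (h : H) => ∃ g : H, z.1 = encode (z.2, g) ∧
    (decP (ρ 0))[z.2]? = some h ∧ sh n h = g) ?_
  refine Ar.ex (R := fun ρ (z : (ℕ × ℕ) × H) (g : H) => z.1.1 = encode (z.1.2, g) ∧
    (decP (ρ 0))[z.1.2]? = some z.2 ∧ sh n z.2 = g) ?_
  exact (ar_S3.and (ar_sh' n)).of_eq fun ρ w => and_assoc.symm

theorem ar_SF (n : ℕ) : Ar (fun ρ (k : ℕ) => SF n k (ρ 0)) := by
  unfold SF
  refine Ar.ex (R := fun ρ (k p : ℕ) => ∃ h g : H, k = encode (p, g) ∧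
    (decP (ρ 0))[p]? = some h ∧ ¬ sh n h = g) ?_
  refine Ar.ex (R := fun ρ (z : ℕ × ℕ) (h : H) => ∃ g : H, z.1 = encode (z.2, g) ∧
    (decP (ρ 0))[z.2]? = some h ∧ ¬ sh n h = g) ?_
  refine Ar.ex (R := fun ρ (z : (ℕ × ℕ) × H) (g : H) => z.1.1 = encode (z.1.2, g) ∧
    (decP (ρ 0))[z.1.2]? = some z.2 ∧ ¬ sh n z.2 = g) ?_
  exact (ar_S3.and (ar_sh' n).not).of_eq fun ρ w => and_assoc.symm

end NotAn

open NotAn

/-- the generic real of the projection to `YY` -/
theorem piY_real (I : Iface cle L2) {G : Set (Set ℕ)} {A : ℕ → H} {B : ℕ → Step}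
    (h : Gen cle L2 G A B) (n : ℕ) :
    {k | ∃ y, cle y ∅ ∧ IsYY y ∧ (∃ (p : ℕ) (v : H), k = encode (p, v) ∧ (decP y)[p]? = some v) ∧
      ∃ x ∈ G, leY (piY n x) y} = rA (shA n A) := by
  ext k
  constructor
  · rintro ⟨y, -, -, ⟨p, v, rfl, hv⟩, x, hx, u, hu, -, -⟩
    refine ⟨(p, v), ?_, rfl⟩
    show sh n (A p) = v
    have h1 : (decP (piY n x))[p]? = some v := by
      rw [hu]
      have hp : p < (decP y).length := (List.getElem?_eq_some_iff.1 hv).1
      rw [List.getElem?_append_left hp]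
      exact hv
    rw [piY, decP_enc, List.getElem?_map] at h1
    obtain ⟨g, hg, rfl⟩ := Option.map_eq_some_iff.1 h1
    rw [gen_entry I h hx hg]
  · rintro ⟨⟨p, v⟩, hv, rfl⟩
    have hv : sh n (A p) = v := hv
    obtain ⟨a, q, hG, hl⟩ := h.long (p + 1)
    have hPP := h.gen.sub hG
    have hY : IsYY (piY n (enc a q)) := piY_isYY I n hPP.2
    refine ⟨piY n (enc a q), piY_cle I n hPP.1, hY, ⟨p, v, rfl, ?_⟩, enc a q, hG, leY_refl I hY⟩
    rw [piY, decP_enc, decP_enc, List.getElem?_map]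
    have h1 := (h.br a q hG).1
    have hp : p < plc q.t := by
      have := length_le_plc' q.t
      omega
    rw [← h1]
    unfold preA
    rw [List.getElem?_map, List.getElem?_range hp]
    simpa using hv

theorem notAn (I : Iface cle L2) {G : Set (Set ℕ)} {A : ℕ → H} {B : ℕ → Step}
    (h : Gen cle L2 G A B) (n : ℕ) : ¬ cle (rA (shA n A)) (rA (shA (n + 1) A)) := by
  rw [← piY_real I h (n + 1)]
  refine notLe I (P := IsPP) (Q := IsYY) (leP := leP) (leQ := leY) (π := piY (n + 1))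
    (AL.of_ar I (ar_isPP 0)) (AL.of_ar I (ar_isYY 0)) (AL.of_ar I (ar_leY 0 1))
    (ALS.of_arS I (arS_piY 0 (Primrec.const (n + 1))))
    (fun x _ hx => piY_isYY I (n + 1) hx) (fun x _ hx => leY_refl I hx)
    (fun x y w _ _ _ hx hy hw h1 h2 => leY_trans I hx hy hw h1 h2)
    (fun x y _ _ hx hy hxy => piY_mono I (n + 1) hx hy hxy) h.gen
    (E := E) (AL.of_ar I ar_E) (S := fun e k x => if e then ST n k x else SF n k x)
    ?_ ?_ ?_ ?_
  · intro e
    cases e
    · exact (AL.of_ar I (ar_SF n)).of_eq fun ρ a => by simp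
    · exact (AL.of_ar I (ar_ST n)).of_eq fun ρ a => by simp
  · intro x hx k hk
    simp only [if_true] at hk
    obtain ⟨p, g, v, rfl, hg, rfl⟩ := hk
    exact ⟨(p, sh n g), by show sh n (A p) = sh n g; rw [gen_entry I h hx hg], rfl⟩
  · intro x hx k hk
    simp only [Bool.false_eq_true, if_false] at hk
    obtain ⟨p, g, v, rfl, hg, hne⟩ := hk
    rintro ⟨⟨p', v'⟩, hv, he⟩
    have he' := Encodable.encode_injective he
    simp only [Prod.mk.injEq] at he'
    obtain ⟨rfl, rfl⟩ := he'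
    have hv : sh n (A p') = v' := hv
    rw [gen_entry I h hx hg] at hv
    exact hne hv
  · intro x hx hPP
    obtain ⟨a, q, rfl, hq, ha⟩ := hPP.exists
    have hqC : q ∈ CC cle := ⟨hq, cle_enc I a [] hx⟩
    obtain ⟨q', hq', hS, hT⟩ := thinL I hqC
    have ha' : IsPiece q'.t a := by rw [hS.1]; exact ha
    obtain ⟨i, hi, hL⟩ := hq'.1.isX.2 (n + 2) (plc q'.t)
    obtain ⟨v, hv, w, hw, hvw⟩ := Large_pair hL (by omega : 2 ≤ n + 2) (by omega : n < n + 2)
    obtain ⟨u0, hu0, hpath⟩ := exists_path' hq'.1.isX.1 (plc q'.t) (i - plc q'.t)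
    have hlen : (a ++ u0).length = i := by
      rw [List.length_append, ha'.1, hu0]; omega
    have hsh : sh (n + 1) v = sh (n + 1) w := by
      ext j
      rw [sh_apply, sh_apply]
      exact hvw.1 _ (by omega)
    have hne : ¬ sh n w = sh n v := by
      intro he
      have h1 := congrArg (fun f : H => f 0) he
      simp only [sh_apply, zero_add] at h1
      have := hvw.2
      omega
    have hcl : ∀ b : List H, cle (enc b q') ∅ := fun b => cle_enc I [] b hq'.2
    refine ⟨encode (i, sh n v), piY (n + 1) (enc (a ++ (u0 ++ [v])) q'), piY_cle I _ (hcl _), ?_, ?_⟩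
    · rw [piY, decC_enc, isYY_enc]
      exact isX_shF hq'.1.isX _
    · intro y hy hY hle e
      obtain ⟨b, Y, rfl, hYX⟩ := hY.exists
      rw [piY, decP_enc, decC_enc] at hle
      have hext : ∀ z : H, z ∈ q'.V i → sh (n + 1) z = sh (n + 1) v →
          ∃ x', cle x' ∅ ∧ IsPP x' ∧ leP x' (enc a q) ∧ leY (piY (n + 1) x') (enc b (famC Y)) ∧
            (decP x')[i]? = some z := by
        intro z hz hzv
        have hp2 : Path q'.V (plc q'.t) (u0 ++ [z]) := by
          rw [path_append]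
          refine ⟨hpath, ?_⟩
          rw [hu0, show plc q'.t + (i - plc q'.t) = i by omega]
          exact ⟨hz, trivial⟩
        have hle2 : leY (enc b (famC Y)) (enc ((a ++ (u0 ++ [z])).map (sh (n + 1)))
            (famC (shF (n + 1) q'.V))) := by
          have e1 : (a ++ (u0 ++ [z])).map (sh (n + 1)) = (a ++ (u0 ++ [v])).map (sh (n + 1)) := by
            simp [hzv]
          rw [e1]
          exact hle
        obtain ⟨a', q'', hq'', hpa, hLP, hpre, hlY, -, -⟩ :=
          liftL I hq' hT (n + 1) ha' hp2 hy hYX hle2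
        refine ⟨enc a' q'', cle_enc I [] a' hq''.2, isPP_enc.2 ⟨hq''.1, hpa⟩, ?_, hlY, ?_⟩
        · rw [leP_enc]
          refine leP_trans hq hq'.1 ⟨[], by simp, le_nil_of_leS hS hq⟩ hLP
        · rw [decP_enc]
          obtain ⟨r, rfl⟩ := hpre
          rw [show a ++ (u0 ++ [z]) ++ r = (a ++ u0) ++ (z :: r) by simp,
            List.getElem?_append_right (by omega), hlen]
          simp
      cases e
      · obtain ⟨x', h1, h2, h3, h4, h5⟩ := hext w hw hsh.symm
        exact ⟨x', h1, h2, h3, h4, by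
          simp only [Bool.false_eq_true, if_false]
          exact ⟨i, w, sh n v, rfl, h5, hne⟩⟩
      · obtain ⟨x', h1, h2, h3, h4, h5⟩ := hext v hv rfl
        exact ⟨x', h1, h2, h3, h4, by
          simp only [if_true]
          exact ⟨i, v, sh n v, rfl, h5, rfl⟩⟩

end Helper99.PC
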