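import Pool.Agent.Helper99.PC.NotAn
import Pool.Agent.Helper99.PC.DegC

/-! PC-NotB: (10.5) `B` is not constructible from `A`. -/

set_option autoImplicit false

noncomputable section

namespace Helper99.PC

open Helper99.TT Encodable
open Pool.Agent.Helper44.CL hiding TT
open Pool.Agent.Helper44.PC

variable {cle : Set ℕ → Set ℕ → Prop} {L2 : Set (Set (Set ℕ))}

namespace NotB

theorem sh0 (v : H) : sh 0 v = v := by
  refine Finsupp.ext fun i => ?_
  rw [sh_apply, Nat.add_zero]

theorem map_sh0 (b : List H) : b.map (sh 0) = b := by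
  rw [show (sh 0 : H → H) = id from funext sh0]
  exact List.map_id b

theorem shF0 (V : Fam) : shF 0 V = V := by
  funext p
  show (V p).image (sh 0) = V p
  rw [show (sh 0 : H → H) = id from funext sh0]
  exact Finset.image_id

theorem piY0 (a : List H) (q : Cond) : piY 0 (enc a q) = enc a (famC q.V) := by
  unfold piY
  rw [decP_enc, decC_enc, map_sh0, shF0]

/-- the conditions which decide the step `s` of `B` at `j` -/
def SS (e : Bool) (k : ℕ) (x : Set ℕ) : Prop :=
  ∃ (j : ℕ) (s s1 : Step), k = encode (j, s) ∧ (decC x).t[j]? = some s1 ∧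
    (if e = true then s1 = s else s1 ≠ s)

theorem ss_true {k : ℕ} {x : Set ℕ} : SS true k x ↔
    ∃ (j : ℕ) (s s1 : Step), k = encode (j, s) ∧ (decC x).t[j]? = some s1 ∧ s1 = s := Iff.rfl

theorem ss_false {k : ℕ} {x : Set ℕ} : SS false k x ↔
    ∃ (j : ℕ) (s s1 : Step), k = encode (j, s) ∧ (decC x).t[j]? = some s1 ∧ s1 ≠ s := by
  unfold SS
  simp

theorem ar_ss (e : Bool) : Ar (fun ρ (k : ℕ) => SS e k (ρ 0)) := by
  have h : Ar (fun ρ (k : ℕ) => ∃ (j : ℕ) (s s1 : Step) (t : Node), k = encode (j, s) ∧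
      (decC (ρ 0)).t = t ∧ t[j]? = some s1 ∧ (if e = true then s1 = s else s1 ≠ s)) := by
    refine Ar.ex (R := fun ρ (k : ℕ) (j : ℕ) => ∃ (s s1 : Step) (t : Node), k = encode (j, s) ∧
      (decC (ρ 0)).t = t ∧ t[j]? = some s1 ∧ (if e = true then s1 = s else s1 ≠ s)) ?_
    refine Ar.ex (R := fun ρ (p : ℕ × ℕ) (s : Step) => ∃ (s1 : Step) (t : Node),
      p.1 = encode (p.2, s) ∧
      (decC (ρ 0)).t = t ∧ t[p.2]? = some s1 ∧ (if e = true then s1 = s else s1 ≠ s)) ?_
    refine Ar.ex (R := fun ρ (p : (ℕ × ℕ) × Step) (s1 : Step) => ∃ (t : Node),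
      p.1.1 = encode (p.1.2, p.2) ∧
      (decC (ρ 0)).t = t ∧ t[p.1.2]? = some s1 ∧ (if e = true then s1 = p.2 else s1 ≠ p.2)) ?_
    refine Ar.ex (R := fun ρ (p : ((ℕ × ℕ) × Step) × Step) (t : Node) =>
      p.1.1.1 = encode (p.1.1.2, p.1.2) ∧
      (decC (ρ 0)).t = t ∧ t[p.1.1.2]? = some p.2 ∧
      (if e = true then p.2 = p.1.2 else p.2 ≠ p.1.2)) ?_
    have hk : Primrec (fun p : (((ℕ × ℕ) × Step) × Step) × Node => p.1.1.1.1) :=
      Primrec.fst.comp (Primrec.fst.comp (Primrec.fst.comp Primrec.fst))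
    have hj : Primrec (fun p : (((ℕ × ℕ) × Step) × Step) × Node => p.1.1.1.2) :=
      Primrec.snd.comp (Primrec.fst.comp (Primrec.fst.comp Primrec.fst))
    have hs : Primrec (fun p : (((ℕ × ℕ) × Step) × Step) × Node => p.1.1.2) :=
      Primrec.snd.comp (Primrec.fst.comp Primrec.fst)
    have hs1 : Primrec (fun p : (((ℕ × ℕ) × Step) × Step) × Node => p.1.2) :=
      Primrec.snd.comp Primrec.fst
    have ht : Primrec (fun p : (((ℕ × ℕ) × Step) × Step) × Node => p.2) := Primrec.snd
    refine (Ar.eq hk (Primrec.encode.comp (hj.pair hs))).and ((ar_t 0 ht).and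
      ((Ar.eq (Primrec.list_getElem?.comp ht hj) (Primrec.option_some.comp hs1)).and ?_))
    cases e with
    | false => exact (Ar.eq hs1 hs).not.of_eq fun ρ a => by simp
    | true => exact (Ar.eq hs1 hs).of_eq fun ρ a => by simp
  refine h.of_eq fun ρ k => ?_
  constructor
  · rintro ⟨j, s, s1, h1, h2, h3⟩
    exact ⟨j, s, s1, _, h1, rfl, h2, h3⟩
  · rintro ⟨j, s, s1, t, h1, rfl, h2, h3⟩
    exact ⟨j, s, s1, h1, h2, h3⟩

theorem ar_ee : Ar (fun ρ (k : ℕ) => ∃ (p : ℕ) (v : H), k = encode (p, v) ∧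
    (decP (ρ 0))[p]? = some v) := by
  have h : Ar (fun ρ (k : ℕ) => ∃ (p : ℕ) (v : H) (b : List H), k = encode (p, v) ∧
      decP (ρ 0) = b ∧ b[p]? = some v) := by
    refine Ar.ex (R := fun ρ (k : ℕ) (p : ℕ) => ∃ (v : H) (b : List H), k = encode (p, v) ∧
      decP (ρ 0) = b ∧ b[p]? = some v) ?_
    refine Ar.ex (R := fun ρ (x : ℕ × ℕ) (v : H) => ∃ (b : List H), x.1 = encode (x.2, v) ∧
      decP (ρ 0) = b ∧ b[x.2]? = some v) ?_
    refine Ar.ex (R := fun ρ (x : (ℕ × ℕ) × H) (b : List H) => x.1.1 = encode (x.1.2, x.2) ∧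
      decP (ρ 0) = b ∧ b[x.1.2]? = some x.2) ?_
    have hk : Primrec (fun p : ((ℕ × ℕ) × H) × List H => p.1.1.1) :=
      Primrec.fst.comp (Primrec.fst.comp Primrec.fst)
    have hj : Primrec (fun p : ((ℕ × ℕ) × H) × List H => p.1.1.2) :=
      Primrec.snd.comp (Primrec.fst.comp Primrec.fst)
    have hv : Primrec (fun p : ((ℕ × ℕ) × H) × List H => p.1.2) :=
      Primrec.snd.comp Primrec.fst
    have hb : Primrec (fun p : ((ℕ × ℕ) × H) × List H => p.2) := Primrec.snd
    exact (Ar.eq hk (Primrec.encode.comp (hj.pair hv))).and ((ar_decP 0 hb).and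
      (Ar.eq (Primrec.list_getElem?.comp hb hj) (Primrec.option_some.comp hv)))
  refine h.of_eq fun ρ k => ?_
  constructor
  · rintro ⟨p, v, h1, h2⟩
    exact ⟨p, v, _, h1, rfl, h2⟩
  · rintro ⟨p, v, b, h1, rfl, h2⟩
    exact ⟨p, v, h1, h2⟩

theorem getElem?_of_prefix {x y : Node} {s : Step} (h : (x ++ [s]) <+: y) :
    y[x.length]? = some s := by
  obtain ⟨z, rfl⟩ := h
  rw [List.append_assoc, List.getElem?_append_right le_rfl, Nat.sub_self]
  rfl

theorem key (I : Iface cle L2) {a : List H} {q : Cond} (hq : q ∈ CC cle) (ha : IsPiece q.t a) :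
    ∃ (j : ℕ) (s : Step) (y0 : Set ℕ), cle y0 ∅ ∧ IsYY y0 ∧ ∀ y, cle y ∅ → IsYY y → leY y y0 →
      (∃ a' q', q' ∈ CC cle ∧ IsPiece q'.t a' ∧ LeP a' q' a q ∧
        leY (piY 0 (enc a' q')) y ∧ q'.t[j]? = some s) ∧
      (∃ a' q', q' ∈ CC cle ∧ IsPiece q'.t a' ∧ LeP a' q' a q ∧
        leY (piY 0 (enc a' q')) y ∧ ∃ s1, q'.t[j]? = some s1 ∧ s1 ≠ s) := by
  obtain ⟨r, hr, hrq, hT⟩ := thinL I hq
  have hrt : r.t = q.t := hrq.1
  have har : IsPiece r.t a := by rw [hrt]; exact ha
  have hal : a.length = plc r.t := har.1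
  obtain ⟨s, hs⟩ := exists_sstep hr.1.isX r.t
  obtain ⟨hsp, hsv, hsw, hsi⟩ := hs
  have hs : SStep r.V r.t s := ⟨hsp, hsv, hsw, hsi⟩
  have hLe0 : LeP a r a q := ⟨[], (List.append_nil a).symm, le_nil_of_leS hrq hq.1⟩
  have hrL : cle (enc [] (famC r.V)) ∅ := by
    have h1 := notLe_val I (AL.of_ar I (arS_piY (α := Unit) 0 (Primrec.const 0))) hr.2
    rw [piY0] at h1
    exact h1
  refine ⟨r.t.length, s, enc (a ++ (s.u ++ [s.v])) (famC r.V), cle_enc I _ _ hrL,
    isYY_enc.2 hr.1.isX, ?_⟩
  intro y hyL hyY hle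
  obtain ⟨b, Y, rfl, hY⟩ := hyY.exists
  have hle' := hle
  obtain ⟨w0, hb1, hb2, hb3⟩ := hle
  simp only [decP_enc, decC_enc, famC_V] at hb1 hb2 hb3
  have hbl : b.length = plc r.t + s.u.length + 1 + w0.length := by
    rw [hb1]
    simp only [List.length_append, List.length_cons, List.length_nil, hal]
    omega
  constructor
  · -- the step `s` is taken
    obtain ⟨z, hz, hgap, hzmin⟩ := hr.1.succ r.t hr.1.stem s hs
    obtain ⟨c, hcl, hcp⟩ := exists_path hY.1 b.length (plc z - b.length)
    have hzl : plc (r.t ++ [s]) ≤ plc z := plc_mono hgap.1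
    have hts : plc (r.t ++ [s]) = plc r.t + s.u.length + 1 := by
      rw [plc_append, plc_singleton]
      omega
    -- the entries
    have hget : ∀ p, p < plc r.t → (b ++ c).getD p 0 = a.getD p 0 := by
      intro p hp
      rw [hb1, List.append_assoc, List.append_assoc,
        List.getD_append _ _ _ _ (by omega)]
    have hget1 : ∀ i, i < s.u.length → (b ++ c).getD (plc r.t + i) 0 = s.u.getD i 0 := by
      intro i hi
      rw [hb1, List.append_assoc, List.append_assoc,
        List.getD_append_right _ _ _ _ (by omega), hal,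
        Nat.add_sub_cancel_left, List.append_assoc, List.getD_append _ _ _ _ hi]
    have hget2 : (b ++ c).getD (plc r.t + s.u.length) 0 = s.v := by
      rw [hb1, List.append_assoc, List.append_assoc,
        List.getD_append_right _ _ _ _ (by omega), hal,
        Nat.add_sub_cancel_left, List.append_assoc, List.getD_append_right _ _ _ _ le_rfl,
        Nat.sub_self]
      rfl
    have hVin : ∀ p, plc r.t ≤ p → p < (b ++ c).length → (b ++ c).getD p 0 ∈ r.V p := by
      intro p hp1 hp2
      rcases lt_or_ge p (plc r.t + s.u.length) with h | h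
      · have h1 := (path_iff.1 hsp) (p - plc r.t) (by omega)
        rw [← hget1 _ (by omega), show plc r.t + (p - plc r.t) = p by omega] at h1
        exact h1
      · rcases Nat.eq_or_lt_of_le h with h | h
        · rw [← h, hget2]
          exact hsv
        · rcases lt_or_ge p b.length with h' | h'
          · have h1 := (path_iff.1 hb2) (p - (plc r.t + s.u.length + 1)) (by omega)
            have hlen : (a ++ (s.u ++ [s.v])).length = plc r.t + s.u.length + 1 := by
              simp only [List.length_append, List.length_cons, List.length_nil, hal]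
              omega
            rw [hlen, show plc r.t + s.u.length + 1 + (p - (plc r.t + s.u.length + 1)) = p by
              omega] at h1
            rw [List.getD_append _ _ _ _ h', hb1,
              List.getD_append_right _ _ _ _ (by omega), hlen]
            exact h1
          · have h1 := (path_iff.1 hcp) (p - b.length) (by
              rw [List.length_append] at hp2
              omega)
            rw [show b.length + (p - b.length) = p by omega] at h1
            rw [List.getD_append_right _ _ _ _ h']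
            exact hb3 p h' h1
    have hbcl : plc z ≤ (b ++ c).length := by
      rw [List.length_append]
      omega
    have htakel : ((b ++ c).take (plc z)).length = plc z := by
      rw [List.length_take]
      omega
    have htake : ∀ p, p < plc z → ((b ++ c).take (plc z)).getD p 0 = (b ++ c).getD p 0 := by
      intro p hp
      rw [List.getD_eq_getElem?_getD, List.getElem?_take_of_lt hp, ← List.getD_eq_getElem?_getD]
    have hztr : r.t <+: z := hr.1.above z hz
    have hpz : IsPiece z ((b ++ c).take (plc z)) := by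
      refine ⟨htakel, fun p hp => ?_⟩
      rw [htake p hp]
      rcases lt_or_ge p (plc r.t) with h | h
      · rw [hget p h, ent_prefix hztr h]
        exact har.2 p h
      · rcases lt_or_ge p (plc (r.t ++ [s])) with h' | h'
        · rw [ent_prefix hgap.1 h', show p = plc r.t + (p - plc r.t) by omega,
            ent_append_right]
          rcases lt_or_ge (p - plc r.t) s.u.length with h2 | h2
          · rw [ent_singleton_lt h2, hget1 _ h2]
            exact Finset.mem_singleton_self _
          · have h3 : p - plc r.t = s.u.length := by omega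
            rw [h3, ent_singleton_last, hget2]
            exact Finset.mem_insert_self _ _
        · obtain ⟨v, hv1, hv2⟩ := hgap.2 p h' hp
          have h2 := hVin p h (by omega)
          rw [hv1, Finset.mem_singleton] at h2
          rw [h2]
          exact hv2
    have hreal : IsReal r a z ((b ++ c).take (plc z)) := by
      refine ⟨har, ?_, hpz, ?_⟩
      · refine prefix_of_getD (by rw [htakel, hal]; exact plc_mono hztr) ?_
        intro p hp
        rw [hal] at hp
        rw [htake p (lt_of_lt_of_le hp (plc_mono hztr)), hget p hp]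
      · intro p hp1 hp2
        rw [htake p hp2]
        exact hVin p hp1 (by omega)
    have hYL' : cle (enc (b ++ c) (famC Y)) ∅ := cle_enc I _ _ hyL
    have hcone : r.cone z ∈ CC cle := (closed_CC I).cone r hr z hz
    have hTz : Thin (r.cone z).V (plc (r.cone z).t) := fun p hp =>
      hT p (le_trans (plc_mono hztr) hp)
    have hdrop : Path (r.cone z).V (plc (r.cone z).t) ((b ++ c).drop (plc z)) := by
      rw [path_iff]
      intro i hi
      rw [List.length_drop] at hi
      show _ ∈ r.V (plc z + i)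
      rw [List.getD_eq_getElem?_getD, List.getElem?_drop, ← List.getD_eq_getElem?_getD]
      exact hVin _ (le_trans (plc_mono hztr) (Nat.le_add_right _ _)) (by omega)
    have hsubY : SubX (b ++ c).length Y r.V := by
      intro p hp
      refine hb3 p ?_
      rw [List.length_append] at hp
      omega
    obtain ⟨a', q', hq', ha', hLe, -, hleY, -, -⟩ := liftL I hcone hTz 0 hpz hdrop
      (b := b ++ c) (Y := Y) hYL' hY (by
        rw [List.take_append_drop, map_sh0, shF0]
        refine ⟨[], ?_, ?_, ?_⟩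
        · simp only [decP_enc, List.append_nil]
        · rw [path_iff]
          intro i hi
          exact absurd hi (Nat.not_lt_zero i)
        · simp only [decP_enc, decC_enc, famC_V]
          exact hsubY)
    refine ⟨a', q', hq', ha', ?_, ?_, ?_⟩
    · exact leP_trans hq.1 hr.1 hLe0 (leP_trans hr.1 hcone.1 (cone_leP hr.1 hz hreal) hLe)
    · refine leY_trans I (piY_isYY I 0 (isPP_enc.2 ⟨hq'.1, ha'⟩)) (isYY_enc.2 hY) (isYY_enc.2 hY)
        hleY ⟨c, ?_, ?_, ?_⟩
      · simp only [decP_enc]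
      · simp only [decP_enc, decC_enc, famC_V]
        exact hcp
      · simp only [decP_enc, decC_enc, famC_V]
        exact fun p _ => subset_rfl
    · refine getElem?_of_prefix ?_
      obtain ⟨y', -, h1, -⟩ := hLe
      have h2 : z <+: q'.t := h1.2
      exact hgap.1.trans h2
  · -- another step is taken
    obtain ⟨a', q', hq', ha', hLe, -, hleY, hne, hst⟩ := liftL I hr hT 0 har
      (u := s.u ++ [s.v]) (by
        rw [path_iff]
        intro i hi
        rw [List.length_append, List.length_cons, List.length_nil] at hi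
        rcases Nat.lt_or_ge i s.u.length with h | h
        · rw [List.getD_append _ _ _ _ h]
          exact (path_iff.1 hsp) i h
        · have : i = s.u.length := by omega
          rw [this, List.getD_append_right _ _ _ _ le_rfl, Nat.sub_self]
          exact hsv) (b := b) (Y := Y) hyL hY (by
        rw [map_sh0, shF0]
        exact hle')
    refine ⟨a', q', hq', ha', leP_trans hq.1 hr.1 hLe0 hLe, hleY, ?_⟩
    obtain ⟨y', -, h1, -⟩ := hLe
    have hpre : r.t <+: q'.t := hr.1.above _ h1
    obtain ⟨t', ht'⟩ := hpre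
    cases t' with
    | nil =>
      rw [List.append_nil] at ht'
      exact absurd ht' hne
    | cons s1 t' =>
      have hs1 : q'.t[r.t.length]? = some s1 := by
        refine getElem?_of_prefix ⟨t', ?_⟩
        rw [← ht']
        simp
      refine ⟨s1, hs1, ?_⟩
      rintro rfl
      have := hst s1 hs1
      omega

end NotB

theorem NotB.step {G : Set (Set ℕ)} {A : ℕ → H} {B : ℕ → Step}
    (h : Gen cle L2 G A B) {x : Set ℕ} (hx : x ∈ G) {j : ℕ} {s : Step}
    (hs : (decC x).t[j]? = some s) : B j = s := by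
  obtain ⟨hx1, hx2⟩ := h.gen.sub hx
  obtain ⟨a, q, rfl, hq, ha⟩ := hx2.exists
  rw [decC_enc] at hs
  have hbr := (h.br a q hx).2.1
  obtain ⟨hj, -⟩ := List.getElem?_eq_some_iff.1 hs
  have h1 : (preB B q.t.length)[j]? = some (B j) := by
    unfold preB
    rw [List.getElem?_map, List.getElem?_range hj]
    rfl
  rw [hbr, hs] at h1
  exact (Option.some.inj h1).symm

theorem NotB.mem_rB {B : ℕ → Step} {j : ℕ} {s : Step} : encode (j, s) ∈ rB B ↔ B j = s := by
  unfold rB
  constructor
  · rintro ⟨⟨j', s'⟩, h3, h4⟩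
    have h5 : (j', s') = (j, s) := Encodable.encode_injective h4
    rw [Prod.mk.injEq] at h5
    obtain ⟨rfl, rfl⟩ := h5
    exact h3
  · intro h
    exact Set.mem_image_of_mem _ h

open NotB in
theorem NotB.key2 (I : Iface cle L2) (x : Set ℕ) (hxL : cle x ∅) (hx : IsPP x) :
    ∃ k, ∃ y0, cle y0 ∅ ∧ IsYY y0 ∧ ∀ y, cle y ∅ → IsYY y → leY y y0 →
      ∀ e : Bool, ∃ x', cle x' ∅ ∧ IsPP x' ∧ leP x' x ∧ leY (piY 0 x') y ∧ SS e k x' := by
  obtain ⟨a, q, rfl, hq, ha⟩ := hx.exists
  have hqC : q ∈ CC cle := ⟨hq, cle_enc I _ _ hxL⟩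
  obtain ⟨j, s, y0, hy0, hY0, hk⟩ := key I hqC ha
  refine ⟨encode (j, s), y0, hy0, hY0, fun y hy hYy hle e => ?_⟩
  obtain ⟨⟨a1, q1, h1, h2, h3, h4, h5⟩, ⟨a2, q2, g1, g2, g3, g4, s1, g5, g6⟩⟩ := hk y hy hYy hle
  cases e with
  | true =>
    refine ⟨enc a1 q1, cle_enc I _ _ h1.2, isPP_enc.2 ⟨h1.1, h2⟩, leP_enc.2 h3, h4, ?_⟩
    refine ss_true.2 ⟨j, s, s, rfl, ?_, rfl⟩
    rw [decC_enc]
    exact h5
  | false =>
    refine ⟨enc a2 q2, cle_enc I _ _ g1.2, isPP_enc.2 ⟨g1.1, g2⟩, leP_enc.2 g3, g4, ?_⟩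
    refine ss_false.2 ⟨j, s, s1, rfl, ?_, g6⟩
    rw [decC_enc]
    exact g5

/-- the names -/
def NotB.EE (k : ℕ) (y : Set ℕ) : Prop :=
  ∃ (p : ℕ) (v : H), k = encode (p, v) ∧ (decP y)[p]? = some v

open NotB in
theorem notB (I : Iface cle L2) {G : Set (Set ℕ)} {A : ℕ → H} {B : ℕ → Step}
    (h : Gen cle L2 G A B) : ¬ cle (rB B) (rA A) := by
  have hset := piY_real I h 0
  rw [shA_zero] at hset
  have hset' : rA A = {k | ∃ y, cle y ∅ ∧ IsYY y ∧ EE k y ∧ ∃ x ∈ G, leY (piY 0 x) y} :=
    hset.symm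
  rw [hset']
  have hzt : ∀ x ∈ G, ∀ k, SS true k x → k ∈ rB B := by
    intro x hx k hk
    obtain ⟨j, s, s1, rfl, h2, rfl⟩ := ss_true.1 hk
    exact mem_rB.2 (step h hx h2)
  have hzf : ∀ x ∈ G, ∀ k, SS false k x → k ∉ rB B := by
    intro x hx k hk hmem
    obtain ⟨j, s, s1, rfl, h2, hne⟩ := ss_false.1 hk
    exact hne ((step h hx h2).symm.trans (mem_rB.1 hmem))
  have hEE : AL cle ∅ (fun ρ (n : ℕ) => EE n (ρ 0)) := AL.of_ar I ar_ee
  have hSS : ∀ e, AL cle ∅ (fun ρ (n : ℕ) => SS e n (ρ 0)) := fun e => AL.of_ar I (ar_ss e)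
  have hπ' : ArS (fun ρ (_ : Unit) => piY 0 (ρ 0)) :=
    arS_piY (α := Unit) 0 (n := fun _ => 0) (Primrec.const 0)
  have hπ : ALS cle ∅ (fun ρ (_ : Unit) => piY 0 (ρ 0)) := AL.of_ar I hπ'
  exact notLe I (P := IsPP) (Q := IsYY) (leP := leP) (leQ := leY) (π := piY 0)
    (AL.of_ar I (ar_isPP 0)) (AL.of_ar I (ar_isYY 0)) (AL.of_ar I (ar_leY 0 1))
    hπ (fun x _ hx => piY_isYY I 0 hx) (fun x _ hx => leY_refl I hx)
    (fun x y w _ _ _ hx hy hw => leY_trans I hx hy hw)
    (fun x y _ _ hx hy => piY_mono I 0 hx hy) h.gen hEE hSS hzt hzf (key2 I)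

end Helper99.PC
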