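import Pool.Agent.Helper99.PC.Frame

/-! PC-NotLe: an abstract lemma: reals which are not constructible from the generic real of a
projected poset. -/

set_option autoImplicit false

noncomputable section

namespace Helper99.PC

open Encodable
open Pool.Agent.Helper44.CL

variable {cle : Set ℕ → Set ℕ → Prop} {L2 : Set (Set (Set ℕ))}

/-- values of real functions arithmetical in a constructible real at constructible reals -/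
theorem notLe_val (I : Iface cle L2) {π : Set ℕ → Set ℕ}
    (hπ : ALS cle ∅ (fun ρ (_ : Unit) => π (ρ 0))) {x : Set ℕ} (hx : cle x ∅) : cle (π x) ∅ := by
  obtain ⟨σ, hσ, R, hR, h⟩ := hπ
  have h1 : Ar (fun ρ (n : ℕ) => R ρ ((), n)) :=
    hR.comp (f := fun n : ℕ => ((), n)) (Primrec.pair (Primrec.const ()) Primrec.id)
  have h2 := I.arith (ar_iff_arN.1 h1) (cons σ (cons x fun _ => ∅)) ∅
    (I.cons_le hσ (I.cons_le hx fun _ => I.refl ∅))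
  have e : π x = {n | R (cons σ (cons x fun _ => ∅)) ((), n)} := by
    ext n
    exact h (cons x fun _ => ∅) ((), n)
  rw [e]
  exact h2

theorem notLe_sh {α : Type} [Primcodable α] {π : Set ℕ → Set ℕ}
    (hπ : ALS cle ∅ (fun ρ (_ : Unit) => π (ρ 0))) :
    ALS cle ∅ (fun ρ (_ : α) => π (ρ 1)) := by
  obtain ⟨σ, hσ, h⟩ := hπ
  refine ⟨σ, hσ, ?_⟩
  exact AW.subst (R := fun ρ (p : Unit × ℕ) => p.2 ∈ π (ρ 0)) h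
    (F := fun i ρ (_ : α × ℕ) => ρ (i + 1)) (fun i => AW.of_ar (ArS.orac (i + 1)))
    (f := fun p : α × ℕ => ((), p.2)) (Primrec.pair (Primrec.const ()) Primrec.snd)

theorem notLe (I : Iface cle L2) {P Q : Set ℕ → Prop} {leP leQ : Set ℕ → Set ℕ → Prop}
    {π : Set ℕ → Set ℕ} (hP : AL cle ∅ (fun ρ (_ : Unit) => P (ρ 0)))
    (hQ : AL cle ∅ (fun ρ (_ : Unit) => Q (ρ 0)))
    (hleQ : AL cle ∅ (fun ρ (_ : Unit) => leQ (ρ 0) (ρ 1)))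
    (hπ : ALS cle ∅ (fun ρ (_ : Unit) => π (ρ 0)))
    (hπQ : ∀ x, cle x ∅ → P x → Q (π x))
    (hrQ : ∀ x, cle x ∅ → Q x → leQ x x)
    (htQ : ∀ x y w, cle x ∅ → cle y ∅ → cle w ∅ → Q x → Q y → Q w → leQ x y → leQ y w → leQ x w)
    (mono : ∀ x y, cle x ∅ → cle y ∅ → P x → P y → leP x y → leQ (π x) (π y))
    {G : Set (Set ℕ)} (hG : Generic L2 {x | cle x ∅ ∧ P x} leP G)
    {E : ℕ → Set ℕ → Prop} (hE : AL cle ∅ (fun ρ (n : ℕ) => E n (ρ 0)))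
    {S : Bool → ℕ → Set ℕ → Prop} (hS : ∀ e, AL cle ∅ (fun ρ (n : ℕ) => S e n (ρ 0)))
    {z : Set ℕ} (hzt : ∀ x ∈ G, ∀ k, S true k x → k ∈ z)
    (hzf : ∀ x ∈ G, ∀ k, S false k x → k ∉ z)
    (key : ∀ x, cle x ∅ → P x → ∃ k, ∃ y0, cle y0 ∅ ∧ Q y0 ∧ ∀ y, cle y ∅ → Q y → leQ y y0 →
      ∀ e : Bool, ∃ x', cle x' ∅ ∧ P x' ∧ leP x' x ∧ leQ (π x') y ∧ S e k x') :
    ¬ cle z {k | ∃ y, cle y ∅ ∧ Q y ∧ E k y ∧ ∃ x ∈ G, leQ (π x) y} := by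
  intro hz
  have hπc : ∀ x, cle x ∅ → cle (π x) ∅ := fun x hx => notLe_val I hπ hx
  set PQ : Set (Set ℕ) := {y | cle y ∅ ∧ Q y} with hPQ
  set H : Set (Set ℕ) := {y | cle y ∅ ∧ Q y ∧ ∃ x ∈ G, leQ (π x) y} with hH
  have hPQL : PQ ∈ L2 :=
    TL.compr I (Φ := fun x (_ : Unit) => Q x) (TL.of_al hQ) ()
  have hRel : RelIn L2 PQ leQ := TL.relIn I (TL.of_al hQ) (TL.of_al hleQ)
  -- the definability of the relation `leQ (π x) d ∧ d ∈ D`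
  have hle1 : ∀ {α : Type} [Primcodable α],
      TL cle L2 (fun ρ (_ : α) => leQ (π (ρ 1)) (ρ 0)) := by
    intro α _
    exact TL.sub2 I (Φ := fun x y (_ : α) => leQ x y)
      (TL.of_al (hleQ.comp (f := fun _ : α => ()) (Primrec.const ())))
      (notLe_sh hπ) (ALS.var I 0)
  -- genericity
  have hgen : Generic L2 PQ leQ H := by
    refine ⟨fun y hy => ⟨hy.1, hy.2.1⟩, ?_, ?_, ?_⟩
    · rintro p ⟨hp1, hp2, x, hxG, hx⟩ q ⟨hq1, hq2⟩ hpq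
      obtain ⟨hx1, hx2⟩ := hG.sub hxG
      exact ⟨hq1, hq2, x, hxG, htQ _ _ _ (hπc x hx1) hp1 hq1 (hπQ x hx1 hx2) hp2 hq2 hx hpq⟩
    · rintro p ⟨hp1, hp2, x, hxG, hx⟩ q ⟨hq1, hq2, y, hyG, hy⟩
      obtain ⟨r, hrG, hrx, hry⟩ := hG.dir x hxG y hyG
      obtain ⟨hx1, hx2⟩ := hG.sub hxG
      obtain ⟨hy1, hy2⟩ := hG.sub hyG
      obtain ⟨hr1, hr2⟩ := hG.sub hrG
      refine ⟨π r, ⟨hπc r hr1, hπQ r hr1 hr2, r, hrG, hrQ _ (hπc r hr1) (hπQ r hr1 hr2)⟩, ?_, ?_⟩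
      · exact htQ _ _ _ (hπc r hr1) (hπc x hx1) hp1 (hπQ r hr1 hr2) (hπQ x hx1 hx2) hp2
          (mono r x hr1 hx1 hr2 hx2 hrx) hx
      · exact htQ _ _ _ (hπc r hr1) (hπc y hy1) hq1 (hπQ r hr1 hr2) (hπQ y hy1 hy2) hq2
          (mono r y hr1 hy1 hr2 hy2 hry) hy
    · intro D hD hDd
      have h1 : TL cle L2 (fun ρ (_ : Unit) => P (ρ 0) ∧
          ∃ d, cle d ∅ ∧ (d ∈ D ∧ leQ (π (ρ 0)) d)) := by
        refine TL.and I (TL.of_al hP) ?_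
        refine TL.exR (R := fun d ρ (_ : Unit) => d ∈ D ∧ leQ (π (ρ 0)) d) ?_
        exact TL.and I (TL.mem I hD (ALS.var I 0)) hle1
      have h2 := TL.compr I (Φ := fun x (_ : Unit) => P x ∧
          ∃ d, cle d ∅ ∧ (d ∈ D ∧ leQ (π x) d)) h1 ()
      obtain ⟨x, hxG, hx1, hx2, d, hd1, hd2, hd3⟩ := hG.meets _ h2 (by
        refine ⟨fun x hx => ⟨hx.1, hx.2.1⟩, ?_⟩
        rintro x ⟨hx1, hx2⟩
        obtain ⟨k, y0, hy0, hQ0, hk⟩ := key x hx1 hx2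
        obtain ⟨y, hyD, hy⟩ := hDd.2 y0 ⟨hy0, hQ0⟩
        obtain ⟨hy1, hy2⟩ := hDd.1 hyD
        obtain ⟨x', hx'1, hx'2, hx'3, hx'4, -⟩ := hk y hy1 hy2 hy true
        exact ⟨x', ⟨hx'1, hx'2, y, hy1, hyD, hx'4⟩, hx'3⟩)
      exact ⟨d, ⟨hd1, (hDd.1 hd2).2, x, hxG, hd3⟩, hd2⟩
  -- names
  have hE' : SeqIn L2 (fun n => {y | cle y ∅ ∧ E n y}) :=
    TL.seqIn I (Φ := fun y n => E n y) (TL.of_al hE)
  have hz' : cle z {n | ∃ p ∈ H, p ∈ (fun n => {y | cle y ∅ ∧ E n y}) n} := by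
    have e : {n | ∃ p ∈ H, p ∈ (fun n => {y | cle y ∅ ∧ E n y}) n} =
        {k | ∃ y, cle y ∅ ∧ Q y ∧ E k y ∧ ∃ x ∈ G, leQ (π x) y} := by
      ext k
      constructor
      · rintro ⟨p, ⟨hp1, hp2, hp3⟩, hp4, hp5⟩
        exact ⟨p, hp1, hp2, hp5, hp3⟩
      · rintro ⟨p, hp1, hp2, hp5, hp3⟩
        exact ⟨p, ⟨hp1, hp2, hp3⟩, hp1, hp5⟩
    rw [e]
    exact hz
  obtain ⟨D, hDS, hDd, hDt, hDf⟩ := I.names PQ leQ hPQL hRel (fun p hp => hrQ p hp.1 hp.2)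
    (fun p hp q hq r hr => htQ p q r hp.1 hq.1 hr.1 hp.2 hq.2 hr.2) H hgen _ hE' z hz'
  -- the dense set
  have hA : ∀ e : Bool, TL cle L2 (fun ρ (p : Unit × ℕ) =>
      (∃ d, cle d ∅ ∧ (d ∈ D e p.2 ∧ leQ (π (ρ 0)) d)) ∧ S (!e) p.2 (ρ 0)) := by
    intro e
    refine TL.and I ?_ (TL.of_al ((hS (!e)).comp (f := fun p : Unit × ℕ => p.2) Primrec.snd))
    refine TL.exR (R := fun d ρ (p : Unit × ℕ) => d ∈ D e p.2 ∧ leQ (π (ρ 0)) d) ?_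
    exact TL.and I (TL.memSeq I (hDS e) (ALS.var I 0) Primrec.snd) hle1
  have hW := TL.compr I (Φ := fun x (_ : Unit) => P x ∧ ∃ k : ℕ,
      (((∃ d, cle d ∅ ∧ (d ∈ D true k ∧ leQ (π x) d)) ∧ S (!true) k x) ∨
      ((∃ d, cle d ∅ ∧ (d ∈ D false k ∧ leQ (π x) d)) ∧ S (!false) k x)))
    (TL.and I (TL.of_al hP) (TL.ex (R := fun ρ (_ : Unit) (k : ℕ) =>
      (((∃ d, cle d ∅ ∧ (d ∈ D true k ∧ leQ (π (ρ 0)) d)) ∧ S (!true) k (ρ 0)) ∨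
      ((∃ d, cle d ∅ ∧ (d ∈ D false k ∧ leQ (π (ρ 0)) d)) ∧ S (!false) k (ρ 0))))
      (TL.or I (hA true) (hA false)))) ()
  obtain ⟨x, hxG, hx1, hx2, k, hk⟩ := hG.meets _ hW (by
    refine ⟨fun x hx => ⟨hx.1, hx.2.1⟩, ?_⟩
    rintro x ⟨hx1, hx2⟩
    obtain ⟨k, y0, hy0, hQ0, hk⟩ := key x hx1 hx2
    obtain ⟨y, hyD, hy⟩ := (hDd k).2 y0 ⟨hy0, hQ0⟩
    obtain ⟨hy1, hy2⟩ := (hDd k).1 hyD
    rcases hyD with hyD | hyD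
    · obtain ⟨x', hx'1, hx'2, hx'3, hx'4, hx'5⟩ := hk y hy1 hy2 hy (!true)
      exact ⟨x', ⟨hx'1, hx'2, k, Or.inl ⟨⟨y, hy1, hyD, hx'4⟩, hx'5⟩⟩, hx'3⟩
    · obtain ⟨x', hx'1, hx'2, hx'3, hx'4, hx'5⟩ := hk y hy1 hy2 hy (!false)
      exact ⟨x', ⟨hx'1, hx'2, k, Or.inr ⟨⟨y, hy1, hyD, hx'4⟩, hx'5⟩⟩, hx'3⟩)
  rcases hk with ⟨⟨d, hd1, hd2, hd3⟩, hs⟩ | ⟨⟨d, hd1, hd2, hd3⟩, hs⟩
  · have hdQ := ((hDd k).1 (Or.inl hd2)).2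
    exact hzf x hxG k (by simpa using hs)
      ((hDt k).2 ⟨d, ⟨hd1, hdQ, x, hxG, hd3⟩, hd2⟩)
  · have hdQ := ((hDd k).1 (Or.inr hd2)).2
    exact ((hDf k).2 ⟨d, ⟨hd1, hdQ, x, hxG, hd3⟩, hd2⟩) (hzt x hxG k (by simpa using hs))

end Helper99.PC
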