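import Pool.Agent.Helper99.PC.FusL
import Pool.Agent.Helper99.PC.ArD

/-! PC-ReadL: (9.2) continuous reading of names. -/

set_option autoImplicit false

noncomputable section

namespace Helper99.PC

open Helper99.TT Encodable
open Pool.Agent.Helper44.CL hiding TT
open Pool.Agent.Helper44.PC

variable {cle : Set ℕ → Set ℕ → Prop} {L2 : Set (Set (Set ℕ))}

namespace ReadL

/-- `(b, q.cone x)` is below an element of `D e i` -/
def DI (D : Bool → ℕ → Set (Set ℕ)) (q : Cond) (e : Bool) (i : ℕ) (b : List H) (x : Node) : Prop :=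
  ∃ d ∈ D e i, leP (enc b (q.cone x)) d

/-- `i` is decided at `(b, x)` -/
def DD (D : Bool → ℕ → Set (Set ℕ)) (q : Cond) (i : ℕ) (b : List H) (x : Node) : Prop :=
  DI D q true i b x ∨ DI D q false i b x

/-- the value at `i`: `true` at the shortest node at which `i` is decided -/
def VV (D : Bool → ℕ → Set (Set ℕ)) (q : Cond) (i : ℕ) (b : List H) (x : Node) : Prop :=
  ∃ z : Node, ∃ c : List H, (z ∈ q.F ∧ z <+: x) ∧ ((c <+: b ∧ c.length = plc z) ∧
    (DI D q true i c z ∧ ∀ z' : Node, ∀ c' : List H, ((z' ∈ q.F ∧ z' <+: z) ∧ (¬ z' = z ∧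
      (c' <+: c ∧ c'.length = plc z'))) → ¬ DD D q i c' z'))

open Classical in
/-- the number of the decided values -/
def LN (D : Bool → ℕ → Set (Set ℕ)) (q : Cond) (b : List H) (x : Node) : ℕ :=
  Nat.findGreatest (fun n => ∀ i < n, DD D q i b x) (plc x)

open Classical in
/-- the reading -/
def RD (D : Bool → ℕ → Set (Set ℕ)) (q : Cond) : Rd := fun b x =>
  (List.range (LN D q b x)).map (fun i => decide (VV D q i b x))

theorem LN_eq {D : Bool → ℕ → Set (Set ℕ)} {q : Cond} {b : List H} {x : Node} {n : ℕ} :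
    LN D q b x = n ↔ (n ≤ plc x ∧ ((∀ i, i < n → DD D q i b x) ∧
      (n = plc x ∨ ¬ DD D q n b x))) := by
  classical
  unfold LN
  rw [Nat.findGreatest_eq_iff]
  constructor
  · rintro ⟨h1, h2, h3⟩
    have h4 : ∀ i, i < n → DD D q i b x := by
      intro i hi
      exact h2 (by omega) i hi
    refine ⟨h1, h4, ?_⟩
    by_cases h5 : n = plc x
    · exact Or.inl h5
    · right
      intro h6
      refine h3 (Nat.lt_succ_self n) (by omega) ?_
      intro i hi
      rcases Nat.lt_succ_iff_lt_or_eq.1 hi with h7 | rfl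
      · exact h4 i h7
      · exact h6
  · rintro ⟨h1, h2, h3⟩
    refine ⟨h1, fun _ => h2, fun m hm hm' hP => ?_⟩
    rcases h3 with h3 | h3
    · omega
    · exact h3 (hP n hm)

theorem length_RD (D : Bool → ℕ → Set (Set ℕ)) (q : Cond) (b : List H) (x : Node) :
    (RD D q b x).length = LN D q b x := by
  simp [RD]

theorem getElem_RD {D : Bool → ℕ → Set (Set ℕ)} {q : Cond} {b : List H} {x : Node} {i : ℕ}
    {e : Bool} : (RD D q b x)[i]? = some e ↔ i < LN D q b x ∧ (e = true ↔ VV D q i b x) := by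
  classical
  unfold RD
  rw [List.getElem?_map]
  rcases Nat.lt_or_ge i (LN D q b x) with h | h
  · rw [List.getElem?_range h]
    simp only [Option.map_some, Option.some.injEq]
    constructor
    · rintro rfl
      exact ⟨h, by simp⟩
    · rintro ⟨-, h2⟩
      cases e with
      | true => simpa using h2
      | false => simpa using h2
  · rw [List.getElem?_eq_none (by simpa using h)]
    simp only [Option.map_none, reduceCtorEq, false_iff]
    rintro ⟨h1, -⟩
    omega

theorem RD_eq {D : Bool → ℕ → Set (Set ℕ)} {q : Cond} {b : List H} {x : Node} {s : List Bool} :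
    RD D q b x = s ↔ (s.length ≤ plc x ∧ ((∀ i, i < s.length → DD D q i b x) ∧
      (s.length = plc x ∨ ¬ DD D q s.length b x))) ∧
      ((∀ i, s[i]? = some true → VV D q i b x) ∧ ∀ i, s[i]? = some false → ¬ VV D q i b x) := by
  rw [← LN_eq]
  constructor
  · rintro rfl
    refine ⟨(length_RD D q b x).symm, fun i hi => ?_, fun i hi => ?_⟩
    · exact (getElem_RD.1 hi).2.1 rfl
    · intro h
      have := (getElem_RD.1 hi).2.2 h
      exact absurd this (by simp)
  · rintro ⟨h1, h2, h3⟩
    refine List.ext_getElem? fun i => ?_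
    rcases Nat.lt_or_ge i s.length with h | h
    · have h4 : s[i]? = some s[i] := List.getElem?_eq_getElem h
      rw [h4, getElem_RD]
      refine ⟨by omega, ?_⟩
      cases h5 : s[i] with
      | true =>
        rw [h5] at h4
        exact ⟨fun _ => h2 i h4, fun _ => rfl⟩
      | false =>
        rw [h5] at h4
        exact ⟨fun h => absurd h (by simp), fun h => absurd h (h3 i h4)⟩
    · rw [List.getElem?_eq_none h, List.getElem?_eq_none (by rw [length_RD]; omega)]

theorem cone_cone (q : Cond) {x y : Node} (h : x <+: y) : (q.cone x).cone y = q.cone y := by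
  have h1 : {w | w ∈ (q.cone x).F ∧ y <+: w} = {w | w ∈ q.F ∧ y <+: w} := by
    ext w
    constructor
    · rintro ⟨hw, hw'⟩
      exact ⟨hw.1, hw'⟩
    · rintro ⟨hw, hw'⟩
      exact ⟨⟨hw, h.trans hw'⟩, hw'⟩
  show Cond.mk y q.V {w | w ∈ (q.cone x).F ∧ y <+: w} = Cond.mk y q.V {w | w ∈ q.F ∧ y <+: w}
  rw [h1]

section

variable {D : Bool → ℕ → Set (Set ℕ)} {q : Cond} {a : List H}

theorem take_of_real {x : Node} {b c : List H} (hb : IsReal q a x b) (hbc : b <+: c) :
    c.take (plc x) = b := by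
  have h1 : b.length = plc x := hb.2.2.1.1
  rw [← h1]
  exact (List.prefix_iff_eq_take.1 hbc).symm

theorem lt_of_real {x y : Node} {b c : List H} (hq : Good q) (hx : x ∈ q.F) (hy : y ∈ q.F)
    (hxy : x <+: y) (hb : IsReal q a x b) (hc : IsReal q a y c) (hbc : b <+: c) :
    LeP c (q.cone y) b (q.cone x) := by
  have h1 := (real_take hq hx hy hxy hc).2
  rw [take_of_real hb hbc] at h1
  have h2 := cone_leP (cone_good hq hx) (a := b) (b := c) (x := y) ⟨hy, hxy⟩ h1
  rwa [cone_cone q hxy] at h2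

end

theorem tl_real_enc (I : Iface cle L2) {α : Type*} [Primcodable α] {Φ : α → Prop}
    (h : TL cle L2 (fun _ (a : α) => Φ a)) : cle (Encodable.encode '' {a | Φ a}) ∅ := by
  have h1 : TL cle L2 (fun _ (n : ℕ) => ∃ a : α, Φ a ∧ Encodable.encode a = n) :=
    TL.ex (TL.and I (h.comp Primrec.snd)
      (TL.of_ar I (Ar.eq (Primrec.encode.comp Primrec.snd) Primrec.fst)))
  exact TL.real I h1

end ReadL

open ReadL

/-- (9.2): continuous reading of names -/
theorem readL (I : Iface cle L2) {D : Bool → ℕ → Set (Set ℕ)} (hD : ∀ e, SeqIn L2 (D e))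
    (hd : ∀ n, Dense (PP cle) leP (D true n ∪ D false n)) {q : Cond} (hq : q ∈ CC cle)
    {a : List H} (ha : IsPiece q.t a) :
    ∃ q' ∈ CC cle, LeS q' q ∧ ∃ R : Rd, cle (rR R) ∅ ∧ Reading R q' a ∧ Dec D R q' a := by
  have hC := closed_CC I
  have hDP : ∀ e n, ∀ d ∈ D e n, d ∈ PP cle := by
    intro e n d hdd
    cases e with
    | true => exact (hd n).1 (Or.inl hdd)
    | false => exact (hd n).1 (Or.inr hdd)
  have hPP : ∀ b q1, q1 ∈ CC cle → IsPiece q1.t b → enc b q1 ∈ PP cle :=
    fun b q1 h1 h2 => enc_mem_PP I h1 h2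
  -- the open dense sets
  set 𝒩 : ℕ → List H → Cond → Prop := fun n b q1 =>
    ∀ i, i < n + 1 → (∃ d, cle d ∅ ∧ (d ∈ D true i ∧ leP (enc b q1) d)) ∨
      (∃ d, cle d ∅ ∧ (d ∈ D false i ∧ leP (enc b q1) d)) with h𝒩
  have hdef : TL cle L2 (fun ρ (n : ℕ) => 𝒩 n (decP (ρ 0)) (decC (ρ 0))) := by
    have key : ∀ e, TL cle L2 (fun ρ (p : ℕ × ℕ) => ∃ d, cle d ∅ ∧ (d ∈ D e p.2 ∧
        leP (enc (decP (ρ 0)) (decC (ρ 0))) d)) := by
      intro e
      refine TL.exR (R := fun d ρ (p : ℕ × ℕ) => d ∈ D e p.2 ∧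
        leP (enc (decP (ρ 0)) (decC (ρ 0))) d) ?_
      refine TL.and I (TL.memSeq I (hD e) (ALS.var I 0) Primrec.snd) ?_
      refine TL.of_ar I ((ar_leP 1 0).of_eq fun ρ p => ?_)
      show leP (enc (decP (ρ 1)) (decC (ρ 1))) (ρ 0) ↔ leP (ρ 1) (ρ 0)
      unfold leP
      rw [decP_enc, decC_enc]
    exact TL.all (R := fun ρ (n i : ℕ) => i < n + 1 →
      (∃ d, cle d ∅ ∧ (d ∈ D true i ∧ leP (enc (decP (ρ 0)) (decC (ρ 0))) d)) ∨
      (∃ d, cle d ∅ ∧ (d ∈ D false i ∧ leP (enc (decP (ρ 0)) (decC (ρ 0))) d)))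
      (TL.imp I (TL.of_ar I (Ar.lt Primrec.snd (Primrec.succ.comp Primrec.fst)))
        (TL.or I (key true) (key false)))
  have hopen : ∀ (e : Bool) (i : ℕ) (b : List H) (q1 : Cond) (b' : List H) (q2 : Cond),
      q1 ∈ CC cle → q2 ∈ CC cle → IsPiece q1.t b → LeP b' q2 b q1 →
      ∀ d ∈ D e i, leP (enc b q1) d → leP (enc b' q2) d := by
    intro e i b q1 b' q2 h1 h2 hb hle d hdd hl
    have hb' : IsPiece q2.t b' := leP_piece (hC.good q1 h1) hb hle
    exact PP_trans I _ (hPP b' q2 h2 hb') _ (hPP b q1 h1 hb) _ (hDP e i d hdd)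
      (leP_enc.2 hle) hl
  have ho : ∀ n, OpenIn (CC cle) (𝒩 n) := by
    intro n b q1 b' q2 h1 h2 hb hle hN i hi
    rcases hN i hi with ⟨d, hd1, hd2, hd3⟩ | ⟨d, hd1, hd2, hd3⟩
    · exact Or.inl ⟨d, hd1, hd2, hopen true i b q1 b' q2 h1 h2 hb hle d hd2 hd3⟩
    · exact Or.inr ⟨d, hd1, hd2, hopen false i b q1 b' q2 h1 h2 hb hle d hd2 hd3⟩
  have hmono : ∀ m n, n ≤ m → ∀ b q1, 𝒩 m b q1 → 𝒩 n b q1 :=
    fun m n hnm b q1 hN i hi => hN i (by omega)
  have hdense : ∀ n : ℕ, ∀ b q1, q1 ∈ CC cle → IsPiece q1.t b →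
      ∃ b' q2, q2 ∈ CC cle ∧ IsPiece q2.t b' ∧ LeP b' q2 b q1 ∧ ∀ i, i < n →
      (∃ d, cle d ∅ ∧ (d ∈ D true i ∧ leP (enc b' q2) d)) ∨
      (∃ d, cle d ∅ ∧ (d ∈ D false i ∧ leP (enc b' q2) d)) := by
    intro n
    induction n with
    | zero =>
      intro b q1 h1 hb
      refine ⟨b, q1, h1, hb, ⟨[], (List.append_nil b).symm, ?_⟩, fun i hi => ?_⟩
      · exact le_nil_of_leS (leS_refl q1) (hC.good q1 h1)
      · omega
    | succ n ih =>
      intro b q1 h1 hb
      obtain ⟨b1, q2, h2, hb1, hle, hdec⟩ := ih b q1 h1 hb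
      obtain ⟨d, hdd, hdl⟩ := (hd n).2 (enc b1 q2) (hPP b1 q2 h2 hb1)
      have hdP : d ∈ PP cle := (hd n).1 hdd
      obtain ⟨b2, q3, rfl, h3, hb2⟩ := mem_PP I hdP
      have hle2 : LeP b2 q3 b1 q2 := leP_enc.1 hdl
      refine ⟨b2, q3, h3, hb2, leP_trans (hC.good q1 h1) (hC.good q2 h2) hle hle2, ?_⟩
      intro i hi
      rcases Nat.lt_succ_iff_lt_or_eq.1 hi with h4 | rfl
      · rcases hdec i h4 with ⟨d, hd1, hd2, hd3⟩ | ⟨d, hd1, hd2, hd3⟩
        · exact Or.inl ⟨d, hd1, hd2, hopen true i b1 q2 b2 q3 h2 h3 hb1 hle2 d hd2 hd3⟩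
        · exact Or.inr ⟨d, hd1, hd2, hopen false i b1 q2 b2 q3 h2 h3 hb1 hle2 d hd2 hd3⟩
      · rcases hdd with hdd | hdd
        · exact Or.inl ⟨_, hdP.1, hdd, PP_refl I _ hdP⟩
        · exact Or.inr ⟨_, hdP.1, hdd, PP_refl I _ hdP⟩
  have hde : ∀ n, DenseIn (CC cle) (𝒩 n) a q := by
    intro n b q1 h1 hle
    obtain ⟨b', q2, h2, -, hle2, hdec⟩ :=
      hdense (n + 1) b q1 h1 (leP_piece (hC.good q hq) ha hle)
    exact ⟨b', q2, h2, hle2, hdec⟩
  obtain ⟨q', hq', hS, K, hK⟩ := fusionL I 𝒩 hdef ho hmono hq ha hde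
  have hg' : Good q' := hC.good q' hq'
  have hcone : ∀ x ∈ q'.F, q'.cone x ∈ CC cle := fun x hx => hC.cone q' hq' x hx
  -- openness along nodes
  have hDI : ∀ (e : Bool) (i : ℕ) (x y : Node) (b c : List H), x ∈ q'.F → y ∈ q'.F → x <+: y →
      IsReal q' a x b → IsReal q' a y c → b <+: c → DI D q' e i b x → DI D q' e i c y := by
    rintro e i x y b c hx hy hxy hb hc hbc ⟨d, hdd, hl⟩
    exact ⟨d, hdd, hopen e i b (q'.cone x) c (q'.cone y) (hcone x hx) (hcone y hy) hb.2.2.1
      (lt_of_real hg' hx hy hxy hb hc hbc) d hdd hl⟩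
  have hDD : ∀ (i : ℕ) (x y : Node) (b c : List H), x ∈ q'.F → y ∈ q'.F → x <+: y →
      IsReal q' a x b → IsReal q' a y c → b <+: c → DD D q' i b x → DD D q' i c y := by
    rintro i x y b c hx hy hxy hb hc hbc (h | h)
    · exact Or.inl (hDI true i x y b c hx hy hxy hb hc hbc h)
    · exact Or.inr (hDI false i x y b c hx hy hxy hb hc hbc h)
  have hLN : ∀ (b : List H) (x : Node) (i : ℕ), i < LN D q' b x → DD D q' i b x :=
    fun b x i hi => (LN_eq.1 rfl).2.1 i hi
  have hle_LN : ∀ (b : List H) (x : Node) (n : ℕ), n ≤ plc x → (∀ i, i < n → DD D q' i b x) →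
      n ≤ LN D q' b x := by
    classical
    intro b x n h1 h2
    unfold LN
    exact Nat.le_findGreatest h1 h2
  refine ⟨q', hq', hS, RD D q', ?_, ⟨?_, ?_⟩, ?_⟩
  · -- definability
    have tlF : ∀ {α : Type} [Primcodable α] {f : α → Node}, Primrec f →
        TL cle L2 (fun _ (u : α) => f u ∈ q'.F) := by
      intro α _ f hf
      refine TL.of_al ((AL.sub1 I (Φ := fun y (u : α) => f u ∈ (decC y).F) (ar_memF 0 hf)
        (F := fun _ (_ : α) => enc [] q') (ALS.const I hq'.2) (f := fun u => u) Primrec.id).of_eq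
        fun ρ u => ?_)
      rw [decC_enc]
    have tlDI : ∀ (e : Bool) {α : Type} [Primcodable α] {i : α → ℕ} {b : α → List H}
        {x : α → Node}, Primrec i → Primrec b → Primrec x →
        TL cle L2 (fun _ (u : α) => DI D q' e (i u) (b u) (x u)) := by
      intro e α _ i b x hi hb hx
      have hF : ALS cle ∅ (fun _ (u : α) => enc (b u) (q'.cone (x u))) := by
        have h1 := ALS.sub1 I (K := fun y (u : α) => enc (b u) ((decC y).cone (x u)))
          (arS_cone 0 hb hx) (F := fun _ (_ : α) => enc [] q') (ALS.const I hq'.2)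
          (f := fun u => u) Primrec.id
        simpa only [decC_enc] using h1
      have h1 : TL cle L2 (fun ρ (u : α) => ρ 0 ∈ D e (i u) ∧
          leP (enc (b u) (q'.cone (x u))) (ρ 0)) :=
        TL.and I (TL.memSeq I (hD e) (ALS.var I 0) hi)
          (TL.of_al (AL.sub2 I (Φ := fun x y (_ : α) => leP x y) (ar_leP 0 1) hF
            (ALS.var I 0) (f := fun u => u) Primrec.id))
      refine (TL.exR (R := fun d _ (u : α) => d ∈ D e (i u) ∧
        leP (enc (b u) (q'.cone (x u))) d) h1).of_eq fun ρ u => ?_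
      constructor
      · rintro ⟨d, hdd, hl⟩
        exact ⟨d, (hDP e _ d hdd).1, hdd, hl⟩
      · rintro ⟨d, -, hdd, hl⟩
        exact ⟨d, hdd, hl⟩
    have tlDD : ∀ {α : Type} [Primcodable α] {i : α → ℕ} {b : α → List H}
        {x : α → Node}, Primrec i → Primrec b → Primrec x →
        TL cle L2 (fun _ (u : α) => DD D q' (i u) (b u) (x u)) := by
      intro α _ i b x hi hb hx
      exact TL.or I (tlDI true hi hb hx) (tlDI false hi hb hx)
    have tlVV : ∀ {α : Type} [Primcodable α] {i : α → ℕ} {b : α → List H}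
        {x : α → Node}, Primrec i → Primrec b → Primrec x →
        TL cle L2 (fun _ (u : α) => VV D q' (i u) (b u) (x u)) := by
      intro α _ i b x hi hb hx
      unfold VV
      have hz : Primrec (fun p : (α × Node) × List H => p.1.2) := Primrec.snd.comp Primrec.fst
      have hc : Primrec (fun p : (α × Node) × List H => p.2) := Primrec.snd
      have hu : Primrec (fun p : (α × Node) × List H => p.1.1) := Primrec.fst.comp Primrec.fst
      have hz' : Primrec (fun p : (((α × Node) × List H) × Node) × List H => p.1.2) :=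
        Primrec.snd.comp Primrec.fst
      have hc' : Primrec (fun p : (((α × Node) × List H) × Node) × List H => p.2) := Primrec.snd
      have hu' : Primrec (fun p : (((α × Node) × List H) × Node) × List H => p.1.1) :=
        Primrec.fst.comp Primrec.fst
      refine TL.ex (TL.ex (TL.and I (TL.and I (tlF hz)
        (TL.of_ar I (ar_prefix hz (hx.comp hu)))) (TL.and I (TL.and I
          (TL.of_ar I (ar_prefix hc (hb.comp hu)))
          (TL.of_ar I (Ar.eq (Primrec.list_length.comp hc) (primrec_plc.comp hz))))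
        (TL.and I (tlDI true (hi.comp hu) hc hz) (TL.all (TL.all (TL.imp I
          (TL.and I (TL.and I (tlF hz') (TL.of_ar I (ar_prefix hz' (hz.comp hu'))))
            (TL.and I (TL.of_ar I (Ar.eq hz' (hz.comp hu')).not)
              (TL.and I (TL.of_ar I (ar_prefix hc' (hc.comp hu')))
                (TL.of_ar I (Ar.eq (Primrec.list_length.comp hc') (primrec_plc.comp hz'))))))
          (tlDD ((hi.comp hu).comp hu') hc' hz').not)))))))
    have hb : Primrec (fun u : (List H × Node) × List Bool => u.1.1) :=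
      Primrec.fst.comp Primrec.fst
    have hx : Primrec (fun u : (List H × Node) × List Bool => u.1.2) :=
      Primrec.snd.comp Primrec.fst
    have hs : Primrec (fun u : (List H × Node) × List Bool => u.2) := Primrec.snd
    have hl : Primrec (fun u : (List H × Node) × List Bool => u.2.length) :=
      Primrec.list_length.comp hs
    have hp : Primrec (fun u : (List H × Node) × List Bool => plc u.1.2) := primrec_plc.comp hx
    have main : TL cle L2 (fun _ (u : (List H × Node) × List Bool) =>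
        RD D q' u.1.1 u.1.2 = u.2) := by
      have h1 : TL cle L2 (fun _ (u : (List H × Node) × List Bool) =>
          ∀ i, i < u.2.length → DD D q' i u.1.1 u.1.2) :=
        TL.all (R := fun _ (u : (List H × Node) × List Bool) i =>
          i < u.2.length → DD D q' i u.1.1 u.1.2)
          (TL.imp I (TL.of_ar I (Ar.lt Primrec.snd (hl.comp Primrec.fst)))
            (tlDD Primrec.snd (hb.comp Primrec.fst) (hx.comp Primrec.fst)))
      have hget : Primrec (fun p : ((List H × Node) × List Bool) × ℕ => p.1.2[p.2]?) :=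
        Primrec.list_getElem?.comp (hs.comp Primrec.fst) Primrec.snd
      have h2 : TL cle L2 (fun _ (u : (List H × Node) × List Bool) =>
          ∀ i, u.2[i]? = some true → VV D q' i u.1.1 u.1.2) :=
        TL.all (R := fun _ (u : (List H × Node) × List Bool) (i : ℕ) =>
          u.2[i]? = some true → VV D q' i u.1.1 u.1.2)
          (TL.imp I (TL.of_ar I (Ar.eq hget (Primrec.const (some true))))
            (tlVV Primrec.snd (hb.comp Primrec.fst) (hx.comp Primrec.fst)))
      have h3 : TL cle L2 (fun _ (u : (List H × Node) × List Bool) =>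
          ∀ i, u.2[i]? = some false → ¬ VV D q' i u.1.1 u.1.2) :=
        TL.all (R := fun _ (u : (List H × Node) × List Bool) (i : ℕ) =>
          u.2[i]? = some false → ¬ VV D q' i u.1.1 u.1.2)
          (TL.imp I (TL.of_ar I (Ar.eq hget (Primrec.const (some false))))
            (tlVV Primrec.snd (hb.comp Primrec.fst) (hx.comp Primrec.fst)).not)
      exact (TL.and I (TL.and I (TL.of_ar I (Ar.le hl hp)) (TL.and I h1
        (TL.or I (TL.of_ar I (Ar.eq hl hp)) (tlDD hl hb hx).not))) (TL.and I h2 h3)).of_eq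
        fun ρ u => RD_eq
    exact tl_real_enc I main
  · -- monotone
    intro x hx y hy hxy b c hb hc hbc
    have hL : LN D q' b x ≤ LN D q' c y := by
      refine hle_LN c y _ ?_ ?_
      · exact ((LN_eq.1 rfl).1).trans (plc_mono hxy)
      · intro i hi
        exact hDD i x y b c hx hy hxy hb hc hbc (hLN b x i hi)
    rw [List.prefix_iff_getElem?]
    intro i hi
    rw [length_RD] at hi
    have h1 := (getElem_RD (D := D) (q := q') (b := b) (x := x) (i := i)
      (e := (RD D q' b x)[i]'(by rw [length_RD]; exact hi))).1 (List.getElem?_eq_getElem _)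
    rw [getElem_RD]
    refine ⟨by omega, h1.2.trans ?_⟩
    constructor
    · rintro ⟨z, c0, ⟨h2, h3⟩, ⟨h4, h5⟩, h6⟩
      exact ⟨z, c0, ⟨h2, h3.trans hxy⟩, ⟨h4.trans hbc, h5⟩, h6⟩
    · rintro ⟨z, c0, ⟨h2, h3⟩, ⟨h4, h5⟩, h6, h7⟩
      have hbl : b.length = plc x := hb.2.2.1.1
      have hzx : z <+: x := by
        rcases List.prefix_or_prefix_of_prefix h3 hxy with h8 | h8
        · exact h8
        · by_cases he : x = z
          · exact he ▸ List.prefix_refl _
          · exfalso
            refine h7 x b ⟨⟨hx, h8⟩, he, ?_, hbl⟩ (hLN b x i hi)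
            refine List.prefix_of_prefix_length_le hbc h4 ?_
            rw [hbl, h5]
            exact plc_mono h8
      refine ⟨z, c0, ⟨h2, hzx⟩, ⟨?_, h5⟩, h6, h7⟩
      refine List.prefix_of_prefix_length_le h4 hbc ?_
      rw [hbl, h5]
      exact plc_mono hzx
  · -- long
    intro n
    refine ⟨max (K n + 1) n, fun x hx hKx b hb => ?_⟩
    rw [length_RD]
    refine hle_LN b x n ((le_max_right _ _).trans hKx) fun i hi => ?_
    have h1 : K n < plc x := lt_of_lt_of_le (Nat.lt_succ_self _) ((le_max_left _ _).trans hKx)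
    rcases hK n x hx h1 b hb i (by omega) with ⟨d, -, h2, h3⟩ | ⟨d, -, h2, h3⟩
    · exact Or.inl ⟨d, h2, h3⟩
    · exact Or.inr ⟨d, h2, h3⟩
  · -- the values are decided
    intro x hx b hb i e he
    have h1 := getElem_RD.1 he
    have hreal : ∀ z ∈ q'.F, z <+: x → ∀ c, c <+: b → c.length = plc z → IsReal q' a z c := by
      intro z hz hzx c hcb hcl
      have h2 := (real_take hg' hz hx hzx hb).1
      rw [← hcl, ← List.prefix_iff_eq_take.1 hcb] at h2
      exact h2
    cases e with
    | true =>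
      obtain ⟨z, c, ⟨hz, hzx⟩, ⟨hcb, hcl⟩, hd1, -⟩ := h1.2.1 rfl
      exact hDI true i z x c b hz hx hzx (hreal z hz hzx c hcb hcl) hb hcb hd1
    | false =>
      have hnV : ¬ VV D q' i b x := fun h => absurd (h1.2.2 h) (by simp)
      -- the shortest node at which `i` is decided
      have hex : ∃ n, ∃ z ∈ q'.F, z <+: x ∧ z.length = n ∧ ∃ c, c <+: b ∧ c.length = plc z ∧
          DD D q' i c z :=
        ⟨x.length, x, hx, List.prefix_refl _, rfl, b, List.prefix_refl _, hb.2.2.1.1,
          hLN b x i h1.1⟩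
      classical
      obtain ⟨z, hz, hzx, hzl, c, hcb, hcl, hdec⟩ := Nat.find_spec hex
      rcases hdec with hdec | hdec
      · exfalso
        apply hnV
        refine ⟨z, c, ⟨hz, hzx⟩, ⟨hcb, hcl⟩, hdec, ?_⟩
        rintro z' c' ⟨⟨hz', hzz⟩, hne, hcc, hcl'⟩ hdd
        refine Nat.find_min hex (m := z'.length) ?_ ⟨z', hz', hzz.trans hzx, rfl, c',
          hcc.trans hcb, hcl', hdd⟩
        rw [← hzl]
        rcases Nat.lt_or_ge z'.length z.length with h3 | h3
        · exact h3
        · exact absurd (hzz.eq_of_length_le h3) hne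
      · exact hDI false i z x c b hz hx hzx (hreal z hz hzx c hcb hcl) hb hcb hdec

end Helper99.PC
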